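import Pool.Agent.H33.TO.Levi

/-!
# JOB TO-10: the unipotent radical part of `F` is generated by coordinate root groups

`A` with `TSt F A`, `g ∈ F` with `UR A g`.  Claim: `g ∈ ES F`.
By `upper`: `g (ev a) = ev a` for `a ∈ A`; `g (ev b) - ev b ∈ span(A)` for `b` in block 1;
`g (ev (ng a)) - ev (ng a)` has zero coordinates at `-A`, for `a ∈ A`.

(1) Rigidity.  Let `r ∈ F`, `UR A r`, and `r (ev (ng b)) = ev (ng b)` for all `b ∈ A`.  Then
`r = 1`: for `b` in block 1 the coordinate of `r (ev b)` at `c ∈ A` is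
`bl (ev (ng c)) (r (ev b)) = bl (r (ev (ng c))) (r (ev b)) = bl (ev (ng c)) (ev b) = 0`.
(`ext_ev`.)
(2) Let `a ∈ A`.  `Y_a`-claim: if `g ∈ F`, `UR A g`, and `y = g (ev (ng a)) - ev (ng a)`, then
`SS F a c` for every `c ≠ a` with `y c ≠ 0`.
Proof.  Let `d` be a square, `d ≠ 0, 1` (`two_sq`), `t ∈ F` the rotation in the plane
`ev a, ev (ng a)` by `d` (`pl_ev`), and `k = t g t⁻¹ g⁻¹ ∈ F`.  Write
`g⁻¹ (ev (ng b)) = ev (ng b) + z_b` where `z_b` has zero coordinates on `-A`.
For `b ∈ A`, `b ≠ a`: `t⁻¹ (ev (ng b) + z_b) = ev (ng b) + z_b + (d⁻¹ - 1) (z_b)_a (ev a)`, apply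
`g`: `ev (ng b) + (d⁻¹ - 1) (z_b)_a (ev a)`, apply `t`:
`k (ev (ng b)) = ev (ng b) + μ_b (ev a)` for a scalar `μ_b`.
For `b = a`: `t⁻¹`: `d (ev (ng a)) + z_a + (..)(ev a)`; `g`: `d (ev (ng a)) + d y + g z_a +
(..)(ev a)` and `g z_a = - y` (as `g (ev (ng a) + z_a) = ev (ng a)`); `t`:
`k (ev (ng a)) = ev (ng a) + (d - 1) y + (scalar)(ev a)` (note `y_{-a} = 0`, so `t y = y +
(d-1) y_a (ev a)`).  Also `UR A k` (`k` is a commutator of `t` with `g`; entrywise or by
composition of block triangular maps with identity blocks).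
Let `x = (d - 1) y - ((d-1) y_a) (ev a)`, so `x` has zero coordinates at `a` and on `-A`.
Let `h` be the linear equivalence acting as `sg (ev a) x` (`exists_sg`).  Then
`h (ev (ng a)) = ev (ng a) + x - (1/2) bl(x,x) (ev a)`, and
`k (ev (ng a)) = ev (ng a) + x + ν (ev a)`; both are singular vectors (`bl (k u) (k u) =
bl u u = 0`), which forces `ν = -(1/2) bl(x,x)`.  So `r = h⁻¹ k` fixes `ev (ng a)`.
`r` is an isometry with `UR A r` and upper; for `b ∈ A`, `b ≠ a`:
`r (ev (ng b)) = ev (ng b) + (multiple of ev a)` (both `k` and `h` have this property: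
`h (ev (ng b)) = ev (ng b) - x_b (ev a)`, `h (ev a) = ev a`), and
`0 = bl (ev (ng b)) (ev (ng a)) = bl (r (ev (ng b))) (r (ev (ng a)))` = the multiple.  So `r`
fixes all `ev (ng b)`, and `r = 1` by the argument of (1) (this only uses that `r` is an
isometry with `UR A r` which is upper; it is convenient to prove (1) for isometries instead of
elements of `F`).  So `k = h`, `Has F (sg (ev a) x)`, and `lemT` gives `SS F a c` for all
`c ≠ a, ng a` with `x c ≠ 0`, that is `y c ≠ 0` (`c = ng a` is impossible, `y (ng a) = 0`).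
(3) Now by (2), with `y' = y - y_a (ev a)`, the element `h_a` acting as `sg (ev a) y'` lies in
`ES F` (`sg_mem_ES`) and `h_a (ev (ng a)) = g (ev (ng a))` (both singular).  `g' = h_a⁻¹ g`
is in `F`, `UR A g'`, fixes `ev (ng a)`.  Induct over the elements of `A` (finite): if `g`
fixes `ev (ng b)` for `b` in a subset `A'` of `A` and `a ∈ A ∖ A'`, then `y_b = bl (ev (ng b)) y
= bl (ev (ng b)) (g (ev (ng a))) - 0 = bl (g (ev (ng b))) (g (ev (ng a))) = 0` for `b ∈ A'`, so
`h_a (ev (ng b)) = ev (ng b) - y'_b (ev a) = ev (ng b)` and `g'` fixes `ev (ng b)` for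
`b ∈ A' ∪ {a}`.  At the end `g' = 1` by (1).
-/

namespace Pool.Agent.H33.TO

variable {l : ℕ} {K : Type*} [Field K] {F : Subgroup ((Ix l → K) ≃ₗ[K] (Ix l → K))}

theorem caseA2_blk0 {A : Set (Ix l)} {a : Ix l} (h : a ∈ A) : blk A a = 0 := by
  unfold blk; rw [if_pos h]

theorem caseA2_blk_pos {A : Set (Ix l)} {a : Ix l} (h : a ∉ A) : 1 ≤ blk A a := by
  unfold blk; rw [if_neg h]
  by_cases h1 : ng a ∈ A
  · rw [if_pos h1]; omega
  · rw [if_neg h1]

theorem caseA2_blk2 {A : Set (Ix l)} (hA : TSt F A) {a : Ix l} (h : a ∈ A) : blk A (ng a) = 2 := by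
  unfold blk
  rw [if_neg (hA.sing a h), if_pos (by rw [ng_ng]; exact h)]

theorem caseA2_blk_le (A : Set (Ix l)) (a : Ix l) : blk A a ≤ 2 := by
  unfold blk; split_ifs <;> omega

theorem caseA2_of_blk2 {A : Set (Ix l)} {a : Ix l} (h : 2 ≤ blk A a) : ng a ∈ A := by
  by_contra hc
  by_cases h1 : a ∈ A
  · rw [caseA2_blk0 h1] at h; omega
  · unfold blk at h; rw [if_neg h1, if_neg hc] at h; omega

/-- block unitriangular -/
def U0 (A : Set (Ix l)) (g : (Ix l → K) ≃ₗ[K] (Ix l → K)) : Prop :=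
  ∀ a b, blk A b ≤ blk A a → g (ev b) a = (ev b : Ix l → K) a

theorem U0.of (hF : Ctx l K F) {A : Set (Ix l)} (hA : TSt F A)
    {g : (Ix l → K) ≃ₗ[K] (Ix l → K)} (hg : g ∈ F) (hu : UR A g) : U0 A g := by
  intro a b h
  rcases h.lt_or_eq with h1 | h1
  · rw [upper hF hA hg h1, ev_ne]
    rintro rfl
    omega
  · exact hu a b h1.symm

theorem U0.apply {A : Set (Ix l)} {g : (Ix l → K) ≃ₗ[K] (Ix l → K)} (h : U0 A g)
    {u : Ix l → K} {a : Ix l} (hu : ∀ b, blk A a < blk A b → u b = 0) : g u a = u a := by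
  have e1 : g u a = ∑ b, u b * g (ev b) a := by
    conv_lhs => rw [sum_ev u, map_sum, Finset.sum_apply]
    exact Finset.sum_congr rfl fun b _ => by rw [map_smul]; rfl
  have e2 : u a = ∑ b, u b * (ev b : Ix l → K) a := by
    conv_lhs => rw [sum_ev u, Finset.sum_apply]
    rfl
  rw [e1, e2]
  refine Finset.sum_congr rfl fun b _ => ?_
  by_cases hb : blk A b ≤ blk A a
  · rw [h a b hb]
  · rw [hu b (by omega), zero_mul, zero_mul]

theorem U0.mul {A : Set (Ix l)} {g h : (Ix l → K) ≃ₗ[K] (Ix l → K)} (hg : U0 A g)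
    (hh : U0 A h) : U0 A (g * h) := by
  intro a b hab
  have h1 : g (h (ev b)) a = h (ev b) a := by
    apply hg.apply
    intro c hc
    rw [hh c b (by omega), ev_ne]
    rintro rfl
    omega
  rw [LinearEquiv.mul_apply, h1, hh a b hab]

theorem U0.rigid {A : Set (Ix l)} {r : (Ix l → K) ≃ₗ[K] (Ix l → K)}
    (hiso : ∀ u v, bl l K (r u) (r v) = bl l K u v) (hr : U0 A r)
    (hfix : ∀ b ∈ A, r (ev (ng b)) = ev (ng b)) : r = 1 := by
  apply ext_ev
  intro b
  show r (ev b) = ev b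
  funext a
  by_cases ha : a ∈ A
  · have h1 := hiso (ev (ng a)) (ev b)
    rw [hfix a ha, bl_ev, bl_ev, ng_ng] at h1
    exact h1
  · by_cases hb : blk A b ≤ blk A a
    · exact hr a b hb
    · have h2 : 2 ≤ blk A b := by have := caseA2_blk_pos ha; omega
      have h3 := hfix (ng b) (caseA2_of_blk2 h2)
      rw [ng_ng] at h3
      rw [h3]

/-- the vector `y = g (ev (ng a)) - ev (ng a)` vanishes on `-A` -/
theorem caseA2_y {A : Set (Ix l)} (hA : TSt F A) {g : (Ix l → K) ≃ₗ[K] (Ix l → K)}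
    (hu : U0 A g) {a : Ix l} (ha : a ∈ A) {c : Ix l} (hc : 2 ≤ blk A c) :
    g (ev (ng a)) c = (ev (ng a) : Ix l → K) c := by
  apply hu
  rw [caseA2_blk2 hA ha]
  exact hc

/-- Step (2) -/
theorem caseA2_SS {q : ℕ} (hq : QK q K) (hF : Ctx l K F) {A : Set (Ix l)} (hA : TSt F A)
    {g : (Ix l → K) ≃ₗ[K] (Ix l → K)} (hg : g ∈ F) (hu : U0 A g) {a : Ix l} (ha : a ∈ A)
    {c : Ix l} (hca : c ≠ a) (hyc : g (ev (ng a)) c ≠ (ev (ng a) : Ix l → K) c) : SS F a c := by
  have ha0 : a ≠ none := fun h => hA.none (h ▸ ha)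
  have hna : ng a ≠ a := ng_ne_self ha0
  obtain ⟨d, _, hdsq, _, hd0, _, hd1, _, _, _⟩ := two_sq hq
  obtain ⟨t, ht, ht'⟩ := pl_ev hF ha0 d hd0 hdsq
  obtain ⟨s, hs, hs'⟩ := pl_ev hF ha0 d⁻¹ (inv_ne_zero hd0) (by
    obtain ⟨r, hr⟩ := hdsq
    exact ⟨r⁻¹, by rw [hr, mul_inv]⟩)
  obtain ⟨y, hy⟩ : ∃ y : Ix l → K, y = g (ev (ng a)) - ev (ng a) := ⟨_, rfl⟩
  have hgE' : g (ev (ng a)) = ev (ng a) + y := by rw [hy]; abel
  have hyn : y (ng a) = 0 := by
    rw [hy, Pi.sub_apply, caseA2_y hA hu ha (by rw [caseA2_blk2 hA ha]), sub_self]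
  have hgE : g (ev a) = ev a := by
    funext b
    apply hu
    rw [caseA2_blk0 ha]
    exact Nat.zero_le _
  have hEn : (ev a : Ix l → K) (ng a) = 0 := ev_ne hna
  have hE'a : (ev (ng a) : Ix l → K) a = 0 := ev_ne (Ne.symm hna)
  have hk : t * g * s * g⁻¹ ∈ F := F.mul_mem (F.mul_mem (F.mul_mem ht hg) hs) (F.inv_mem hg)
  have hku : ∀ u, ∃ μ : K, (t * g * s * g⁻¹) u = u + μ • ev a + ((d - 1) * u (ng a)) • y := by
    intro u
    obtain ⟨v, hv⟩ : ∃ v, v = g⁻¹ u := ⟨_, rfl⟩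
    have hgv : g v = u := by rw [hv, ← LinearEquiv.mul_apply, mul_inv_cancel]; rfl
    have hvn : v (ng a) = u (ng a) := by
      rw [← hgv]
      symm
      apply hu.apply
      intro b hb
      rw [caseA2_blk2 hA ha] at hb
      have := caseA2_blk_le A b
      omega
    have h1 : g (s v) = u + ((d⁻¹ - 1) * v a) • ev a + ((d - 1) * u (ng a)) • (ev (ng a) + y) := by
      rw [hs', rt, map_add, map_add, map_smul, map_smul, hgv, hgE, hgE', bl_ev, bl_ev, ng_ng, hvn,
        inv_inv]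
    have h2 : (t * g * s * g⁻¹) u = t (g (s v)) := by
      rw [LinearEquiv.mul_apply, LinearEquiv.mul_apply, LinearEquiv.mul_apply, hv]
    have h3 : (g (s v)) a = u a + (d⁻¹ - 1) * v a + ((d - 1) * u (ng a)) * y a := by
      rw [h1]
      simp only [Pi.add_apply, Pi.smul_apply, smul_eq_mul, ev_same, hE'a]
      ring
    have h4 : (g (s v)) (ng a) = d * u (ng a) := by
      rw [h1]
      simp only [Pi.add_apply, Pi.smul_apply, smul_eq_mul, ev_same, hEn, hyn]
      ring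
    refine ⟨(d⁻¹ - 1) * v a + (d - 1) * (u a + (d⁻¹ - 1) * v a + ((d - 1) * u (ng a)) * y a), ?_⟩
    rw [h2, ht', rt, bl_ev, bl_ev, ng_ng, h3, h4, h1]
    match_scalars
    · ring
    · ring
    · field_simp
      ring
    · ring
  obtain ⟨x, hx⟩ : ∃ x : Ix l → K, x = (d - 1) • y - ((d - 1) * y a) • ev a := ⟨_, rfl⟩
  have hxn : x (ng a) = 0 := by
    rw [hx]
    simp only [Pi.sub_apply, Pi.smul_apply, smul_eq_mul, hyn, hEn]
    ring
  have hEE : bl l K (ev a) (ev a) = 0 := by rw [bl_ev, hEn]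
  have hEx : bl l K (ev a) x = 0 := by rw [bl_ev, hxn]
  have hlam : ∀ u, ∃ lam : K, (t * g * s * g⁻¹) u = sg (bl l K) (ev a) x u + lam • ev a := by
    intro u
    obtain ⟨μ, hμ⟩ := hku u
    refine ⟨μ + ((d - 1) * y a) * u (ng a) + bl l K u x + (1 / 2 : K) * bl l K x x * u (ng a), ?_⟩
    rw [hμ, sg, bl_ev' a u]
    nth_rewrite 1 [hx]
    match_scalars
    · ring
    · ring
    · ring
  choose lam hlam using hlam
  have hsgn : ∀ u, sg (bl l K) (ev a) x u (ng a) = u (ng a) := by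
    intro u
    rw [sg]
    simp only [Pi.add_apply, Pi.sub_apply, Pi.smul_apply, smul_eq_mul, hxn, hEn]
    ring
  have hrel : ∀ u u', lam u' * u (ng a) + lam u * u' (ng a) = 0 := by
    intro u u'
    have h1 := hF.iso _ hk u u'
    have h2 := sg_isom (B := bl l K) bl_symm hq.two_ne hEE hEx u u'
    rw [hlam u, hlam u'] at h1
    simp only [map_add, map_smul, LinearMap.add_apply, LinearMap.smul_apply, smul_eq_mul, hEE,
      h2, bl_ev, bl_ev', hsgn] at h1
    linear_combination h1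
  have hl0 : lam (ev (ng a)) = 0 := by
    have h1 := hrel (ev (ng a)) (ev (ng a))
    rw [ev_same] at h1
    have h2 : (2 : K) * lam (ev (ng a)) = 0 := by linear_combination h1
    exact (mul_eq_zero.1 h2).resolve_left hq.two_ne
  have hl : ∀ u, lam u = 0 := by
    intro u
    have h1 := hrel u (ev (ng a))
    rw [ev_same, hl0] at h1
    linear_combination h1
  have hhas : Has F (sg (bl l K) (ev a) x) := by
    refine ⟨_, hk, fun u => ?_⟩
    rw [hlam u, hl u, zero_smul, add_zero]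
  have hycy : y c ≠ 0 := by
    rw [hy, Pi.sub_apply]
    exact sub_ne_zero.2 hyc
  refine lemT hq hF ha0 hxn hhas hca ?_ ?_
  · rintro rfl
    exact hycy hyn
  · rw [hx, Pi.sub_apply, Pi.smul_apply, Pi.smul_apply, ev_ne hca, smul_zero, sub_zero, smul_eq_mul]
    exact mul_ne_zero (sub_ne_zero.2 hd1) hycy

/-- Step (3) -/
theorem caseA2_step {q : ℕ} (hq : QK q K) (hF : Ctx l K F) {A : Set (Ix l)} (hA : TSt F A)
    {g : (Ix l → K) ≃ₗ[K] (Ix l → K)} (hg : g ∈ F) (hu : U0 A g) {a : Ix l} (ha : a ∈ A) :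
    ∃ h ∈ ES F, U0 A h ∧ h (g (ev (ng a))) = ev (ng a) ∧
      ∀ b ∈ A, b ≠ a → g (ev (ng b)) = ev (ng b) → h (ev (ng b)) = ev (ng b) := by
  have ha0 : a ≠ none := fun h => hA.none (h ▸ ha)
  have hna : ng a ≠ a := ng_ne_self ha0
  obtain ⟨y, hy⟩ : ∃ y : Ix l → K, y = g (ev (ng a)) - ev (ng a) := ⟨_, rfl⟩
  have hgE' : g (ev (ng a)) = ev (ng a) + y := by rw [hy]; abel
  have hyn : ∀ c, 2 ≤ blk A c → y c = 0 := by
    intro c hc
    rw [hy, Pi.sub_apply, caseA2_y hA hu ha hc, sub_self]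
  have hEn : (ev a : Ix l → K) (ng a) = 0 := ev_ne hna
  obtain ⟨y', hy'⟩ : ∃ y' : Ix l → K, y' = y - (y a) • ev a := ⟨_, rfl⟩
  have hy'c : ∀ c, c ≠ a → y' c = y c := by
    intro c hc
    rw [hy', Pi.sub_apply, Pi.smul_apply, ev_ne hc, smul_zero, sub_zero]
  have hy'a : y' a = 0 := by
    rw [hy', Pi.sub_apply, Pi.smul_apply, ev_same, smul_eq_mul, mul_one, sub_self]
  have hy'2 : ∀ c, 2 ≤ blk A c → y' c = 0 := by
    intro c hc
    rw [hy'c c (by rintro rfl; rw [caseA2_blk0 ha] at hc; omega), hyn c hc]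
  have hy'n : y' (ng a) = 0 := hy'2 _ (by rw [caseA2_blk2 hA ha])
  have hEE : bl l K (ev a) (ev a) = 0 := by rw [bl_ev, hEn]
  have hEy : bl l K (ev a) y' = 0 := by rw [bl_ev, hy'n]
  have hEz : bl l K (ev a) (-y') = 0 := by rw [map_neg, hEy, neg_zero]
  obtain ⟨h, hh⟩ := exists_sg (B := bl l K) bl_symm hq.two_ne hEE hEz
  refine ⟨h, ?_, ?_, ?_, ?_⟩
  · refine sg_mem_ES hq ha0 (by rw [Pi.neg_apply, hy'n, neg_zero]) ?_ hh
    intro b hb hyb
    rw [Pi.neg_apply, hy'c b hb, neg_ne_zero, hy, Pi.sub_apply, sub_ne_zero] at hyb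
    exact caseA2_SS hq hF hA hg hu ha hb hyb
  · intro c b hcb
    rw [hh, sg, bl_ev, bl_ev]
    simp only [Pi.add_apply, Pi.sub_apply, Pi.smul_apply, Pi.neg_apply, smul_eq_mul]
    by_cases hca : c = a
    · subst hca
      rw [caseA2_blk0 ha] at hcb
      have hbA : b ∈ A := by
        by_contra hb
        have := caseA2_blk_pos hb
        omega
      have h1 : (ev c : Ix l → K) (ng b) = 0 := ev_ne fun h' => hA.sing b hbA (h' ▸ ha)
      have h2 : y' (ng b) = 0 := hy'2 _ (by rw [caseA2_blk2 hA hbA])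
      rw [h1, h2]
      ring
    · have h0 : (ev a : Ix l → K) c = 0 := ev_ne hca
      by_cases hba : ng b = a
      · have h1 : b = ng a := by rw [← hba, ng_ng]
        rw [h1, caseA2_blk2 hA ha] at hcb
        rw [h0, hy'2 c hcb]
        ring
      · rw [h0, ev_ne hba]
        ring
  · have hE'E : bl l K (ev (ng a)) (ev a) = 1 := by rw [bl_ev, ng_ng, ev_same]
    have hE'y : bl l K (ev (ng a)) y' = 0 := by rw [bl_ev, ng_ng, hy'a]
    have hE'E' : bl l K (ev (ng a)) (ev (ng a)) = 0 := by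
      rw [bl_ev, ng_ng, ev_ne (Ne.symm hna)]
    have hyy : y = y' + (y a) • ev a := by rw [hy']; abel
    have hya : 2 * y a + bl l K y' y' = 0 := by
      have h1 := hF.iso g hg (ev (ng a)) (ev (ng a))
      rw [hgE', hyy, hE'E'] at h1
      simp only [map_add, map_smul, LinearMap.add_apply, LinearMap.smul_apply, smul_eq_mul, hEE,
        hE'E, hE'y, hE'E', hEy, bl_symm y' (ev a), bl_symm y' (ev (ng a)),
        bl_symm (ev a) (ev (ng a)), Pi.add_apply, Pi.smul_apply, ev_same, hy'a] at h1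
      linear_combination h1
    have h1 : g (ev (ng a)) = sg (bl l K) (ev a) y' (ev (ng a)) := by
      have h2 : y a = -((1 / 2 : K) * bl l K y' y') := by
        have h3 := hq.two_ne
        field_simp
        linear_combination hya
      rw [hgE', sg, hE'E, hE'y, hyy]
      rw [h2]
      match_scalars
      · ring
      · ring
      · simp
    rw [h1, hh, sg_comp bl_symm hq.two_ne hEE hEz hEy, neg_add_cancel, sg_zero]
  · intro b hb hba hgb
    have h1 : (ev a : Ix l → K) b = 0 := ev_ne hba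
    have h2 : y b = 0 := by
      have h3 := hF.iso g hg (ev (ng b)) (ev (ng a))
      rw [hgb, hgE', map_add, bl_ev (ng b) y, ng_ng] at h3
      linear_combination h3
    rw [hh, sg, bl_ev, bl_ev, ng_ng, h1, Pi.neg_apply, hy'c b hba, h2]
    simp

theorem caseA2_ind {q : ℕ} (hq : QK q K) (hF : Ctx l K F) {A : Set (Ix l)} (hA : TSt F A)
    (T : Finset (Ix l)) : ∀ g ∈ F, U0 A g → (∀ b ∈ A, b ∉ T → g (ev (ng b)) = ev (ng b)) →
      g ∈ ES F := by
  classical
  induction T using Finset.induction_on with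
  | empty =>
    intro g hg hu hfix
    have h1 : g = 1 := U0.rigid (hF.iso g hg) hu fun b hb => hfix b hb (Finset.notMem_empty b)
    rw [h1]
    exact (ES F).one_mem
  | insert a T haT ih =>
    intro g hg hu hfix
    by_cases ha : a ∈ A
    · obtain ⟨h, hh, hhu, h1, h2⟩ := caseA2_step hq hF hA hg hu ha
      have h3 : h * g ∈ ES F := by
        refine ih (h * g) (F.mul_mem (ES_le hh) hg) (hhu.mul hu) ?_
        intro b hb hbT
        rw [LinearEquiv.mul_apply]
        by_cases hba : b = a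
        · subst hba
          exact h1
        · have h4 := hfix b hb (by
            rw [Finset.mem_insert]
            rintro (h5 | h5)
            · exact hba h5
            · exact hbT h5)
          rw [h4]
          exact h2 b hb hba h4
      have h5 : g = h⁻¹ * (h * g) := by rw [← mul_assoc, inv_mul_cancel, one_mul]
      rw [h5]
      exact (ES F).mul_mem ((ES F).inv_mem hh) h3
    · refine ih g hg hu ?_
      intro b hb hbT
      refine hfix b hb ?_
      rw [Finset.mem_insert]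
      rintro (h5 | h5)
      · exact ha (h5 ▸ hb)
      · exact hbT h5

theorem ur_mem_ES {q : ℕ} (hq : QK q K) (hF : Ctx l K F) {A : Set (Ix l)} (hA : TSt F A)
    {g : (Ix l → K) ≃ₗ[K] (Ix l → K)} (hg : g ∈ F) (hu : UR A g) : g ∈ ES F :=
  caseA2_ind hq hF hA Finset.univ g hg (U0.of hF hA hg hu) fun b _ hb =>
    absurd (Finset.mem_univ b) hb

end Pool.Agent.H33.TO
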