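import Pool.Agent.H33.TO.CaseA1
import Pool.Agent.H33.TO.CaseA2

/-!
# JOB TO-11: Case A of the induction

`N ≤ F` normalised by `F`, a nontrivial `p`-group; every proper subgroup of `F` containing `T₀`
satisfies `Std`.  Claim `Std F`.

Take `A` from `caseA_set`.  Let `L = {h ∈ F : BD A h}`: a subgroup (block diagonal maps are
closed under composition and inverse: `BD` means that each block subspace
`{u : u_c = 0 for blk c ≠ i}` is preserved).  `L` contains `T₀` (`tor` is diagonal), so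
`Ctx l K L`.  By `levi` every `g ∈ F` is `h * r` with `h ∈ L`, `r ∈ F`, `UR A r`.
(1) `L ≠ F`: suppose `L = F`.  Let `a ∈ A`, `n ∈ N`.  `n` is block diagonal, so
`n (ev (ng a))` is a combination of `ev (ng b)`, `b ∈ A`, and its coordinate at `ng b` is
`bl (ev b) (n (ev (ng a))) = bl (n (ev b)) (n (ev (ng a))) = bl (ev b) (ev (ng a))`
(as `n (ev b) = ev b`), so `n (ev (ng a)) = ev (ng a)` for all `n ∈ N`, and the last property of
`caseA_set` gives `(ev (ng a)) (ng a) = 0`, a contradiction.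
(2) By the hypothesis `Std L`.
(3) Let `R' = {r ∈ F : UR A r}`; `R' ≤ ES F` by `ur_mem_ES`; `g r g⁻¹ ∈ R'` for `g ∈ F`,
`r ∈ R'` (`g` is block upper triangular by `upper`).
(4) Let `H` be the subgroup generated by `GS L` and `R'`.  Then `H = GS F`:
 `H ≤ GS F`: `GS L ≤ GS F` since `L ≤ F` (`SS L a b → SS F a b`), and `R' ≤ ES F ≤ GS F`.
 `GS F ≤ H`: diagonal elements of `F` are in `L`, so in `GS L`.  Let `SS F a b`, `a ≠ none`,
 `g` acting as `sg (ev a) (c • ev b)`.  For `c ≠ 0`: `g (ev (ng a)) = ev (ng a) + c (ev b) - ..`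
 has nonzero coordinate at `b`, and `g (ev (ng b))` has nonzero coordinate at `a` (`-c`); so by
 stability: `ng a ∈ A → b ∈ A` and `ng b ∈ A → a ∈ A` (apply to `c = 1`).  Two cases:
  * `blk A a = blk A (ng b)` (then also `blk A b = blk A (ng a)`): all the `g` acting as
    `sg (ev a) (c • ev b)` are block diagonal: the entries of `g` are at `(b, ng a)`,
    `(a, ng b)` and, if `b = none`, `(a, ng a)`; if `b = none` then
    `blk A a = blk A none = 1`, so `blk A (ng a) = 1` too.  Hence `SS L a b` and `g ∈ GS L`.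
    (`SS L a b` also needs `RG L (ev b) (ev a)` if `b ≠ none`, these are the same elements by
    `sg_swap`.)
  * `blk A a < blk A (ng b)`: then `UR A g` for all these `g` (the only nonzero off-diagonal
    entries are at `(a, ng b)`, `(b, ng a)`, `(a, ng a)` when `b = none`, all strictly upper),
    so `g ∈ R'`.
  The case `blk A a > blk A (ng b)` is impossible by `upper`
  (`g (ev (ng b)) a = -c ≠ 0` for `c = 1`).
(5) `Std F`: let `g = h r ∈ F`, `h ∈ L`, `r ∈ R'`.  `r` normalises `H` since `r ∈ H`.  `h`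
normalises `GS L` (by `Std L`) and `R'` (by (3)), hence `H`.
-/

namespace Pool.Agent.H33.TO

variable {l : ℕ} {K : Type*} [Field K] {F : Subgroup ((Ix l → K) ≃ₗ[K] (Ix l → K))}

theorem caseA3_inv_entry (hF : Ctx l K F) {g : (Ix l → K) ≃ₗ[K] (Ix l → K)} (hg : g ∈ F)
    (a b : Ix l) : (g⁻¹ (ev b)) a = (g (ev (ng a))) (ng b) := by
  have h1 : (g⁻¹ (ev b)) a = bl l K (ev (ng a)) (g⁻¹ (ev b)) := by rw [bl_ev, ng_ng]
  have h2 : g (g⁻¹ (ev b)) = ev b := by
    rw [← LinearEquiv.mul_apply, mul_inv_cancel]; rfl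
  rw [h1, ← hF.iso g hg, h2, bl_ev']

theorem caseA3_mul_entry (g h : (Ix l → K) ≃ₗ[K] (Ix l → K)) (a b : Ix l) :
    ((g * h) (ev b)) a = ∑ c, (h (ev b)) c * (g (ev c)) a := by
  rw [LinearEquiv.mul_apply]
  conv_lhs => rw [sum_ev (h (ev b))]
  rw [map_sum, Finset.sum_apply]
  refine Finset.sum_congr rfl fun c _ => ?_
  rw [map_smul, Pi.smul_apply, smul_eq_mul]

theorem caseA3_blk_ng {A : Set (Ix l)} (hA : ∀ a ∈ A, ng a ∉ A) (a : Ix l) :
    blk A (ng a) + blk A a = 2 := by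
  unfold blk
  rw [ng_ng]
  by_cases h1 : a ∈ A
  · have h2 := hA a h1
    simp [h1, h2]
  · by_cases h2 : ng a ∈ A
    · simp [h1, h2]
    · simp [h1, h2]

theorem caseA3_blk_none {A : Set (Ix l)} (hA : (none : Ix l) ∉ A) :
    blk A (none : Ix l) = 1 := by
  unfold blk
  rw [ng_none]
  simp [hA]

theorem caseA3_bd_mul {A : Set (Ix l)} {g h : (Ix l → K) ≃ₗ[K] (Ix l → K)} (hg : BD A g)
    (hh : BD A h) : BD A (g * h) := by
  intro a b hab
  rw [caseA3_mul_entry]
  refine Finset.sum_eq_zero fun c _ => ?_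
  by_cases hc : blk A c = blk A b
  · rw [hg a c (by rw [hc]; exact hab), mul_zero]
  · rw [hh c b hc, zero_mul]

theorem caseA3_bd_inv (hF : Ctx l K F) {A : Set (Ix l)} (hA : ∀ a ∈ A, ng a ∉ A)
    {g : (Ix l → K) ≃ₗ[K] (Ix l → K)} (hgF : g ∈ F) (hg : BD A g) : BD A g⁻¹ := by
  intro a b hab
  rw [caseA3_inv_entry hF hgF]
  refine hg _ _ fun h => hab ?_
  have h1 := caseA3_blk_ng hA a
  have h2 := caseA3_blk_ng hA b
  omega

theorem caseA3_ur_conj (hF : Ctx l K F) {A : Set (Ix l)} (hA : ∀ a ∈ A, ng a ∉ A)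
    {h r : (Ix l → K) ≃ₗ[K] (Ix l → K)} (hhF : h ∈ F) (hh : BD A h) (hr : UR A r) :
    UR A (h * r * h⁻¹) := by
  intro a b hab
  have hi := caseA3_bd_inv hF hA hhF hh
  have h1 : ∀ c, blk A c = blk A b → ((r * h⁻¹) (ev b)) c = (h⁻¹ (ev b)) c := by
    intro c hc
    rw [caseA3_mul_entry]
    have h2 : (h⁻¹ (ev b)) c = ∑ d, (h⁻¹ (ev b)) d * (ev d : Ix l → K) c := by
      conv_lhs => rw [sum_ev (h⁻¹ (ev b))]
      rw [Finset.sum_apply]
      rfl
    rw [h2]
    refine Finset.sum_congr rfl fun d _ => ?_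
    by_cases hd : blk A d = blk A b
    · rw [hr c d (hc.trans hd.symm)]
    · rw [hi d b hd, zero_mul, zero_mul]
  rw [mul_assoc, caseA3_mul_entry]
  have h3 : (ev b : Ix l → K) a = ((h * h⁻¹) (ev b)) a := by
    rw [mul_inv_cancel]; rfl
  rw [h3, caseA3_mul_entry]
  refine Finset.sum_congr rfl fun c _ => ?_
  by_cases hc : blk A c = blk A b
  · rw [h1 c hc]
  · rw [hh a c (fun h => hc (h.symm.trans hab)), mul_zero, mul_zero]

theorem caseA3_sg_entry {a b : Ix l} {c : K} {g : (Ix l → K) ≃ₗ[K] (Ix l → K)}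
    (hg : ∀ u, g u = sg (bl l K) (ev a) (c • ev b) u) (e d : Ix l) :
    (g (ev d)) e = (ev d : Ix l → K) e + (ev d : Ix l → K) (ng a) * (c * (ev b : Ix l → K) e) -
      (c * (ev d : Ix l → K) (ng b)) * (ev a : Ix l → K) e -
      (1 / 2 * (c * (c * (ev b : Ix l → K) (ng b))) * (ev d : Ix l → K) (ng a)) *
        (ev a : Ix l → K) e := by
  rw [hg]
  simp only [sg, map_smul, LinearMap.smul_apply, smul_eq_mul, bl_ev', Pi.add_apply, Pi.sub_apply,
    Pi.smul_apply]

theorem caseA3_bd_sg {A : Set (Ix l)} (hA : ∀ a ∈ A, ng a ∉ A) (hn : (none : Ix l) ∉ A)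
    {a b : Ix l} (hab : blk A a = blk A (ng b)) {c : K} {g : (Ix l → K) ≃ₗ[K] (Ix l → K)}
    (hg : ∀ u, g u = sg (bl l K) (ev a) (c • ev b) u) : BD A g := by
  intro e d hed
  have ha := caseA3_blk_ng hA a
  have hb := caseA3_blk_ng hA b
  rw [caseA3_sg_entry hg]
  have h1 : (ev d : Ix l → K) e = 0 := ev_ne (fun h => hed (by rw [h]))
  have h2 : (ev d : Ix l → K) (ng a) * (c * (ev b : Ix l → K) e) = 0 := by
    by_cases h : ng a = d
    · by_cases h' : e = b
      · exfalso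
        apply hed
        rw [h', ← h]
        omega
      · rw [ev_ne h']; ring
    · rw [ev_ne h]; ring
  have h3 : (c * (ev d : Ix l → K) (ng b)) * (ev a : Ix l → K) e = 0 := by
    by_cases h : ng b = d
    · by_cases h' : e = a
      · exfalso
        apply hed
        rw [h', ← h]
        exact hab
      · rw [ev_ne h']; ring
    · rw [ev_ne h]; ring
  have h4 : (1 / 2 * (c * (c * (ev b : Ix l → K) (ng b))) * (ev d : Ix l → K) (ng a)) *
        (ev a : Ix l → K) e = 0 := by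
    by_cases hbn : b = none
    · subst hbn
      have h5 := caseA3_blk_none hn
      rw [ng_none] at hab
      by_cases h : ng a = d
      · by_cases h' : e = a
        · exfalso
          apply hed
          rw [h', ← h]
          omega
        · rw [ev_ne h']; ring
      · rw [ev_ne h]; ring
    · rw [ev_ne (ng_ne_self hbn)]; ring
  rw [h1, h2, h3, h4]
  ring

theorem caseA3_ur_sg {A : Set (Ix l)} (hA : ∀ a ∈ A, ng a ∉ A) (hn : (none : Ix l) ∉ A)
    {a b : Ix l} (hab : blk A a < blk A (ng b)) {c : K} {g : (Ix l → K) ≃ₗ[K] (Ix l → K)}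
    (hg : ∀ u, g u = sg (bl l K) (ev a) (c • ev b) u) : UR A g := by
  intro e d hed
  have ha := caseA3_blk_ng hA a
  have hb := caseA3_blk_ng hA b
  rw [caseA3_sg_entry hg]
  have h2 : (ev d : Ix l → K) (ng a) * (c * (ev b : Ix l → K) e) = 0 := by
    by_cases h : ng a = d
    · by_cases h' : e = b
      · exfalso
        rw [h', ← h] at hed
        omega
      · rw [ev_ne h']; ring
    · rw [ev_ne h]; ring
  have h3 : (c * (ev d : Ix l → K) (ng b)) * (ev a : Ix l → K) e = 0 := by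
    by_cases h : ng b = d
    · by_cases h' : e = a
      · exfalso
        rw [h', ← h] at hed
        omega
      · rw [ev_ne h']; ring
    · rw [ev_ne h]; ring
  have h4 : (1 / 2 * (c * (c * (ev b : Ix l → K) (ng b))) * (ev d : Ix l → K) (ng a)) *
        (ev a : Ix l → K) e = 0 := by
    by_cases hbn : b = none
    · subst hbn
      have h5 := caseA3_blk_none hn
      rw [ng_none] at hab
      by_cases h : ng a = d
      · by_cases h' : e = a
        · exfalso
          rw [h', ← h] at hed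
          omega
        · rw [ev_ne h']; ring
      · rw [ev_ne h]; ring
    · rw [ev_ne (ng_ne_self hbn)]; ring
  rw [h2, h3, h4]
  ring

theorem caseA3_le {a b : Ix l} (hF : Ctx l K F) {A : Set (Ix l)} (hA : TSt F A) (ha : a ≠ none)
    (hab : SS F a b) : blk A a ≤ blk A (ng b) := by
  by_contra hlt
  rw [not_le] at hlt
  obtain ⟨g, hg, hg'⟩ := hab.2.2.1 ha 1
  have h1 := upper hF hA hg hlt
  rw [caseA3_sg_entry hg'] at h1
  have e1 : (ev (ng b) : Ix l → K) a = 0 := ev_ne (fun h => hab.2.1 (by rw [h, ng_ng]))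
  have e2 : (ev (ng b) : Ix l → K) (ng a) = 0 := ev_ne (fun h => hab.1 (ng_inj h).symm)
  rw [e1, e2, ev_same, ev_same] at h1
  simp at h1

theorem caseA {q : ℕ} (hq : QK q K) (hF : Ctx l K F)
    (N : Subgroup ((Ix l → K) ≃ₗ[K] (Ix l → K))) (hN : N ≤ F)
    (hn : ∀ g ∈ F, ∀ n ∈ N, g * n * g⁻¹ ∈ N) (hp : IsPGroup (ringChar K) N) (hne : N ≠ ⊥)
    (IH : ∀ L : Subgroup ((Ix l → K) ≃ₗ[K] (Ix l → K)), L ≤ F → L ≠ F → Ctx l K L → Std L) :
    Std F := by
  obtain ⟨A, ⟨a₀, ha₀⟩, hA, hfix, hU⟩ := caseA_set hq hF N hN hn hp hne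
  let L : Subgroup ((Ix l → K) ≃ₗ[K] (Ix l → K)) :=
    { carrier := {h | h ∈ F ∧ BD A h}
      mul_mem' := fun {x y} hx hy => ⟨F.mul_mem hx.1 hy.1, caseA3_bd_mul hx.2 hy.2⟩
      one_mem' := ⟨F.one_mem, fun a b hab => ev_ne fun h => hab (by rw [h])⟩
      inv_mem' := fun {x} hx => ⟨F.inv_mem hx.1, caseA3_bd_inv hF hA.sing hx.1 hx.2⟩ }
  have hL : ∀ x, x ∈ L ↔ x ∈ F ∧ BD A x := fun x => Iff.rfl
  have hLF : L ≤ F := fun x hx => ((hL x).1 hx).1
  -- diagonal elements of `F` are in `L`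
  have hdg : ∀ x ∈ F, IsDg x → x ∈ L := by
    intro x hx hd
    refine (hL x).2 ⟨hx, fun a b hab => ?_⟩
    obtain ⟨c, hc⟩ := hd b
    rw [hc, Pi.smul_apply, ev_ne (fun h => hab (by rw [h])), smul_zero]
  have hctx : Ctx l K L := by
    refine ⟨fun g hg => hF.iso g (hLF hg), fun τ hτ => ?_⟩
    obtain ⟨t, ht, h1, h2⟩ := hF.has_tor τ hτ
    exact ⟨t, hdg t ht fun a => ⟨_, h2 a⟩, fun u => by funext a; rw [h1]; rfl⟩
  have hneq : L ≠ F := by
    intro hEq
    have hfix2 : ∀ n ∈ N, n (ev (ng a₀)) = ev (ng a₀) := by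
      intro n hnN
      have hbd : BD A n := ((hL n).1 (by rw [hEq]; exact hN hnN)).2
      funext c
      have hb := caseA3_blk_ng hA.sing a₀
      have hb0 : blk A a₀ = 0 := by unfold blk; simp [ha₀]
      by_cases hc : blk A c = blk A (ng a₀)
      · have hc2 : ng c ∈ A := by
          by_contra hcn
          have : blk A c ≠ 2 := by
            unfold blk
            split_ifs <;> omega
          omega
        have h1 : (n (ev (ng a₀))) c = bl l K (ev (ng c)) (n (ev (ng a₀))) := by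
          rw [bl_ev, ng_ng]
        rw [h1, ← hfix n hnN _ hc2, hF.iso n (hN hnN), bl_ev, ng_ng]
      · rw [hbd c _ hc, ev_ne (fun h => hc (by rw [h]))]
    have h2 := hU _ hfix2 a₀ ha₀
    rw [ev_same] at h2
    exact one_ne_zero h2
  have hStd : Std L := IH L hLF hneq hctx
  -- `GS L ≤ GS F`
  have hRE : RE L ⊆ RE F := by
    rintro g ⟨a, b, c, ha, ⟨h1, h2, h3, h4⟩, hg⟩
    exact ⟨a, b, c, ha, ⟨h1, h2, fun h x => (h3 h x).mono hLF, fun h x => (h4 h x).mono hLF⟩, hg⟩
  have hGS : GS L ≤ GS F := by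
    rw [GS, Subgroup.closure_le]
    rintro g (⟨hg, hd⟩ | hg)
    · exact Subgroup.subset_closure (Or.inl ⟨hLF hg, hd⟩)
    · exact Subgroup.subset_closure (Or.inr (hRE hg))
  -- root elements of `F`
  have hroot : ∀ x ∈ RE F, x ∈ GS L ∨ (x ∈ F ∧ UR A x) := by
    rintro x ⟨a, b, c, ha, hab, hx⟩
    have hxF : x ∈ F := ES_le (Subgroup.subset_closure ⟨a, b, c, ha, hab, hx⟩)
    rcases (caseA3_le hF hA ha hab).lt_or_eq with h | h
    · exact Or.inr ⟨hxF, caseA3_ur_sg hA.sing hA.none h hx⟩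
    · left
      have hb' : blk A b = blk A (ng a) := by
        have h1 := caseA3_blk_ng hA.sing a
        have h2 := caseA3_blk_ng hA.sing b
        omega
      have hSS : SS L a b := by
        refine ⟨hab.1, hab.2.1, fun h1 y => ?_, fun h1 y => ?_⟩
        · obtain ⟨g, hg, hg'⟩ := hab.2.2.1 h1 y
          exact ⟨g, (hL g).2 ⟨hg, caseA3_bd_sg hA.sing hA.none h hg'⟩, hg'⟩
        · obtain ⟨g, hg, hg'⟩ := hab.2.2.2 h1 y
          exact ⟨g, (hL g).2 ⟨hg, caseA3_bd_sg hA.sing hA.none hb' hg'⟩, hg'⟩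
      exact Subgroup.subset_closure (Or.inr ⟨a, b, c, ha, hSS, hx⟩)
  -- `L` normalises `GS F`
  have hconj : ∀ h ∈ L, ∀ x ∈ GS F, h * x * h⁻¹ ∈ GS F := by
    intro h hh x hx
    induction hx using Subgroup.closure_induction with
    | mem x hx =>
      have key : x ∈ GS L ∨ (x ∈ F ∧ UR A x) := by
        rcases hx with ⟨hx, hd⟩ | hx
        · exact Or.inl (Subgroup.subset_closure (Or.inl ⟨hdg x hx hd, hd⟩))
        · exact hroot x hx
      rcases key with h1 | ⟨h1, h2⟩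
      · exact hGS (hStd h hh x h1)
      · exact ES_le_GS (ur_mem_ES hq hF hA
          (F.mul_mem (F.mul_mem (hLF hh) h1) (F.inv_mem (hLF hh)))
          (caseA3_ur_conj hF hA.sing (hLF hh) ((hL h).1 hh).2 h2))
    | one => simp
    | mul x y _ _ h1 h2 =>
      have : h * (x * y) * h⁻¹ = (h * x * h⁻¹) * (h * y * h⁻¹) := by group
      rw [this]
      exact (GS F).mul_mem h1 h2
    | inv x _ h1 =>
      have : h * x⁻¹ * h⁻¹ = (h * x * h⁻¹)⁻¹ := by group
      rw [this]
      exact (GS F).inv_mem h1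
  intro g hg x hx
  obtain ⟨h, hh, hbd, hur⟩ := levi hq hF hA hg
  have hr : h⁻¹ * g ∈ GS F := ES_le_GS (ur_mem_ES hq hF hA (F.mul_mem (F.inv_mem hh) hg) hur)
  have h1 : (h⁻¹ * g) * x * (h⁻¹ * g)⁻¹ ∈ GS F :=
    (GS F).mul_mem ((GS F).mul_mem hr hx) ((GS F).inv_mem hr)
  have h2 := hconj h ((hL h).2 ⟨hh, hbd⟩) _ h1
  have h3 : h * ((h⁻¹ * g) * x * (h⁻¹ * g)⁻¹) * h⁻¹ = g * x * g⁻¹ := by group
  rwa [h3] at h2

end Pool.Agent.H33.TO
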