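import Mathlib

/-!
# JOB TO-13: groups of matrices with entries in a preorder; normal p-subgroups

`strict_normal`.  `R` is reflexive and transitive on a finite type `ι`, `E` a finite subgroup
of `GL(K^ι)` all whose entries `g (e_b) a ≠ 0` satisfy `R a b`.  Let `N` be the set of the
`g ∈ E` such that `g (e_b) a ≠ (e_b) a` implies `R a b ∧ ¬ R b a`.
Proof.  Let `A` be the set of endomorphisms `M` with `M (e_b) a ≠ 0 → R a b`, and `J` those with
`M (e_b) a ≠ 0 → R a b ∧ ¬ R b a`.  `A` is closed under sums and products (transitivity: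
`(M M') (e_b) a = ∑ c, M' (e_b) c * M (e_c) a`), `A J ⊆ J`, `J A ⊆ J` (if `R a c`, `R c b`,
`¬ R b c`, then `R a b`, and `R b a` would give `R b c`).  So `N = {g ∈ E : g - 1 ∈ J}` is a
subgroup (`g h - 1 = (g - 1) h + (h - 1)`, `g⁻¹ - 1 = - g⁻¹ (g - 1)`, `g⁻¹ ∈ E ⊆ A`), normalised
by `E` (`g n g⁻¹ - 1 = g (n - 1) g⁻¹`).
`J` is nilpotent: `M^k (e_b) a ≠ 0` for `M ∈ J` gives a chain `a = c_0, ..., c_k = b` with
`R c_i c_{i+1}`, `¬ R c_{i+1} c_i`; by transitivity the `c_i` are different, so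
`k < card ι`.  (Induction: `M^k (e_b) a ≠ 0` implies that the set `{c : R a c}` has at least
`k + card {c : R b c}` elements: `{c : R c' c} ⊂ {c : R a c}` strictly for `R a c'`,
`¬ R c' a`.)  Hence for `n ∈ N`, in characteristic `p`,
`n^(p^k) = (1 + (n - 1))^(p^k) = 1 + (n - 1)^(p^k) = 1` for `p^k ≥ card ι`
(`add_pow_char_pow_of_commute` in the ring `Module.End K (ι → K)`, which needs `CharP`/`ExpChar`
for this ring; or `sub_pow_char_pow_of_commute`).

`normal_up`.  `G` a finite group (or just `F` finite), `E ≤ F` normalised by `F`, `N ≤ E`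
normalised by `E`, a `p`-group.  Let `M` be the subgroup generated by all `g n g⁻¹`, `g ∈ F`,
`n ∈ N`.  `M ≤ F`, normalised by `F`, `N ≤ M`.  `M` is a `p`-group: let `P` be a Sylow
`p`-subgroup of `E`.  For `g ∈ F` the group `g N g⁻¹ ≤ E` is a `p`-subgroup normalised by `E`
(as `g` normalises `E`), so it is contained in every Sylow subgroup of `E`
(`IsPGroup.le_sylow`-type argument: `N' ≤` some Sylow `Q`, and `P` is conjugate to `Q` under
`E`; or `IsPGroup.sup` with a normal one: `Sylow` maximality).  So `M ≤ P`.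
Alternative: the join of two normalised `p`-subgroups is a `p`-group
(`IsPGroup.to_sup_of_normal_right'`), and a finite join of the `g N g⁻¹` is `M`.
-/

namespace Pool.Agent.H33.TO

section aux
variable {ι : Type*} [Fintype ι] [DecidableEq ι] {K : Type*} [Field K]

/-- entries in the preorder -/
def stA (R : ι → ι → Prop) (M : Matrix ι ι K) : Prop := ∀ a b, M a b ≠ 0 → R a b

/-- entries in the strict part -/
def stJ (R : ι → ι → Prop) (M : Matrix ι ι K) : Prop := ∀ a b, M a b ≠ 0 → R a b ∧ ¬ R b a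

theorem stA_mul_stJ {R : ι → ι → Prop} (ht : ∀ a b c, R a b → R b c → R a c)
    {M M' : Matrix ι ι K} (h : stA R M) (h' : stJ R M') : stJ R (M * M') := by
  intro a b hab
  rw [Matrix.mul_apply] at hab
  obtain ⟨c, -, hc⟩ := Finset.exists_ne_zero_of_sum_ne_zero hab
  have h1 := h a c (left_ne_zero_of_mul hc)
  have h2 := h' c b (right_ne_zero_of_mul hc)
  exact ⟨ht _ _ _ h1 h2.1, fun h3 => h2.2 (ht _ _ _ h3 h1)⟩

theorem stJ_mul_stA {R : ι → ι → Prop} (ht : ∀ a b c, R a b → R b c → R a c)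
    {M M' : Matrix ι ι K} (h : stJ R M) (h' : stA R M') : stJ R (M * M') := by
  intro a b hab
  rw [Matrix.mul_apply] at hab
  obtain ⟨c, -, hc⟩ := Finset.exists_ne_zero_of_sum_ne_zero hab
  have h1 := h a c (left_ne_zero_of_mul hc)
  have h2 := h' c b (right_ne_zero_of_mul hc)
  exact ⟨ht _ _ _ h1.1 h2, fun h3 => h1.2 (ht _ _ _ h2 h3)⟩

theorem stJ_add {R : ι → ι → Prop} {M M' : Matrix ι ι K} (h : stJ R M) (h' : stJ R M') :
    stJ R (M + M') := by
  intro a b hab
  rw [Matrix.add_apply] at hab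
  by_cases h0 : M a b = 0
  · rw [h0, zero_add] at hab
    exact h' a b hab
  · exact h a b h0

theorem stJ_neg {R : ι → ι → Prop} {M : Matrix ι ι K} (h : stJ R M) : stJ R (-M) := by
  intro a b hab
  rw [Matrix.neg_apply, neg_ne_zero] at hab
  exact h a b hab

theorem stJ_pow_card {R : ι → ι → Prop} (hr : ∀ a, R a a)
    (ht : ∀ a b c, R a b → R b c → R a c) {M : Matrix ι ι K} (h : stJ R M) (k : ℕ) :
    ∀ a b, (M ^ k) a b ≠ 0 → ∀ (S : ι → Finset ι), (∀ x y, y ∈ S x ↔ R x y) →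
      (S b).card + k ≤ (S a).card := by
  induction k with
  | zero =>
    intro a b hab S _
    rw [pow_zero, Matrix.one_apply] at hab
    by_cases hE : a = b
    · rw [hE]; simp
    · rw [if_neg hE] at hab; exact absurd rfl hab
  | succ k ih =>
    intro a b hab S hS
    rw [pow_succ', Matrix.mul_apply] at hab
    obtain ⟨c, -, hc⟩ := Finset.exists_ne_zero_of_sum_ne_zero hab
    have h1 := h a c (left_ne_zero_of_mul hc)
    have h2 := ih c b (right_ne_zero_of_mul hc) S hS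
    have h3 : (S c).card < (S a).card := by
      apply Finset.card_lt_card
      rw [Finset.ssubset_iff_of_subset]
      · exact ⟨a, (hS a a).2 (hr a), fun h4 => h1.2 ((hS c a).1 h4)⟩
      · intro y hy
        exact (hS a y).2 (ht _ _ _ h1.1 ((hS c y).1 hy))
    omega

theorem stJ_nilp {R : ι → ι → Prop} (hr : ∀ a, R a a)
    (ht : ∀ a b c, R a b → R b c → R a c) {M : Matrix ι ι K} (h : stJ R M) (k : ℕ)
    (hk : Fintype.card ι ≤ k) : M ^ k = 0 := by
  classical
  ext a b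
  by_contra hab
  rw [Matrix.zero_apply] at hab
  have h1 := stJ_pow_card hr ht h k a b hab (fun x => Finset.univ.filter (fun y => R x y))
    (by intro x y; simp)
  have h2 : 0 < (Finset.univ.filter (fun y => R b y)).card :=
    Finset.card_pos.2 ⟨b, by simp [hr b]⟩
  have h3 : (Finset.univ.filter (fun y => R a y)).card ≤ Fintype.card ι := by
    rw [← Finset.card_univ]
    exact Finset.card_le_card (Finset.filter_subset _ _)
  omega

/-- the matrix of an automorphism -/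
noncomputable def stM (g : (ι → K) ≃ₗ[K] (ι → K)) : Matrix ι ι K :=
  Matrix.of fun a b => g (Pi.single b 1) a

theorem stM_apply (g : (ι → K) ≃ₗ[K] (ι → K)) (a b : ι) :
    stM g a b = g (Pi.single b 1) a := rfl

theorem stM_mul (g h : (ι → K) ≃ₗ[K] (ι → K)) : stM (g * h) = stM g * stM h := by
  ext a b
  rw [Matrix.mul_apply, stM_apply, LinearEquiv.mul_apply]
  have h1 : h (Pi.single b 1) = ∑ c, (h (Pi.single b 1) c) • (Pi.single c (1 : K) : ι → K) := by
    ext x
    simp [Finset.sum_apply, Pi.single_apply]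
  conv_lhs => rw [h1]
  rw [map_sum, Finset.sum_apply]
  refine Finset.sum_congr rfl fun c _ => ?_
  rw [map_smul, Pi.smul_apply, smul_eq_mul, stM_apply, stM_apply, mul_comm]

theorem stM_one : stM (1 : (ι → K) ≃ₗ[K] (ι → K)) = 1 := by
  ext a b
  rw [stM_apply, LinearEquiv.coe_one, id, Matrix.one_apply, Pi.single_apply]

theorem stM_pow (g : (ι → K) ≃ₗ[K] (ι → K)) (k : ℕ) : stM (g ^ k) = stM g ^ k := by
  induction k with
  | zero => rw [pow_zero, pow_zero, stM_one]
  | succ k ih => rw [pow_succ, pow_succ, stM_mul, ih]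

theorem stM_inj {g h : (ι → K) ≃ₗ[K] (ι → K)} (H : stM g = stM h) : g = h := by
  apply LinearEquiv.toLinearMap_injective
  apply LinearMap.pi_ext'
  intro b
  ext x
  have := congrFun (congrFun H x) b
  simpa [stM_apply] using this

end aux

theorem strict_normal {ι : Type*} [Fintype ι] [DecidableEq ι] {K : Type*} [Field K]
    (R : ι → ι → Prop) (hr : ∀ a, R a a) (ht : ∀ a b c, R a b → R b c → R a c)
    (E : Subgroup ((ι → K) ≃ₗ[K] (ι → K)))
    (hE : ∀ g ∈ E, ∀ a b, g (Pi.single b 1) a ≠ 0 → R a b) :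
    ∃ N : Subgroup ((ι → K) ≃ₗ[K] (ι → K)), N ≤ E ∧ (∀ g ∈ E, ∀ n ∈ N, g * n * g⁻¹ ∈ N) ∧
      (∀ p : ℕ, p.Prime → CharP K p → IsPGroup p N) ∧
      ∀ g, g ∈ N ↔ g ∈ E ∧ ∀ a b, g (Pi.single b 1) a ≠ (Pi.single b 1 : ι → K) a →
        R a b ∧ ¬ R b a := by
  classical
  have hA : ∀ g ∈ E, stA R (stM g) := fun g hg a b h => hE g hg a b h
  refine ⟨⟨⟨⟨{g | g ∈ E ∧ stJ R (stM g - 1)}, ?_⟩, ?_⟩, ?_⟩, ?_, ?_, ?_, ?_⟩
  · rintro g h ⟨hg, hg'⟩ ⟨hh, hh'⟩
    refine ⟨E.mul_mem hg hh, ?_⟩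
    have e : stM (g * h) - 1 = (stM g - 1) * stM h + (stM h - 1) := by
      rw [stM_mul]; noncomm_ring
    rw [e]
    exact stJ_add (stJ_mul_stA ht hg' (hA h hh)) hh'
  · refine ⟨E.one_mem, ?_⟩
    rw [stM_one, sub_self]
    intro a b hab
    exact absurd rfl hab
  · rintro g ⟨hg, hg'⟩
    refine ⟨E.inv_mem hg, ?_⟩
    have e0 : stM g⁻¹ * stM g = 1 := by rw [← stM_mul, inv_mul_cancel, stM_one]
    have e : stM g⁻¹ - 1 = -(stM g⁻¹ * (stM g - 1)) := by
      rw [mul_sub, e0, mul_one, neg_sub]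
    rw [e]
    exact stJ_neg (stA_mul_stJ ht (hA _ (E.inv_mem hg)) hg')
  · rintro g ⟨hg, -⟩
    exact hg
  · rintro g hg n ⟨hn, hn'⟩
    refine ⟨E.mul_mem (E.mul_mem hg hn) (E.inv_mem hg), ?_⟩
    have e0 : stM g * stM g⁻¹ = 1 := by rw [← stM_mul, mul_inv_cancel, stM_one]
    have e : stM (g * n * g⁻¹) - 1 = stM g * (stM n - 1) * stM g⁻¹ := by
      rw [stM_mul, stM_mul, mul_sub, mul_one, sub_mul, e0]
    rw [e]
    exact stJ_mul_stA ht (stA_mul_stJ ht (hA g hg) hn') (hA _ (E.inv_mem hg))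
  · intro p hp hcp
    rintro ⟨g, hg, hg'⟩
    refine ⟨Fintype.card ι, ?_⟩
    apply Subtype.ext
    show g ^ p ^ Fintype.card ι = 1
    apply stM_inj
    rw [stM_pow, stM_one]
    rcases isEmpty_or_nonempty ι with hi | hi
    · exact Subsingleton.elim _ _
    haveI : Fact p.Prime := ⟨hp⟩
    have e : stM g = 1 + (stM g - 1) := by abel
    rw [e, add_pow_char_pow_of_commute p (Fintype.card ι) (Commute.one_left _), one_pow,
      stJ_nilp hr ht hg' _ (Nat.lt_pow_self hp.one_lt).le, add_zero]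
  · intro g
    constructor
    · rintro ⟨hg, hg'⟩
      refine ⟨hg, fun a b hab => hg' a b ?_⟩
      rw [Matrix.sub_apply, stM_apply, Matrix.one_apply, ← Pi.single_apply, sub_ne_zero]
      exact hab
    · rintro ⟨hg, hg'⟩
      refine ⟨hg, fun a b hab => hg' a b ?_⟩
      rw [Matrix.sub_apply, stM_apply, Matrix.one_apply, ← Pi.single_apply, sub_ne_zero] at hab
      exact hab

theorem normal_up {G : Type*} [Group G] [Finite G] {p : ℕ} (hp : p.Prime) (F E N : Subgroup G)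
    (hEF : E ≤ F) (hE : ∀ g ∈ F, ∀ x ∈ E, g * x * g⁻¹ ∈ E) (hNE : N ≤ E)
    (hN : ∀ g ∈ E, ∀ n ∈ N, g * n * g⁻¹ ∈ N) (hNp : IsPGroup p N) :
    ∃ M : Subgroup G, M ≤ F ∧ N ≤ M ∧ (∀ g ∈ F, ∀ m ∈ M, g * m * g⁻¹ ∈ M) ∧ IsPGroup p M := by
  classical
  haveI : Fact p.Prime := ⟨hp⟩
  obtain ⟨P⟩ : Nonempty (Sylow p E) := inferInstance
  -- every conjugate of N lies in P
  have key : ∀ g ∈ F, ∀ n ∈ N, g * n * g⁻¹ ∈ (P : Subgroup E).map E.subtype := by
    intro g hg n hn
    let N' : Subgroup E := (N.map (MulAut.conj g).toMonoidHom).subgroupOf E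
    have hN'n : N'.Normal := by
      constructor
      rintro ⟨x, hx⟩ hxN ⟨y, hy⟩
      rw [Subgroup.mem_subgroupOf] at hxN ⊢
      obtain ⟨m, hm, hm'⟩ := hxN
      refine ⟨(g⁻¹ * y * g) * m * (g⁻¹ * y * g)⁻¹, hN _ ?_ m hm, ?_⟩
      · have := hE g⁻¹ (F.inv_mem hg) y hy
        rwa [inv_inv] at this
      · simp only [MulEquiv.coe_toMonoidHom, MulAut.conj_apply] at hm' ⊢
        show g * (g⁻¹ * y * g * m * (g⁻¹ * y * g)⁻¹) * g⁻¹ = y * x * y⁻¹
        have hm2 : x = g * m * g⁻¹ := hm'.symm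
        rw [hm2]
        group
    have hN'p : IsPGroup p N' := by
      have h1 : IsPGroup p (N.map (MulAut.conj g).toMonoidHom) := hNp.map _
      exact h1.comap_subtype
    have hle := hN'p.le_sylow_of_normal P
    have hmem : g * n * g⁻¹ ∈ E := hE g hg n (hNE hn)
    refine ⟨⟨g * n * g⁻¹, hmem⟩, hle ?_, rfl⟩
    rw [Subgroup.mem_subgroupOf]
    exact ⟨n, hn, by simp⟩
  refine ⟨Subgroup.closure {x | ∃ g ∈ F, ∃ n ∈ N, x = g * n * g⁻¹}, ?_, ?_, ?_, ?_⟩
  · rw [Subgroup.closure_le]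
    rintro x ⟨g, hg, n, hn, rfl⟩
    exact F.mul_mem (F.mul_mem hg (hEF (hNE hn))) (F.inv_mem hg)
  · intro n hn
    exact Subgroup.subset_closure ⟨1, F.one_mem, n, hn, by simp⟩
  · intro g hg m hm
    induction hm using Subgroup.closure_induction with
    | mem x hx =>
      obtain ⟨g', hg', n, hn, rfl⟩ := hx
      exact Subgroup.subset_closure ⟨g * g', F.mul_mem hg hg', n, hn, by group⟩
    | one => simpa using Subgroup.one_mem _
    | mul x y _ _ hx hy =>
      have : g * (x * y) * g⁻¹ = (g * x * g⁻¹) * (g * y * g⁻¹) := by group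
      rw [this]
      exact Subgroup.mul_mem _ hx hy
    | inv x _ hx =>
      have : g * x⁻¹ * g⁻¹ = (g * x * g⁻¹)⁻¹ := by group
      rw [this]
      exact Subgroup.inv_mem _ hx
  · have h1 : IsPGroup p ((P : Subgroup E).map E.subtype) := P.isPGroup'.map _
    refine h1.to_le ?_
    rw [Subgroup.closure_le]
    rintro x ⟨g, hg, n, hn, rfl⟩
    exact key g hg n hn

end Pool.Agent.H33.TO
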