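import Pool.Agent.H33.TO.Entries
import Pool.Agent.H33.TO.Strict

/-!
# JOB TO-14: without normal p-subgroups the set of roots is symmetric

Suppose `F` has no nontrivial normalised `p`-subgroup.  Let `SS F a b`, and suppose
`¬ SS F (ng a) (ng b)`.  By symmetry of `SS` let `a ≠ none` (if `a = none`, exchange `a`, `b`).
Apply `strict_normal` with `R = RR F` (reflexive; transitive by `net_trans` and `ss_nr`) and
`E = EF F` (`EF_entries`; `ev b = Pi.single b 1` by definition); get `N`.  By `normal_up` (the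
group `GL(K^ι)` is finite because `K` is finite) with `F, EF F, N` (`EF_le`, `EF_normal`) there is
a normalised `p`-subgroup `M ≥ N`, so `M = 1`, so `N = 1`.
But the element `g ∈ F` acting as `sg (ev a) (ev b)` (`c = 1`) is in `EF F` (take `s = ev a`,
`v = ev b`, `RG F (ev a) (ev b)` by `SS F a b`), it is not `1`
(`g (ev (ng b)) a = -1 ≠ 0 = (ev (ng b)) a`), and it is in `N`: the entries of `g - 1` are
at `(a, ng b)`, `(b, ng a)`, and `(a, ng a)` if `b = none` (coordinate `x` of
`g (ev y) - ev y` is nonzero only for these `(x, y)`); `RR F a (ng b)` since `SS F a b`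
(`ng (ng b) = b`), `¬ RR F (ng b) a` by `net_strict`; `RR F b (ng a)` since `SS F b a`, and
`¬ RR F (ng a) b` by `net_strict` applied to `SS F b a`, `¬ SS F (ng b) (ng a)`; if `b = none`:
`RR F a (ng a)` (third alternative with `c = none`), `¬ RR F (ng a) a` by the second part of
`net_strict`.  Contradiction.
-/

namespace Pool.Agent.H33.TO

variable {l : ℕ} {K : Type*} [Field K] {F : Subgroup ((Ix l → K) ≃ₗ[K] (Ix l → K))}

theorem caseB_symm_aux {q : ℕ} (hq : QK q K) (hF : Ctx l K F)
    (hno : ∀ N : Subgroup ((Ix l → K) ≃ₗ[K] (Ix l → K)), N ≤ F →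
      (∀ g ∈ F, ∀ n ∈ N, g * n * g⁻¹ ∈ N) → IsPGroup (ringChar K) N → N = ⊥) {a b : Ix l}
    (ha : a ≠ none) (h : SS F a b) : SS F (ng a) (ng b) := by
  by_contra hcon
  have hfin : Finite K := hq.finite
  have hfin2 : Finite ((Ix l → K) ≃ₗ[K] (Ix l → K)) :=
    Finite.of_injective (fun g => (g : (Ix l → K) → (Ix l → K))) DFunLike.coe_injective
  have hchar : CharP K (ringChar K) := ringChar.charP K
  have hprime : (ringChar K).Prime := by
    have : NeZero (ringChar K) := ⟨CharP.char_ne_zero_of_finite K (ringChar K)⟩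
    exact CharP.char_is_prime K (ringChar K)
  have hNR : NR (SS F) := ss_nr hq hF
  obtain ⟨N, hNE, hNn, hNp, hN⟩ := strict_normal (RR F) (fun a => Or.inl rfl)
    (fun a b c h1 h2 => net_trans hNR h1 h2) (EF F) (fun g hg a b hab => EF_entries hq hF hg hab)
  obtain ⟨M, hMF, hNM, hMn, hMp⟩ := normal_up hprime F (EF F) N EF_le
    (fun g hg x hx => EF_normal hF hg hx) hNE hNn (hNp _ hprime hchar)
  have hM := hno M hMF hMn hMp
  obtain ⟨g, hg, hg'⟩ := h.2.2.1 ha 1
  rw [one_smul] at hg'
  obtain ⟨n1, n2⟩ := hNR.ne _ _ h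
  have hva : bl l K (ev a) (ev b) = 0 := by
    rw [bl_ev, ev_ne]
    exact fun e => n2 e.symm
  have hgE : g ∈ EF F := Subgroup.subset_closure ⟨ev a, ev b, (hp_ev ha).1, hva, h.2.2.1 ha, hg'⟩
  have hent : ∀ x y, g (ev y) x - (ev y : Ix l → K) x =
      (ev a : Ix l → K) (ng y) * (ev b : Ix l → K) x - (ev b : Ix l → K) (ng y) *
        (ev a : Ix l → K) x - (1 / 2 * (ev b : Ix l → K) (ng b) * (ev a : Ix l → K) (ng y)) *
        (ev a : Ix l → K) x := by
    intro x y
    rw [hg']
    simp only [sg, bl_ev, Pi.add_apply, Pi.sub_apply, Pi.smul_apply, smul_eq_mul]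
    ring
  have hne : g ≠ 1 := by
    intro h1
    have h2 := hent a (ng b)
    rw [h1, ng_ng, ev_ne (Ne.symm n1 : a ≠ b), ev_ne n1, ev_same, ev_same] at h2
    simp only [LinearEquiv.coe_one, id] at h2
    have : (1 : K) = 0 := by linear_combination h2
    exact one_ne_zero this
  apply hne
  have hgN : g ∈ N := by
    rw [hN]
    refine ⟨hgE, fun x y hxy => ?_⟩
    have hxy' : g (ev y) x - (ev y : Ix l → K) x ≠ 0 := sub_ne_zero.2 hxy
    rw [hent] at hxy'
    by_cases c1 : x = b ∧ ng y = a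
    · obtain ⟨rfl, e⟩ := c1
      rw [ng_eq_iff] at e
      subst e
      refine ⟨Or.inr (Or.inl (by rw [ng_ng]; exact hNR.symm _ _ h)), ?_⟩
      exact (net_strict hNR (hNR.symm _ _ h) fun h3 => hcon (hNR.symm _ _ h3)).1
    · by_cases c2 : x = a ∧ ng y = b
      · obtain ⟨rfl, e⟩ := c2
        rw [ng_eq_iff] at e
        subst e
        exact ⟨Or.inr (Or.inl (by rw [ng_ng]; exact h)), (net_strict hNR h hcon).1⟩
      · by_cases c3 : x = a ∧ ng y = a ∧ b = none
        · obtain ⟨rfl, e, rfl⟩ := c3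
          rw [ng_eq_iff] at e
          subst e
          exact ⟨Or.inr (Or.inr ⟨rfl, none, h, h⟩), (net_strict hNR h hcon).2 rfl⟩
        · exfalso
          apply hxy'
          have t1 : (ev a : Ix l → K) (ng y) * (ev b : Ix l → K) x = 0 := by
            by_cases e1 : ng y = a
            · rw [ev_ne (fun e2 => c1 ⟨e2, e1⟩ : x ≠ b), mul_zero]
            · rw [ev_ne e1, zero_mul]
          have t2 : (ev b : Ix l → K) (ng y) * (ev a : Ix l → K) x = 0 := by
            by_cases e1 : ng y = b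
            · rw [ev_ne (fun e2 => c2 ⟨e2, e1⟩ : x ≠ a), mul_zero]
            · rw [ev_ne e1, zero_mul]
          have t3 : (ev b : Ix l → K) (ng b) * (ev a : Ix l → K) (ng y) *
              (ev a : Ix l → K) x = 0 := by
            by_cases e0 : b = none
            · by_cases e1 : ng y = a
              · rw [ev_ne (fun e2 => c3 ⟨e2, e1, e0⟩ : x ≠ a), mul_zero]
              · rw [ev_ne e1, mul_zero, zero_mul]
            · rw [ev_ne (ng_ne_self e0), zero_mul, zero_mul]
          linear_combination t1 - t2 - (1 / 2) * t3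
  have h1 := hNM hgN
  rw [hM, Subgroup.mem_bot] at h1
  exact h1

theorem caseB_symm {q : ℕ} (hq : QK q K) (hF : Ctx l K F)
    (hno : ∀ N : Subgroup ((Ix l → K) ≃ₗ[K] (Ix l → K)), N ≤ F →
      (∀ g ∈ F, ∀ n ∈ N, g * n * g⁻¹ ∈ N) → IsPGroup (ringChar K) N → N = ⊥) {a b : Ix l}
    (h : SS F a b) : SS F (ng a) (ng b) := by
  by_cases ha : a = none
  · have hb : b ≠ none := by
      intro e
      exact h.1 (by rw [e, ha])
    exact (caseB_symm_aux hq hF hno hb h.symm).symm
  · exact caseB_symm_aux hq hF hno ha h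

end Pool.Agent.H33.TO
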