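import Pool.Agent.H33.TO.Frames
import Pool.Agent.H33.TO.CaseA3
import Pool.Agent.H33.TO.Symm

/-!
# JOB TO-28: the main theorem in internal form

Strong induction on `Nat.card F` (`GL(K^ι)` is finite because `K` is finite).
Case A: there is `N ≤ F`, normalised by `F`, a `p`-group, `N ≠ 1`: `caseA`; a subgroup `L ≤ F`,
`L ≠ F` has smaller cardinality.
Case B: otherwise `caseB_symm` gives `hS`.  Let `g ∈ F`, `g = e * n` by `frames`.  `e ∈ ES F ≤ GS F`
so it normalises `GS F`.  `n` normalises `ES F` (`ES_normal`), so it maps `RE F` into `GS F`; and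
it normalises the set of diagonal elements of `F`: `n (ev a) = c_a • ev (π a)` with `c_a ≠ 0` and `π`
injective, so bijective; for `x ∈ F` diagonal, `n x n⁻¹ ∈ F` and
`(n x n⁻¹) (ev (π a)) = c_a⁻¹ n (x (ev a))` is a multiple of `ev (π a)`.  So
`n x n⁻¹ ∈ GS F` for `x ∈ GS F` (closure induction), and `g` normalises `GS F`.
-/

namespace Pool.Agent.H33.TO

variable {l : ℕ} {K : Type*} [Field K]

theorem mainA_fin {q : ℕ} (hq : QK q K) : Finite ((Ix l → K) ≃ₗ[K] (Ix l → K)) := by
  obtain ⟨hc, h⟩ := hq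
  have : Finite K := Nat.finite_of_card_ne_zero (by
    rw [hc]
    rcases h with rfl | rfl | rfl <;> norm_num)
  exact Finite.of_injective (fun e : (Ix l → K) ≃ₗ[K] (Ix l → K) => (e : (Ix l → K) → (Ix l → K)))
    DFunLike.coe_injective

/-- a monomial map normalises the diagonal maps -/
theorem mainA_mon {n x : (Ix l → K) ≃ₗ[K] (Ix l → K)} (hn : ∀ a, ∃ b, ∃ c : K, n (ev a) = c • ev b)
    (hx : IsDg x) : IsDg (n * x * n⁻¹) := by
  classical
  choose π c hc using hn
  have hev : ∀ a : Ix l, (ev a : Ix l → K) ≠ 0 := fun a h => by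
    have h1 := congrFun h a
    rw [ev, Pi.single_eq_same] at h1
    exact one_ne_zero h1
  have hc0 : ∀ a, c a ≠ 0 := fun a h => by
    have h1 := hc a
    rw [h, zero_smul] at h1
    exact hev a ((LinearEquiv.map_eq_zero_iff n).1 h1)
  have hπ : Function.Injective π := by
    intro a b hab
    by_contra hne
    have h1 : n (c b • ev a - c a • ev b) = 0 := by
      rw [map_sub, map_smul, map_smul, hc a, hc b, hab, smul_smul, smul_smul, mul_comm, sub_self]
    have h2 := congrFun ((LinearEquiv.map_eq_zero_iff n).1 h1) a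
    rw [Pi.sub_apply, Pi.smul_apply, Pi.smul_apply, ev, ev, Pi.single_eq_same,
      Pi.single_eq_of_ne hne] at h2
    rw [smul_zero, sub_zero, smul_eq_mul, mul_one] at h2
    exact hc0 b h2
  have hsur : Function.Surjective π := Finite.surjective_of_injective hπ
  intro a
  obtain ⟨a', rfl⟩ := hsur a
  obtain ⟨d, hd⟩ := hx a'
  refine ⟨d, ?_⟩
  have h1 : n⁻¹ (ev (π a')) = (c a')⁻¹ • ev a' := by
    have h2 : ev (π a') = n ((c a')⁻¹ • ev a') := by
      rw [map_smul, hc a', smul_smul, inv_mul_cancel₀ (hc0 a'), one_smul]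
    rw [h2, ← LinearEquiv.mul_apply, inv_mul_cancel]
    rfl
  rw [LinearEquiv.mul_apply, LinearEquiv.mul_apply, h1, map_smul, hd, map_smul, map_smul, hc a',
    smul_smul, smul_smul]
  congr 1
  rw [mul_assoc, mul_comm d, ← mul_assoc, inv_mul_cancel₀ (hc0 a'), one_mul]

theorem mainA_caseB {q : ℕ} (hq : QK q K) (hl : 3 ≤ l)
    (F : Subgroup ((Ix l → K) ≃ₗ[K] (Ix l → K))) (hF : Ctx l K F)
    (hS : ∀ a b, SS F a b → SS F (ng a) (ng b)) : Std F := by
  intro g hg x hx
  obtain ⟨e, he, n, hn, rfl, hmon⟩ := frames hq hl hF hS hg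
  have key : ∀ y ∈ GS F, n * y * n⁻¹ ∈ GS F := by
    intro y hy
    induction hy using Subgroup.closure_induction with
    | mem y hy =>
      rcases hy with ⟨h1, h2⟩ | hy
      · exact Subgroup.subset_closure (Or.inl ⟨F.mul_mem (F.mul_mem hn h1) (F.inv_mem hn), mainA_mon hmon h2⟩)
      · exact ES_le_GS (ES_normal hq hF hS hn (Subgroup.subset_closure hy))
    | one =>
      rw [mul_one, mul_inv_cancel]
      exact (GS F).one_mem
    | mul y z _ _ h1 h2 =>
      have h3 : n * (y * z) * n⁻¹ = (n * y * n⁻¹) * (n * z * n⁻¹) := by group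
      rw [h3]
      exact (GS F).mul_mem h1 h2
    | inv y _ h1 =>
      have h3 : n * y⁻¹ * n⁻¹ = (n * y * n⁻¹)⁻¹ := by group
      rw [h3]
      exact (GS F).inv_mem h1
  have he' : e ∈ GS F := ES_le_GS he
  have h3 : e * n * x * (e * n)⁻¹ = e * (n * x * n⁻¹) * e⁻¹ := by group
  rw [h3]
  exact (GS F).mul_mem ((GS F).mul_mem he' (key x hx)) ((GS F).inv_mem he')

theorem mainA_ind {q : ℕ} (hq : QK q K) (hl : 3 ≤ l) (k : ℕ) :
    ∀ F : Subgroup ((Ix l → K) ≃ₗ[K] (Ix l → K)), (F : Set ((Ix l → K) ≃ₗ[K] (Ix l → K))).ncard = k →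
      Ctx l K F → Std F := by
  have hfin := mainA_fin (l := l) hq
  induction k using Nat.strong_induction_on with
  | _ k ih =>
    intro F hk hF
    by_cases hno : ∀ N : Subgroup ((Ix l → K) ≃ₗ[K] (Ix l → K)), N ≤ F →
      (∀ g ∈ F, ∀ n ∈ N, g * n * g⁻¹ ∈ N) → IsPGroup (ringChar K) N → N = ⊥
    · exact mainA_caseB hq hl F hF fun a b => caseB_symm hq hF hno
    · simp only [not_forall] at hno
      obtain ⟨N, hN, hn, hp, hne⟩ := hno
      refine caseA hq hF N hN hn hp hne ?_
      intro L hL hLF hLc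
      refine ih _ ?_ L rfl hLc
      rw [← hk]
      refine Set.ncard_lt_ncard ?_ (Set.toFinite _)
      exact lt_of_le_of_ne hL fun h => hLF (SetLike.coe_injective h)

theorem main_std {q : ℕ} (hq : QK q K) (hl : 3 ≤ l)
    (F : Subgroup ((Ix l → K) ≃ₗ[K] (Ix l → K))) (hF : Ctx l K F) : Std F :=
  mainA_ind hq hl _ F rfl hF

end Pool.Agent.H33.TO
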