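import Mathlib

/-!
# Torus overgroups in type B: basic definitions (helper33, MP_a408f4_al)

`V` is a vector space with a symmetric bilinear form `B`.
* `sg B s v` is the Siegel transformation (root element) attached to a singular vector `s`
  and a vector `v` orthogonal to `s`.
* `rt B w w' d` is the rotation of the hyperbolic plane with basis `w, w'` by `d`.
* `Has F f`: the subgroup `F` of `GL(V)` contains an element acting as the function `f`.
-/

namespace Pool.Agent.H33.TO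

section abs
variable {K : Type*} [Field K] {V : Type*} [AddCommGroup V] [Module K V]

/-- the Siegel transformation
`u ↦ u + B(u,s) v - B(u,v) s - (1/2) B(v,v) B(u,s) s` -/
def sg (B : LinearMap.BilinForm K V) (s v : V) : V → V := fun u =>
  u + (B u s) • v - (B u v) • s - ((1 / 2 : K) * B v v * B u s) • s

/-- the rotation by `d` in the hyperbolic plane `w, w'` (`B w w' = 1`):
`w ↦ d w`, `w' ↦ d⁻¹ w'`, identity on the orthogonal complement -/
def rt (B : LinearMap.BilinForm K V) (w w' : V) (d : K) : V → V := fun u =>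
  u + ((d - 1) * B w' u) • w + ((d⁻¹ - 1) * B w u) • w'

/-- hyperbolic pair -/
def HP (B : LinearMap.BilinForm K V) (w w' : V) : Prop :=
  B w w = 0 ∧ B w' w' = 0 ∧ B w w' = 1

/-- `F` contains an element which acts as the function `f` -/
def Has (F : Subgroup (V ≃ₗ[K] V)) (f : V → V) : Prop := ∃ g ∈ F, ∀ u, g u = f u

/-- `F` contains all rotations by squares in the hyperbolic plane `w, w'` -/
def PL (F : Subgroup (V ≃ₗ[K] V)) (B : LinearMap.BilinForm K V) (w w' : V) : Prop :=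
  ∀ d : K, d ≠ 0 → IsSquare d → Has F (rt B w w' d)

/-- `F` contains the full root group `{sg B s (c • v) : c ∈ K}` -/
def RG (F : Subgroup (V ≃ₗ[K] V)) (B : LinearMap.BilinForm K V) (s v : V) : Prop :=
  ∀ c : K, Has F (sg B s (c • v))

/-- linear independence of two vectors, in elementary form -/
def Ind2 (K : Type*) [Field K] {V : Type*} [AddCommGroup V] [Module K V] (s v : V) : Prop :=
  ∀ a b : K, a • s + b • v = 0 → a = 0 ∧ b = 0

end abs

section fields
variable {K : Type*} [Field K]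

/-- `K` has `q ∈ {7, 9, 11}` elements -/
def QK (q : ℕ) (K : Type*) [Field K] : Prop := Nat.card K = q ∧ (q = 7 ∨ q = 9 ∨ q = 11)

/-- exceptional cross ratios (`q = 7`: `A_4`; `q = 11`: `A_5`; `q = 9`: `S_4`) -/
def kapOK (q : ℕ) (x : K) : Prop :=
  (q = 7 ∧ (x = 3 ∨ x = 5)) ∨ (q = 11 ∧ (x = 2 ∨ x = 10)) ∨ (q = 9 ∧ x = 2)

/-- exceptional pairs `(σ,τ)` with all four entries nonzero -/
def sigOK (q : ℕ) (s t : K) : Prop :=
  (q = 7 ∧ ((s = 1 ∧ t = 1) ∨ (s = 4 ∧ t = 4) ∨ (s = 2 ∧ t = 4) ∨ (s = 4 ∧ t = 2))) ∨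
  (q = 11 ∧ ((s = 9 ∧ t = 9) ∨ (s = 4 ∧ t = 1) ∨ (s = 1 ∧ t = 4))) ∨
  (q = 9 ∧ ((s = 1 ∧ t = 1) ∨ (s = 1 ∧ t = 2) ∨ (s = 2 ∧ t = 1) ∨ (s = 2 ∧ t = 2)))

/-- the relative positions of two hyperbolic planes (Gram matrix `a b; c d`) for which we do
not claim that the group generated by the rotations contains a full root group -/
def Alw (q : ℕ) (a b c d : K) : Prop :=
  (a ≠ 0 ∧ b ≠ 0 ∧ c ≠ 0 ∧ d ≠ 0 ∧ sigOK q (a * d) (b * c)) ∨
  (a = 0 ∧ d ≠ 0 ∧ b * c = 1) ∨ (d = 0 ∧ a ≠ 0 ∧ b * c = 1) ∨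
  (b = 0 ∧ c ≠ 0 ∧ a * d = 1) ∨ (c = 0 ∧ b ≠ 0 ∧ a * d = 1) ∨
  (a = 0 ∧ d = 0 ∧ (b * c = 1 ∨ kapOK q (b * c))) ∨
  (b = 0 ∧ c = 0 ∧ (a * d = 1 ∨ kapOK q (a * d))) ∨
  (a = 0 ∧ b = 0) ∨ (c = 0 ∧ d = 0) ∨ (a = 0 ∧ c = 0) ∨ (b = 0 ∧ d = 0)

end fields

section coord

/-- index set of the standard basis: `none` is `0`, `some (i, true)` is `i`,
`some (i, false)` is `-i` -/
abbrev Ix (l : ℕ) := Option (Fin l × Bool)

/-- negation of indices -/
def ng {l : ℕ} : Ix l → Ix l
  | none => none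
  | some (i, b) => some (i, !b)

variable {l : ℕ} {K : Type*} [Field K]

/-- the split form `∑ u_a v_{-a}` on `K^{2l+1}` -/
noncomputable def bl (l : ℕ) (K : Type*) [Field K] : LinearMap.BilinForm K (Ix l → K) :=
  LinearMap.mk₂ K (fun u v => ∑ a, u a * v (ng a))
    (by intro u u' v; simp only [Pi.add_apply, add_mul, Finset.sum_add_distrib])
    (by intro c u v; simp only [Pi.smul_apply, smul_eq_mul, mul_assoc, Finset.mul_sum])
    (by intro u v v'; simp only [Pi.add_apply, mul_add, Finset.sum_add_distrib])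
    (by intro c u v; simp only [Pi.smul_apply, smul_eq_mul, mul_left_comm, Finset.mul_sum])

/-- standard basis vector -/
def ev (a : Ix l) : Ix l → K := Pi.single a 1

/-- the diagonal entries of a torus element -/
def tco (τ : Fin l → Kˣ) : Ix l → K
  | none => 1
  | some (i, true) => (τ i : K)
  | some (i, false) => ((τ i)⁻¹ : Kˣ)

/-- the torus element -/
def tor (τ : Fin l → Kˣ) : (Ix l → K) → (Ix l → K) := fun u a => tco τ a * u a

/-- the context: `F` preserves the form and contains the torus `T₀` of all `τ` whose product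
is a square -/
structure Ctx (l : ℕ) (K : Type*) [Field K] (F : Subgroup ((Ix l → K) ≃ₗ[K] (Ix l → K))) :
    Prop where
  iso : ∀ g ∈ F, ∀ u v, bl l K (g u) (g v) = bl l K u v
  tor : ∀ τ : Fin l → Kˣ, IsSquare (∏ i, τ i) → Has F (tor τ)

/-- `F` contains the coordinate root group `X(a,b)` (root `wt a + wt b`) -/
def SS (F : Subgroup ((Ix l → K) ≃ₗ[K] (Ix l → K))) (a b : Ix l) : Prop :=
  b ≠ a ∧ b ≠ ng a ∧ (a ≠ none → RG F (bl l K) (ev a) (ev b)) ∧
    (b ≠ none → RG F (bl l K) (ev b) (ev a))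

/-- the preorder on the indices -/
def RR (F : Subgroup ((Ix l → K) ≃ₗ[K] (Ix l → K))) (a b : Ix l) : Prop :=
  a = b ∨ SS F a (ng b) ∨ (b = ng a ∧ ∃ c, SS F a c ∧ SS F a (ng c))

/-- `g` maps every standard basis vector to a multiple of itself -/
def IsDg (g : (Ix l → K) ≃ₗ[K] (Ix l → K)) : Prop := ∀ a, ∃ c : K, g (ev a) = c • ev a

/-- the set of all coordinate root elements of the root groups contained in `F` -/
def RE (F : Subgroup ((Ix l → K) ≃ₗ[K] (Ix l → K))) : Set ((Ix l → K) ≃ₗ[K] (Ix l → K)) :=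
  {g | ∃ a b : Ix l, ∃ c : K, a ≠ none ∧ SS F a b ∧
        ∀ u, g u = sg (bl l K) (ev a) (c • ev b) u}

/-- the group generated by the diagonal elements of `F` and the coordinate root groups
contained in `F` -/
def GS (F : Subgroup ((Ix l → K) ≃ₗ[K] (Ix l → K))) :
    Subgroup ((Ix l → K) ≃ₗ[K] (Ix l → K)) :=
  Subgroup.closure ({g | g ∈ F ∧ IsDg g} ∪ RE F)

/-- the group generated by the coordinate root groups contained in `F` -/
def ES (F : Subgroup ((Ix l → K) ≃ₗ[K] (Ix l → K))) :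
    Subgroup ((Ix l → K) ≃ₗ[K] (Ix l → K)) :=
  Subgroup.closure (RE F)

/-- standard description in internal form: `F` normalises `GS F` -/
def Std (F : Subgroup ((Ix l → K) ≃ₗ[K] (Ix l → K))) : Prop :=
  ∀ g ∈ F, ∀ x ∈ GS F, g * x * g⁻¹ ∈ GS F

end coord

end Pool.Agent.H33.TO
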