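import Pool.Agent.H33.TO.Defs

/-!
# Torus overgroups in type B: algebra of Siegel transformations and plane rotations
-/

namespace Pool.Agent.H33.TO

variable {K : Type*} [Field K] {V : Type*} [AddCommGroup V] [Module K V]
  {B : LinearMap.BilinForm K V} {F : Subgroup (V ≃ₗ[K] V)}

theorem Has.id : Has F (fun u => u) := ⟨1, F.one_mem, fun _ => rfl⟩

theorem Has.comp {f g : V → V} (hf : Has F f) (hg : Has F g) : Has F (fun u => f (g u)) := by
  obtain ⟨a, ha, ha'⟩ := hf
  obtain ⟨b, hb, hb'⟩ := hg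
  exact ⟨a * b, F.mul_mem ha hb, fun u => by rw [LinearEquiv.mul_apply, ha', hb']⟩

theorem Has.congr {f g : V → V} (hf : Has F f) (h : ∀ u, f u = g u) : Has F g := by
  obtain ⟨a, ha, ha'⟩ := hf
  exact ⟨a, ha, fun u => by rw [ha', h]⟩

theorem Has.inv {f g : V → V} (hf : Has F f) (h : ∀ u, f (g u) = u) : Has F g := by
  obtain ⟨a, ha, ha'⟩ := hf
  refine ⟨a⁻¹, F.inv_mem ha, fun u => ?_⟩
  have h1 : a (a⁻¹ u) = a (g u) := by
    rw [ha' (g u), h u, ← LinearEquiv.mul_apply, mul_inv_cancel]; rfl
  exact a.injective h1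

theorem Has.conj {f : V → V} (hf : Has F f) {g : V ≃ₗ[K] V} (hg : g ∈ F) :
    Has F (fun u => g (f (g⁻¹ u))) := by
  obtain ⟨a, ha, ha'⟩ := hf
  exact ⟨g * a * g⁻¹, F.mul_mem (F.mul_mem hg ha) (F.inv_mem hg), fun u => by
    rw [LinearEquiv.mul_apply, LinearEquiv.mul_apply, ha']⟩

theorem Has.mono {F' : Subgroup (V ≃ₗ[K] V)} {f : V → V} (hf : Has F f) (h : F ≤ F') :
    Has F' f := by
  obtain ⟨a, ha, ha'⟩ := hf
  exact ⟨a, h ha, ha'⟩

section sieg

variable (hsym : ∀ u v, B u v = B v u)

include hsym in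
theorem sg_comp (h2 : (2 : K) ≠ 0) {s v v' : V} (hs : B s s = 0) (hv : B s v = 0)
    (hv' : B s v' = 0) (u : V) : sg B s v (sg B s v' u) = sg B s (v + v') u := by
  have e1 : B v s = 0 := by rw [hsym]; exact hv
  have e2 : B v' s = 0 := by rw [hsym]; exact hv'
  have e3 : B v' v = B v v' := hsym _ _
  simp only [sg, map_add, map_sub, map_smul, LinearMap.add_apply, LinearMap.sub_apply,
    LinearMap.smul_apply, smul_eq_mul, hs, hv, hv', e1, e2, e3]
  match_scalars <;> field_simp <;> ring

theorem sg_zero (s u : V) : sg B s 0 u = u := by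
  simp [sg]

include hsym in
/-- shifting `v` by a multiple of `s` does not change the Siegel transformation -/
theorem sg_shift {s v : V} (hs : B s s = 0) (hv : B s v = 0) (c : K) (u : V) :
    sg B s (v + c • s) u = sg B s v u := by
  have e1 : B v s = 0 := by rw [hsym]; exact hv
  simp only [sg, map_add, map_smul, LinearMap.add_apply, LinearMap.smul_apply, smul_eq_mul,
    hs, hv, e1]
  module

theorem sg_smul (s v : V) (c : K) (u : V) : sg B (c • s) v u = sg B s (c • v) u := by
  simp only [sg, map_smul, LinearMap.smul_apply, smul_eq_mul]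
  module

theorem sg_swap {s v : V} (hs : B s s = 0) (hv : B v v = 0) (u : V) :
    sg B s v u = sg B v (-s) u := by
  simp only [sg, map_neg, LinearMap.neg_apply, hs, hv]
  module

/-- conjugation of a Siegel transformation by an isometry -/
theorem sg_conj {g : V ≃ₗ[K] V} (hg : ∀ u v, B (g u) (g v) = B u v) (s v u : V) :
    g (sg B s v (g⁻¹ u)) = sg B (g s) (g v) u := by
  have h1 : ∀ x, B (g⁻¹ u) x = B u (g x) := fun x => by
    have := hg (g⁻¹ u) x
    rw [← this]
    congr 2
    rw [← LinearEquiv.mul_apply, mul_inv_cancel]; rfl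
  have h2 : g (g⁻¹ u) = u := by rw [← LinearEquiv.mul_apply, mul_inv_cancel]; rfl
  simp only [sg, map_add, map_sub, map_smul, h1, hg, h2]

/-- conjugation of a rotation by an isometry -/
theorem rt_conj {g : V ≃ₗ[K] V} (hg : ∀ u v, B (g u) (g v) = B u v) (w w' : V) (d : K) (u : V) :
    g (rt B w w' d (g⁻¹ u)) = rt B (g w) (g w') d u := by
  have h1 : ∀ x, B x (g⁻¹ u) = B (g x) u := fun x => by
    have := hg x (g⁻¹ u)
    rw [← this]
    congr 1
    rw [← LinearEquiv.mul_apply, mul_inv_cancel]; rfl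
  have h2 : g (g⁻¹ u) = u := by rw [← LinearEquiv.mul_apply, mul_inv_cancel]; rfl
  simp only [rt, map_add, map_smul, h1, h2]

/-- change of form for Siegel transformations -/
theorem sg_form (c : K) (s v u : V) : sg (c • B) s v u = sg B s (c • v) u := by
  simp only [sg, LinearMap.smul_apply, map_smul, smul_eq_mul]
  module

/-- change of form for rotations -/
theorem rt_form {c : K} (hc : c ≠ 0) (w w' : V) (d : K) (u : V) :
    rt (c • B) w (c⁻¹ • w') d u = rt B w w' d u := by
  simp only [rt, LinearMap.smul_apply, map_smul, smul_eq_mul]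
  match_scalars <;> field_simp

include hsym in
/-- product of two root elements with first vectors `s` and `s + (d-1) e` -/
theorem sg_core (h2 : (2 : K) ≠ 0) {e s v : V} (hee : B e e = 0) (hes : B e s = 0)
    (hev : B e v = 0) (hss : B s s = 0) (hsv : B s v = 0) (m d : K) (u : V) :
    sg B s (m • v) (sg B (s + (d - 1) • e) (-m • v) u) =
      sg B e ((m * (1 - d)) • v + (1 / 2 * B v v * m ^ 2 * (d - 1)) • s) u := by
  have e1 : B s e = 0 := by rw [hsym]; exact hes
  have e2 : B v e = 0 := by rw [hsym]; exact hev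
  have e3 : B v s = 0 := by rw [hsym]; exact hsv
  simp only [sg, map_add, map_sub, map_smul, map_neg, LinearMap.add_apply, LinearMap.sub_apply,
    LinearMap.smul_apply, LinearMap.neg_apply, smul_eq_mul, hee, hes, hev, hss, hsv, e1, e2, e3]
  match_scalars <;> field_simp <;> ring

include hsym in
theorem rt_comp {w w' : V} (h : HP B w w') {d e : K} (hd : d ≠ 0) (he : e ≠ 0) (u : V) :
    rt B w w' d (rt B w w' e u) = rt B w w' (d * e) u := by
  obtain ⟨h1, h2, h3⟩ := h
  have h4 : B w' w = 1 := by rw [hsym]; exact h3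
  simp only [rt, map_add, map_smul, LinearMap.add_apply, LinearMap.smul_apply, smul_eq_mul,
    h1, h2, h3, h4]
  match_scalars <;> field_simp <;> ring

theorem rt_one (w w' u : V) : rt B w w' 1 u = u := by
  simp [rt]

theorem rt_swap (w w' : V) (d : K) (u : V) : rt B w' w d⁻¹ u = rt B w w' d u := by
  simp only [rt, inv_inv]
  module

theorem rt_scale (w w' : V) {c : K} (hc : c ≠ 0) (d : K) (u : V) :
    rt B (c • w) (c⁻¹ • w') d u = rt B w w' d u := by
  simp only [rt, map_smul, LinearMap.smul_apply, smul_eq_mul]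
  match_scalars <;> field_simp

include hsym in
/-- the product of two rotations whose planes share the singular vector `e` is a Siegel
transformation: `y ⊥ e, f` -/
theorem rt_shift (h2 : (2 : K) ≠ 0) {e f y : V} (h : HP B e f) (hey : B e y = 0)
    (hfy : B f y = 0) {d : K} (hd : d ≠ 0) (u : V) :
    rt B e (f + y - ((1 / 2 : K) * B y y) • e) d (rt B e f d⁻¹ u) =
      sg B e ((1 - d) • y) u := by
  obtain ⟨h1, h2', h3⟩ := h
  have h4 : B f e = 1 := by rw [hsym]; exact h3
  have h5 : B y e = 0 := by rw [hsym]; exact hey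
  have h6 : B y f = 0 := by rw [hsym]; exact hfy
  have h7 : B u e = B e u := hsym _ _
  have h8 : B u y = B y u := hsym _ _
  simp only [rt, sg, map_add, map_sub, map_smul, LinearMap.add_apply, LinearMap.sub_apply,
    LinearMap.smul_apply, smul_eq_mul, h1, h2', h3, h4, h5, h6, h7, h8, hey, hfy, inv_inv]
  match_scalars <;> field_simp <;> ring

include hsym in
theorem sg_isom (h2 : (2 : K) ≠ 0) {s v : V} (hs : B s s = 0) (hv : B s v = 0) (u u' : V) :
    B (sg B s v u) (sg B s v u') = B u u' := by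
  have e1 : B v s = 0 := by rw [hsym]; exact hv
  have e2 : B u s = B s u := hsym _ _
  have e3 : B u v = B v u := hsym _ _
  have e4 : B u' s = B s u' := hsym _ _
  have e5 : B u' v = B v u' := hsym _ _
  simp only [sg, map_add, map_sub, map_smul, LinearMap.add_apply, LinearMap.sub_apply,
    LinearMap.smul_apply, smul_eq_mul, hs, hv, e1, e2, e3, e4, e5]
  field_simp
  ring

include hsym in
theorem rt_isom {w w' : V} (h : HP B w w') {d : K} (hd : d ≠ 0) (u u' : V) :
    B (rt B w w' d u) (rt B w w' d u') = B u u' := by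
  obtain ⟨h1, h2, h3⟩ := h
  have h4 : B w' w = 1 := by rw [hsym]; exact h3
  have e2 : B u w = B w u := hsym _ _
  have e3 : B u w' = B w' u := hsym _ _
  simp only [rt, map_add, map_smul, LinearMap.add_apply, LinearMap.smul_apply, smul_eq_mul,
    h1, h2, h3, h4, e2, e3]
  field_simp
  ring

end sieg

section plrg

variable (hsym : ∀ u v, B u v = B v u)

theorem PL.swap {w w' : V} (h : PL F B w w') : PL F B w' w := by
  intro d hd hsq
  have := h d⁻¹ (inv_ne_zero hd) (by
    obtain ⟨r, hr⟩ := hsq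
    exact ⟨r⁻¹, by rw [hr, mul_inv]⟩)
  refine this.congr fun u => ?_
  rw [← rt_swap (B := B) w w' d⁻¹ u, inv_inv]

theorem HP.swap (hsym : ∀ u v, B u v = B v u) {w w' : V} (h : HP B w w') : HP B w' w :=
  ⟨h.2.1, h.1, by rw [hsym]; exact h.2.2⟩

theorem PL.scale {w w' : V} (h : PL F B w w') {c : K} (hc : c ≠ 0) :
    PL F B (c • w) (c⁻¹ • w') := fun d hd hsq =>
  (h d hd hsq).congr fun u => (rt_scale w w' hc d u).symm

theorem PL.conj {w w' : V} (h : PL F B w w') {g : V ≃ₗ[K] V} (hg : g ∈ F)
    (hiso : ∀ u v, B (g u) (g v) = B u v) : PL F B (g w) (g w') := fun d hd hsq =>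
  ((h d hd hsq).conj hg).congr fun u => rt_conj hiso w w' d u

theorem RG.conj {s v : V} (h : RG F B s v) {g : V ≃ₗ[K] V} (hg : g ∈ F)
    (hiso : ∀ u v, B (g u) (g v) = B u v) : RG F B (g s) (g v) := fun c =>
  ((h c).conj hg).congr fun u => by rw [sg_conj hiso, map_smul]

theorem RG.smul {s v : V} (h : RG F B s v) (c : K) : RG F B s (c • v) := fun x => by
  rw [smul_smul]; exact h (x * c)

theorem RG.smul_left {s v : V} (h : RG F B s v) (c : K) : RG F B (c • s) v := fun x =>
  (h (c * x)).congr fun u => by rw [sg_smul, smul_smul]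

theorem RG.shift (hsym : ∀ u v, B u v = B v u) {s v : V} (h : RG F B s v) (hs : B s s = 0)
    (hv : B s v = 0) (c : K) : RG F B s (v + c • s) := fun x =>
  (h x).congr fun u => by
    rw [smul_add, smul_smul, sg_shift hsym hs (by rw [map_smul, hv, smul_zero])]

end plrg

end Pool.Agent.H33.TO
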