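import Pool.Agent.H33.TO.Net
import Pool.Agent.H33.TO.Basic

/-!
# JOB TO-30: groups generated by diagonal elements and root elements of a closed relation

`P` satisfies `NR`.  Let `H` be the group generated by the diagonal elements (any set of
linear equivalences `g` with `IsDg g`) and the elements acting as `sg (ev a) (c • ev b)` with
`a ≠ none`, `P a b`.
(1) `incid`: for `g ∈ H` and all `a, b`: `g (ev b) a ≠ 0 → NP P a b`.  Closure induction: the
entries of `sg (ev x) (c • ev y)` are `1` on the diagonal and otherwise nonzero only at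
`(x, ng y)`, `(y, ng x)`, and `(x, ng x)` if `y = none`
(`sg (ev x) (c • ev y) (ev b) = ev b + bl(ev b, ev x) c ev y - c bl(ev b, ev y) ev x - ...`,
`bl (ev b) (ev x) = (ev x) (ng b)`), and `NP P x (ng y)`, `NP P y (ng x)`, `NP P x (ng x)` (with
witness `none`) hold.  Products: `(g h) (ev b) a = ∑ c, h (ev b) c * g (ev c) a`, use
`net_trans`.  The generators are closed under inverses (inverse of a diagonal element is
diagonal; `sg (ev a) (c • ev b)` has inverse `sg (ev a) (-c • ev b)`), so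
`Subgroup.closure_induction''` or a similar principle works.  To avoid problems with
inverses: the statement below includes that the given set of diagonal elements is closed under
inverses.
(2) `incid_root`: if `g ∈ H` acts as `sg (ev a) (c • ev b)`, `c ≠ 0`, `a ≠ none`, `b ≠ a`,
`b ≠ ng a`, then `P a b`: the entry `(a, ng b)` is `-c ≠ 0`, so `NP P a (ng b)`; `a = ng b` is
excluded; `P a (ng (ng b)) = P a b`; `ng b = ng a` is excluded.
-/

namespace Pool.Agent.H33.TO

variable {l : ℕ} {K : Type*} [Field K]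

/-- the entries of a coordinate root element -/
theorem sg_ent (x y : Ix l) (c : K) {a b : Ix l}
    (h : sg (bl l K) (ev x) (c • ev y) (ev b) a ≠ 0) :
    a = b ∨ (a = y ∧ b = ng x) ∨ (a = x ∧ b = ng y) ∨ (y = none ∧ a = x ∧ b = ng x) := by
  by_contra hcon
  push Not at hcon
  obtain ⟨c0, c1, c2, c3⟩ := hcon
  apply h
  have e : sg (bl l K) (ev x) (c • ev y) (ev b) a = (ev b : Ix l → K) a +
      (ev x : Ix l → K) (ng b) * c * (ev y : Ix l → K) a -
      c * (ev y : Ix l → K) (ng b) * (ev x : Ix l → K) a -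
      (1 / 2 * c * c * (ev y : Ix l → K) (ng y) * (ev x : Ix l → K) (ng b)) *
        (ev x : Ix l → K) a := by
    simp only [sg, bl_ev, map_smul, LinearMap.smul_apply, Pi.add_apply, Pi.sub_apply,
      Pi.smul_apply, smul_eq_mul]
    ring
  rw [e, ev_ne c0]
  have t1 : (ev x : Ix l → K) (ng b) * (ev y : Ix l → K) a = 0 := by
    by_cases e1 : ng b = x
    · rw [ev_ne (fun e2 => c1 e2 (ng_eq_iff.1 e1) : a ≠ y), mul_zero]
    · rw [ev_ne e1, zero_mul]
  have t2 : (ev y : Ix l → K) (ng b) * (ev x : Ix l → K) a = 0 := by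
    by_cases e1 : ng b = y
    · rw [ev_ne (fun e2 => c2 e2 (ng_eq_iff.1 e1) : a ≠ x), mul_zero]
    · rw [ev_ne e1, zero_mul]
  have t3 : (ev y : Ix l → K) (ng y) * (ev x : Ix l → K) (ng b) *
      (ev x : Ix l → K) a = 0 := by
    by_cases e0 : y = none
    · by_cases e1 : ng b = x
      · rw [ev_ne (fun e2 => c3 e0 e2 (ng_eq_iff.1 e1) : a ≠ x), mul_zero]
      · rw [ev_ne e1, mul_zero, zero_mul]
    · rw [ev_ne (ng_ne_self e0), zero_mul, zero_mul]
  linear_combination c * t1 - c * t2 - (1 / 2 * c * c) * t3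

theorem np_root {P : Ix l → Ix l → Prop} (hP : NR P) {x y : Ix l} (hxy : P x y) (c : K)
    {a b : Ix l} (h : sg (bl l K) (ev x) (c • ev y) (ev b) a ≠ 0) : NP P a b := by
  rcases sg_ent x y c h with rfl | ⟨rfl, rfl⟩ | ⟨rfl, rfl⟩ | ⟨rfl, rfl, rfl⟩
  · exact NP.refl P _
  · exact Or.inr (Or.inl (by rw [ng_ng]; exact hP.symm _ _ hxy))
  · exact Or.inr (Or.inl (by rw [ng_ng]; exact hxy))
  · exact Or.inr (Or.inr ⟨rfl, none, hxy, by rw [ng_none]; exact hxy⟩)

theorem np_dg {P : Ix l → Ix l → Prop} {g : (Ix l → K) ≃ₗ[K] (Ix l → K)} (hg : IsDg g)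
    {a b : Ix l} (h : g (ev b) a ≠ 0) : NP P a b := by
  by_cases e : a = b
  · exact Or.inl e
  · exfalso
    apply h
    obtain ⟨c, hc⟩ := hg b
    rw [hc, Pi.smul_apply, ev_ne e, smul_zero]

theorem np_mul {P : Ix l → Ix l → Prop} (hP : NR P) {g h : (Ix l → K) ≃ₗ[K] (Ix l → K)}
    (hg : ∀ a b, g (ev b) a ≠ 0 → NP P a b) (hh : ∀ a b, h (ev b) a ≠ 0 → NP P a b)
    (a b : Ix l) (hab : (g * h) (ev b) a ≠ 0) : NP P a b := by
  have e : (g * h) (ev b) a = ∑ c, h (ev b) c * g (ev c) a := by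
    rw [LinearEquiv.mul_apply]
    conv_lhs => rw [sum_ev (h (ev b))]
    rw [map_sum, Finset.sum_apply]
    refine Finset.sum_congr rfl fun c _ => ?_
    rw [map_smul, Pi.smul_apply, smul_eq_mul]
  rw [e] at hab
  obtain ⟨c, -, hc⟩ := Finset.exists_ne_zero_of_sum_ne_zero hab
  exact net_trans hP (hg a c (right_ne_zero_of_mul hc)) (hh c b (left_ne_zero_of_mul hc))

theorem incid (h2 : (2 : K) ≠ 0) {P : Ix l → Ix l → Prop} (hP : NR P)
    (D : Set ((Ix l → K) ≃ₗ[K] (Ix l → K))) (hD : ∀ g ∈ D, IsDg g ∧ g⁻¹ ∈ D)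
    {g : (Ix l → K) ≃ₗ[K] (Ix l → K)}
    (hg : g ∈ Subgroup.closure (D ∪ {g | ∃ a b : Ix l, ∃ c : K, a ≠ none ∧ P a b ∧
      ∀ u, g u = sg (bl l K) (ev a) (c • ev b) u})) {a b : Ix l} (h : g (ev b) a ≠ 0) :
    NP P a b := by
  have key : (∀ a b : Ix l, g (ev b) a ≠ 0 → NP P a b) ∧
      (∀ a b : Ix l, g⁻¹ (ev b) a ≠ 0 → NP P a b) := by
    refine Subgroup.closure_induction (p := fun g _ =>
      (∀ a b : Ix l, g (ev b) a ≠ 0 → NP P a b) ∧
        (∀ a b : Ix l, g⁻¹ (ev b) a ≠ 0 → NP P a b)) ?_ ?_ ?_ ?_ hg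
    · rintro x (hx | ⟨s, t, c, hs, hst, hx⟩)
      · exact ⟨fun a b h => np_dg (hD x hx).1 h, fun a b h => np_dg (hD _ (hD x hx).2).1 h⟩
      · refine ⟨fun a b h => np_root hP hst c (by rw [← hx]; exact h), fun a b h => ?_⟩
        refine np_root hP hst (-c) ?_
        have e1 : x⁻¹ (ev b) = sg (bl l K) (ev s) (-c • ev t) (ev b) := by
          apply x.injective
          have e2 : x (x⁻¹ (ev b)) = ev b := by
            rw [← LinearEquiv.mul_apply, mul_inv_cancel]; rfl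
          have hvs : bl l K (ev s) (ev t) = 0 := by
            rw [bl_ev, ev_ne]
            exact fun e => (hP.ne _ _ hst).2 e.symm
          rw [e2, hx, sg_comp bl_symm h2 (hp_ev hs).1 (by rw [map_smul, hvs, smul_zero])
            (by rw [map_smul, hvs, smul_zero]), ← add_smul, add_neg_cancel, zero_smul, sg_zero]
        rw [← e1]
        exact h
    · refine ⟨fun a b h => ?_, fun a b h => ?_⟩
      · refine np_dg (g := 1) (fun a => ⟨1, ?_⟩) h
        rw [one_smul]; rfl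
      · rw [inv_one] at h
        refine np_dg (g := 1) (fun a => ⟨1, ?_⟩) h
        rw [one_smul]; rfl
    · rintro x y _ _ ⟨hx, hx'⟩ ⟨hy, hy'⟩
      refine ⟨np_mul hP hx hy, fun a b h => ?_⟩
      rw [mul_inv_rev] at h
      exact np_mul hP hy' hx' a b h
    · rintro x _ ⟨hx, hx'⟩
      exact ⟨hx', by rw [inv_inv]; exact hx⟩
  exact key.1 a b h

theorem incid_root (h2 : (2 : K) ≠ 0) {P : Ix l → Ix l → Prop} (hP : NR P)
    (D : Set ((Ix l → K) ≃ₗ[K] (Ix l → K))) (hD : ∀ g ∈ D, IsDg g ∧ g⁻¹ ∈ D)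
    {g : (Ix l → K) ≃ₗ[K] (Ix l → K)}
    (hg : g ∈ Subgroup.closure (D ∪ {g | ∃ a b : Ix l, ∃ c : K, a ≠ none ∧ P a b ∧
      ∀ u, g u = sg (bl l K) (ev a) (c • ev b) u})) {a b : Ix l} {c : K} (ha : a ≠ none)
    (hb : b ≠ a) (hb' : b ≠ ng a) (hc : c ≠ 0)
    (h : ∀ u, g u = sg (bl l K) (ev a) (c • ev b) u) : P a b := by
  have hab : a ≠ ng b := fun e => hb' (ng_eq_iff.1 e.symm)
  have h1 : g (ev (ng b)) a ≠ 0 := by
    rw [h]
    have e : sg (bl l K) (ev a) (c • ev b) (ev (ng b)) a = -c := by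
      simp only [sg, bl_ev, map_smul, LinearMap.smul_apply, Pi.add_apply, Pi.sub_apply,
        Pi.smul_apply, smul_eq_mul, ng_ng]
      rw [ev_ne hab, ev_ne hb, ev_ne (Ne.symm hb : a ≠ b), ev_same, ev_same]
      ring
    rw [e]
    exact neg_ne_zero.2 hc
  rcases incid h2 hP D hD hg h1 with e | e | ⟨e, _⟩
  · exact absurd e hab
  · rwa [ng_ng] at e
  · exact absurd (ng_inj e) hb

end Pool.Agent.H33.TO
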