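import Pool.Agent.H33.TO.TorA

/-!
# JOB TO-4: Lemma T and invariant subspaces

Notation: `F` contains the torus `T₀` (`Ctx`), coordinates are indexed by `Ix l`,
`(ev a)` is the basis vector, `bl (ev a) u = u (ng a)` (`bl_ev`).

(1) `two_sq`: there are two different squares `d, e ≠ 1` in `Kˣ`, and a square whose square is
not `1`.  Use the codes (`Codes.lean`): q = 7: 2 = 3², 4 = 2² (and 2² = 4 ≠ 1);
q = 11: 4 = 2², 5 = 4²; q = 9: `i` is a square (`i = (1 + 2 i)²`, in char 3), `-1 = i²`.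
Or by counting: the squares form a subgroup of order `(q-1)/2 ≥ 3` of `Kˣ`.
(2) `two_squares`: every element of `K` is a sum of two squares (finite field of odd order,
Mathlib: `FiniteField.exists_root_sum_quadratic` or counting).
(3) For `a ≠ none` let `Y = {y : y (ng a) = 0 ∧ Has F (sg bl (ev a) y)}`.  It is a `K`-subspace:
closed under sums (`sg_comp`, `bl (ev a) y = y (ng a) = 0`), and for a square `d ≠ 0` it is
closed under `y ↦ d y`: conjugation by the rotation `t = rt (ev a) (ev (ng a)) d ∈ F` (`pl_ev`)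
gives `sg (t (ev a)) (t y) = sg (d • ev a) (t y) = sg (ev a) (d • t y)`, and
`t y = y + (d - 1) y_a (ev a)` (as `y (ng a) = 0`), so by `sg_shift` it is
`sg (ev a) (d • y)`.  By (2) it is closed under all scalars.  Also `ev a ∈ Y` (`sg (ev a) (ev a)`
is the identity, by `sg_shift`).
(4) Let `y ∈ Y`, `b ≠ none`, `b ≠ a`, `b ≠ ng a`, `y b ≠ 0`.  Conjugation by the rotation `t`
in the plane `ev b, ev (ng b)` by a square `d` fixes `ev a`, so `t y ∈ Y`, and
`t y - y = (d - 1) y_b (ev b) + (d⁻¹ - 1) y_{-b} (ev (ng b)) ∈ Y`.  For two different squares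
`d, e ≠ 1` (from (1)) the vectors `((d-1), (d⁻¹-1))`, `((e-1), (e⁻¹-1))` are linearly
independent (determinant `(d-1)(e-1)(e⁻¹ ... )`: it is `(d-1)(e-1)(1/d - 1/e)` up to sign), so
`ev b ∈ Y`, i.e. `RG F bl (ev a) (ev b)`; by `sg_swap` also `RG F bl (ev b) (ev a)`:
`sg (ev b) (c • ev a) = sg (c • ev b) (ev a) = sg (ev a) (-c • ev b)`.
(5) `b = none`: subtract from `y` the multiples of the `ev c`, `c ≠ none, a, ng a`, `y c ≠ 0`,
which lie in `Y` by (4), and `y_a (ev a)`; what remains is `y_none (ev none) ∈ Y`.  This gives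
`RG F bl (ev a) (ev none)`, and for `SS F a none` nothing else is needed.
So `lemT` holds.
(6) `coord_of_stable`: a subspace `W` stable under `F ⊇ T₀` is spanned by basis vectors: for
`w ∈ W`, `b ≠ none`: `t w - w ∈ W` with `t` the rotations in the plane `ev b, ev (ng b)` as in
(4), so `w b ≠ 0` implies `ev b ∈ W`; for `b = none` subtract the other components.
(7) `sg_mem_ES`: `y = ∑ y_b (ev b)`, the sum over `b ≠ ng a`; `sg (ev a) y` is the product (in
any order, `sg_comp`) of the `sg (ev a) (y_b (ev b))` for `b ≠ a, ng a` with `y_b ≠ 0` (elements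
of `RE F`), and `sg (ev a) (y_a (ev a)) = id`.  Induction on a finite set of indices.
-/

namespace Pool.Agent.H33.TO

variable {l : ℕ} {K : Type*} [Field K] {F : Subgroup ((Ix l → K) ≃ₗ[K] (Ix l → K))}

theorem two_sq {q : ℕ} (hq : QK q K) : ∃ d e : K, IsSquare d ∧ IsSquare e ∧ d ≠ 0 ∧ e ≠ 0 ∧
    d ≠ 1 ∧ e ≠ 1 ∧ d ≠ e ∧ d * d ≠ 1 := by
  have h2 := hq.two_ne
  obtain ⟨h, h7 | h9 | h11⟩ := hq
  · subst h7
    have hc : ((7 : ℕ) : K) = 0 := by have := card_cast K; rwa [h] at this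
    have h3 : (3 : K) ≠ 0 := by exact_mod_cast cast_ne_of_prime hc 3 (by norm_num)
    push_cast at hc
    have h4 : (4 : K) ≠ 0 := fun h4 => h2 (by
      have : (2 : K) * 2 = 0 := by rw [← h4]; norm_num
      exact (mul_self_eq_zero.1 this))
    refine ⟨2, 4, ⟨3, ?_⟩, ⟨2, ?_⟩, h2, h4, ?_, ?_, ?_, ?_⟩
    · linear_combination -hc
    · norm_num
    · intro h; exact one_ne_zero (α := K) (by linear_combination h)
    · intro h; exact h3 (by linear_combination h)
    · intro h; exact h2 (by linear_combination -h)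
    · intro h; exact h3 (by linear_combination h)
  · subst h9
    have hc := three_eq_zero h
    push_cast at hc
    obtain ⟨i, hi⟩ := exists_i h
    have hne : (-1 : K) ≠ 1 := fun h => h2 (by linear_combination -h)
    refine ⟨i, -1, ⟨1 + 2 * i, ?_⟩, ⟨i, hi.symm⟩, ?_, by simp, ?_, hne, ?_, ?_⟩
    · linear_combination -4 * hi + (1 - i) * hc
    · intro h; rw [h, zero_mul] at hi; exact one_ne_zero (α := K) (by linear_combination hi)
    · intro h; rw [h, one_mul] at hi; exact hne hi.symm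
    · intro h; rw [h] at hi; exact hne (by linear_combination -hi)
    · rw [hi]; exact hne
  · subst h11
    have hc : ((11 : ℕ) : K) = 0 := by have := card_cast K; rwa [h] at this
    have h3 : (3 : K) ≠ 0 := by exact_mod_cast cast_ne_of_prime hc 3 (by norm_num)
    have h4 : (4 : K) ≠ 0 := by exact_mod_cast cast_ne_of_prime hc 4 (by norm_num)
    have h5 : (5 : K) ≠ 0 := by exact_mod_cast cast_ne_of_prime hc 5 (by norm_num)
    push_cast at hc
    refine ⟨4, 5, ⟨2, ?_⟩, ⟨4, ?_⟩, h4, h5, ?_, ?_, ?_, ?_⟩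
    · norm_num
    · linear_combination -hc
    · intro h; exact h3 (by linear_combination h)
    · intro h; exact h4 (by linear_combination h)
    · intro h; exact one_ne_zero (α := K) (by linear_combination -h)
    · intro h; exact h4 (by linear_combination h - hc)

theorem two_squares {q : ℕ} (hq : QK q K) (x : K) : ∃ a b : K, x = a * a + b * b := by
  have hfin : Finite K := hq.finite
  have : Fintype K := Fintype.ofFinite K
  have hodd : Fintype.card K % 2 = 1 := by
    rw [← Nat.card_eq_fintype_card, hq.1]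
    rcases hq.2 with h | h | h <;> rw [h]
  obtain ⟨a, b, hab⟩ := FiniteField.exists_root_sum_quadratic (R := K)
    (f := Polynomial.X ^ 2) (g := Polynomial.X ^ 2 - Polynomial.C x)
    (by simp) (Polynomial.degree_X_pow_sub_C (by norm_num) x) hodd
  refine ⟨a, b, ?_⟩
  simp only [Polynomial.eval_pow, Polynomial.eval_X, Polynomial.eval_sub,
    Polynomial.eval_C] at hab
  linear_combination -hab

theorem sub_trick {q : ℕ} (hq : QK q K) (Y : Submodule K (Ix l → K)) {b : Ix l} {w : Ix l → K}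
    (h : ∀ d : K, d ≠ 0 → IsSquare d →
      ((d - 1) * w b) • (ev b : Ix l → K) + ((d⁻¹ - 1) * w (ng b)) • (ev (ng b) : Ix l → K) ∈ Y)
    (hb : w b ≠ 0) : ev b ∈ Y := by
  obtain ⟨d, e, sd, se, d0, e0, d1, e1, hde, -⟩ := two_sq hq
  have h1 := Y.sub_mem (Y.smul_mem (e⁻¹ - 1) (h d d0 sd)) (Y.smul_mem (d⁻¹ - 1) (h e e0 se))
  set c : K := (d - 1) * (e - 1) * (d⁻¹ - e⁻¹) * w b with hc
  have h2 : c • (ev b : Ix l → K) ∈ Y := by
    convert h1 using 1
    rw [hc]
    match_scalars <;> field_simp <;> ring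
  have hc0 : c ≠ 0 := by
    refine mul_ne_zero (mul_ne_zero (mul_ne_zero (sub_ne_zero.2 d1) (sub_ne_zero.2 e1)) ?_) hb
    intro h
    exact hde (inv_injective (sub_eq_zero.1 h))
  have h3 := Y.smul_mem c⁻¹ h2
  rwa [smul_smul, inv_mul_cancel₀ hc0, one_smul] at h3

theorem sub_none (Y : Submodule K (Ix l → K)) {w : Ix l → K} (hw : w ∈ Y)
    (h : ∀ c, c ≠ none → w c = 0 ∨ (ev c : Ix l → K) ∈ Y) (h0 : w none ≠ 0) :
    (ev none : Ix l → K) ∈ Y := by
  have h1 : w none • (ev none : Ix l → K) =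
      w - ∑ c ∈ Finset.univ.erase (none : Ix l), w c • (ev c : Ix l → K) := by
    have := sum_ev w
    rw [← Finset.add_sum_erase _ _ (Finset.mem_univ (none : Ix l))] at this
    exact eq_sub_of_add_eq this.symm
  have h2 : w none • (ev none : Ix l → K) ∈ Y := by
    rw [h1]
    refine Y.sub_mem hw (Y.sum_mem fun c hc => ?_)
    rcases h c (Finset.ne_of_mem_erase hc) with h | h
    · rw [h, zero_smul]; exact Y.zero_mem
    · exact Y.smul_mem _ h
  have h3 := Y.smul_mem (w none)⁻¹ h2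
  rwa [smul_smul, inv_mul_cancel₀ h0, one_smul] at h3

section YY

variable {a : Ix l}

theorem y_add {q : ℕ} (hq : QK q K) (ha : a ≠ none) {y y' : Ix l → K} (h1 : y (ng a) = 0)
    (h2 : y' (ng a) = 0) (h3 : Has F (sg (bl l K) (ev a) y)) (h4 : Has F (sg (bl l K) (ev a) y')) :
    Has F (sg (bl l K) (ev a) (y + y')) :=
  (h3.comp h4).congr fun u => sg_comp bl_symm hq.two_ne (hp_ev ha).1 (by rw [bl_ev, h1])
    (by rw [bl_ev, h2]) u

theorem y_sq (hF : Ctx l K F) (ha : a ≠ none) {y : Ix l → K} (h1 : y (ng a) = 0)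
    (h3 : Has F (sg (bl l K) (ev a) y)) {d : K} (hd : IsSquare d) :
    Has F (sg (bl l K) (ev a) (d • y)) := by
  by_cases hd0 : d = 0
  · rw [hd0, zero_smul]
    exact Has.id.congr fun u => (sg_zero _ u).symm
  obtain ⟨g, hg, hg'⟩ := pl_ev hF ha d hd0 hd
  have e1 : g (ev a) = d • ev a := by
    rw [hg']
    simp only [rt, bl_ev, ng_ng, ev_same, ev_ne (ng_ne_self ha), mul_one, mul_zero, zero_smul,
      add_zero]
    module
  have e2 : g y = y + ((d - 1) * y a) • ev a := by
    rw [hg']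
    simp only [rt, bl_ev, ng_ng, h1, mul_zero, zero_smul, add_zero]
  refine (h3.conj hg).congr fun u => ?_
  rw [sg_conj (hF.iso g hg), e1, e2, sg_smul, smul_add, smul_smul,
    sg_shift bl_symm (hp_ev ha).1 (by rw [bl_ev, Pi.smul_apply, h1, smul_zero])]

/-- the vectors `y` with `sg (ev a) y ∈ F` -/
def YY {q : ℕ} (hq : QK q K) (hF : Ctx l K F) (a : Ix l) (ha : a ≠ none) :
    Submodule K (Ix l → K) where
  carrier := {y | y (ng a) = 0 ∧ Has F (sg (bl l K) (ev a) y)}
  add_mem' := by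
    rintro y y' ⟨h1, h2⟩ ⟨h3, h4⟩
    exact ⟨by rw [Pi.add_apply, h1, h3, add_zero], y_add hq ha h1 h3 h2 h4⟩
  zero_mem' := ⟨rfl, Has.id.congr fun u => (sg_zero _ u).symm⟩
  smul_mem' := by
    rintro c y ⟨h1, h2⟩
    refine ⟨by rw [Pi.smul_apply, h1, smul_zero], ?_⟩
    obtain ⟨r, s, rfl⟩ := two_squares hq c
    rw [add_smul]
    exact y_add hq ha (by rw [Pi.smul_apply, h1, smul_zero])
      (by rw [Pi.smul_apply, h1, smul_zero]) (y_sq hF ha h1 h2 ⟨r, rfl⟩)
      (y_sq hF ha h1 h2 ⟨s, rfl⟩)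

theorem mem_YY {q : ℕ} (hq : QK q K) (hF : Ctx l K F) (ha : a ≠ none) {y : Ix l → K} :
    y ∈ YY hq hF a ha ↔ y (ng a) = 0 ∧ Has F (sg (bl l K) (ev a) y) := Iff.rfl

theorem ev_self_YY {q : ℕ} (hq : QK q K) (hF : Ctx l K F) (ha : a ≠ none) :
    (ev a : Ix l → K) ∈ YY hq hF a ha := by
  refine ⟨ev_ne (ng_ne_self ha), Has.id.congr fun u => ?_⟩
  have := sg_shift (B := bl l K) bl_symm (hp_ev ha).1 (v := 0) (by rw [map_zero]) 1 u
  rw [one_smul, zero_add, sg_zero] at this
  exact this.symm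

theorem ev_YY {q : ℕ} (hq : QK q K) (hF : Ctx l K F) (ha : a ≠ none) {b : Ix l} {y : Ix l → K}
    (hy : y ∈ YY hq hF a ha) (hb0 : b ≠ none) (hb : b ≠ a) (hb' : b ≠ ng a) (hyb : y b ≠ 0) :
    (ev b : Ix l → K) ∈ YY hq hF a ha := by
  refine sub_trick hq _ (fun d hd hsq => ?_) hyb
  obtain ⟨g, hg, hg'⟩ := pl_ev hF hb0 d hd hsq
  have hab : a ≠ ng b := fun h => hb' (by rw [h, ng_ng])
  have e1 : g (ev a) = ev a := by
    rw [hg']
    simp only [rt, bl_ev, ng_ng, ev_ne hb, ev_ne (Ne.symm hab), mul_zero, zero_smul, add_zero]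
  have e2 : g y = y + ((d - 1) * y b) • ev b + ((d⁻¹ - 1) * y (ng b)) • ev (ng b) := by
    rw [hg']
    simp only [rt, bl_ev, ng_ng]
  have h1 : g y ∈ YY hq hF a ha := by
    refine ⟨?_, (hy.2.conj hg).congr fun u => ?_⟩
    · rw [e2]
      simp only [Pi.add_apply, Pi.smul_apply, hy.1, ev_ne (Ne.symm hb'),
        ev_ne (fun h => hb (ng_inj h).symm : ng a ≠ ng b), smul_zero, add_zero]
    · rw [sg_conj (hF.iso g hg), e1]
  have h2 := Submodule.sub_mem _ h1 hy
  rw [e2, add_assoc, add_sub_cancel_left] at h2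
  exact h2

theorem rg_of_YY {q : ℕ} (hq : QK q K) (hF : Ctx l K F) (ha : a ≠ none) {b : Ix l}
    (h : (ev b : Ix l → K) ∈ YY hq hF a ha) (hb : b ≠ a) (hb' : b ≠ ng a) : SS F a b := by
  have h1 : RG F (bl l K) (ev a) (ev b) := fun c => (Submodule.smul_mem _ c h).2
  refine ⟨hb, hb', fun _ => h1, fun hb0 c => ?_⟩
  refine (h1 (-c)).congr fun u => ?_
  rw [← sg_smul (B := bl l K) (ev b) (ev a) c u,
    sg_swap (B := bl l K) (s := c • ev b) (v := ev a) (by simp [(hp_ev hb0).1]) (hp_ev ha).1 u,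
    neg_smul]

end YY

/-- Lemma T -/
theorem lemT {q : ℕ} (hq : QK q K) (hF : Ctx l K F) {a b : Ix l} {y : Ix l → K}
    (ha : a ≠ none) (hy : y (ng a) = 0) (hx : Has F (sg (bl l K) (ev a) y)) (hb : b ≠ a)
    (hb' : b ≠ ng a) (hyb : y b ≠ 0) : SS F a b := by
  have hY : y ∈ YY hq hF a ha := ⟨hy, hx⟩
  refine rg_of_YY hq hF ha ?_ hb hb'
  by_cases hb0 : b = none
  · subst hb0
    refine sub_none _ hY (fun c hc => ?_) hyb
    by_cases h0 : y c = 0
    · exact Or.inl h0
    right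
    by_cases hca : c = a
    · rw [hca]; exact ev_self_YY hq hF ha
    by_cases hca' : c = ng a
    · rw [hca'] at h0; exact absurd hy h0
    exact ev_YY hq hF ha hY hc hca hca' h0
  · exact ev_YY hq hF ha hY hb0 hb hb' hyb

/-- an `F`-stable subspace is a coordinate subspace -/
theorem coord_of_stable {q : ℕ} (hq : QK q K) (hF : Ctx l K F)
    (W : Submodule K (Ix l → K)) (hW : ∀ g ∈ F, ∀ w ∈ W, g w ∈ W) {w : Ix l → K} (hw : w ∈ W)
    {a : Ix l} (ha : w a ≠ 0) : ev a ∈ W := by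
  have key : ∀ b, b ≠ none → w b ≠ 0 → (ev b : Ix l → K) ∈ W := by
    intro b hb0 hb
    refine sub_trick hq _ (fun d hd hsq => ?_) hb
    obtain ⟨g, hg, hg'⟩ := pl_ev hF hb0 d hd hsq
    have e2 : g w = w + ((d - 1) * w b) • ev b + ((d⁻¹ - 1) * w (ng b)) • ev (ng b) := by
      rw [hg']
      simp only [rt, bl_ev, ng_ng]
    have h2 := Submodule.sub_mem _ (hW g hg w hw) hw
    rw [e2, add_assoc, add_sub_cancel_left] at h2
    exact h2
  by_cases ha0 : a = none
  · subst ha0
    refine sub_none _ hw (fun c hc => ?_) ha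
    by_cases h0 : w c = 0
    · exact Or.inl h0
    · exact Or.inr (key c hc h0)
  · exact key a ha0 ha

theorem SS.symm {a b : Ix l} (h : SS F a b) : SS F b a := by
  obtain ⟨h1, h2, h3, h4⟩ := h
  exact ⟨Ne.symm h1, fun h => h2 (by rw [h, ng_ng]), h4, h3⟩

/-- a Siegel transformation all whose components lie in `F` lies in `ES F` -/
theorem sg_mem_ES {q : ℕ} (hq : QK q K) {a : Ix l} {y : Ix l → K} (ha : a ≠ none)
    (hy : y (ng a) = 0) (h : ∀ b, b ≠ a → y b ≠ 0 → SS F a b)
    {g : (Ix l → K) ≃ₗ[K] (Ix l → K)} (hg : ∀ u, g u = sg (bl l K) (ev a) y u) :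
    g ∈ ES F := by
  have hz : ∀ b, bl l K (ev a) (y b • (ev b : Ix l → K)) = 0 := by
    intro b
    rw [bl_ev, Pi.smul_apply]
    by_cases hb : b = ng a
    · rw [hb, hy, zero_smul]
    · rw [ev_ne (Ne.symm hb), smul_zero]
  have key : ∀ S : Finset (Ix l), ∃ x ∈ ES F, ∀ u,
      x u = sg (bl l K) (ev a) (∑ b ∈ S, y b • (ev b : Ix l → K)) u := by
    intro S
    induction S using Finset.induction_on with
    | empty => exact ⟨1, Subgroup.one_mem _, fun u => by rw [Finset.sum_empty, sg_zero]; rfl⟩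
    | insert b S hb ih =>
      obtain ⟨x, hx, hx'⟩ := ih
      obtain ⟨x1, hx1, hx1'⟩ : ∃ x1 ∈ ES F, ∀ u,
          x1 u = sg (bl l K) (ev a) (y b • (ev b : Ix l → K)) u := by
        by_cases hb0 : y b = 0
        · exact ⟨1, Subgroup.one_mem _, fun u => by rw [hb0, zero_smul, sg_zero]; rfl⟩
        by_cases hba : b = a
        · refine ⟨1, Subgroup.one_mem _, fun u => ?_⟩
          have := sg_shift (B := bl l K) bl_symm (hp_ev ha).1 (v := 0) (by rw [map_zero])
            (y b) u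
          rw [zero_add, sg_zero] at this
          rw [hba] at this ⊢
          exact this.symm
        · have hS := h b hba hb0
          obtain ⟨x1, hx1, hx1'⟩ := hS.2.2.1 ha (y b)
          exact ⟨x1, Subgroup.subset_closure ⟨a, b, y b, ha, hS, hx1'⟩, hx1'⟩
      refine ⟨x1 * x, Subgroup.mul_mem _ hx1 hx, fun u => ?_⟩
      rw [LinearEquiv.mul_apply, hx1', hx', Finset.sum_insert hb,
        sg_comp bl_symm hq.two_ne (hp_ev ha).1 (hz b)
          (by rw [map_sum]; exact Finset.sum_eq_zero fun c _ => hz c)]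
  obtain ⟨x, hx, hx'⟩ := key Finset.univ
  have : g = x := by
    ext1 u
    rw [hg, hx', ← sum_ev]
  rw [this]
  exact hx

/-- a Siegel transformation as a linear equivalence -/
theorem exists_sg {V : Type*} [AddCommGroup V] [Module K V] {B : LinearMap.BilinForm K V}
    (hsym : ∀ u v, B u v = B v u) (h2 : (2 : K) ≠ 0) {s v : V} (hs : B s s = 0)
    (hv : B s v = 0) : ∃ g : V ≃ₗ[K] V, ∀ u, g u = sg B s v u := by
  have h3 : B s (-v) = 0 := by rw [map_neg, hv, neg_zero]
  have h4 : ∀ u, sg B s v (sg B s (-v) u) = u := fun u => by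
    rw [sg_comp hsym h2 hs hv h3, add_neg_cancel, sg_zero]
  have h5 : ∀ u, sg B s (-v) (sg B s v u) = u := fun u => by
    rw [sg_comp hsym h2 hs h3 hv, neg_add_cancel, sg_zero]
  have h6 : ∀ x y, sg B s v (x + y) = sg B s v x + sg B s v y := fun x y => by
    simp only [sg, map_add, LinearMap.add_apply]
    module
  have h7 : ∀ (c : K) (x : V), sg B s v (c • x) = c • sg B s v x := fun c x => by
    simp only [sg, map_smul, LinearMap.smul_apply, smul_eq_mul]
    module
  exact ⟨{ toFun := sg B s v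
           map_add' := h6
           map_smul' := h7
           invFun := sg B s (-v)
           left_inv := h5
           right_inv := h4 }, fun u => rfl⟩

/-- elements of `ES F` lie in `F` -/
theorem ES_le : ES F ≤ F := by
  rw [ES, Subgroup.closure_le]
  rintro g ⟨a, b, c, ha, hab, hg⟩
  obtain ⟨g', hg', h⟩ := hab.2.2.1 ha c
  have : g = g' := by ext1 u; rw [hg, h]
  rw [this]
  exact hg'

theorem ES_le_GS : ES F ≤ GS F :=
  Subgroup.closure_mono Set.subset_union_right

theorem GS_le : GS F ≤ F := by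
  rw [GS, Subgroup.closure_le]
  rintro g (⟨hg, -⟩ | hg)
  · exact hg
  · exact ES_le (Subgroup.subset_closure hg)

end Pool.Agent.H33.TO
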