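import Pool.Agent.H33.TO.SpinC
import Pool.Agent.H33.TO.Incid
import Pool.Agent.H33.TO.TorB

/-!
# JOB TO-35: uniqueness for the spin group

`F` contains the torus, `S₁, S₂` closed, `GG K S_i ≤ F ≤ normalizer (GG K S_i)`.  Claim `S₁ = S₂`.
By symmetry `S₁ ⊆ S₂`.  Let `α ∈ S₁`, `α = wt a + wt b`, `a ≠ none`, `b ≠ a`, `b ≠ ng a` (`phi_exists`,
`S₁ ⊆ Phi l`).  Let `x = 1 + c ι(ev a) ι(ev b)` with `c = 1` (`exists_root_elt`), `x ∈ GG K S₁ ≤ F`
normalises `GG K S₂`.  Let `t` be a torus element of the spin group with `π t = tor τ` such that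
`λ := tco τ a * tco τ b ≠ 1`: exists with square product: e.g. `τ` supported at one index `a`
(`dpar a d`), `d` a square `≠ 1` (`two_sq`; `tco (dpar a d) b = 1` as `b ≠ a, ng a`): `λ = d`;
`exists_torus_elt`.  `t ∈ GG K S₂`, so `z := x t x⁻¹ t⁻¹ ∈ GG K S₂`.  `π z`:
`π x = sg (ev a) (-2 • ev b)`, `π (t x⁻¹ t⁻¹)` acts as `sg (tco τ a • ev a) ((2 tco τ b) • ev b)
= sg (ev a) ((2 λ) • ev b)` (`sg_conj`, `sg_smul`; `(π x)⁻¹` acts as `sg (ev a) (2 • ev b)` by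
`sg_comp`), so `π z` acts as `sg (ev a) ((2 λ - 2) • ev b)` (`sg_comp`), `2 λ - 2 ≠ 0`.
The group `π (GG K S₂)` is contained in the closure of
`D ∪ {g | ∃ a b c, a ≠ none ∧ wt a + wt b ∈ S₂ ∧ g acts as sg (ev a) (c • ev b)}`, where `D` is the set
of all `g` with `IsDg g ∧ IsDg g⁻¹` (for `IsT x` both `π x`, `π x⁻¹ ` are diagonal: `IsT x⁻¹` or
directly); for the generators `XX β y`, `β ∈ S₂`, use `pi_root`.  `incid_root` with
`P a b := wt a + wt b ∈ S₂` (`rel_nr`) gives `wt a + wt b ∈ S₂`.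
-/

namespace Pool.Agent.H33.TO

open CliffordAlgebra

variable {l : ℕ} {K : Type*} [Field K]

theorem spinE_can (x : spinGroup (QQ l K)) {a b : CliffordAlgebra (QQ l K)}
    (h : a * (x : CliffordAlgebra (QQ l K)) = b * x) : a = b := by
  have h1 : a * (x : CliffordAlgebra (QQ l K)) * star (x : CliffordAlgebra (QQ l K)) =
      b * (x : CliffordAlgebra (QQ l K)) * star (x : CliffordAlgebra (QQ l K)) := by rw [h]
  rw [mul_assoc, mul_assoc, spinGroup.mul_star_self_of_mem x.2, mul_one, mul_one] at h1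
  exact h1

theorem spinE_dg_inv {g : (Ix l → K) ≃ₗ[K] (Ix l → K)} (h : IsDg g) : IsDg g⁻¹ := by
  intro a
  obtain ⟨c, hc⟩ := h a
  have hc0 : c ≠ 0 := by
    rintro rfl
    rw [zero_smul] at hc
    have h1 : (ev a : Ix l → K) = 0 := by
      apply g.injective
      rw [hc, map_zero]
    have h2 := congrFun h1 a
    rw [ev_same] at h2
    exact one_ne_zero h2
  refine ⟨c⁻¹, ?_⟩
  apply g.injective
  rw [map_smul, hc, smul_smul, inv_mul_cancel₀ hc0, one_smul]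
  rw [← LinearEquiv.mul_apply, mul_inv_cancel]
  rfl

theorem spinE_image (h2 : (2 : K) ≠ 0) {π : spinGroup (QQ l K) →* ((Ix l → K) ≃ₗ[K] (Ix l → K))}
    (hπ : PiD π) {S : Set (Fin l → ℤ)} {w : spinGroup (QQ l K)} (hw : w ∈ GG K S) :
    π w ∈ Subgroup.closure ({g : (Ix l → K) ≃ₗ[K] (Ix l → K) | IsDg g ∧ IsDg g⁻¹} ∪
      {g | ∃ a b : Ix l, ∃ c : K, a ≠ none ∧ (fun a b : Ix l => wt a + wt b ∈ S) a b ∧
      ∀ u, g u = sg (bl l K) (ev a) (c • ev b) u}) := by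
  have h3 : (GG K S) ≤ (Subgroup.closure ({g : (Ix l → K) ≃ₗ[K] (Ix l → K) | IsDg g ∧ IsDg g⁻¹} ∪
      {g | ∃ a b : Ix l, ∃ c : K, a ≠ none ∧ (fun a b : Ix l => wt a + wt b ∈ S) a b ∧
      ∀ u, g u = sg (bl l K) (ev a) (c • ev b) u})).comap π := by
    rw [GG, Subgroup.closure_le]
    rintro x (hx | ⟨α, hα, a, b, ha, hb, hb', hab, c, hc⟩)
    · have h4 := (isT_iff h2 hπ x).1 hx
      exact Subgroup.subset_closure (Or.inl ⟨h4, spinE_dg_inv h4⟩)
    · refine Subgroup.subset_closure (Or.inr ⟨a, b, -2 * c, ha, ?_, pi_root h2 hπ ha hb hb' hc⟩)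
      show wt a + wt b ∈ S
      rw [hab]
      exact hα
  exact h3 hw

theorem spinE_sub {q : ℕ} (hq : QK q K) (F : Subgroup (spinGroup (QQ l K)))
    {S₁ S₂ : Set (Fin l → ℤ)} (h1 : ClosedRt S₁)
    (h2 : ClosedRt S₂) (g1 : GG K S₁ ≤ F)
    (n2 : F ≤ Subgroup.normalizer (GG K S₂ : Set (spinGroup (QQ l K)))) : S₁ ⊆ S₂ := by
  intro α hα
  have h20 : (2 : K) ≠ 0 := hq.two_ne
  obtain ⟨a, b, ha, hb, hb', hab⟩ := phi_exists (h1.1 hα)
  obtain ⟨π, hπ1, hπ2⟩ := exists_pi (l := l) h20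
  have hπ : PiD π := ⟨hπ1, hπ2⟩
  obtain ⟨x, hx⟩ := exists_root_elt (l := l) (K := K) h20 ha hb hb' 1
  have hx1 : x ∈ GG K S₁ := Subgroup.subset_closure (Or.inr ⟨α, hα, a, b, ha, hb, hb', hab, 1, hx⟩)
  have hxn := n2 (g1 hx1)
  obtain ⟨d, e, hdsq, _, hd0, _, hd1, _⟩ := two_sq hq
  have hsq : IsSquare (∏ i, dpar a (Units.mk0 d hd0) i) := by
    have h3 : IsSquare (Units.mk0 d hd0) := by
      obtain ⟨r, hr⟩ := hdsq
      have hr0 : r ≠ 0 := fun h => hd0 (by rw [hr, h, zero_mul])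
      exact ⟨Units.mk0 r hr0, Units.ext (by simpa using hr)⟩
    rcases prod_dpar a ha (Units.mk0 d hd0) with h | h <;> rw [h]
    · exact h3
    · exact h3.inv
  obtain ⟨t, ht⟩ := exists_torus_elt h20 (dpar a (Units.mk0 d hd0)) hsq
  have hT : IsT t := by
    intro a'
    refine ⟨tco (dpar a (Units.mk0 d hd0)) a', ?_⟩
    rw [ht, tor_ev, map_smul, smul_mul_assoc]
  have htG : t ∈ GG K S₂ := Subgroup.subset_closure (Or.inl hT)
  have hz : x * t * x⁻¹ * t⁻¹ ∈ GG K S₂ :=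
    (GG K S₂).mul_mem ((Subgroup.mem_normalizer_iff.1 hxn t).1 htG) ((GG K S₂).inv_mem htG)
  have hev : bl l K (ev a) (ev b) = 0 := by
    rw [bl_ev, ev_ne]
    exact Ne.symm hb'
  have haa : bl l K (ev a) (ev a) = 0 := (hp_ev ha).1
  have hevc : ∀ c : K, bl l K (ev a) (c • ev b) = 0 := fun c => by rw [map_smul, hev, smul_zero]
  -- the action of `t`
  have hπt : ∀ u, π t u = tor (dpar a (Units.mk0 d hd0)) u := by
    intro u
    refine iota_inj h20 (spinE_can t ?_)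
    rw [← hπ.act, ht]
  have hta : π t (ev a) = d • (ev a : Ix l → K) := by
    rw [hπt, tor_ev, tco_dpar, if_neg ha, if_pos rfl]
    rfl
  have htb : π t (ev b) = (ev b : Ix l → K) := by
    rw [hπt, tor_ev, tco_dpar, if_neg ha, if_neg hb, if_neg hb', one_smul]
  -- the action of `x`
  have hπx : ∀ u, π x u = sg (bl l K) (ev a) ((-2 : K) • ev b) u := by
    intro u
    rw [pi_root h20 hπ ha hb hb' hx, mul_one]
  have hπx' : ∀ u, (π x)⁻¹ u = sg (bl l K) (ev a) ((2 : K) • ev b) u := by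
    intro u
    apply (π x).injective
    rw [← LinearEquiv.mul_apply, mul_inv_cancel, hπx, sg_comp bl_symm h20 haa (hevc _) (hevc _), ← add_smul,
      neg_add_cancel, zero_smul, sg_zero]
    rfl
  have hπz : ∀ u, π (x * t * x⁻¹ * t⁻¹) u = sg (bl l K) (ev a) ((2 * d - 2 : K) • ev b) u := by
    intro u
    have e1 : π (x * t * x⁻¹ * t⁻¹) u = π x (π t ((π x)⁻¹ ((π t)⁻¹ u))) := by
      rw [map_mul, map_mul, map_mul, map_inv, map_inv]
      rfl
    rw [e1, hπx', sg_conj (hπ.iso t), hta, map_smul, htb, sg_smul, hπx, smul_smul,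
      sg_comp bl_symm h20 haa (hevc _) (hevc _), ← add_smul]
    congr 2
    ring
  have hmem := spinE_image h20 hπ hz
  have h5 := incid_root h20 (rel_nr h2) {g : (Ix l → K) ≃ₗ[K] (Ix l → K) | IsDg g ∧ IsDg g⁻¹}
    (fun g hg => ⟨hg.1, hg.2, by rw [inv_inv]; exact hg.1⟩) hmem ha hb hb' (c := 2 * d - 2) (by
      intro h
      apply hd1
      have h6 : (2 : K) * (d - 1) = 0 := by linear_combination h
      exact sub_eq_zero.1 ((mul_eq_zero.1 h6).resolve_left h20)) hπz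
  rw [← hab]
  exact h5

theorem spin_unique {q : ℕ} (hq : QK q K) (F : Subgroup (spinGroup (QQ l K)))
    (hT : ∀ x, IsT x → x ∈ F) {S₁ S₂ : Set (Fin l → ℤ)} (h1 : ClosedRt S₁)
    (h2 : ClosedRt S₂) (g1 : GG K S₁ ≤ F) (g2 : GG K S₂ ≤ F)
    (n1 : F ≤ Subgroup.normalizer (GG K S₁ : Set (spinGroup (QQ l K))))
    (n2 : F ≤ Subgroup.normalizer (GG K S₂ : Set (spinGroup (QQ l K)))) : S₁ = S₂ :=
  Set.Subset.antisymm (spinE_sub hq F h1 h2 g1 n2) (spinE_sub hq F h2 h1 g2 n1)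

end Pool.Agent.H33.TO
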