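import Pool.Agent.H33.TO.SpinD
import Pool.Agent.H33.TO.SpinE

/-!
# The adjoint group of type B_l: the special orthogonal group (helper33)
-/

namespace Pool.Agent.H33.TO

variable {l : ℕ} {K : Type*} [Field K]

/-- the special orthogonal group of the split form `bl l K` in `2 l + 1` variables -/
def SO (l : ℕ) (K : Type*) [Field K] : Subgroup ((Ix l → K) ≃ₗ[K] (Ix l → K)) where
  carrier := {g | (∀ u v, bl l K (g u) (g v) = bl l K u v) ∧ LinearEquiv.det g = 1}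
  one_mem' := ⟨fun _ _ => rfl, map_one _⟩
  mul_mem' := by
    rintro a b ⟨h1, h2⟩ ⟨h3, h4⟩
    exact ⟨fun u v => by rw [LinearEquiv.mul_apply, LinearEquiv.mul_apply, h1, h3],
      by rw [map_mul, h2, h4, one_mul]⟩
  inv_mem' := by
    rintro a ⟨h1, h2⟩
    have h3 : ∀ z, a (a⁻¹ z) = z := fun z => a.apply_symm_apply z
    exact ⟨fun u v => by rw [← h1, h3, h3], by rw [map_inv, h2, inv_one]⟩

/-- the elements of the root group of the root `α`: Siegel transformations -/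
def InXO (α : Fin l → ℤ) (x : (Ix l → K) ≃ₗ[K] (Ix l → K)) : Prop :=
  ∃ a b : Ix l, a ≠ none ∧ b ≠ a ∧ b ≠ ng a ∧ wt a + wt b = α ∧ ∃ c : K,
    ∀ u, x u = sg (bl l K) (ev a) (c • ev b) u

/-- the group `G(S)` generated by the torus (the diagonal elements) and the root groups of the
roots in `S` -/
def GO (K : Type*) [Field K] (S : Set (Fin l → ℤ)) : Subgroup ((Ix l → K) ≃ₗ[K] (Ix l → K)) :=
  Subgroup.closure ({x | x ∈ SO l K ∧ IsDg x} ∪ {x | ∃ α ∈ S, InXO α x})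

/-- the diagonal map with entries `tco τ a` -/
noncomputable def torE (τ : Fin l → Kˣ) : (Ix l → K) ≃ₗ[K] (Ix l → K) :=
  LinearEquiv.piCongrRight fun a =>
    LinearEquiv.smulOfNeZero K K (tco τ a) (left_ne_zero_of_mul_eq_one (tco_ng τ a))

theorem torE_apply (τ : Fin l → Kˣ) (u : Ix l → K) : torE τ u = tor τ u := rfl

theorem torE_det (τ : Fin l → Kˣ) : LinearEquiv.det (torE τ) = 1 := by
  apply Units.ext
  rw [LinearEquiv.coe_det, Units.val_one]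
  have h1 : ((torE τ : (Ix l → K) ≃ₗ[K] (Ix l → K)) : (Ix l → K) →ₗ[K] (Ix l → K)) =
      Matrix.toLin' (Matrix.diagonal (tco τ)) := by
    refine LinearMap.ext fun u => ?_
    rw [Matrix.toLin'_apply]
    funext a
    rw [Matrix.mulVec_diagonal]
    rfl
  rw [h1, LinearMap.det_toLin', Matrix.det_diagonal, Fintype.prod_option,
    Fintype.prod_prod_type]
  have h2 : ∀ i : Fin l, ∏ b : Bool, tco τ (some (i, b)) = 1 := by
    intro i
    rw [Fintype.prod_bool]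
    exact tco_ng τ (some (i, true))
  rw [Finset.prod_congr rfl fun i _ => h2 i]
  simp [tco]

theorem torE_iso (τ : Fin l → Kˣ) (u v : Ix l → K) :
    bl l K (torE τ u) (torE τ v) = bl l K u v := by
  rw [torE_apply, torE_apply, bl_apply, bl_apply]
  refine Finset.sum_congr rfl fun a _ => ?_
  show tco τ a * u a * (tco τ (ng a) * v (ng a)) = u a * v (ng a)
  have h := tco_ng τ a
  linear_combination (u a * v (ng a)) * h

theorem torE_mem (τ : Fin l → Kˣ) : torE τ ∈ SO l K ∧ IsDg (torE τ) :=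
  ⟨⟨torE_iso τ, torE_det τ⟩, fun a => ⟨tco τ a, by rw [torE_apply, tor_ev]⟩⟩

theorem adj_ctx {F : Subgroup ((Ix l → K) ≃ₗ[K] (Ix l → K))} (hF : F ≤ SO l K)
    (hT : ∀ x ∈ SO l K, IsDg x → x ∈ F) : Ctx l K F :=
  ⟨fun g hg u v => (hF hg).1 u v,
    fun τ _ => ⟨torE τ, hT _ (torE_mem τ).1 (torE_mem τ).2, torE_apply τ⟩⟩

theorem so_exists {q : ℕ} (hq : QK q K) (hl : 3 ≤ l) (F : Subgroup ((Ix l → K) ≃ₗ[K] (Ix l → K)))
    (hF : F ≤ SO l K) (hT : ∀ x ∈ SO l K, IsDg x → x ∈ F) :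
    ∃ S : Set (Fin l → ℤ), ClosedRt S ∧ GO K S ≤ F ∧
      F ≤ Subgroup.normalizer (GO K S : Set ((Ix l → K) ≃ₗ[K] (Ix l → K))) := by
  have hC := adj_ctx hF hT
  have hstd : Std F := main_std hq hl F hC
  have hnr := ss_nr (F := F) hq hC
  let S : Set (Fin l → ℤ) := {α | ∃ a b, SS F a b ∧ α = wt a + wt b}
  have hin : ∀ (a b a' b' : Ix l), SS F a b → a' ≠ none → b' ≠ a' → b' ≠ ng a' →
      wt a' + wt b' = wt a + wt b → SS F a' b' := by
    intro a b a' b' hab _ hb1 hb2 hwt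
    rcases phi_unique hwt hb1 hb2 with ⟨h1, h3⟩ | ⟨h1, h3⟩
    · rw [h1, h3]; exact hab
    · rw [h1, h3]; exact hab.symm
  have hGF : GO K S ≤ F := by
    rw [GO, Subgroup.closure_le]
    rintro x (⟨hx, hd⟩ | ⟨α, ⟨a, b, hab, rfl⟩, a', b', ha', hb1, hb2, hwt, c, hc⟩)
    · exact hT x hx hd
    · obtain ⟨g, hg, hgu⟩ := (hin a b a' b' hab ha' hb1 hb2 hwt).2.2.1 ha' c
      have : x = g := LinearEquiv.ext fun u => by rw [hc, hgu]
      rw [this]
      exact hg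
  have hEq : GO K S = GS F := by
    apply le_antisymm
    · rw [GO, Subgroup.closure_le]
      rintro x (⟨hx, hd⟩ | ⟨α, ⟨a, b, hab, rfl⟩, a', b', ha', hb1, hb2, hwt, c, hc⟩)
      · exact Subgroup.subset_closure (Or.inl ⟨hT x hx hd, hd⟩)
      · exact Subgroup.subset_closure
          (Or.inr ⟨a', b', c, ha', hin a b a' b' hab ha' hb1 hb2 hwt, hc⟩)
    · rw [GS, Subgroup.closure_le]
      rintro x (⟨hx, hd⟩ | ⟨a, b, c, ha, hab, hc⟩)
      · exact Subgroup.subset_closure (Or.inl ⟨hF hx, hd⟩)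
      · exact Subgroup.subset_closure (Or.inr ⟨wt a + wt b, ⟨a, b, hab, rfl⟩, a, b, ha,
          hab.1, hab.2.1, rfl, c, hc⟩)
  refine ⟨S, closed_of_nr hnr, hGF, ?_⟩
  rw [hEq]
  intro g hg
  rw [Subgroup.mem_normalizer_iff]
  intro x
  constructor
  · exact hstd g hg x
  · intro h
    have h3 := hstd g⁻¹ (F.inv_mem hg) _ h
    have e : g⁻¹ * (g * x * g⁻¹) * g⁻¹⁻¹ = x := by group
    rwa [e] at h3

theorem so_sub {q : ℕ} (hq : QK q K) (F : Subgroup ((Ix l → K) ≃ₗ[K] (Ix l → K)))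
    {S₁ S₂ : Set (Fin l → ℤ)} (h1 : ClosedRt S₁)
    (h2 : ClosedRt S₂) (g1 : GO K S₁ ≤ F)
    (n2 : F ≤ Subgroup.normalizer (GO K S₂ : Set ((Ix l → K) ≃ₗ[K] (Ix l → K)))) :
    S₁ ⊆ S₂ := by
  intro α hα
  have h20 : (2 : K) ≠ 0 := hq.two_ne
  obtain ⟨a, b, ha, hb, hb', hab⟩ := phi_exists (h1.1 hα)
  obtain ⟨π, hπ1, hπ2⟩ := exists_pi (l := l) h20
  have hπ : PiD π := ⟨hπ1, hπ2⟩
  obtain ⟨y, hy⟩ := exists_root_elt (l := l) (K := K) h20 ha hb hb' 1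
  obtain ⟨x, hπx⟩ : ∃ x : (Ix l → K) ≃ₗ[K] (Ix l → K),
      ∀ u, x u = sg (bl l K) (ev a) ((-2 : K) • ev b) u :=
    ⟨π y, fun u => by rw [pi_root h20 hπ ha hb hb' hy, mul_one]⟩
  have hx1 : x ∈ GO K S₁ :=
    Subgroup.subset_closure (Or.inr ⟨α, hα, a, b, ha, hb, hb', hab, -2, hπx⟩)
  have hxn := n2 (g1 hx1)
  obtain ⟨d, e, hdsq, _, hd0, _, hd1, _⟩ := two_sq hq
  obtain ⟨t, htd⟩ : ∃ t : (Ix l → K) ≃ₗ[K] (Ix l → K), t = torE (dpar a (Units.mk0 d hd0)) :=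
    ⟨_, rfl⟩
  have htm := torE_mem (K := K) (dpar a (Units.mk0 d hd0))
  rw [← htd] at htm
  have htG : t ∈ GO K S₂ := Subgroup.subset_closure (Or.inl htm)
  have hz : x * t * x⁻¹ * t⁻¹ ∈ GO K S₂ :=
    (GO K S₂).mul_mem ((Subgroup.mem_normalizer_iff.1 hxn t).1 htG) ((GO K S₂).inv_mem htG)
  have hev : bl l K (ev a) (ev b) = 0 := by
    rw [bl_ev, ev_ne]
    exact Ne.symm hb'
  have haa : bl l K (ev a) (ev a) = 0 := (hp_ev ha).1
  have hevc : ∀ c : K, bl l K (ev a) (c • ev b) = 0 := fun c => by rw [map_smul, hev, smul_zero]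
  have hta : t (ev a) = d • (ev a : Ix l → K) := by
    rw [htd, torE_apply, tor_ev, tco_dpar, if_neg ha, if_pos rfl]
    rfl
  have htb : t (ev b) = (ev b : Ix l → K) := by
    rw [htd, torE_apply, tor_ev, tco_dpar, if_neg ha, if_neg hb, if_neg hb', one_smul]
  have hπx' : ∀ u, x⁻¹ u = sg (bl l K) (ev a) ((2 : K) • ev b) u := by
    intro u
    apply x.injective
    rw [← LinearEquiv.mul_apply, mul_inv_cancel, hπx, sg_comp bl_symm h20 haa (hevc _) (hevc _),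
      ← add_smul, neg_add_cancel, zero_smul, sg_zero]
    rfl
  have hπz : ∀ u, (x * t * x⁻¹ * t⁻¹) u = sg (bl l K) (ev a) ((2 * d - 2 : K) • ev b) u := by
    intro u
    have e1 : (x * t * x⁻¹ * t⁻¹) u = x (t (x⁻¹ (t⁻¹ u))) := rfl
    rw [e1, hπx', sg_conj htm.1.1, hta, map_smul, htb, sg_smul, hπx, smul_smul,
      sg_comp bl_symm h20 haa (hevc _) (hevc _), ← add_smul]
    congr 2
    ring
  have hle : GO K S₂ ≤ Subgroup.closure ({g : (Ix l → K) ≃ₗ[K] (Ix l → K) | IsDg g ∧ IsDg g⁻¹} ∪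
      {g | ∃ a b : Ix l, ∃ c : K, a ≠ none ∧ (fun a b : Ix l => wt a + wt b ∈ S₂) a b ∧
      ∀ u, g u = sg (bl l K) (ev a) (c • ev b) u}) := by
    rw [GO, Subgroup.closure_le]
    rintro g (⟨-, hg⟩ | ⟨β, hβ, a', b', ha', hb1, hb2, hwt, c, hc⟩)
    · exact Subgroup.subset_closure (Or.inl ⟨hg, spinE_dg_inv hg⟩)
    · refine Subgroup.subset_closure (Or.inr ⟨a', b', c, ha', ?_, hc⟩)
      show wt a' + wt b' ∈ S₂
      rw [hwt]
      exact hβ
  have h5 := incid_root h20 (rel_nr h2) {g : (Ix l → K) ≃ₗ[K] (Ix l → K) | IsDg g ∧ IsDg g⁻¹}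
    (fun g hg => ⟨hg.1, hg.2, by rw [inv_inv]; exact hg.1⟩) (hle hz) ha hb hb'
    (c := 2 * d - 2) (by
      intro h
      apply hd1
      have h6 : (2 : K) * (d - 1) = 0 := by linear_combination h
      exact sub_eq_zero.1 ((mul_eq_zero.1 h6).resolve_left h20)) hπz
  rw [← hab]
  exact h5

theorem so_std {q : ℕ} (hq : QK q K) (hl : 3 ≤ l) (F : Subgroup ((Ix l → K) ≃ₗ[K] (Ix l → K)))
    (hF : F ≤ SO l K) (hT : ∀ x ∈ SO l K, IsDg x → x ∈ F) :
    ∃! S : Set (Fin l → ℤ), ClosedRt S ∧ GO K S ≤ F ∧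
      F ≤ Subgroup.normalizer (GO K S : Set ((Ix l → K) ≃ₗ[K] (Ix l → K))) := by
  obtain ⟨S, h1, h2, h3⟩ := so_exists hq hl F hF hT
  refine ⟨S, ⟨h1, h2, h3⟩, ?_⟩
  rintro S' ⟨h1', h2', h3'⟩
  exact Set.Subset.antisymm (so_sub hq F h1' h1 h2' h3) (so_sub hq F h1 h1' h2 h3')

end Pool.Agent.H33.TO
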