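import Pool.Agent.H33.TO.SpinG

/-!
# The simply connected and the adjoint group of type B_l: the statements (helper33)

The adjoint group (the special orthogonal group in `2 l + 1` variables) is generated by its
diagonal torus and the root elements; it is given as a group of permutations with explicit
generators.
-/

namespace Pool.Agent.H33.TO

variable {l : ℕ} {K : Type*} [Field K]

/-- the standard description for the simply connected group of type `B_l` -/
def StdSpin (l : ℕ) (K : Type*) [Field K] : Prop :=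
  ∀ F : Subgroup (Spin l K), (∀ x, InT x → x ∈ F) →
    ∃! S : Set (Fin l → ℤ), ClosedRt S ∧ GS' K S ≤ F ∧
      F ≤ Subgroup.normalizer (GS' K S : Set (Spin l K))

/-- the root element `x_{ab}(c)` (root `wt a + wt b`) in coordinates: the Siegel transformation
`u ↦ u + B(u,e_a) c e_b - B(u, c e_b) e_a - (1/2) B(c e_b, c e_b) B(u,e_a) e_a` -/
def xB (a b : Ix l) (c : K) (u : Ix l → K) : Ix l → K := fun d =>
  u d + (if d = b then c * u (ng a) else 0) -
    (if d = a then c * u (ng b) + (if b = none then c ^ 2 / 2 * u (ng a) else 0) else 0)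

/-- the split torus: the diagonal maps with entries `τ_i`, `τ_i⁻¹` and `1` -/
def TB (l : ℕ) (K : Type*) [Field K] : Subgroup (Equiv.Perm (Ix l → K)) :=
  Subgroup.closure {g | ∃ τ : Fin l → Kˣ, ∀ u, g u = tor τ u}

/-- the root group of `α` -/
def XB (K : Type*) [Field K] (α : Fin l → ℤ) : Subgroup (Equiv.Perm (Ix l → K)) :=
  Subgroup.closure {g | ∃ a b : Ix l, a ≠ none ∧ b ≠ a ∧ b ≠ ng a ∧ wt a + wt b = α ∧
    ∃ c : K, ∀ u, g u = xB a b c u}

/-- the group `G(S)` -/
def GB (K : Type*) [Field K] (S : Set (Fin l → ℤ)) : Subgroup (Equiv.Perm (Ix l → K)) :=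
  TB l K ⊔ ⨆ α ∈ S, XB K α

/-- the standard description for the adjoint group of type `B_l`, which is `GB K (Phi l)` -/
def StdB (l : ℕ) (K : Type*) [Field K] : Prop :=
  ∀ F : Subgroup (Equiv.Perm (Ix l → K)), TB l K ≤ F → F ≤ GB K (Phi l) →
    ∃! S : Set (Fin l → ℤ), ClosedRt S ∧ GB K S ≤ F ∧
      F ≤ Subgroup.normalizer (GB K S : Set (Equiv.Perm (Ix l → K)))

end Pool.Agent.H33.TO
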