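import Pool.Agent.H33.TO.Adj
import Pool.Agent.H33.TO.AdjDefs

/-!
# The adjoint group of type B_l as a group of permutations, with explicit generators (helper33)

The adjoint group (the special orthogonal group in `2 l + 1` variables) is generated by its
diagonal torus and the root elements; this form of the statement is short.
-/

namespace Pool.Agent.H33.TO

variable {l : ℕ} {K : Type*} [Field K]

/-- linear automorphisms as permutations -/
def toPB (l : ℕ) (K : Type*) [Field K] :
    ((Ix l → K) ≃ₗ[K] (Ix l → K)) →* Equiv.Perm (Ix l → K) where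
  toFun g := g.toEquiv
  map_one' := rfl
  map_mul' _ _ := rfl

theorem toPB_apply (g : (Ix l → K) ≃ₗ[K] (Ix l → K)) (x : Ix l → K) : toPB l K g x = g x := rfl

theorem toPB_inj : Function.Injective (toPB l K) := by
  intro g h hgh
  ext1 x
  rw [← toPB_apply, hgh, toPB_apply]

theorem xB_eq (a b : Ix l) (c : K) (u : Ix l → K) :
    xB a b c u = sg (bl l K) (ev a) (c • ev b) u := by
  have h1 : bl l K u (ev a) = u (ng a) := bl_ev' a u
  have h2 : bl l K u (c • ev b) = c * u (ng b) := by rw [map_smul, bl_ev', smul_eq_mul]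
  have h3 : bl l K (c • ev b) (c • ev b) = if b = none then c ^ 2 else 0 := by
    rw [map_smul, map_smul, LinearMap.smul_apply, bl_ev, smul_eq_mul, smul_eq_mul]
    by_cases hb : b = none
    · subst hb
      rw [if_pos rfl]
      show c * (c * (ev none : Ix l → K) none) = c ^ 2
      rw [ev_same]
      ring
    · rw [if_neg hb, ev_ne (ng_ne_self hb), mul_zero, mul_zero]
  unfold sg
  rw [h1, h2, h3]
  funext d
  show u d + (if d = b then c * u (ng a) else 0) -
    (if d = a then c * u (ng b) + (if b = none then c ^ 2 / 2 * u (ng a) else 0) else 0) =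
    u d + u (ng a) * (c * (ev b : Ix l → K) d) - (c * u (ng b)) * (ev a : Ix l → K) d -
      (1 / 2 * (if b = none then c ^ 2 else 0) * u (ng a)) * (ev a : Ix l → K) d
  rw [ev_apply, ev_apply]
  split_ifs <;> ring

theorem root_exists {q : ℕ} (hq : QK q K) {a b : Ix l} (ha : a ≠ none) (hb : b ≠ a)
    (hb' : b ≠ ng a) (c : K) : ∃ x : (Ix l → K) ≃ₗ[K] (Ix l → K),
      (∀ u v, bl l K (x u) (x v) = bl l K u v) ∧
      ∀ u, x u = sg (bl l K) (ev a) (c • ev b) u := by
  have h20 : (2 : K) ≠ 0 := hq.two_ne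
  obtain ⟨π, hπ1, hπ2⟩ := exists_pi (l := l) h20
  have hπ : PiD π := ⟨hπ1, hπ2⟩
  obtain ⟨y, hy⟩ := exists_root_elt (l := l) (K := K) h20 ha hb hb' (-c / 2)
  refine ⟨π y, hπ.iso y, fun u => ?_⟩
  have e : -2 * (-c / 2) = c := by field_simp
  rw [pi_root h20 hπ ha hb hb' hy, e]

/-- root elements have determinant one -/
theorem root_det {q : ℕ} (hq : QK q K) {a b : Ix l} (ha : a ≠ none) (hb : b ≠ a)
    (hb' : b ≠ ng a) (c : K) {x : (Ix l → K) ≃ₗ[K] (Ix l → K)}
    (hx : ∀ u, x u = sg (bl l K) (ev a) (c • ev b) u) : x ∈ SO l K := by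
  have h20 : (2 : K) ≠ 0 := hq.two_ne
  have hev : bl l K (ev a) (ev b) = 0 := by
    rw [bl_ev, ev_ne]
    exact Ne.symm hb'
  have haa : bl l K (ev a) (ev a) = 0 := (hp_ev ha).1
  have hevc : ∀ c : K, bl l K (ev a) (c • ev b) = 0 := fun c => by rw [map_smul, hev, smul_zero]
  obtain ⟨d, e, hdsq, _, hd0, _, hd1, _⟩ := two_sq hq
  obtain ⟨y, hyi, hy⟩ := root_exists hq ha hb hb' (c / (d - 1))
  obtain ⟨x', hxi, hx'⟩ := root_exists hq ha hb hb' c
  have hxx : x = x' := LinearEquiv.ext fun u => by rw [hx, hx']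
  rw [hxx]
  refine ⟨hxi, ?_⟩
  have htm := torE_mem (K := K) (dpar a (Units.mk0 d hd0))
  generalize htd : torE (dpar a (Units.mk0 d hd0)) = t at htm
  have hta : t (ev a) = d • (ev a : Ix l → K) := by
    rw [← htd, torE_apply, tor_ev, tco_dpar, if_neg ha, if_pos rfl]
    rfl
  have htb : t (ev b) = (ev b : Ix l → K) := by
    rw [← htd, torE_apply, tor_ev, tco_dpar, if_neg ha, if_neg hb, if_neg hb', one_smul]
  have hyi' : ∀ u, y⁻¹ u = sg (bl l K) (ev a) ((-(c / (d - 1)) : K) • ev b) u := by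
    intro u
    apply y.injective
    rw [← LinearEquiv.mul_apply, mul_inv_cancel, hy, sg_comp bl_symm h20 haa (hevc _) (hevc _),
      ← add_smul, add_neg_cancel, zero_smul, sg_zero]
    rfl
  have hcomm : t * y * t⁻¹ * y⁻¹ = x' := by
    apply LinearEquiv.ext
    intro u
    have e1 : (t * y * t⁻¹ * y⁻¹) u = t (y (t⁻¹ (y⁻¹ u))) := rfl
    have hd1' : d - 1 ≠ 0 := sub_ne_zero.2 hd1
    rw [e1, hy, sg_conj htm.1.1, hta, map_smul, htb, sg_smul, hyi', smul_smul,
      sg_comp bl_symm h20 haa (hevc _) (hevc _), ← add_smul, hx']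
    congr 2
    field_simp
    ring
  rw [← hcomm, map_mul, map_mul, map_mul, map_inv, map_inv]
  rw [mul_comm (LinearEquiv.det t), mul_inv_cancel_right, mul_inv_cancel]

/-- diagonal elements of the special orthogonal group -/
theorem so_diag {x : (Ix l → K) ≃ₗ[K] (Ix l → K)} (hx : x ∈ SO l K) (hd : IsDg x) :
    ∃ τ : Fin l → Kˣ, x = torE τ := by
  choose c hc using hd
  have hiso : ∀ a, c a * c (ng a) = 1 := by
    intro a
    have h1 := hx.1 (ev a) (ev (ng a))
    rw [hc, hc, map_smul, map_smul, LinearMap.smul_apply, bl_ev, smul_eq_mul, smul_eq_mul,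
      ev_same, mul_one] at h1
    linear_combination h1
  have hdet : ∏ a, c a = 1 := by
    have h1 := hx.2
    have h2 : ((LinearEquiv.det x : Kˣ) : K) = 1 := by rw [h1, Units.val_one]
    rw [LinearEquiv.coe_det] at h2
    have h3 : (x : (Ix l → K) →ₗ[K] (Ix l → K)) = Matrix.toLin' (Matrix.diagonal c) := by
      refine (Pi.basisFun K (Ix l)).ext fun a => ?_
      rw [Pi.basisFun_apply, Matrix.toLin'_apply]
      have h4 : x (ev a) = c a • (ev a : Ix l → K) := hc a
      show x (Pi.single a 1) = _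
      have h5 : (Pi.single a 1 : Ix l → K) = ev a := rfl
      rw [h5, h4]
      funext d
      rw [Matrix.mulVec_diagonal, Pi.smul_apply, smul_eq_mul]
      by_cases hda : d = a
      · rw [hda]
      · rw [ev_ne hda, mul_zero, mul_zero]
    rw [h3, LinearMap.det_toLin', Matrix.det_diagonal] at h2
    exact h2
  have hnone : c none = 1 := by
    rw [Fintype.prod_option, Fintype.prod_prod_type] at hdet
    have h2 : ∀ i : Fin l, ∏ b : Bool, c (some (i, b)) = 1 := by
      intro i
      rw [Fintype.prod_bool]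
      exact hiso (some (i, true))
    rw [Finset.prod_congr rfl fun i _ => h2 i, Finset.prod_const_one, mul_one] at hdet
    exact hdet
  refine ⟨fun i => Units.mk0 (c (some (i, true)))
    (left_ne_zero_of_mul_eq_one (hiso (some (i, true)))), ?_⟩
  apply LinearEquiv.toLinearMap_injective
  refine (Pi.basisFun K (Ix l)).ext fun a => ?_
  rw [Pi.basisFun_apply]
  show x (ev a) = torE _ (ev a)
  rw [hc, torE_apply, tor_ev]
  congr 1
  rcases a with _ | ⟨i, b⟩
  · exact hnone
  · cases b
    · show c (some (i, false)) = (((Units.mk0 (c (some (i, true))) _)⁻¹ : Kˣ) : K)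
      rw [Units.val_inv_eq_inv_val]
      exact eq_inv_of_mul_eq_one_right (hiso (some (i, true)))
    · rfl

theorem GO_map {q : ℕ} (hq : QK q K) (S : Set (Fin l → ℤ)) : (GO K S).map (toPB l K) = GB K S := by
  unfold GO GB
  rw [MonoidHom.map_closure, Set.image_union, Subgroup.closure_union]
  congr 1
  · unfold TB
    congr 1
    ext g
    constructor
    · rintro ⟨x, ⟨hx, hd⟩, rfl⟩
      obtain ⟨τ, rfl⟩ := so_diag hx hd
      exact ⟨τ, fun u => rfl⟩
    · rintro ⟨τ, hτ⟩
      exact ⟨torE τ, torE_mem τ, Equiv.ext fun u => (hτ u).symm⟩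
  · have h1 : (toPB l K) '' {x | ∃ α ∈ S, InXO α x} = ⋃ α ∈ S, (toPB l K) '' {x | InXO α x} := by
      ext g
      simp only [Set.mem_image, Set.mem_ofPred_eq, Set.mem_iUnion, exists_prop]
      constructor
      · rintro ⟨x, ⟨α, hα, hx⟩, rfl⟩
        exact ⟨α, hα, x, hx, rfl⟩
      · rintro ⟨α, hα, x, hx, rfl⟩
        exact ⟨x, ⟨α, hα, hx⟩, rfl⟩
    rw [h1, Subgroup.closure_iUnion]
    refine iSup_congr fun α => ?_
    rw [Subgroup.closure_iUnion]
    refine iSup_congr fun hα => ?_
    unfold XB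
    congr 1
    ext g
    constructor
    · rintro ⟨x, ⟨a, b, ha, hb, hb', hab, c, hc⟩, rfl⟩
      exact ⟨a, b, ha, hb, hb', hab, c, fun u => by rw [xB_eq]; exact hc u⟩
    · rintro ⟨a, b, ha, hb, hb', hab, c, hc⟩
      obtain ⟨x, -, hx⟩ := root_exists (l := l) (K := K) hq ha hb hb' c
      refine ⟨x, ⟨a, b, ha, hb, hb', hab, c, hx⟩, Equiv.ext fun u => ?_⟩
      rw [toPB_apply, hx, hc, xB_eq]

theorem GO_le_SO {q : ℕ} (hq : QK q K) (S : Set (Fin l → ℤ)) : GO K S ≤ SO l K := by
  rw [GO, Subgroup.closure_le]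
  rintro x (⟨hx, -⟩ | ⟨α, -, a, b, ha, hb, hb', -, c, hc⟩)
  · exact hx
  · exact root_det hq ha hb hb' c hc

theorem stdB {q : ℕ} (hq : QK q K) (hl : 3 ≤ l) : StdB l K := by
  intro F hT hF
  rw [← GO_map hq] at hF
  have hrange : ∀ x ∈ F, ∃ y ∈ SO l K, toPB l K y = x := by
    intro x hx
    obtain ⟨y, hy, hyx⟩ := hF hx
    exact ⟨y, GO_le_SO hq _ hy, hyx⟩
  have hFm : (F.comap (toPB l K)).map (toPB l K) = F := by
    rw [Subgroup.map_comap_eq, inf_eq_right]
    intro x hx
    obtain ⟨y, -, hy⟩ := hrange x hx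
    exact ⟨y, hy⟩
  have h1 : F.comap (toPB l K) ≤ SO l K := by
    intro x hx
    obtain ⟨y, hy, hyx⟩ := hrange _ hx
    rw [← toPB_inj hyx]
    exact hy
  have h2 : ∀ x ∈ SO l K, IsDg x → x ∈ F.comap (toPB l K) := by
    intro x hx hd
    obtain ⟨τ, rfl⟩ := so_diag hx hd
    exact hT (Subgroup.subset_closure ⟨τ, fun u => rfl⟩)
  have h3 := so_std hq hl (F.comap (toPB l K)) h1 h2
  have key : ∀ S : Set (Fin l → ℤ),
      (ClosedRt S ∧ GB K S ≤ F ∧
        F ≤ Subgroup.normalizer (GB K S : Set (Equiv.Perm (Ix l → K)))) ↔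
      (ClosedRt S ∧ GO K S ≤ F.comap (toPB l K) ∧
        F.comap (toPB l K) ≤
          Subgroup.normalizer (GO K S : Set ((Ix l → K) ≃ₗ[K] (Ix l → K)))) := by
    intro S
    have hc : ∀ x, toPB l K x ∈ GB K S ↔ x ∈ GO K S := by
      intro x
      rw [← GO_map hq]
      constructor
      · rintro ⟨y, hy, hyx⟩
        rwa [← toPB_inj hyx]
      · exact fun hx => ⟨x, hx, rfl⟩
    refine and_congr_right fun _ => and_congr ?_ ?_
    · rw [← GO_map hq, Subgroup.map_le_iff_le_comap]
    · constructor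
      · intro h4 f hf
        rw [Subgroup.mem_normalizer_iff]
        intro x
        have h5 := Subgroup.mem_normalizer_iff.1 (h4 hf) (toPB l K x)
        rw [← map_mul, ← map_inv, ← map_mul, hc, hc] at h5
        exact h5
      · intro h4 f hf
        obtain ⟨y, -, rfl⟩ := hrange f hf
        have h6 := Subgroup.mem_normalizer_iff.1 (h4 (x := y) hf)
        rw [Subgroup.mem_normalizer_iff]
        intro x
        constructor
        · intro hx
          rw [← GO_map hq] at hx
          obtain ⟨z, hz, rfl⟩ := hx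
          rw [← map_mul, ← map_inv, ← map_mul, hc]
          exact (h6 z).1 hz
        · intro hx
          have hx' := hx
          rw [← GO_map hq] at hx'
          obtain ⟨z, hz, hzx⟩ := hx'
          have h7 : toPB l K (y⁻¹ * z * y) = x := by
            rw [map_mul, map_mul, hzx, map_inv]
            group
          rw [← h7, hc, h6]
          have h8 : y * (y⁻¹ * z * y) * y⁻¹ = z := by group
          rw [h8]
          exact hz
  simp only [key]
  exact h3

theorem stdSpin {q : ℕ} (hq : QK q K) (hl : 3 ≤ l) : StdSpin l K := by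
  intro F hT
  obtain ⟨S, h1, h2, h3⟩ := spin_exists hq hl F hT
  refine ⟨S, ⟨h1, h2, h3⟩, ?_⟩
  rintro S' ⟨h1', h2', h3'⟩
  exact spin_unique hq F hT h1' h1 h2' h2 h3' h3

end Pool.Agent.H33.TO
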