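import Pool.Agent.H33.TO.Levi

/-!
# JOB TO-9: a normal `p`-subgroup gives a stable totally singular subspace

Let `N ≤ F` be normalised by `F`, a `p`-group (`p` the characteristic), `N ≠ 1`.
Let `U = {u : n u = u for all n ∈ N}`, a subspace, and `W = U ∩ U^⊥` where
`U^⊥ = {w : bl w u = 0 for all u ∈ U}`.
(1) `U` and `U^⊥`, `W` are `F`-stable (`N` normal, `F` isometries).
(2) `W ≠ 0`: suppose `U ∩ U^⊥ = 0`.  Since `bl` is nondegenerate (`bl (ev a) u = u (ng a)`),
`dim U + dim U^⊥ = dim V`, so `V = U ⊕ U^⊥` (only `U ⊔ U^⊥ = ⊤` is needed;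
`LinearMap.BilinForm.finrank_orthogonal`, `isCompl_orthogonal_of_restrict_nondegenerate` may
help).  `U^⊥` is `N`-stable; a `p`-group acting linearly on a nonzero finite vector space of
characteristic `p` fixes a nonzero vector (`IsPGroup.exists_fixed_point_of_prime_dvd_card_of_fixed_point`
applied to the action on the finite set `U^⊥`, with the fixed point `0`;
`|U^⊥|` is divisible by `p` as the additive group is a nontrivial elementary `p`-group), so if
`U^⊥ ≠ 0` there is `0 ≠ u ∈ U^⊥` fixed by `N`, i.e. `u ∈ U ∩ U^⊥ = 0`, contradiction.  Hence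
`U^⊥ = 0`, `U = V`, `N = 1`, contradiction.
(3) Let `A = {a : ev a ∈ W}`.  By `coord_of_stable` every `w ∈ W` is a combination of
`ev a`, `a ∈ A`; so `A ≠ ∅`, and `stab` holds.  `W` is totally isotropic:
`bl w w' = 0` for `w, w' ∈ W`.  So `none ∉ A` (`bl (ev none) (ev none) = 1`), and
`a ∈ A → ng a ∉ A` (`bl (ev a) (ev (ng a)) = 1`).
(4) `n (ev a) = ev a` for `a ∈ A` (`W ⊆ U`), and if `u ∈ U` then `u (ng a) = bl (ev a) u = 0`.
-/

namespace Pool.Agent.H33.TO

variable {l : ℕ} {K : Type*} [Field K] {F : Subgroup ((Ix l → K) ≃ₗ[K] (Ix l → K))}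

theorem bl_nondeg : (bl l K).Nondegenerate := by
  have h1 : ∀ x : Ix l → K, (∀ y, bl l K x y = 0) → x = 0 := by
    intro x hx
    funext a
    have := hx (ev (ng a))
    rw [bl_ev', ng_ng] at this
    exact this
  exact ⟨h1, fun y hy => h1 y fun x => by rw [bl_symm]; exact hy x⟩

/-- the fixed space of `N` -/
def fixN (N : Subgroup ((Ix l → K) ≃ₗ[K] (Ix l → K))) : Submodule K (Ix l → K) where
  carrier := {u | ∀ n ∈ N, n u = u}
  add_mem' := by
    intro u v hu hv n hn
    rw [map_add, hu n hn, hv n hn]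
  zero_mem' := fun n _ => map_zero _
  smul_mem' := by
    intro c u hu n hn
    rw [map_smul, hu n hn]

theorem caseA_set {q : ℕ} (hq : QK q K) (hF : Ctx l K F)
    (N : Subgroup ((Ix l → K) ≃ₗ[K] (Ix l → K))) (hN : N ≤ F)
    (hn : ∀ g ∈ F, ∀ n ∈ N, g * n * g⁻¹ ∈ N) (hp : IsPGroup (ringChar K) N) (hne : N ≠ ⊥) :
    ∃ A : Set (Ix l), A.Nonempty ∧ TSt F A ∧ (∀ n ∈ N, ∀ a ∈ A, n (ev a) = ev a) ∧
      ∀ u, (∀ n ∈ N, n u = u) → ∀ a ∈ A, u (ng a) = 0 := by
  have hfin : Finite K := hq.finite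
  have hchar : CharP K (ringChar K) := ringChar.charP K
  have hprime : Fact (ringChar K).Prime := ⟨by
    have : NeZero (ringChar K) := ⟨CharP.char_ne_zero_of_finite K (ringChar K)⟩
    exact CharP.char_is_prime K (ringChar K)⟩
  set U := fixN N with hU
  set U' := (bl l K).orthogonal U with hU'
  have memU : ∀ u, u ∈ U ↔ ∀ n ∈ N, n u = u := fun u => Iff.rfl
  have memU' : ∀ w, w ∈ U' ↔ ∀ u ∈ U, bl l K u w = 0 := fun w => Iff.rfl
  have hinv : ∀ g : (Ix l → K) ≃ₗ[K] (Ix l → K), ∀ u, g (g⁻¹ u) = u := fun g u => by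
    rw [← LinearEquiv.mul_apply, mul_inv_cancel]; rfl
  have stU : ∀ g ∈ F, ∀ u ∈ U, g u ∈ U := by
    intro g hg u hu n hn'
    have h1 := hu _ (hn g⁻¹ (F.inv_mem hg) n hn')
    rw [inv_inv, LinearEquiv.mul_apply, LinearEquiv.mul_apply] at h1
    have h2 := congrArg g h1
    rwa [hinv] at h2
  have stU' : ∀ g ∈ F, ∀ w ∈ U', g w ∈ U' := by
    intro g hg w hw u hu
    have h1 := hw _ (stU g⁻¹ (F.inv_mem hg) u hu)
    have h2 := hF.iso g hg (g⁻¹ u) w
    rw [hinv] at h2
    show bl l K u (g w) = 0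
    rw [h2]
    exact h1
  set W := U ⊓ U' with hW
  have stW : ∀ g ∈ F, ∀ w ∈ W, g w ∈ W := fun g hg w hw =>
    ⟨stU g hg w hw.1, stU' g hg w hw.2⟩
  have iso : ∀ w ∈ W, ∀ w' ∈ W, bl l K w w' = 0 := fun w hw w' hw' => hw'.2 w hw.1
  have hW0 : W ≠ ⊥ := by
    intro hbot
    have hU0 : U' = ⊥ := by
      by_contra hne'
      obtain ⟨x, hx, hx0⟩ := Submodule.exists_mem_ne_zero_of_ne_bot hne'
      let act : MulAction N U' :=
        { smul := fun n w => ⟨(n : (Ix l → K) ≃ₗ[K] (Ix l → K)) w, stU' _ (hN n.2) w w.2⟩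
          one_smul := fun w => Subtype.ext rfl
          mul_smul := fun m n w => Subtype.ext rfl }
      have hdvd : ringChar K ∣ Nat.card U' := by
        have h1 : addOrderOf (⟨x, hx⟩ : U') = ringChar K := by
          refine addOrderOf_eq_prime ?_ ?_
          · have : (ringChar K : K) • (⟨x, hx⟩ : U') = 0 := by
              rw [CharP.cast_eq_zero K (ringChar K), zero_smul]
            rwa [Nat.cast_smul_eq_nsmul] at this
          · intro h
            exact hx0 (congrArg Subtype.val h)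
        rw [← h1]
        exact addOrderOf_dvd_natCard _
      have h0 : (0 : U') ∈ MulAction.fixedPoints N U' := by
        intro n
        exact Subtype.ext (map_zero (n : (Ix l → K) ≃ₗ[K] (Ix l → K)))
      obtain ⟨b, hb, hb0⟩ :=
        hp.exists_fixed_point_of_prime_dvd_card_of_fixed_point U' hdvd h0
      have hbW : (b : Ix l → K) ∈ W := by
        refine ⟨fun n hn' => ?_, b.2⟩
        exact congrArg Subtype.val (hb ⟨n, hn'⟩)
      rw [hbot, Submodule.mem_bot] at hbW
      exact hb0 (Subtype.ext hbW.symm)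
    have hrefl : (bl l K).IsRefl := fun x y h => by rw [bl_symm]; exact h
    have hU1 : U = ⊤ := by
      have h1 := LinearMap.BilinForm.orthogonal_orthogonal bl_nondeg hrefl U
      rw [← hU', hU0, LinearMap.BilinForm.orthogonal_bot] at h1
      exact h1.symm
    apply hne
    rw [Subgroup.eq_bot_iff_forall]
    intro n hn'
    ext1 u
    have : u ∈ U := by rw [hU1]; trivial
    exact this n hn'
  refine ⟨{a | (ev a : Ix l → K) ∈ W}, ?_, ⟨?_, ?_, ?_⟩, ?_, ?_⟩
  · obtain ⟨w, hw, hw0⟩ := Submodule.exists_mem_ne_zero_of_ne_bot hW0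
    obtain ⟨a, ha⟩ := Function.ne_iff.1 hw0
    exact ⟨a, coord_of_stable hq hF W stW hw ha⟩
  · intro h
    have := iso _ h _ h
    rw [bl_ev, ng_none, ev_same] at this
    exact one_ne_zero this
  · intro a ha ha'
    have := iso _ ha _ ha'
    rw [bl_ev, ev_same] at this
    exact one_ne_zero this
  · intro g hg a ha b hb
    by_contra h
    exact hb (coord_of_stable hq hF W stW (stW g hg _ ha) h)
  · intro n hn' a ha
    exact ha.1 n hn'
  · intro u hu a ha
    have := ha.2 u hu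
    rw [← bl_ev' a u]
    exact this

end Pool.Agent.H33.TO
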