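import Pool.Agent.H33.TO.TorA

/-!
# JOB TO-6: nets: from a closed symmetric relation on indices to a preorder (combinatorics)

`P a b` means: the root `wt a + wt b` is in the closed set.  `NP P a b` is the resulting
preorder.

Proof of `net_trans`.  Let `NP P a b`, `NP P b c`.  If `a = b` or `b = c` it is trivial.
(i) `P a (ng b)` and `P b (ng c)`:  if `c ≠ ng a` and `c ≠ a`: `P.trans` with `b := ng b`
    (`ng (ng b) = b`) gives `P a (ng c)` provided `ng c ≠ a`, `ng c ≠ ng a`.  If `c = a`:
    `NP P a a`.  If `c = ng a`: `P b a`, so `P a b` and `P a (ng b)`: third alternative with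
    witness `b`.
(ii) `P a (ng b)` and `c = ng b`, `P b x`, `P b (ng x)`: goal `NP P a (ng b)`, i.e. `P a b`
    (or one of the other alternatives).  From `P a (ng b)` and `P b x` (trans, if
    `x ≠ a, ng a`): `P a x`.  From this and `P (ng x) b` (symmetry of `P b (ng x)`): `P a b`
    (as `b ≠ a, ng a`, by `P a (ng b)` and irreflexivity), so `P a (ng c)`, `c = ng b`.
    If `x = a`: `P b a`, so `P a b`.  If `x = ng a`: `P b (ng x) = P b a`, so again `P a b`.
(iii) `b = ng a`, `P a x`, `P a (ng x)`, and `P b (ng c) = P (ng a) (ng c)`:  goal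
    `NP P a c`, it suffices `P a (ng c)` (or `c = a`).  We have `P (ng c) (ng a)` and `P a x`:
    trans gives `P (ng c) x` if `x ≠ c, ng c`; symmetric: `P x (ng c)`; with
    `P a (ng x)`, i.e. `P a (ng x)` and `P (ng (ng x)) (ng c)`: `P a (ng c)` if
    `ng c ≠ a, ng a`, which holds by `P (ng a) (ng c)` (irreflexive, `P.ne`).
    If `x = c`: `P a (ng x) = P a (ng c)`.  If `x = ng c`: `P a x = P a (ng c)`.
(iv) both third alternatives: `b = ng a`, `c = ng b = a`: `NP P a a`.

`net_closed` for `SS`: `SS F` satisfies `NR`: symmetric (`SS.symm`), and transitivity: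
let `SS F a b`, `SS F (ng b) c`, `c ≠ a`, `c ≠ ng a`.  By symmetry we may assume `a ≠ none`
(if `a = none` then `c ≠ none`, and exchange the roles: `SS F c (ng b)`, `SS F b a`).
If `b ≠ none`: let `g ∈ F` act as `sg (ev (ng b)) (ev c)`
(`SS F (ng b) c`).  `g (ev a) = ev a` (as `bl (ev a) (ev (ng b)) = 0` since `a ≠ b`, and
`bl (ev a) (ev c) = 0` since `c ≠ ng a`), and
`g (ev b) = ev b + ev c - (1/2) bl(ev c, ev c) (ev (ng b))` (as `c ≠ ng b`).
Conjugating `sg (ev a) (ev b) ∈ F` by `g` (`sg_conj`) gives `Has F (sg (ev a) (g (ev b)))`;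
`(g (ev b)) (ng a) = 0` and `(g (ev b)) c ≠ 0` (the coordinate `c` is `1`, because
`c ≠ b, ng b`), so `lemT` gives `SS F a c`.
If `b = none`: `SS F a none`, `SS F none c`, `c ≠ none`: `g` acting as `sg (ev c) (ev none)`,
`g (ev a) = ev a`, `g (ev none) = ev none - ev c`, and again `lemT`.
(This part needs `TorB.lean`; it is stated in `Closed.lean`, a separate job.)
-/

namespace Pool.Agent.H33.TO

variable {l : ℕ}

/-- closed symmetric relation on indices -/
structure NR (P : Ix l → Ix l → Prop) : Prop where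
  symm : ∀ a b, P a b → P b a
  ne : ∀ a b, P a b → b ≠ a ∧ b ≠ ng a
  trans : ∀ a b c, P a b → P (ng b) c → c ≠ a → c ≠ ng a → P a c

/-- the preorder of a closed symmetric relation -/
def NP (P : Ix l → Ix l → Prop) (a b : Ix l) : Prop :=
  a = b ∨ P a (ng b) ∨ (b = ng a ∧ ∃ c, P a c ∧ P a (ng c))

theorem NP.refl (P : Ix l → Ix l → Prop) (a : Ix l) : NP P a a := Or.inl rfl

theorem net_trans {P : Ix l → Ix l → Prop} (h : NR P) {a b c : Ix l} (h1 : NP P a b)
    (h2 : NP P b c) : NP P a c := by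
  rcases h1 with rfl | h1 | ⟨rfl, x, hx, hx'⟩
  · exact h2
  · rcases h2 with rfl | h2 | ⟨rfl, x, hx, hx'⟩
    · exact Or.inr (Or.inl h1)
    · by_cases e1 : c = a
      · exact Or.inl e1.symm
      · by_cases e2 : c = ng a
        · refine Or.inr (Or.inr ⟨e2, b, ?_, h1⟩)
          rw [e2, ng_ng] at h2
          exact h.symm _ _ h2
        · refine Or.inr (Or.inl (h.trans a (ng b) (ng c) h1 (by rw [ng_ng]; exact h2) ?_ ?_))
          · intro e
            exact e2 (ng_eq_iff.1 e)
          · intro e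
            exact e1 (ng_inj e)
    · obtain ⟨n1, n2⟩ := h.ne _ _ h1
      refine Or.inr (Or.inl ?_)
      rw [ng_ng]
      by_cases e1 : x = a
      · rw [e1] at hx
        exact h.symm _ _ hx
      · by_cases e2 : x = ng a
        · rw [e2, ng_ng] at hx'
          exact h.symm _ _ hx'
        · have h3 := h.trans a (ng b) x h1 (by rw [ng_ng]; exact hx) e1 e2
          refine h.trans a x b h3 (h.symm _ _ hx') ?_ ?_
          · rintro rfl
            exact n2 rfl
          · intro e
            exact n1 (ng_eq_iff.2 e)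
  · rcases h2 with rfl | h2 | ⟨rfl, y, hy, hy'⟩
    · exact Or.inr (Or.inr ⟨rfl, x, hx, hx'⟩)
    · obtain ⟨n1, n2⟩ := h.ne _ _ h2
      rw [ng_ng] at n2
      refine Or.inr (Or.inl ?_)
      by_cases e1 : x = c
      · rw [← e1]; exact hx'
      · by_cases e2 : x = ng c
        · rw [← e2]; exact hx
        · have h3 := h.trans (ng c) (ng a) x (h.symm _ _ h2) (by rw [ng_ng]; exact hx) e2 (by rw [ng_ng]; exact e1)
          exact h.trans a (ng x) (ng c) hx' (by rw [ng_ng]; exact h.symm _ _ h3) n2 n1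
    · left
      rw [ng_ng]

/-- if `P = -P` then the preorder is symmetric -/
theorem net_symm {P : Ix l → Ix l → Prop} (h : NR P) (hs : ∀ a b, P a b → P (ng a) (ng b))
    {a b : Ix l} (h1 : NP P a b) : NP P b a := by
  rcases h1 with rfl | h1 | ⟨rfl, x, hx, hx'⟩
  · exact Or.inl rfl
  · refine Or.inr (Or.inl ?_)
    have h3 := hs _ _ h1
    rw [ng_ng] at h3
    exact h.symm _ _ h3
  · refine Or.inr (Or.inr ⟨by rw [ng_ng], x, ?_, hs _ _ hx⟩)
    have h3 := hs _ _ hx'
    rwa [ng_ng] at h3

/-- if `P = -P` then `a ~ b` implies `-a ~ -b` -/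
theorem net_neg {P : Ix l → Ix l → Prop} (h : NR P) (hs : ∀ a b, P a b → P (ng a) (ng b))
    {a b : Ix l} (h1 : NP P a b) : NP P (ng a) (ng b) := by
  rcases h1 with rfl | h1 | ⟨rfl, x, hx, hx'⟩
  · exact Or.inl rfl
  · exact Or.inr (Or.inl (hs _ _ h1))
  · refine Or.inr (Or.inr ⟨rfl, x, ?_, hs _ _ hx⟩)
    have h3 := hs _ _ hx'
    rwa [ng_ng] at h3

/-- the entries of a root element: if `P` does not relate anything strictly backwards.
If `P a b` but not `P (ng a) (ng b)`, then `a > -b` strictly, and if `b = none` also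
`a > -a` strictly. -/
theorem net_strict {P : Ix l → Ix l → Prop} (h : NR P) {a b : Ix l} (h1 : P a b)
    (h2 : ¬ P (ng a) (ng b)) : ¬ NP P (ng b) a ∧ (b = none → ¬ NP P (ng a) a) := by
  obtain ⟨n1, n2⟩ := h.ne _ _ h1
  constructor
  · rintro (e | h3 | ⟨e, _⟩)
    · exact n2 (ng_eq_iff.1 e)
    · exact h2 (h.symm _ _ h3)
    · rw [ng_ng] at e
      exact n1 e.symm
  · rintro rfl h3
    have ha : a ≠ none := fun e => n1 e.symm
    rcases h3 with e | h3 | ⟨_, c, hc, hc'⟩
    · exact ng_ne_self ha e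
    · exact (h.ne _ _ h3).1 rfl
    · apply h2
      rw [ng_none]
      by_cases ec : c = none
      · rw [ec] at hc
        exact hc
      · have h4 := h.trans none a c (h.symm _ _ h1) hc ec (by rw [ng_none]; exact ec)
        refine h.trans (ng a) (ng c) none hc' (by rw [ng_ng]; exact h.symm _ _ h4) ?_ ?_
        · exact (ng_ne_none ha).symm
        · rw [ng_ng]; exact n1

end Pool.Agent.H33.TO
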