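import Pool.Agent.H33.TO.TorB
import Pool.Agent.H33.TO.Net

/-!
# JOB TO-7: the set of coordinate root groups in `F` is closed

The relation `SS F` satisfies `NR` (see `Net.lean`): symmetric (`SS.symm`), `ne` by definition,
and transitivity:
let `SS F a b`, `SS F (ng b) c`, `c ≠ a`, `c ≠ ng a`.  By symmetry we may assume `a ≠ none`
(if `a = none` then `c ≠ none`, and exchange the roles: `SS F c (ng b)`, `SS F b a`, where
`b = ng (ng b)`).
If `b ≠ none`: let `g ∈ F` act as `sg (ev (ng b)) (ev c)`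
(`SS F (ng b) c`; `1 • ev c = ev c`).  `g (ev a) = ev a` (as `bl (ev a) (ev (ng b)) = 0` since
`a ≠ b`, and `bl (ev a) (ev c) = 0` since `c ≠ ng a`), and
`g (ev b) = ev b + ev c - (1/2) bl(ev c, ev c) (ev (ng b))` (as `c ≠ ng b`... note
`bl (ev b) (ev c) = 0` because `c ≠ ng b`).
Conjugating `sg (ev a) (ev b) ∈ F` by `g` (`Has.conj`, `sg_conj`) gives
`Has F (sg (ev a) (g (ev b)))`;
`(g (ev b)) (ng a) = bl (ev a) (g (ev b)) = bl (ev a) (ev b) = 0` and `(g (ev b)) c = 1`
because `c ≠ b` and `c ≠ ng b` (`SS F (ng b) c`), so `lemT` gives `SS F a c`.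
If `b = none`: `SS F a none`, `SS F none c`, `c ≠ none`: `g` acting as `sg (ev c) (ev none)`,
`g (ev a) = ev a`, `g (ev none) = ev none - ev c`, and again `lemT`.
-/

namespace Pool.Agent.H33.TO

variable {l : ℕ} {K : Type*} [Field K] {F : Subgroup ((Ix l → K) ≃ₗ[K] (Ix l → K))}

theorem clo_aux {q : ℕ} (hq : QK q K) (hF : Ctx l K F) {a b c : Ix l} (ha : a ≠ none)
    (h1 : SS F a b) (h2 : SS F (ng b) c) (hca : c ≠ a) (hca' : c ≠ ng a) : SS F a c := by
  have hab : a ≠ b := fun h => h1.1 h.symm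
  have hba : b ≠ ng a := h1.2.1
  have hcb : c ≠ ng b := h2.1
  have hcb' : c ≠ b := by
    have := h2.2.1
    rwa [ng_ng] at this
  have hnab : ng a ≠ ng b := fun h => hab (ng_inj h)
  obtain ⟨g0, hg0, hg0'⟩ := h1.2.2.1 ha 1
  have hmain : ∀ g ∈ F, g (ev a) = ev a → (g (ev b)) (ng a) = 0 → (g (ev b)) c ≠ 0 →
      SS F a c := by
    intro g hg e1 e2 e3
    have hx : Has F (sg (bl l K) (ev a) (g (ev b))) := by
      have h3 : Has F (sg (bl l K) (ev a) ((1 : K) • ev b)) := ⟨g0, hg0, hg0'⟩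
      refine (h3.conj hg).congr fun u => ?_
      rw [sg_conj (hF.iso g hg), one_smul, e1]
    exact lemT hq hF ha e2 hx hca hca' e3
  by_cases hb : b = none
  · subst hb
    have hc : c ≠ none := hcb
    have hna : ng a ≠ none := ng_ne_none ha
    have hnc : ng c ≠ none := ng_ne_none hc
    obtain ⟨g, hg, hg'⟩ := h2.2.2.2 hc 1
    refine hmain g hg ?_ ?_ ?_
    · rw [hg']
      simp only [sg, one_smul, bl_ev, ng_none]
      rw [ev_ne (Ne.symm hca'), ev_ne hna]
      simp
    · rw [hg']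
      simp only [sg, one_smul, bl_ev, ng_none, Pi.add_apply, Pi.sub_apply, Pi.smul_apply,
        smul_eq_mul]
      rw [ev_ne hna, ev_ne (a := c) (b := none) (Ne.symm hc), ev_ne (Ne.symm hca')]
      simp
    · rw [hg']
      simp only [sg, one_smul, bl_ev, ng_none, Pi.add_apply, Pi.sub_apply, Pi.smul_apply,
        smul_eq_mul]
      rw [ev_ne (a := none) (b := c) hc, ev_ne (a := c) (b := none) (Ne.symm hc), ev_same,
        ev_same]
      simp
  · have hnb : ng b ≠ none := ng_ne_none hb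
    obtain ⟨g, hg, hg'⟩ := h2.2.2.1 hnb 1
    refine hmain g hg ?_ ?_ ?_
    · rw [hg']
      simp only [sg, one_smul, bl_ev]
      rw [ev_ne hnab, ev_ne (Ne.symm hca')]
      simp
    · rw [hg']
      simp only [sg, one_smul, bl_ev, Pi.add_apply, Pi.sub_apply, Pi.smul_apply,
        smul_eq_mul]
      rw [ev_ne (a := b) (b := ng a) (Ne.symm hba), ev_ne (a := c) (b := ng a) (Ne.symm hca'),
        ev_ne hnab]
      simp
    · rw [hg']
      simp only [sg, one_smul, bl_ev, Pi.add_apply, Pi.sub_apply, Pi.smul_apply,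
        smul_eq_mul]
      rw [ev_ne (a := b) (b := c) hcb', ev_ne (a := ng b) (b := c) hcb, ev_same, ev_same]
      simp

theorem ss_nr {q : ℕ} (hq : QK q K) (hF : Ctx l K F) : NR (SS F) := by
  refine ⟨fun a b h => h.symm, fun a b h => ⟨h.1, h.2.1⟩, fun a b c h1 h2 hca hca' => ?_⟩
  by_cases ha : a = none
  · subst ha
    have hc : c ≠ none := hca
    have h3 : SS F c none := by
      refine clo_aux hq hF hc h2.symm ?_ (Ne.symm hc) ?_
      · rw [ng_ng]
        exact h1.symm
      · exact Ne.symm (ng_ne_none hc)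
    exact h3.symm
  · exact clo_aux hq hF ha h1 h2 hca hca'

/-- the preorder of `F` is the one of `Net.lean` -/
theorem RR_iff (a b : Ix l) : RR F a b ↔ NP (SS F) a b := Iff.rfl

end Pool.Agent.H33.TO
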