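import Pool.Agent.H33.TO.Phi

/-!
# Codes for the fields with 7, 9 and 11 elements
-/

namespace Pool.Agent.H33.TO

variable {K : Type*} [Field K]

theorem card_cast (K : Type*) [Field K] : ((Nat.card K : ℕ) : K) = 0 := by
  have := addOrderOf_dvd_natCard (1 : K)
  obtain ⟨k, hk⟩ := this
  rw [hk]
  have h1 : addOrderOf (1 : K) • (1 : K) = 0 := addOrderOf_nsmul_eq_zero 1
  rw [nsmul_eq_mul, mul_one] at h1
  push_cast
  rw [h1, zero_mul]

theorem cast_mod {p : ℕ} (hp : ((p : ℕ) : K) = 0) (n : ℕ) : ((n % p : ℕ) : K) = n := by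
  conv_rhs => rw [← Nat.mod_add_div n p]
  push_cast
  rw [hp]
  ring

theorem cast_ne_of_prime {p : ℕ} [Fact p.Prime] (hp : ((p : ℕ) : K) = 0) (n : ℕ)
    (h : n % p ≠ 0) : (n : K) ≠ 0 := by
  intro h0
  have hchar : CharP K p := by
    have h1 : ringChar K ∣ p := ringChar.dvd hp
    have h2 : ringChar K ≠ 1 := by
      intro h
      have := ringChar.spec K 1
      rw [h] at this
      simp at this
    have h3 : ringChar K = p := ((Nat.dvd_prime Fact.out).1 h1).resolve_left h2
    rw [← h3]
    exact ringChar.charP K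
  have := (CharP.cast_eq_zero_iff K p n).1 h0
  omega

/-- codes for a field of prime order `p ≤ 16` -/
def cdp (p : ℕ) (hp : ((p : ℕ) : K) = 0) [Fact p.Prime] (h16 : p ≤ 16) (hf : ℕ)
    (hhf : (2 * hf) % p = 1) : CD K where
  ad a b := (a + b) % p
  mu a b := (a * b) % p
  ph n := n
  m1 := p - 1
  hf := hf
  had a b := by rw [cast_mod hp]; push_cast; rfl
  hmu a b := by rw [cast_mod hp]; push_cast; rfl
  h0 := by simp
  h1 := by simp
  hm1 := by
    have : 1 ≤ p := (Fact.out : p.Prime).one_lt.le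
    rw [Nat.cast_sub this, hp]; simp
  hhf := by
    have h2 : (2 : K) * hf = 1 := by
      have := cast_mod hp (2 * hf)
      rw [hhf] at this
      push_cast at this
      exact this.symm
    have h3 : (2 : K) ≠ 0 := fun h => by rw [h, zero_mul] at h2; exact zero_ne_one h2
    rw [eq_div_iff h3, mul_comm]; exact h2
  adlt a b := lt_of_lt_of_le (Nat.mod_lt _ (Fact.out : p.Prime).pos) h16
  mult a b := lt_of_lt_of_le (Nat.mod_lt _ (Fact.out : p.Prime).pos) h16
  ne0 a b h := by
    rw [cast_mod hp]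
    exact cast_ne_of_prime hp _ h

instance : Fact (Nat.Prime 11) := ⟨by norm_num⟩
instance : Fact (Nat.Prime 7) := ⟨by norm_num⟩

/-- codes for the field with 7 elements -/
def cd7 (h : Nat.card K = 7) : CD K :=
  cdp 7 (by have := card_cast K; rwa [h] at this) (by norm_num) 4 (by norm_num)

/-- codes for the field with 11 elements -/
def cd11 (h : Nat.card K = 11) : CD K :=
  cdp 11 (by have := card_cast K; rwa [h] at this) (by norm_num) 6 (by norm_num)

theorem three_eq_zero (h : Nat.card K = 9) : ((3 : ℕ) : K) = 0 := by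
  have := card_cast K
  rw [h] at this
  have h2 : ((3 : ℕ) : K) * ((3 : ℕ) : K) = 0 := by
    rw [← Nat.cast_mul]; exact_mod_cast this
  exact mul_self_eq_zero.1 h2

/-- addition in codes for 9 elements, `n = a + 3 b` for `a + b i` -/
def ad9 (a b : ℕ) : ℕ := (a + b) % 3 + 3 * ((a / 3 + b / 3) % 3)

/-- multiplication in codes for 9 elements -/
def mu9 (a b : ℕ) : ℕ := (a * b + 2 * (a / 3 * (b / 3))) % 3 +
  3 * ((a * (b / 3) + a / 3 * b) % 3)

/-- codes for the field with 9 elements -/
def cd9 (h : Nat.card K = 9) (i : K) (hi : i * i = -1) : CD K where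
  ad := ad9
  mu := mu9
  ph n := (n : K) + ((n / 3 : ℕ) : K) * i
  m1 := 2
  hf := 2
  had a b := by
    have h3 := three_eq_zero h
    have e1 : ad9 a b / 3 = (a / 3 + b / 3) % 3 := by simp only [ad9]; omega
    rw [e1, cast_mod h3]
    simp only [ad9]
    push_cast
    rw [cast_mod h3, cast_mod h3]
    push_cast at h3 ⊢
    linear_combination ((a / 3 : ℕ) + (b / 3 : ℕ) : K) * h3
  hmu a b := by
    have h3 := three_eq_zero h
    have e1 : mu9 a b / 3 = (a * (b / 3) + a / 3 * b) % 3 := by simp only [mu9]; omega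
    rw [e1, cast_mod h3]
    simp only [mu9]
    push_cast
    rw [cast_mod h3, cast_mod h3]
    push_cast at h3 ⊢
    linear_combination ((a : K) * (b / 3 : ℕ) + (a / 3 : ℕ) * (b : K) +
      (a / 3 : ℕ) * (b / 3 : ℕ)) * h3 - ((a / 3 : ℕ) * (b / 3 : ℕ) : K) * hi
  h0 := by simp
  h1 := by simp
  hm1 := by
    have h3 := three_eq_zero h
    push_cast at h3
    have : (2 : ℕ) / 3 = 0 := rfl
    rw [this]
    push_cast
    linear_combination h3
  hhf := by
    have h3 := three_eq_zero h
    push_cast at h3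
    have h2 : (2 : K) ≠ 0 := fun h2 => by
      have : (1 : K) = 0 := by linear_combination h3 - h2
      exact one_ne_zero this
    have : (2 : ℕ) / 3 = 0 := rfl
    rw [this, eq_div_iff h2]
    push_cast
    linear_combination h3
  adlt a b := by simp only [ad9]; omega
  mult a b := by simp only [mu9]; omega
  ne0 a b hne := by
    have h3 := three_eq_zero h
    intro h0
    have hF : Fact (Nat.Prime 3) := ⟨by norm_num⟩
    have e1 : ad9 a b / 3 = (a / 3 + b / 3) % 3 := by simp only [ad9]; omega
    rw [e1] at h0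
    simp only [ad9] at h0 hne
    set x := (a + b) % 3 with hx
    set y := (a / 3 + b / 3) % 3 with hy
    have hx3 : x < 3 := Nat.mod_lt _ (by norm_num)
    have hy3 : y < 3 := Nat.mod_lt _ (by norm_num)
    have h4 : (x : K) + (y : K) * i = 0 := by
      push_cast at h0 h3
      linear_combination h0 - (y : K) * h3
    have h5 : ((x * x + y * y : ℕ) : K) = 0 := by
      push_cast
      linear_combination ((x : K) - (y : K) * i) * h4 + (y : K) * (y : K) * hi
    by_cases hxy : (x * x + y * y) % 3 = 0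
    · have : x = 0 ∧ y = 0 := by
        have key : ∀ x < 3, ∀ y < 3, (x * x + y * y) % 3 = 0 → x = 0 ∧ y = 0 := by decide
        exact key x hx3 y hy3 hxy
      apply hne
      rw [this.1, this.2]
    · exact cast_ne_of_prime h3 _ hxy h5

theorem cd7_surj (h : Nat.card K = 7) (x : K) : ∃ n < 7, (cd7 h).ph n = x := by
  have h7 : ((7 : ℕ) : K) = 0 := by have := card_cast K; rwa [h] at this
  have hinj : Function.Injective (fun n : Fin 7 => ((n : ℕ) : K)) := by
    intro a b hab
    by_contra hne
    have hab' : ((a : ℕ) : K) = ((b : ℕ) : K) := hab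
    have h1 : (((a : ℕ) + (7 - (b : ℕ)) : ℕ) : K) = 0 := by
      have hb : (b : ℕ) ≤ 7 := b.2.le
      push_cast [Nat.cast_sub hb]
      push_cast at h7
      rw [hab']; linear_combination h7
    refine cast_ne_of_prime h7 _ ?_ h1
    intro h2
    apply hne
    ext
    omega
  have hfin : Finite K := Nat.finite_of_card_ne_zero (by rw [h]; norm_num)
  have hsurj : Function.Surjective (fun n : Fin 7 => ((n : ℕ) : K)) :=
    ((Nat.bijective_iff_injective_and_card _).2 ⟨hinj, by rw [h]; simp⟩).2
  obtain ⟨n, hn⟩ := hsurj x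
  exact ⟨n, n.2, hn⟩

theorem cd11_surj (h : Nat.card K = 11) (x : K) : ∃ n < 11, (cd11 h).ph n = x := by
  have h7 : ((11 : ℕ) : K) = 0 := by have := card_cast K; rwa [h] at this
  have hinj : Function.Injective (fun n : Fin 11 => ((n : ℕ) : K)) := by
    intro a b hab
    by_contra hne
    have hab' : ((a : ℕ) : K) = ((b : ℕ) : K) := hab
    have h1 : (((a : ℕ) + (11 - (b : ℕ)) : ℕ) : K) = 0 := by
      have hb : (b : ℕ) ≤ 11 := b.2.le
      push_cast [Nat.cast_sub hb]
      push_cast at h7
      rw [hab']; linear_combination h7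
    refine cast_ne_of_prime h7 _ ?_ h1
    intro h2
    apply hne
    ext
    omega
  have hfin : Finite K := Nat.finite_of_card_ne_zero (by rw [h]; norm_num)
  have hsurj : Function.Surjective (fun n : Fin 11 => ((n : ℕ) : K)) :=
    ((Nat.bijective_iff_injective_and_card _).2 ⟨hinj, by rw [h]; simp⟩).2
  obtain ⟨n, hn⟩ := hsurj x
  exact ⟨n, n.2, hn⟩

theorem cd9_surj (h : Nat.card K = 9) (i : K) (hi : i * i = -1) (x : K) :
    ∃ n < 9, (cd9 h i hi).ph n = x := by
  set c := cd9 h i hi with hc
  have hinj : Function.Injective (fun n : Fin 9 => c.ph n) := by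
    intro a b hab
    by_contra hne
    have hab' : c.ph a = c.ph b := hab
    have h1 : c.ph (ad9 a (mu9 2 b)) = 0 := by
      have e1 : c.ph (ad9 a (mu9 2 b)) = c.ph a + c.ph (mu9 2 b) := c.had _ _
      have e2 : c.ph (mu9 2 b) = c.ph 2 * c.ph b := c.hmu _ _
      have e3 : c.ph 2 = -1 := c.hm1
      rw [e1, e2, e3, hab']; ring
    refine c.ne0 a (mu9 2 b) ?_ h1
    intro h2
    apply hne
    have h3 : ad9 a (mu9 2 b) = 0 := h2
    have key : ∀ a b : Fin 9, ad9 a (mu9 2 b) = 0 → a = b := by decide +kernel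
    exact key a b h3
  have hfin : Finite K := Nat.finite_of_card_ne_zero (by rw [h]; norm_num)
  have hsurj : Function.Surjective (fun n : Fin 9 => c.ph n) :=
    ((Nat.bijective_iff_injective_and_card _).2 ⟨hinj, by rw [h]; simp⟩).2
  obtain ⟨n, hn⟩ := hsurj x
  exact ⟨n, n.2, hn⟩

theorem exists_i (h : Nat.card K = 9) : ∃ i : K, i * i = -1 := by
  have hfin : Finite K := Nat.finite_of_card_ne_zero (by rw [h]; norm_num)
  have : Fintype K := Fintype.ofFinite K
  have h1 : IsSquare (-1 : K) := by
    rw [FiniteField.isSquare_neg_one_iff, ← Nat.card_eq_fintype_card, h]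
    norm_num
  obtain ⟨i, hi⟩ := h1
  exact ⟨i, hi.symm⟩

/-- arithmetic on codes, 7 elements -/
def ca7 : CA := ⟨fun a b => (a + b) % 7, fun a b => (a * b) % 7, 6, 4⟩

/-- arithmetic on codes, 11 elements -/
def ca11 : CA := ⟨fun a b => (a + b) % 11, fun a b => (a * b) % 11, 10, 6⟩

/-- arithmetic on codes, 9 elements -/
def ca9 : CA := ⟨ad9, mu9, 2, 2⟩

theorem cd7_ca (h : Nat.card K = 7) : (cd7 h).toCA = ca7 := rfl

theorem cd11_ca (h : Nat.card K = 11) : (cd11 h).toCA = ca11 := rfl

theorem cd9_ca (h : Nat.card K = 9) (i : K) (hi : i * i = -1) : (cd9 h i hi).toCA = ca9 := rfl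

theorem QK.two_ne {q : ℕ} (hq : QK q K) : (2 : K) ≠ 0 := by
  obtain ⟨h, h7 | h9 | h11⟩ := hq
  · subst h7
    have := cast_ne_of_prime (p := 7) (by have := card_cast K; rwa [h] at this) 2 (by norm_num)
    exact_mod_cast this
  · subst h9
    have hF : Fact (Nat.Prime 3) := ⟨by norm_num⟩
    have := cast_ne_of_prime (p := 3) (three_eq_zero h) 2 (by norm_num)
    exact_mod_cast this
  · subst h11
    have := cast_ne_of_prime (p := 11) (by have := card_cast K; rwa [h] at this) 2 (by norm_num)
    exact_mod_cast this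

theorem QK.finite {q : ℕ} (hq : QK q K) : Finite K :=
  Nat.finite_of_card_ne_zero (by rw [hq.1]; rcases hq.2 with h | h | h <;> rw [h] <;> norm_num)

end Pool.Agent.H33.TO
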