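import Pool.Agent.H33.TO.PairChk

/-!
# Checking words for a rotation and a root group
-/

namespace Pool.Agent.H33.TO

/-- Gram matrix of `e, f, s, v`: `e f = 1`, `e s = a`, `e v = n`, `f s = 1`, `v v = g` -/
def grR (a n g : ℕ) : ℕ := bd (fun k => [0, 1, a, n, 1, 0, 1, 0, a, 1, 0, 0, n, 0, 0, g].getD k 0) 16

/-- generators: rotations in the plane `e, f`, and the root elements `s, l v` -/
def CA.rg (c : CA) (G q : ℕ) (dl : List (ℕ × ℕ)) : List ℕ :=
  dl.map (c.rc 0 1) ++ (List.range (q - 1)).map (fun l => c.sgc G 256 ((l + 1) * 4096))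

/-- check: both words are root elements with first vector `base`, and the second vectors
`e.2.1`, `e.2.2.2` together with `e, f` span the vector number `3` (mode 0), or number `2`
(mode 1) -/
def CA.ckR (c : CA) (G : ℕ) (gens : List ℕ) (mode base : ℕ)
    (e : List ℕ × ℕ × List ℕ × ℕ) : Bool :=
  c.run G gens e.1 == c.sgc G base e.2.1 && c.dt (c.gv G base) e.2.1 == 0 &&
  c.run G gens e.2.2.1 == c.sgc G base e.2.2.2 && c.dt (c.gv G base) e.2.2.2 == 0 &&
  ((c.mn e.2.1 e.2.2.2 2 3 != 0) ||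
    (mode == 0 && dg e.2.1 2 == 0 && c.ad (dg e.2.1 3) 0 != 0) ||
    (mode == 1 && dg e.2.1 3 == 0 && c.ad (dg e.2.1 2) 0 != 0))

end Pool.Agent.H33.TO
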