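import Pool.Agent.H33.TO.PairCert

/-!
# JOB TO-1: the lemma on pairs of planes

Everything is ready in `PairCert.lean`: the tables (`Tab7`, `Tab9`, `Tab11`) are kernel checked
and `Dat.pair` converts a table entry into the conclusion `PC` (or `PC3`).  What is left:

(1) `dat7, dat9, dat11`: the structure `Dat`.  Use `c.mu`-identities: if `c.mu r r = a` then
`ph a` is a square (`c.hmu`), if `c.mu a b = 1` then `ph b = (ph a)⁻¹` (`c.hmu`, `c.h1`).
Squares: q=7: 2=3*3, 4=2*2; q=11: 4=2*2, 5=4*4, 9=3*3, 3=5*5; q=9 (codes `a+3b` for `a+bi`):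
3=7*7, 2=3*3, 6=4*4.  `gen`: for q = 7, 11 take `m = 0` and `n` the code (`cd7_surj`: here
`ph n = (n : K)` by `rfl`), for q = 9, `3 ≤ l ≤ 8`: a finite check
`∀ l, 3 ≤ l → l ≤ 8 → ∀ x < 9, ∃ n < 3, ∃ m < 3, ad9 n (mu9 m l) = x` (`decide +kernel`), with
`ph n = n` for `n < 3` (as `n / 3 = 0`), together with `cd9_surj`.

(2) Change of form: for `c ≠ 0` and `B' = c • B` one has `rt B' w (c⁻¹ • w') d = rt B w w' d` and
`sg B' s v = sg B s (c • v)` (`sg_form`, `rt_form` in `Basic.lean`, proved).  Hence `HP B' w (c⁻¹ • w')`,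
`PL F B' w (c⁻¹ • w')`, and `PC F B' w (c⁻¹ w') z (c⁻¹ z')` gives `PC F B w w' z z'` (the root
group `RG F B' s v` is `RG F B s (c • v)`, which is `RG F B s v` up to `RG.smul`).
Scaling: `HP`, `PL` for `(b • z, b⁻¹ • z')` (`PL.scale`), and `PC` for the scaled planes gives
`PC` (change the coefficients).

(3) Normal forms.  Put `n11 = B w z, n12 = B w z', n21 = B w' z, n22 = B w' z'`,
`σ = n11 n22`, `τ = n12 n21`.  Suppose `n12 ≠ 0`.  Replace `z, z'` by `n12 • z, n12⁻¹ • z'`, and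
`B` by `c • B`, `w'` by `c⁻¹ • w'`, `z'` by `c⁻¹ • z'`.  The new Gram entries are
`c n12 n11, 1, τ, c⁻¹ n12⁻¹ n22` (check: `(c•B)(w, n12⁻¹ c⁻¹ z') = 1`,
`(c•B)(c⁻¹ w', n12 z) = n12 n21 = τ`,
`(c•B)(c⁻¹ w', n12⁻¹ c⁻¹ z') = c⁻¹ n12⁻¹ n22`).
 * F1: all four nonzero: `c = (n11 n12)⁻¹` gives `1, 1, τ, σ`.
 * F2: `n11 = 0`, the others nonzero: `c = n22 n12⁻¹` gives `0, 1, τ, 1`.
 * F3: `n11 = n22 = 0`: `c = 1` gives `0, 1, τ, 0`.
For `PC3` (F3): the conclusion says that `s` is in the span of `w', z'` and `v` in the span of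
`w, z`, this is kept by the scalings.

(4) `¬ Alw` leaves the following cases, by which entries vanish:
 * no zero entry: `(σ, τ)` is not in the list `sigOK`: F1 with `ka7_all` etc. (`ka7 s t` is
   `bd7 s t || ...`, and `bd7 s t = true` implies `sigOK 7 (ph s) (ph t)`).
 * exactly one zero.  If it is `n11`: then `τ ≠ 1` (third clause of `Alw`), F2 with `kb7`
   (`τ` has a code `≥ 2`).  If it is `n22`: exchange `w ↔ w'` and `z ↔ z'` (the Gram matrix
   becomes `n22, n21; n12, n11`).  If it is `n12`: exchange `z ↔ z'` (Gram matrix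
   `n12, n11; n22, n21`), if it is `n21`: exchange `w ↔ w'` (Gram matrix `n21, n22; n11, n12`).
   `HP.swap`, `PL.swap`, and `PC` is symmetric under these exchanges.
 * `n11 = n22 = 0`, `n12, n21 ≠ 0`: `τ ≠ 1`, `¬ kapOK q τ`: F3 with `kc7`.
 * `n12 = n21 = 0`, `n11, n22 ≠ 0`: exchange `z ↔ z'`.
 * in all other cases a row or a column vanishes, and `Alw` holds.
-/

namespace Pool.Agent.H33.TO

variable {K : Type*} [Field K] {V : Type*} [AddCommGroup V] [Module K V]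
  {B : LinearMap.BilinForm K V} {F : Subgroup (V ≃ₗ[K] V)}

theorem dat7 (h : Nat.card K = 7) : Dat (cd7 h) dl7 0 := by
  have hq : QK 7 K := ⟨h, Or.inl rfl⟩
  set c := cd7 h with hc
  refine ⟨hq.two_ne, ?_, ?_⟩
  · have key : ∀ d ∈ dl7, d.1 % 7 ≠ 0 ∧ (∃ r < 7, (r * r) % 7 = d.1) ∧ (d.1 * d.2) % 7 = 1 := by
      decide
    intro d hd
    obtain ⟨-, ⟨r, -, hr⟩, h2⟩ := key d hd
    have e1 : c.ph (d.1 * d.2 % 7) = c.ph d.1 * c.ph d.2 := c.hmu _ _
    have e2 : c.ph (r * r % 7) = c.ph r * c.ph r := c.hmu _ _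
    rw [h2, c.h1] at e1
    rw [hr] at e2
    have h0 : c.ph d.1 ≠ 0 := fun h0 => by rw [h0, zero_mul] at e1; exact one_ne_zero e1
    exact ⟨h0, ⟨c.ph r, e2⟩, eq_inv_of_mul_eq_one_right e1.symm⟩
  · intro l _ _ x
    obtain ⟨n, -, hn⟩ := cd7_surj h x
    refine ⟨n, 0, ?_⟩
    rw [Nat.cast_zero, zero_mul, add_zero]
    exact hn

theorem dat9 (h : Nat.card K = 9) (i : K) (hi : i * i = -1) : Dat (cd9 h i hi) dl9 3 := by
  have hq : QK 9 K := ⟨h, Or.inr (Or.inl rfl)⟩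
  set c := cd9 h i hi with hc
  refine ⟨hq.two_ne, ?_, ?_⟩
  · have key : ∀ d ∈ dl9, (∃ r < 9, mu9 r r = d.1) ∧ mu9 d.1 d.2 = 1 := by
      decide
    intro d hd
    obtain ⟨⟨r, -, hr⟩, h2⟩ := key d hd
    have e1 : c.ph (mu9 d.1 d.2) = c.ph d.1 * c.ph d.2 := c.hmu _ _
    have e2 : c.ph (mu9 r r) = c.ph r * c.ph r := c.hmu _ _
    rw [h2, c.h1] at e1
    rw [hr] at e2
    have h0 : c.ph d.1 ≠ 0 := fun h0 => by rw [h0, zero_mul] at e1; exact one_ne_zero e1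
    exact ⟨h0, ⟨c.ph r, e2⟩, eq_inv_of_mul_eq_one_right e1.symm⟩
  · intro l hl1 hl2 x
    obtain ⟨k, hk9, hk⟩ := cd9_surj h i hi x
    have key : ∀ l < 9, 3 ≤ l → ∀ k < 9, ∃ n < 3, ∃ m < 3, ad9 n (mu9 m l) = k := by
      decide +kernel
    obtain ⟨n, hn, m, hm, hnm⟩ := key l (by omega) hl1 k hk9
    refine ⟨n, m, ?_⟩
    have e1 : c.ph (ad9 n (mu9 m l)) = c.ph n + c.ph (mu9 m l) := c.had _ _
    have e2 : c.ph (mu9 m l) = c.ph m * c.ph l := c.hmu _ _
    have e3 : ∀ n < 3, c.ph n = (n : K) := by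
      intro n hn
      have : n / 3 = 0 := Nat.div_eq_of_lt hn
      show (n : K) + ((n / 3 : ℕ) : K) * i = n
      rw [this, Nat.cast_zero, zero_mul, add_zero]
    rw [if_neg (by omega), ← e3 n hn, ← e3 m hm, ← e2, ← e1, hnm]
    exact hk

theorem dat11 (h : Nat.card K = 11) : Dat (cd11 h) dl11 0 := by
  have hq : QK 11 K := ⟨h, Or.inr (Or.inr rfl)⟩
  set c := cd11 h with hc
  refine ⟨hq.two_ne, ?_, ?_⟩
  · have key : ∀ d ∈ dl11, (∃ r < 11, (r * r) % 11 = d.1) ∧ (d.1 * d.2) % 11 = 1 := by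
      decide
    intro d hd
    obtain ⟨⟨r, -, hr⟩, h2⟩ := key d hd
    have e1 : c.ph (d.1 * d.2 % 11) = c.ph d.1 * c.ph d.2 := c.hmu _ _
    have e2 : c.ph (r * r % 11) = c.ph r * c.ph r := c.hmu _ _
    rw [h2, c.h1] at e1
    rw [hr] at e2
    have h0 : c.ph d.1 ≠ 0 := fun h0 => by rw [h0, zero_mul] at e1; exact one_ne_zero e1
    exact ⟨h0, ⟨c.ph r, e2⟩, eq_inv_of_mul_eq_one_right e1.symm⟩
  · intro l _ _ x
    obtain ⟨n, -, hn⟩ := cd11_surj h x
    refine ⟨n, 0, ?_⟩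
    rw [Nat.cast_zero, zero_mul, add_zero]
    exact hn

/-- the normal form F1 -/
def Base1 (q : ℕ) (F : Subgroup (V ≃ₗ[K] V)) : Prop :=
  ∀ B : LinearMap.BilinForm K V, (∀ u v, B u v = B v u) → ∀ w w' z z' : V, HP B w w' →
    HP B z z' → PL F B w w' → PL F B z z' → B w z = 1 → B w z' = 1 → B w' z ≠ 0 →
    B w' z' ≠ 0 → ¬ sigOK q (B w' z') (B w' z) → PC F B w w' z z'

/-- the normal form F2 -/
def Base2 (F : Subgroup (V ≃ₗ[K] V)) : Prop :=
  ∀ B : LinearMap.BilinForm K V, (∀ u v, B u v = B v u) → ∀ w w' z z' : V, HP B w w' →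
    HP B z z' → PL F B w w' → PL F B z z' → B w z = 0 → B w z' = 1 → B w' z ≠ 0 →
    B w' z ≠ 1 → B w' z' = 1 → PC F B w w' z z'

/-- the normal form F3 -/
def Base3 (q : ℕ) (F : Subgroup (V ≃ₗ[K] V)) : Prop :=
  ∀ B : LinearMap.BilinForm K V, (∀ u v, B u v = B v u) → ∀ w w' z z' : V, HP B w w' →
    HP B z z' → PL F B w w' → PL F B z z' → B w z = 0 → B w z' = 1 → B w' z ≠ 0 →
    B w' z ≠ 1 → B w' z' = 0 → ¬ kapOK q (B w' z) → PC F B w w' z z' ∧ PC3 F B w w' z z'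

theorem base_of {q : ℕ} (hq16 : q ≤ 16) (c : CD K) {dl : List (ℕ × ℕ)} {lo : ℕ}
    (D : Dat c dl lo) (hsurj : ∀ x, ∃ n < q, c.ph n = x)
    (ta : ℕ → ℕ → List ℕ × List ℕ × ℕ × ℕ × ℕ) (tb tc : ℕ → List ℕ × List ℕ × ℕ × ℕ × ℕ)
    (ha : ∀ s t, s ≠ 0 → s < q → t ≠ 0 → t < q → sigOK q (c.ph s) (c.ph t) ∨
      c.ck2 lo (grc 1 1 t s) (c.pg dl) (ta s t) = true)
    (hb : ∀ t, 2 ≤ t → t < q → c.ck2 lo (grc 0 1 t 1) (c.pg dl) (tb t) = true)
    (hc : ∀ t, 2 ≤ t → t < q → kapOK q (c.ph t) ∨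
      (c.ck2 lo (grc 0 1 t 0) (c.pg dl) (tc t) = true ∧
       dg (tc t).2.2.1 0 = 0 ∧ dg (tc t).2.2.1 2 = 0 ∧ dg (tc t).2.2.2.1 1 = 0 ∧
        dg (tc t).2.2.2.1 3 = 0)) :
    Base1 q F ∧ Base2 F ∧ Base3 q F := by
  have hn0 : ∀ n, c.ph n ≠ 0 → n ≠ 0 := fun n h h0 => h (by rw [h0, c.h0])
  have hn1 : ∀ n, c.ph n ≠ 1 → n ≠ 1 := fun n h h0 => h (by rw [h0, c.h1])
  refine ⟨?_, ?_, ?_⟩
  · intro B hsym w w' z z' h1 h2 p1 p2 e1 e2 e3 e4 e5
    obtain ⟨t, ht, hte⟩ := hsurj (B w' z)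
    obtain ⟨s, hs, hse⟩ := hsurj (B w' z')
    rw [← hte] at e3 e5
    rw [← hse] at e4 e5
    have h := (ha s t (hn0 s e4) hs (hn0 t e3) ht).resolve_left e5
    exact (D.pair hsym h1 h2 p1 p2 (by norm_num) (by norm_num) (by omega) (by omega)
      (by rw [e1, c.h1]) (by rw [e2, c.h1]) hte.symm hse.symm _ h).1
  · intro B hsym w w' z z' h1 h2 p1 p2 e1 e2 e3 e4 e5
    obtain ⟨t, ht, hte⟩ := hsurj (B w' z)
    rw [← hte] at e3 e4
    have t0 := hn0 t e3
    have t1 := hn1 t e4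
    have h := hb t (by omega) ht
    exact (D.pair hsym h1 h2 p1 p2 (by norm_num) (by norm_num) (by omega) (by norm_num)
      (by rw [e1, c.h0]) (by rw [e2, c.h1]) hte.symm (by rw [e5, c.h1]) _ h).1
  · intro B hsym w w' z z' h1 h2 p1 p2 e1 e2 e3 e4 e5 e6
    obtain ⟨t, ht, hte⟩ := hsurj (B w' z)
    rw [← hte] at e3 e4 e6
    have t0 := hn0 t e3
    have t1 := hn1 t e4
    obtain ⟨h, h'⟩ := (hc t (by omega) ht).resolve_left e6
    have := D.pair hsym h1 h2 p1 p2 (by norm_num) (by norm_num) (by omega) (by norm_num)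
      (by rw [e1, c.h0]) (by rw [e2, c.h1]) hte.symm (by rw [e5, c.h0]) _ h
    exact ⟨this.1, this.2 h'⟩

theorem base_all {q : ℕ} (hq : QK q K) : Base1 q F ∧ Base2 F ∧ Base3 q F := by
  obtain ⟨h, h7 | h9 | h11⟩ := hq
  · subst h7
    refine base_of (c := cd7 h) (by norm_num) (dat7 h) (cd7_surj h)
      (fun s t => (ta7.getD (s - 1) []).getD (t - 1) ([], [], 0, 0, 0))
      (fun t => tb7.getD (t - 1) ([], [], 0, 0, 0))
      (fun t => tc7.getD (t - 1) ([], [], 0, 0, 0)) ?_ ?_ ?_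
    · intro s t hs0 hs ht0 ht
      have h1 := ka7_all s t hs0 hs ht0 ht
      rw [ka7, Bool.or_eq_true] at h1
      rcases h1 with h1 | h1
      · left
        left
        refine ⟨rfl, ?_⟩
        simp only [bd7, Bool.or_eq_true, Bool.and_eq_true, beq_iff_eq] at h1
        show (((s : ℕ) : K) = 1 ∧ ((t : ℕ) : K) = 1) ∨ (((s : ℕ) : K) = 4 ∧ ((t : ℕ) : K) = 4) ∨
          (((s : ℕ) : K) = 2 ∧ ((t : ℕ) : K) = 4) ∨ (((s : ℕ) : K) = 4 ∧ ((t : ℕ) : K) = 2)
        rcases h1 with ((⟨rfl, rfl⟩ | ⟨rfl, rfl⟩) | ⟨rfl, rfl⟩) | ⟨rfl, rfl⟩ <;> simp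
      · exact Or.inr h1
    · intro t ht2 ht
      have h1 := List.all_eq_true.1 kb7 (t - 2) (List.mem_range.2 (by omega))
      have e1 : t - 2 + 2 = t := by omega
      have e2 : t - 2 + 1 = t - 1 := by omega
      rw [e1, e2] at h1
      exact h1
    · intro t ht2 ht
      have h1 := List.all_eq_true.1 kc7 (t - 2) (List.mem_range.2 (by omega))
      have e1 : t - 2 + 2 = t := by omega
      have e2 : t - 2 + 1 = t - 1 := by omega
      rw [e1, e2, Bool.or_eq_true] at h1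
      rcases h1 with h1 | h1
      · left
        left
        refine ⟨rfl, ?_⟩
        simp only [kp7, Bool.or_eq_true, beq_iff_eq] at h1
        show ((t : ℕ) : K) = 3 ∨ ((t : ℕ) : K) = 5
        rcases h1 with (h1 | rfl) | rfl
        · omega
        · left; norm_num
        · right; norm_num
      · rw [Bool.and_eq_true] at h1
        refine Or.inr ⟨h1.1, ?_⟩
        have h2 := h1.2
        simp only [sp7, Bool.and_eq_true, beq_iff_eq] at h2
        exact ⟨h2.1.1.1, h2.1.1.2, h2.1.2, h2.2⟩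
  · subst h9
    obtain ⟨i, hi⟩ := exists_i h
    refine base_of (c := cd9 h i hi) (by norm_num) (dat9 h i hi) (cd9_surj h i hi)
      (fun s t => (ta9.getD (s - 1) []).getD (t - 1) ([], [], 0, 0, 0))
      (fun t => tb9.getD (t - 1) ([], [], 0, 0, 0))
      (fun t => tc9.getD (t - 1) ([], [], 0, 0, 0)) ?_ ?_ ?_
    · intro s t hs0 hs ht0 ht
      have h1 := ka9_all s t hs0 hs ht0 ht
      rw [ka9, Bool.or_eq_true] at h1
      rcases h1 with h1 | h1
      · left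
        right; right
        refine ⟨rfl, ?_⟩
        simp only [bd9, Bool.or_eq_true, Bool.and_eq_true, beq_iff_eq] at h1
        have e1 : (cd9 h i hi).ph 1 = 1 := (cd9 h i hi).h1
        have e2 : (cd9 h i hi).ph 2 = 2 := by
          show ((2 : ℕ) : K) + ((2 / 3 : ℕ) : K) * i = 2
          norm_num
        rcases h1 with ((⟨rfl, rfl⟩ | ⟨rfl, rfl⟩) | ⟨rfl, rfl⟩) | ⟨rfl, rfl⟩ <;>
          simp [e1, e2]
      · exact Or.inr h1
    · intro t ht2 ht
      have h1 := List.all_eq_true.1 kb9 (t - 2) (List.mem_range.2 (by omega))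
      have e1 : t - 2 + 2 = t := by omega
      have e2 : t - 2 + 1 = t - 1 := by omega
      rw [e1, e2] at h1
      exact h1
    · intro t ht2 ht
      have h1 := List.all_eq_true.1 kc9 (t - 2) (List.mem_range.2 (by omega))
      have e1 : t - 2 + 2 = t := by omega
      have e2 : t - 2 + 1 = t - 1 := by omega
      rw [e1, e2, Bool.or_eq_true] at h1
      rcases h1 with h1 | h1
      · left
        right; right
        refine ⟨rfl, ?_⟩
        simp only [kp9, Bool.or_eq_true, beq_iff_eq] at h1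
        have e3 : (cd9 h i hi).ph 2 = 2 := by
          show ((2 : ℕ) : K) + ((2 / 3 : ℕ) : K) * i = 2
          norm_num
        rcases h1 with h1 | rfl
        · omega
        · exact e3
      · rw [Bool.and_eq_true] at h1
        refine Or.inr ⟨h1.1, ?_⟩
        have h2 := h1.2
        simp only [sp9, Bool.and_eq_true, beq_iff_eq] at h2
        exact ⟨h2.1.1.1, h2.1.1.2, h2.1.2, h2.2⟩
  · subst h11
    refine base_of (c := cd11 h) (by norm_num) (dat11 h) (cd11_surj h)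
      (fun s t => (ta11.getD (s - 1) []).getD (t - 1) ([], [], 0, 0, 0))
      (fun t => tb11.getD (t - 1) ([], [], 0, 0, 0))
      (fun t => tc11.getD (t - 1) ([], [], 0, 0, 0)) ?_ ?_ ?_
    · intro s t hs0 hs ht0 ht
      have h1 := ka11_all s t hs0 hs ht0 ht
      rw [ka11, Bool.or_eq_true] at h1
      rcases h1 with h1 | h1
      · left
        right; left
        refine ⟨rfl, ?_⟩
        simp only [bd11, Bool.or_eq_true, Bool.and_eq_true, beq_iff_eq] at h1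
        show (((s : ℕ) : K) = 9 ∧ ((t : ℕ) : K) = 9) ∨ (((s : ℕ) : K) = 4 ∧ ((t : ℕ) : K) = 1) ∨
          (((s : ℕ) : K) = 1 ∧ ((t : ℕ) : K) = 4)
        rcases h1 with (⟨rfl, rfl⟩ | ⟨rfl, rfl⟩) | ⟨rfl, rfl⟩ <;> simp
      · exact Or.inr h1
    · intro t ht2 ht
      have h1 := List.all_eq_true.1 kb11 (t - 2) (List.mem_range.2 (by omega))
      have e1 : t - 2 + 2 = t := by omega
      have e2 : t - 2 + 1 = t - 1 := by omega
      rw [e1, e2] at h1
      exact h1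
    · intro t ht2 ht
      have h1 := List.all_eq_true.1 kc11 (t - 2) (List.mem_range.2 (by omega))
      have e1 : t - 2 + 2 = t := by omega
      have e2 : t - 2 + 1 = t - 1 := by omega
      rw [e1, e2, Bool.or_eq_true] at h1
      rcases h1 with h1 | h1
      · left
        right; left
        refine ⟨rfl, ?_⟩
        simp only [kp11, Bool.or_eq_true, beq_iff_eq] at h1
        show ((t : ℕ) : K) = 2 ∨ ((t : ℕ) : K) = 10
        rcases h1 with (h1 | rfl) | rfl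
        · omega
        · left; norm_num
        · right; norm_num
      · rw [Bool.and_eq_true] at h1
        refine Or.inr ⟨h1.1, ?_⟩
        have h2 := h1.2
        simp only [sp11, Bool.and_eq_true, beq_iff_eq] at h2
        exact ⟨h2.1.1.1, h2.1.1.2, h2.1.2, h2.2⟩

theorem HP.form {w w' : V} (h : HP B w w') {c : K} (hc : c ≠ 0) :
    HP (c • B) w (c⁻¹ • w') := by
  obtain ⟨h1, h2, h3⟩ := h
  refine ⟨?_, ?_, ?_⟩
  · simp [h1]
  · simp [h2]
  · simp [h3, hc]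

theorem HP.scale {w w' : V} (h : HP B w w') {c : K} (hc : c ≠ 0) :
    HP B (c • w) (c⁻¹ • w') := by
  obtain ⟨h1, h2, h3⟩ := h
  refine ⟨?_, ?_, ?_⟩
  · simp [h1]
  · simp [h2]
  · simp [h3, hc]

theorem PL.form {w w' : V} (h : PL F B w w') {c : K} (hc : c ≠ 0) :
    PL F (c • B) w (c⁻¹ • w') := fun d hd hsq =>
  (h d hd hsq).congr fun u => (rt_form hc w w' d u).symm

theorem RG.form {s v : V} {c : K} (hc : c ≠ 0) (h : RG F (c • B) s v) : RG F B s v := fun x =>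
  (h (c⁻¹ * x)).congr fun u => by
    rw [sg_form, smul_smul, mul_inv_cancel_left₀ hc]

theorem PC.form {w w' z z' : V} {c n : K} (hc : c ≠ 0)
    (h : PC F (c • B) w (c⁻¹ • w') (n • z) (c⁻¹ • (n⁻¹ • z'))) : PC F B w w' z z' := by
  obtain ⟨x, y, s, v, hs, hv, h1, h2, h3, h4⟩ := h
  refine ⟨![x 0, x 1 * c⁻¹, x 2 * n, x 3 * (c⁻¹ * n⁻¹)],
    ![y 0, y 1 * c⁻¹, y 2 * n, y 3 * (c⁻¹ * n⁻¹)], s, v, ?_, ?_, ?_, ?_, h3, h4.form hc⟩
  · rw [hs]
    simp only [smul_smul, Matrix.cons_val, mul_assoc]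
  · rw [hv]
    simp only [smul_smul, Matrix.cons_val, mul_assoc]
  · have : c * B s s = 0 := h1
    exact (mul_eq_zero.1 this).resolve_left hc
  · have : c * B s v = 0 := h2
    exact (mul_eq_zero.1 this).resolve_left hc

theorem PC3.form {w w' z z' : V} {c n : K} (hc : c ≠ 0)
    (h : PC3 F (c • B) w (c⁻¹ • w') (n • z) (c⁻¹ • (n⁻¹ • z'))) : PC3 F B w w' z z' := by
  obtain ⟨x, y, s, v, hs, hv, h1, h2, h3, h4⟩ := h
  refine ⟨![x 0, x 1 * c⁻¹, x 2 * n, x 3 * (c⁻¹ * n⁻¹)],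
    ![y 0, y 1 * c⁻¹, y 2 * n, y 3 * (c⁻¹ * n⁻¹)], s, v, ?_, ?_, ?_, ?_, h3, h4.form hc⟩
  · rw [hs]
    simp only [smul_smul, Matrix.cons_val, mul_assoc]
  · rw [hv]
    simp only [smul_smul, Matrix.cons_val]
  · have : c * B s s = 0 := h1
    exact (mul_eq_zero.1 this).resolve_left hc
  · have : c * B s v = 0 := h2
    exact (mul_eq_zero.1 this).resolve_left hc

theorem PC.swap1 {w w' z z' : V} (h : PC F B w' w z z') : PC F B w w' z z' := by
  obtain ⟨x, y, s, v, hs, hv, h1⟩ := h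
  refine ⟨![x 1, x 0, x 2, x 3], ![y 1, y 0, y 2, y 3], s, v, ?_, ?_, h1⟩
  · rw [hs]
    simp only [Matrix.cons_val]
    abel
  · rw [hv]
    simp only [Matrix.cons_val]
    abel

theorem PC.swap2 {w w' z z' : V} (h : PC F B w w' z' z) : PC F B w w' z z' := by
  obtain ⟨x, y, s, v, hs, hv, h1⟩ := h
  refine ⟨![x 0, x 1, x 3, x 2], ![y 0, y 1, y 3, y 2], s, v, ?_, ?_, h1⟩
  · rw [hs]
    simp only [Matrix.cons_val]
    abel
  · rw [hv]
    simp only [Matrix.cons_val]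
    abel

theorem sym_form (hsym : ∀ u v, B u v = B v u) (c : K) (u v : V) :
    (c • B) u v = (c • B) v u := by
  simp only [LinearMap.smul_apply]
  rw [hsym]

theorem gram_form {c n : K} (hc : c ≠ 0) (hn : n ≠ 0) (w w' z z' : V) :
    (c • B) w (n • z) = c * n * B w z ∧
    (c • B) w (c⁻¹ • (n⁻¹ • z')) = n⁻¹ * B w z' ∧
    (c • B) (c⁻¹ • w') (n • z) = n * B w' z ∧
    (c • B) (c⁻¹ • w') (c⁻¹ • (n⁻¹ • z')) = c⁻¹ * n⁻¹ * B w' z' := by
  simp only [LinearMap.smul_apply, map_smul, smul_eq_mul]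
  refine ⟨?_, ?_, ?_, ?_⟩ <;> field_simp

/-- all four entries nonzero -/
theorem pair_a {q : ℕ} (hb : Base1 q F) (hsym : ∀ u v, B u v = B v u) {w w' z z' : V}
    (h1 : HP B w w') (h2 : HP B z z') (p1 : PL F B w w') (p2 : PL F B z z')
    (n11 : B w z ≠ 0) (n12 : B w z' ≠ 0) (n21 : B w' z ≠ 0) (n22 : B w' z' ≠ 0)
    (hn : ¬ sigOK q (B w z * B w' z') (B w z' * B w' z)) : PC F B w w' z z' := by
  have hc : (B w z * B w z')⁻¹ ≠ 0 := inv_ne_zero (mul_ne_zero n11 n12)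
  obtain ⟨g1, g2, g3, g4⟩ := gram_form (B := B) hc n12 w w' z z'
  have e4 : (B w z * B w z')⁻¹⁻¹ * (B w z')⁻¹ * B w' z' = B w z * B w' z' := by
    field_simp
  refine PC.form (n := B w z') hc (hb _ (sym_form hsym _) _ _ _ _ (h1.form hc)
    ((h2.scale n12).form hc) (p1.form hc) ((p2.scale n12).form hc) ?_ ?_ ?_ ?_ ?_)
  · rw [g1]
    field_simp
  · rw [g2]
    field_simp
  · rw [g3]
    exact mul_ne_zero n12 n21
  · rw [g4, e4]
    exact mul_ne_zero n11 n22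
  · rw [g3, g4, e4]
    exact hn

/-- exactly one entry zero -/
theorem pair_b (hb : Base2 F) (hsym : ∀ u v, B u v = B v u) {w w' z z' : V}
    (h1 : HP B w w') (h2 : HP B z z') (p1 : PL F B w w') (p2 : PL F B z z')
    (n11 : B w z = 0) (n12 : B w z' ≠ 0) (n21 : B w' z ≠ 0) (n22 : B w' z' ≠ 0)
    (hn : B w z' * B w' z ≠ 1) : PC F B w w' z z' := by
  have hc : B w' z' * (B w z')⁻¹ ≠ 0 := mul_ne_zero n22 (inv_ne_zero n12)
  obtain ⟨g1, g2, g3, g4⟩ := gram_form (B := B) hc n12 w w' z z'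
  refine PC.form (n := B w z') hc (hb _ (sym_form hsym _) _ _ _ _ (h1.form hc)
    ((h2.scale n12).form hc) (p1.form hc) ((p2.scale n12).form hc) ?_ ?_ ?_ ?_ ?_)
  · rw [g1, n11, mul_zero]
  · rw [g2]
    field_simp
  · rw [g3]
    exact mul_ne_zero n12 n21
  · rw [g3]
    exact hn
  · rw [g4]
    field_simp

/-- diagonal entries zero -/
theorem pair_c {q : ℕ} (hb : Base3 q F) (hsym : ∀ u v, B u v = B v u) {w w' z z' : V}
    (h1 : HP B w w') (h2 : HP B z z') (p1 : PL F B w w') (p2 : PL F B z z')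
    (n11 : B w z = 0) (n12 : B w z' ≠ 0) (n21 : B w' z ≠ 0) (n22 : B w' z' = 0)
    (hn : B w z' * B w' z ≠ 1) (hk : ¬ kapOK q (B w z' * B w' z)) :
    PC F B w w' z z' ∧ PC3 F B w w' z z' := by
  have hc : (1 : K) ≠ 0 := one_ne_zero
  obtain ⟨g1, g2, g3, g4⟩ := gram_form (B := B) hc n12 w w' z z'
  have := hb _ (sym_form hsym _) _ _ _ _ (h1.form hc) ((h2.scale n12).form hc)
    (p1.form hc) ((p2.scale n12).form hc) (by rw [g1, n11, mul_zero])
    (by rw [g2]; field_simp) (by rw [g3]; exact mul_ne_zero n12 n21) (by rw [g3]; exact hn)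
    (by rw [g4, n22, mul_zero]) (by rw [g3]; exact hk)
  exact ⟨PC.form hc this.1, PC3.form hc this.2⟩

/-- two planes whose position is not in the list `Alw`: the group contains a full root group -/
theorem pair_lemma {q : ℕ} (hq : QK q K) (hsym : ∀ u v, B u v = B v u) {w w' z z' : V}
    (h1 : HP B w w') (h2 : HP B z z') (p1 : PL F B w w') (p2 : PL F B z z')
    (hn : ¬ Alw q (B w z) (B w z') (B w' z) (B w' z')) : PC F B w w' z z' := by
  obtain ⟨b1, b2, b3⟩ := base_all (F := F) hq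
  simp only [Alw, not_or] at hn
  obtain ⟨c1, c2, c3, c4, c5, c6, c7, c8, c9, c10, c11⟩ := hn
  by_cases ha : B w z = 0
  · by_cases hb : B w z' = 0
    · exact absurd ⟨ha, hb⟩ c8
    by_cases hc : B w' z = 0
    · exact absurd ⟨ha, hc⟩ c10
    by_cases hd : B w' z' = 0
    · refine (pair_c b3 hsym h1 h2 p1 p2 ha hb hc hd ?_ ?_).1
      · exact fun h => c6 ⟨ha, hd, Or.inl h⟩
      · exact fun h => c6 ⟨ha, hd, Or.inr h⟩
    · exact pair_b b2 hsym h1 h2 p1 p2 ha hb hc hd fun h => c2 ⟨ha, hd, h⟩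
  · by_cases hb : B w z' = 0
    · by_cases hd : B w' z' = 0
      · exact absurd ⟨hb, hd⟩ c11
      by_cases hc : B w' z = 0
      · refine PC.swap2 (pair_c b3 hsym h1 (h2.swap hsym) p1 p2.swap hb ha hd hc ?_ ?_).1
        · exact fun h => c7 ⟨hb, hc, Or.inl h⟩
        · exact fun h => c7 ⟨hb, hc, Or.inr h⟩
      · exact PC.swap2 (pair_b b2 hsym h1 (h2.swap hsym) p1 p2.swap hb ha hd hc
          fun h => c4 ⟨hb, hc, h⟩)
    · by_cases hc : B w' z = 0
      · by_cases hd : B w' z' = 0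
        · exact absurd ⟨hc, hd⟩ c9
        · exact PC.swap1 (pair_b b2 hsym (h1.swap hsym) h2 p1.swap p2 hc hd ha hb
            fun h => c5 ⟨hc, hb, by rw [mul_comm]; exact h⟩)
      · by_cases hd : B w' z' = 0
        · exact PC.swap1 (PC.swap2 (pair_b b2 hsym (h1.swap hsym) (h2.swap hsym) p1.swap p2.swap
            hd hc hb ha fun h => c3 ⟨hd, ha, by rw [mul_comm]; exact h⟩))
        · exact pair_a b1 hsym h1 h2 p1 p2 ha hb hc hd fun h => c1 ⟨ha, hb, hc, hd, h⟩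

/-- the special position `n11 = n22 = 0` -/
theorem pair_lemma3 {q : ℕ} (hq : QK q K) (hsym : ∀ u v, B u v = B v u) {w w' z z' : V}
    (h1 : HP B w w') (h2 : HP B z z') (p1 : PL F B w w') (p2 : PL F B z z')
    (h11 : B w z = 0) (h22 : B w' z' = 0) (t0 : B w z' * B w' z ≠ 0)
    (t1 : B w z' * B w' z ≠ 1) (hk : ¬ kapOK q (B w z' * B w' z)) : PC3 F B w w' z z' := by
  obtain ⟨b1, b2, b3⟩ := base_all (F := F) hq
  exact (pair_c b3 hsym h1 h2 p1 p2 h11 (left_ne_zero_of_mul t0) (right_ne_zero_of_mul t0) h22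
    t1 hk).2

end Pool.Agent.H33.TO
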