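import Pool.Agent.H33.TO.PairChk

/-!
# Table of words for `q = 11`
-/

namespace Pool.Agent.H33.TO

/-- powers of the generator of the group of squares and their inverses -/
def dl11 : List (ℕ × ℕ) := [(4,3),(5,9),(9,5),(3,4)]

/-- excluded pairs -/
def bd11 (s t : ℕ) : Bool := (s == 9 && t == 9) || (s == 4 && t == 1) || (s == 1 && t == 4)

/-- excluded values -/
def kp11 (t : ℕ) : Bool := t == 1 || t == 2 || t == 10

/-- words for the Gram matrices `1, 1; t, s` -/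
def ta11 : List (List (List ℕ × List ℕ × ℕ × ℕ × ℕ)) := [
  [([0,4,0,4,0,7], [], 26641, 34096, 0),
   ([0,4,0,5,3,7], [], 12801, 19104, 0),
   ([0,4,1,5], [], 22129, 35136, 0),
   ([], [], 0, 0, 0),
   ([0,4,0,5,0,6,3,7], [], 96, 43526, 0),
   ([0,4,1,6,2,5], [], 43425, 22160, 0),
   ([0,4,0,5,2,6], [], 21889, 14096, 0),
   ([0,4,1,6,3,5], [], 29809, 30320, 0),
   ([0,6,0,6], [], 5953, 28944, 0),
   ([0,4,2,6,3,6], [], 8753, 13888, 0)],
  [([0,4,3,4,2,7], [], 801, 29088, 0),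
   ([0,4,0,7], [], 9057, 42144, 0),
   ([0,4,0,4,1,7], [], 9521, 14160, 0),
   ([0,5,1,6,0,7], [], 21777, 22608, 0),
   ([0,4,0,4,1,7], [], 23073, 33616, 0),
   ([0,4,1,4,1,5,0,5], [], 41616, 5894, 0),
   ([0,4,1,6,2,7], [], 5377, 26704, 0),
   ([0,4,0,7,2,7], [], 10337, 2320, 0),
   ([0,4,1,7,1,6], [], 17777, 35104, 0),
   ([0,5,1,7], [], 9345, 41776, 0)],
  [([0,6,1,7], [], 29041, 6704, 0),
   ([0,4,1,7,0,7], [], 26128, 26631, 0),
   ([0,4,2,7], [], 5985, 6000, 0),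
   ([0,5,2,7], [], 13633, 19104, 0),
   ([0,4,0,4,0,6], [], 16721, 10080, 0),
   ([0,4,0,7,2,7], [], 25616, 37638, 0),
   ([0,4,1,5,0,7], [], 37649, 21088, 0),
   ([0,5,1,5,0,7], [], 43088, 16902, 0),
   ([0,6,0,7], [], 41345, 14208, 0),
   ([0,4,0,5,0,7], [], 21137, 25488, 0)],
  [([], [], 0, 0, 0),
   ([0,4,0,5,1,6], [], 18449, 33840, 0),
   ([0,4,2,6], [], 26177, 22368, 0),
   ([0,5,2,6], [], 17057, 39536, 0),
   ([0,6,1,6], [], 10801, 14864, 0),
   ([0,5,1,6,1,7], [], 9633, 9824, 0),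
   ([0,4,1,5,3,6], [], 10849, 31392, 0),
   ([0,4,0,4,3,7], [], 30353, 30368, 0),
   ([0,4,2,4,1,6], [], 34897, 9536, 0),
   ([1,6,1,6,1,6], [], 30544, 9222, 0)],
  [([0,4,0,6,2,7,1,7], [], 38816, 37638, 0),
   ([0,4,1,6,1,6], [], 38721, 41120, 0),
   ([0,4,0,6,1,6], [], 30209, 5216, 0),
   ([0,5,1,5], [], 41521, 41744, 0),
   ([0,4,2,7], [], 17969, 9024, 0),
   ([0,4,2,6,0,7], [], 1409, 9232, 0),
   ([0,7,0,7,0,7], [], 33648, 26630, 0),
   ([0,5,1,6,2,6], [], 13953, 24992, 0),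
   ([0,4,1,5,1,5], [], 26896, 2310, 0),
   ([0,4,2,6,2,6], [], 8769, 26944, 0)],
  [([0,4,0,4,1,7], [], 41345, 288, 0),
   ([0,4,0,4,1,6,2,5], [], 64, 37638, 0),
   ([0,4,2,4,0,7], [], 4752, 37638, 0),
   ([0,4,1,5,1,6], [], 34849, 25472, 0),
   ([0,4,0,5,2,7], [], 1089, 13648, 0),
   ([0,5,1,6], [], 14145, 14240, 0),
   ([0,5,0,7,0,7], [], 1041, 21344, 0),
   ([0,4,0,6], [], 13921, 10608, 0),
   ([0,4,2,5,2,7], [], 27169, 40992, 0),
   ([0,5,2,5], [], 12705, 33600, 0)],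
  [([0,5,2,6,0,7], [], 6049, 24640, 0),
   ([0,4,1,4,3,5], [], 34721, 20640, 0),
   ([0,4,0,6,1,7], [], 18433, 40976, 0),
   ([0,5,2,4,3,6], [], 18017, 33808, 0),
   ([0,4,0,4,0,4], [], 14448, 34310, 0),
   ([0,4,0,4,0,6], [], 1601, 18192, 0),
   ([0,5,0,6], [], 16945, 14096, 0),
   ([0,4,0,4,1,6,2,5], [], 1536, 32790, 0),
   ([0,5,1,5,2,5], [], 21633, 29584, 0),
   ([0,4,1,6], [], 37281, 38768, 0)],
  [([0,4,1,4,1,7], [], 41505, 1120, 0),
   ([0,4,2,4,0,7], [], 34609, 14992, 0),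
   ([0,4,0,6,1,6], [], 14656, 5894, 0),
   ([0,4,2,7,2,7], [], 22433, 10272, 0),
   ([0,5,2,4,1,6], [], 39184, 39173, 0),
   ([0,5,0,7], [], 14433, 9344, 0),
   ([0,4,1,6,3,7,0,7], [], 26176, 9222, 0),
   ([0,4,0,7], [], 5953, 17936, 0),
   ([0,4,1,7,2,7], [], 39233, 26208, 0),
   ([0,4,0,6], [], 10273, 14912, 0)],
  [([0,5,0,5], [], 28993, 5904, 0),
   ([0,4,0,5,3,6], [], 33697, 30528, 0),
   ([0,4,0,5], [], 22401, 42352, 0),
   ([0,4,0,4,1,5], [], 39041, 1408, 0),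
   ([0,4,0,6,2,7], [], 18433, 21024, 0),
   ([0,4,2,6,2,6], [], 16785, 25088, 0),
   ([0,5,1,5,3,6], [], 26689, 28736, 0),
   ([0,4,2,4,1,7], [], 12897, 12848, 0),
   ([], [], 0, 0, 0),
   ([0,4,0,4,0,4,1,7], [], 20737, 16928, 0)],
  [([0,5,2,4,2,7], [], 16801, 13136, 0),
   ([0,4,1,6], [], 29825, 28992, 0),
   ([0,4,0,4,1,6], [], 38449, 25408, 0),
   ([1,5,1,5,1,5], [], 30544, 16902, 0),
   ([0,5,2,5,2,7], [], 29601, 6480, 0),
   ([0,6,2,6], [], 5025, 14400, 0),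
   ([0,5,1,7], [], 25249, 18304, 0),
   ([0,5,0,7], [], 18721, 5680, 0),
   ([0,4,0,4,1,5,3,6], [], 2625, 14112, 0),
   ([0,4,1,7], [], 39057, 18080, 0)]]

/-- words for the Gram matrices `0, 1; t, 1` -/
def tb11 : List (List ℕ × List ℕ × ℕ × ℕ × ℕ) := [
   ([], [], 0, 0, 0),
   ([0,4,0,7,3,7], [], 2560, 6, 0),
   ([0,4,0,4,2,6], [], 257, 18064, 0),
   ([0,7,0,7], [], 1281, 10512, 0),
   ([0,4,0,5], [], 1537, 38976, 0),
   ([0,4,1,5,0,6], [], 513, 18768, 0),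
   ([0,6,2,6], [], 1281, 10352, 0),
   ([0,4,0,5,2,5], [], 769, 43344, 0),
   ([0,6,1,7], [], 1793, 9344, 0),
   ([0,5,1,7,2,6], [], 2048, 6, 0)]

/-- words for the Gram matrices `0, 1; t, 0` -/
def tc11 : List (List ℕ × List ℕ × ℕ × ℕ × ℕ) := [
   ([], [], 0, 0, 0),
   ([], [], 0, 0, 0),
   ([0,4,0,4,2,6], [], 36880, 514, 0),
   ([0,7,0,7], [], 8208, 1546, 0),
   ([0,4,0,5], [], 20496, 2311, 0),
   ([0,4,1,5,0,6], [], 12304, 262, 0),
   ([0,6,2,6], [], 20496, 2308, 0),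
   ([0,4,0,5,2,5], [], 8208, 1798, 0),
   ([0,6,1,7], [], 12304, 2563, 0),
   ([], [], 0, 0, 0)]

/-- check for `s, t` -/
def ka11 (s t : ℕ) : Bool := bd11 s t ||
  ca11.ck2 0 (grc 1 1 t s) (ca11.pg dl11) (((ta11.getD (s - 1) []).getD (t - 1) ([], [], 0, 0, 0)))

theorem ka11_1 : (List.range 10).all (fun t => ka11 1 (t + 1)) = true := by
  decide +kernel

theorem ka11_2 : (List.range 10).all (fun t => ka11 2 (t + 1)) = true := by
  decide +kernel

theorem ka11_3 : (List.range 10).all (fun t => ka11 3 (t + 1)) = true := by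
  decide +kernel

theorem ka11_4 : (List.range 10).all (fun t => ka11 4 (t + 1)) = true := by
  decide +kernel

theorem ka11_5 : (List.range 10).all (fun t => ka11 5 (t + 1)) = true := by
  decide +kernel

theorem ka11_6 : (List.range 10).all (fun t => ka11 6 (t + 1)) = true := by
  decide +kernel

theorem ka11_7 : (List.range 10).all (fun t => ka11 7 (t + 1)) = true := by
  decide +kernel

theorem ka11_8 : (List.range 10).all (fun t => ka11 8 (t + 1)) = true := by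
  decide +kernel

theorem ka11_9 : (List.range 10).all (fun t => ka11 9 (t + 1)) = true := by
  decide +kernel

theorem ka11_10 : (List.range 10).all (fun t => ka11 10 (t + 1)) = true := by
  decide +kernel

theorem kb11 : (List.range 9).all (fun t =>
    ca11.ck2 0 (grc 0 1 (t + 2) 1) (ca11.pg dl11) (tb11.getD (t + 1) ([], [], 0, 0, 0))) = true := by
  decide +kernel

/-- the vector `s` only involves the second and fourth basis vector, `v` the others -/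
def sp11 (e : List ℕ × List ℕ × ℕ × ℕ × ℕ) : Bool :=
  dg e.2.2.1 0 == 0 && dg e.2.2.1 2 == 0 && dg e.2.2.2.1 1 == 0 && dg e.2.2.2.1 3 == 0

theorem kc11 : (List.range 9).all (fun t => kp11 (t + 2) ||
    (ca11.ck2 0 (grc 0 1 (t + 2) 0) (ca11.pg dl11) (tc11.getD (t + 1) ([], [], 0, 0, 0)) &&
     sp11 (tc11.getD (t + 1) ([], [], 0, 0, 0)))) = true := by
  decide +kernel

/-- lookup -/
theorem ka11_all (s t : ℕ) (hs0 : s ≠ 0) (hs : s < 11) (ht0 : t ≠ 0) (ht : t < 11) :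
    ka11 s t = true := by
  obtain ⟨t, rfl⟩ : ∃ k, t = k + 1 := ⟨t - 1, by omega⟩
  have h : (List.range 10).all (fun t => ka11 s (t + 1)) = true := by
    interval_cases s
    · exact absurd rfl hs0
    · exact ka11_1
    · exact ka11_2
    · exact ka11_3
    · exact ka11_4
    · exact ka11_5
    · exact ka11_6
    · exact ka11_7
    · exact ka11_8
    · exact ka11_9
    · exact ka11_10
  rw [List.all_eq_true] at h
  exact h t (List.mem_range.2 (by omega))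

end Pool.Agent.H33.TO
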