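import Pool.Agent.H33.TO.CoreChk
import Pool.Agent.H33.TO.Tab11

/-!
# Words for a rotation and a root group, `q = 11`
-/

namespace Pool.Agent.H33.TO

/-- `a = 0`, `n = 1`, `g = 0, 1`, first vector `e` -/
def ra11 : List (List ℕ × ℕ × List ℕ × ℕ) := [
  ([6,1,4,2,11], 4256, [], 0),
  ([6,1,4,2,11], 6560, [7,0,4,3,10], 22112)]

/-- `a = 0`, `n = 1`, `g = 0, 1`, first vector `f` -/
def rb11 : List (List ℕ × ℕ × List ℕ × ℕ) := [
  ([7,1,4,2,10], 2561, [], 0),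
  ([4,0,8,0,8,2,12], 1796, [], 0)]

/-- `a = 1`, `n = 0`, `g = 0, 1, 2` (2 is a nonsquare), first vector `e` -/
def rc11 : List (List ℕ × ℕ × List ℕ × ℕ) := [
  ([0,4,0,11,2,5], 8192, [], 0),
  ([4,0,10,1,12,1,13], 1616, [5,0,11,3,5,3,10], 41616),
  ([4,0,4,0,6,2,13], 13424, [4,0,10,2,6,2,9], 34864)]

/-- `a = 1`, `n = 1`, all `g`, first vector `e` -/
def rd11 : List (List ℕ × ℕ × List ℕ × ℕ) := [
  ([6,1,4,2,11], 4256, [], 0),
  ([4,1,8,2,10,1,4], 36896, [], 0),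
  ([4,0,4,0,9,2,8], 34912, [4,0,9,3,8,1,12], 30112),
  ([4,1,4,2,10,3,9], 21776, [4,1,5,2,10,0,13], 30832),
  ([4,0,5,2,7,1,8], 26272, [4,0,9,1,8,2,8], 17696),
  ([4,0,13,3,8,2,7], 41872, [4,2,4,2,11,0,6], 5936),
  ([4,0,5,1,4,3,6], 10016, [4,0,6,1,12,1,12], 1616),
  ([4,0,4,0,9,1,8], 25136, [4,0,4,2,12,3,10], 17216),
  ([4,0,8,0,7,1,13], 24656, [], 0),
  ([4,1,4,3,7,0,13], 19072, [4,1,5,3,13,0,6], 31072),
  ([4,0,4,3,8,0,13], 43552, [4,0,5,3,8,3,12], 5456)]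

theorem ra11_ok : (List.range 2).all (fun g =>
    ca11.ckR (grR 0 1 g) (ca11.rg (grR 0 1 g) 11 dl11) 0 1 (ra11.getD g ([], 0, [], 0))) = true := by
  decide +kernel

theorem rb11_ok : (List.range 2).all (fun g =>
    ca11.ckR (grR 0 1 g) (ca11.rg (grR 0 1 g) 11 dl11) 1 16 (rb11.getD g ([], 0, [], 0))) = true := by
  decide +kernel

theorem rc11_ok : (List.range 3).all (fun g =>
    ca11.ckR (grR 1 0 ([0, 1, 2].getD g 0)) (ca11.rg (grR 1 0 ([0, 1, 2].getD g 0)) 11 dl11) 0 1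
      (rc11.getD g ([], 0, [], 0))) = true := by
  decide +kernel

theorem rd11_ok : (List.range 11).all (fun g =>
    ca11.ckR (grR 1 1 g) (ca11.rg (grR 1 1 g) 11 dl11) 0 1 (rd11.getD g ([], 0, [], 0))) = true := by
  decide +kernel

end Pool.Agent.H33.TO
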