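import Pool.Agent.H33.TO.PairChk

/-!
# Table of words for `q = 7`
-/

namespace Pool.Agent.H33.TO

/-- powers of the generator of the group of squares and their inverses -/
def dl7 : List (ℕ × ℕ) := [(2,4),(4,2)]

/-- excluded pairs -/
def bd7 (s t : ℕ) : Bool := (s == 1 && t == 1) || (s == 4 && t == 4) || (s == 2 && t == 4) || (s == 4 && t == 2)

/-- excluded values -/
def kp7 (t : ℕ) : Bool := t == 1 || t == 3 || t == 5

/-- words for the Gram matrices `1, 1; t, s` -/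
def ta7 : List (List (List ℕ × List ℕ × ℕ × ℕ × ℕ)) := [
  [([], [], 0, 0, 0),
   ([0,2,0,2,0,3,1,3], [], 16, 8197, 0),
   ([0,2,0,2,0,2,1,3,1,3], [], 1, 1312, 0),
   ([0,2,0,2,0,2,0,2,0,3], [], 8257, 5440, 0),
   ([0,2,0,2,1,2,0,2,1,3], [], 13649, 8768, 0),
   ([0,2,0,2,0,2,1,3,1,3], [], 21520, 8962, 0)],
  [([0,2,0,3,0,3,1,3], [], 4369, 5712, 0),
   ([0,2,1,3], [], 25169, 5376, 0),
   ([0,2,0,2,0,3,0,2,1,3], [], 8720, 25091, 0),
   ([], [], 0, 0, 0),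
   ([0,2,0,2,1,2,1,3,0,3], [], 25649, 1056, 0),
   ([0,3,0,3,0,3], [], 20752, 26116, 0)],
  [([0,2,1,2,1,2,1,3,0,3], [], 305, 8464, 0),
   ([0,2,0,2,0,2,1,2,1,3], [], 25153, 5136, 0),
   ([0,2,0,3], [], 25121, 9040, 0),
   ([0,2,0,2,0,2,0,2], [], 17696, 26116, 0),
   ([0,2,0,2,0,3,0,3], [], 26128, 20483, 0),
   ([0,2,1,2,0,3,0,3], [], 16, 1542, 0)],
  [([0,2,0,3,0,3,0,3,0,3], [], 24609, 17152, 0),
   ([], [], 0, 0, 0),
   ([0,3,0,3,0,3,0,3], [], 21536, 26116, 0),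
   ([], [], 0, 0, 0),
   ([0,2,0,2,1,2,1,3], [], 4161, 1376, 0),
   ([0,2,0,3,0,3,1,2,1,3], [], 16, 25858, 0)],
  [([0,2,0,3,0,2,1,3,0,3], [], 5681, 4880, 0),
   ([0,2,0,2,1,2,1,3,1,3], [], 5457, 16672, 0),
   ([0,2,0,2,0,3,0,3], [], 5136, 513, 0),
   ([0,2,0,2,1,2,1,3], [], 8769, 25872, 0),
   ([0,2,0,3], [], 12593, 25120, 0),
   ([0,2,0,2,1,2,1,3,1,3], [], 8752, 17668, 0)],
  [([0,2,0,2,0,3,0,3,1,3], [], 16481, 21328, 0),
   ([0,2,0,2,0,2], [], 5392, 26116, 0),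
   ([0,2,0,2,0,3,1,3], [], 1, 1312, 0),
   ([0,2,0,2,1,2,0,3,1,3], [], 16, 26115, 0),
   ([0,2,0,2,1,2,1,3,0,3], [], 48, 26116, 0),
   ([0,2,0,2,0,3,0,3], [], 8225, 4192, 0)]]

/-- words for the Gram matrices `0, 1; t, 1` -/
def tb7 : List (List ℕ × List ℕ × ℕ × ℕ × ℕ) := [
   ([], [], 0, 0, 0),
   ([0,3,0,3], [], 1281, 24912, 0),
   ([0,2,0,2,1,3,1,3], [], 1280, 4, 0),
   ([0,2,1,2,1,3], [], 1025, 17488, 0),
   ([0,2,0,3,1,3], [], 512, 4, 0),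
   ([0,2,0,3,1,2,1,3], [], 257, 864, 0)]

/-- words for the Gram matrices `0, 1; t, 0` -/
def tc7 : List (List ℕ × List ℕ × ℕ × ℕ × ℕ) := [
   ([], [], 0, 0, 0),
   ([0,3,0,3], [], 16400, 770, 0),
   ([], [], 0, 0, 0),
   ([0,2,1,2,1,3], [], 20496, 258, 0),
   ([], [], 0, 0, 0),
   ([0,2,0,3,1,2,1,3], [], 16, 257, 0)]

/-- check for `s, t` -/
def ka7 (s t : ℕ) : Bool := bd7 s t ||
  ca7.ck2 0 (grc 1 1 t s) (ca7.pg dl7) (((ta7.getD (s - 1) []).getD (t - 1) ([], [], 0, 0, 0)))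

theorem ka7_1 : (List.range 6).all (fun t => ka7 1 (t + 1)) = true := by
  decide +kernel

theorem ka7_2 : (List.range 6).all (fun t => ka7 2 (t + 1)) = true := by
  decide +kernel

theorem ka7_3 : (List.range 6).all (fun t => ka7 3 (t + 1)) = true := by
  decide +kernel

theorem ka7_4 : (List.range 6).all (fun t => ka7 4 (t + 1)) = true := by
  decide +kernel

theorem ka7_5 : (List.range 6).all (fun t => ka7 5 (t + 1)) = true := by
  decide +kernel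

theorem ka7_6 : (List.range 6).all (fun t => ka7 6 (t + 1)) = true := by
  decide +kernel

theorem kb7 : (List.range 5).all (fun t =>
    ca7.ck2 0 (grc 0 1 (t + 2) 1) (ca7.pg dl7) (tb7.getD (t + 1) ([], [], 0, 0, 0))) = true := by
  decide +kernel

/-- the vector `s` only involves the second and fourth basis vector, `v` the others -/
def sp7 (e : List ℕ × List ℕ × ℕ × ℕ × ℕ) : Bool :=
  dg e.2.2.1 0 == 0 && dg e.2.2.1 2 == 0 && dg e.2.2.2.1 1 == 0 && dg e.2.2.2.1 3 == 0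

theorem kc7 : (List.range 5).all (fun t => kp7 (t + 2) ||
    (ca7.ck2 0 (grc 0 1 (t + 2) 0) (ca7.pg dl7) (tc7.getD (t + 1) ([], [], 0, 0, 0)) &&
     sp7 (tc7.getD (t + 1) ([], [], 0, 0, 0)))) = true := by
  decide +kernel

/-- lookup -/
theorem ka7_all (s t : ℕ) (hs0 : s ≠ 0) (hs : s < 7) (ht0 : t ≠ 0) (ht : t < 7) :
    ka7 s t = true := by
  obtain ⟨t, rfl⟩ : ∃ k, t = k + 1 := ⟨t - 1, by omega⟩
  have h : (List.range 6).all (fun t => ka7 s (t + 1)) = true := by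
    interval_cases s
    · exact absurd rfl hs0
    · exact ka7_1
    · exact ka7_2
    · exact ka7_3
    · exact ka7_4
    · exact ka7_5
    · exact ka7_6
  rw [List.all_eq_true] at h
  exact h t (List.mem_range.2 (by omega))

end Pool.Agent.H33.TO
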