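import Pool.Agent.H33.TO.CoreChk
import Pool.Agent.H33.TO.Tab7

/-!
# Words for a rotation and a root group, `q = 7`
-/

namespace Pool.Agent.H33.TO

/-- `a = 0`, `n = 1`, `g = 0, 1`, first vector `e` -/
def ra7 : List (List ℕ × ℕ × List ℕ × ℕ) := [
  ([2,0,2,1,7], 16432, [], 0),
  ([6,1,2,0,3], 16432, [], 0)]

/-- `a = 0`, `n = 1`, `g = 0, 1`, first vector `f` -/
def rb7 : List (List ℕ × ℕ × List ℕ × ℕ) := [
  ([3,0,2,1,6], 772, [], 0),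
  ([2,0,6,0,3,0,3], 1027, [], 0)]

/-- `a = 1`, `n = 0`, `g = 0, 1, 3` (3 is a nonsquare), first vector `e` -/
def rc7 : List (List ℕ × ℕ × List ℕ × ℕ) := [
  ([0,2,0,5,0,3], 24576, [], 0),
  ([3,0,3,0,7,1,3], 13360, [3,0,7,1,3,1,3], 13120),
  ([2,0,2,0,4,0,7], 22032, [4,1,4,0,4,0,3], 20832)]

/-- `a = 1`, `n = 1`, all `g`, first vector `e` -/
def rd7 : List (List ℕ × ℕ × List ℕ × ℕ) := [
  ([2,0,2,1,7], 16432, [], 0),
  ([3,1,7,1,2,1,4], 25424, [4,0,5,1,3,1,3], 5392),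
  ([4,0,2,1,3,0,4], 8272, [], 0),
  ([5,1,5,0,7,0,2], 22064, [0,2,0,4,0,6,1,3], 832),
  ([3,0,4,1,6,1,2], 12352, [], 0),
  ([2,0,5,0,3,1,2], 21344, [4,1,6,1,2,1,3], 8752),
  ([2,1,3,0,4,1,6], 5392, [3,0,7,1,6,0,6], 21344)]

theorem ra7_ok : (List.range 2).all (fun g =>
    ca7.ckR (grR 0 1 g) (ca7.rg (grR 0 1 g) 7 dl7) 0 1 (ra7.getD g ([], 0, [], 0))) = true := by
  decide +kernel

theorem rb7_ok : (List.range 2).all (fun g =>
    ca7.ckR (grR 0 1 g) (ca7.rg (grR 0 1 g) 7 dl7) 1 16 (rb7.getD g ([], 0, [], 0))) = true := by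
  decide +kernel

theorem rc7_ok : (List.range 3).all (fun g =>
    ca7.ckR (grR 1 0 ([0, 1, 3].getD g 0)) (ca7.rg (grR 1 0 ([0, 1, 3].getD g 0)) 7 dl7) 0 1
      (rc7.getD g ([], 0, [], 0))) = true := by
  decide +kernel

theorem rd7_ok : (List.range 7).all (fun g =>
    ca7.ckR (grR 1 1 g) (ca7.rg (grR 1 1 g) 7 dl7) 0 1 (rd7.getD g ([], 0, [], 0))) = true := by
  decide +kernel

end Pool.Agent.H33.TO
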