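import Pool.Agent.H33.TO.PairChk

/-!
# Table of words for `q = 9`
-/

namespace Pool.Agent.H33.TO

/-- powers of the generator of the group of squares and their inverses -/
def dl9 : List (ℕ × ℕ) := [(3,6),(2,2),(6,3)]

/-- excluded pairs -/
def bd9 (s t : ℕ) : Bool := (s == 1 && t == 1) || (s == 1 && t == 2) || (s == 2 && t == 1) || (s == 2 && t == 2)

/-- excluded values -/
def kp9 (t : ℕ) : Bool := t == 1 || t == 2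

/-- words for the Gram matrices `1, 1; t, s` -/
def ta9 : List (List (List ℕ × List ℕ × ℕ × ℕ × ℕ)) := [
  [([], [], 0, 0, 0),
   ([], [], 0, 0, 0),
   ([0,5,0,4,0,5], [0,4,1,3,2,3,1,4], 20817, 29024, 7),
   ([0,3,1,3,0,5,2,3], [1,3,0,5,1,4,1,5], 801, 26384, 4),
   ([0,3,1,3,0,4,2,5], [1,3,2,3,0,5,2,3], 29025, 26736, 7),
   ([0,5,0,4,0,5], [0,4,1,3,2,3,1,4], 29505, 18528, 4),
   ([0,3,1,3,0,5,2,3], [1,3,0,5,1,4,1,5], 12353, 22048, 7),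
   ([0,3,1,3,0,4,2,5], [1,3,2,3,0,5,2,3], 25473, 13696, 4)],
  [([], [], 0, 0, 0),
   ([], [], 0, 0, 0),
   ([0,3,0,4,0,5,2,4], [0,4,0,3,0,4,1,3], 25393, 25904, 4),
   ([0,4,2,5,1,4,0,3], [1,3,2,4,0,4,2,5], 16497, 29008, 3),
   ([3,1,5,1,5,2,3], [0,3,0,3,0,4,1,5], 10257, 30320, 4),
   ([0,3,0,4,0,5,2,4], [0,4,0,3,0,4,1,3], 9745, 4144, 7),
   ([0,4,2,5,1,4,0,3], [1,3,2,4,0,4,2,5], 1297, 9280, 6),
   ([3,1,5,1,5,2,3], [0,3,0,3,0,4,1,5], 30033, 9344, 7)],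
  [([0,3,1,3,1,5,2,3], [0,3,1,4,1,5,2,4], 256, 12312, 7),
   ([0,4,0,5,0,4,1,5], [0,5,0,4,0,3,2,4], 13873, 5968, 5),
   ([0,3,1,4,1,4,1,5], [0,4,0,3,1,5,0,4], 17153, 9296, 6),
   ([0,3,1,3,1,4,2,3,0], [3,0,3,2,5,2,5,0,3], 10257, 18192, 3),
   ([0,3,2,3,0,4,0,5,1], [3,0,3,1,4,1,5,1,3], 10289, 28768, 5),
   ([3,1,5,0,3,2,4], [0,3,0,4,0,4,0,5], 4737, 34352, 8),
   ([0,3,1,5,1,5,0,4], [0,4,0,5,1,5,2,4], 30497, 13872, 7),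
   ([0,3,1,4,0,5,0,3], [0,4,1,3,0,3,0,5], 4368, 2, 4)],
  [([0,5,2,3,2,3,1,4], [1,3,2,3,0,5,2,3], 10065, 34848, 8),
   ([0,3,1,5,2,5,1,4], [1,3,2,4,0,3,1,5], 12816, 33288, 6),
   ([0,3,1,3,1,3,0,4,0], [3,0,3,1,4,2,4,1,3], 9073, 8752, 8),
   ([3,0,5,2,3], [0,3,2,3,0,3,2], 26241, 4608, 4),
   ([2,4,0,3,1,3,1,4,0], [3,0,3,0,4,2,5,0,3], 34401, 25216, 5),
   ([0,4,0,3,1,3,1,5], [0,4,2,3,1,3,0,4], 4353, 9792, 4),
   ([0,3,1,5,0,5,1,3], [0,4,0,4,0,4,0,4], 10064, 26626, 5),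
   ([0,3,2,3,2,3,0,5], [0,4,2,3,2,4,0,5], 4225, 30256, 7)],
  [([0,4,0,5,1,5,1,3], [1,3,1,3,2,4,2,5], 256, 28677, 6),
   ([1,3,2,4,2,4], [0,3,2,3,2,3,1,4], 18465, 6240, 8),
   ([0,3,2,5,0,3,1,4,1], [3,0,3,0,3,2,5,1,4], 4145, 25936, 3),
   ([0,4,2,4,1,3,1,5,1], [3,0,3,1,5,1,4,0,3], 14129, 29760, 7),
   ([3,1,5,1,3], [1,3,1,3,1,3,1], 21825, 29952, 7),
   ([0,3,2,3,2,4,1,3], [0,4,1,5,2,5,0,5], 1792, 8290, 5),
   ([0,3,0,3,2,5,2,3], [0,3,0,4,2,5,2,4], 256, 4098, 7),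
   ([0,4,1,3,1,4,2,3], [0,4,1,4,1,4,2,4], 4096, 1874, 4)],
  [([0,3,1,3,1,5,2,3], [0,3,1,4,1,5,2,4], 4096, 1665, 4),
   ([0,4,0,5,0,4,1,5], [0,5,0,4,0,3,2,4], 25105, 1856, 8),
   ([3,1,5,0,3,2,4], [0,3,0,4,0,4,0,5], 30529, 33328, 5),
   ([0,3,1,5,1,5,0,4], [0,4,0,5,1,5,2,4], 29249, 34096, 4),
   ([0,3,1,4,0,5,0,3], [0,4,1,3,0,3,0,5], 32, 26626, 7),
   ([0,3,1,4,1,4,1,5], [0,4,0,3,1,5,0,4], 10256, 17928, 3),
   ([0,3,1,3,1,4,2,3,0], [3,0,3,2,5,2,5,0,3], 33905, 21792, 6),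
   ([0,3,2,3,0,4,0,5,1], [3,0,3,1,4,1,5,1,3], 30801, 13920, 8)],
  [([0,5,2,3,2,3,1,4], [1,3,2,3,0,5,2,3], 17681, 14096, 5),
   ([0,3,1,5,2,5,1,4], [1,3,2,4,0,3,1,5], 17153, 5712, 3),
   ([0,4,0,3,1,3,1,5], [0,4,2,3,1,3,0,4], 14096, 29447, 7),
   ([0,3,1,5,0,5,1,3], [0,4,0,4,0,4,0,4], 33600, 34306, 8),
   ([0,3,2,3,2,3,0,5], [0,4,2,3,2,4,0,5], 1617, 8752, 4),
   ([0,3,1,3,1,3,0,4,0], [3,0,3,1,4,2,4,1,3], 13409, 9776, 5),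
   ([3,0,5,2,3], [0,3,2,3,0,3,2], 8817, 13824, 7),
   ([2,4,0,3,1,3,1,4,0], [3,0,3,0,4,2,5,0,3], 33377, 33136, 8)],
  [([0,4,0,5,1,5,1,3], [1,3,1,3,2,4,2,5], 4096, 1040, 3),
   ([1,3,2,4,2,4], [0,3,2,3,2,3,1,4], 14193, 4448, 5),
   ([0,3,2,3,2,4,1,3], [0,4,1,5,2,5,0,5], 16384, 594, 8),
   ([0,3,0,3,2,5,2,3], [0,3,0,4,2,5,2,4], 4096, 336, 4),
   ([0,4,1,3,1,4,2,3], [0,4,1,4,1,4,2,4], 256, 16518, 7),
   ([0,3,2,5,0,3,1,4,1], [3,0,3,0,3,2,5,1,4], 593, 16960, 6),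
   ([0,4,2,4,1,3,1,5,1], [3,0,3,1,5,1,4,0,3], 26673, 33872, 4),
   ([3,1,5,1,3], [1,3,1,3,1,3,1], 34929, 33792, 4)]]

/-- words for the Gram matrices `0, 1; t, 1` -/
def tb9 : List (List ℕ × List ℕ × ℕ × ℕ × ℕ) := [
   ([], [], 0, 0, 0),
   ([0,3,0,5,2,5], [0,3,1,5,2,4], 1024, 2, 4),
   ([0,5,0,3,2,5], [0,5,1,3,2,4], 256, 4152, 4),
   ([0,3,2,4,2,4], [0,4,2,4,1,4], 257, 34864, 4),
   ([0,5,2,5,0,5,1], [3,0,5,2,5,2,4], 1793, 25360, 6),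
   ([0,3,2,3,2,5], [0,4,2,3,1,5], 1281, 22112, 4),
   ([0,4,0,4,2,5], [0,4,1,4,2,4], 256, 32820, 4),
   ([1,5,2,5,2,3,0], [4,2,3,2,5,2,3], 1537, 4416, 6)]

/-- words for the Gram matrices `0, 1; t, 0` -/
def tc9 : List (List ℕ × List ℕ × ℕ × ℕ × ℕ) := [
   ([], [], 0, 0, 0),
   ([], [], 0, 0, 0),
   ([0,3,2,3,2,5], [0,4,2,3,1,5], 28688, 1283, 7),
   ([0,4,0,4,2,5], [0,4,1,4,2,4], 4096, 1287, 7),
   ([0,3,0,5,0,3], [0,5,2,5,2,5], 16400, 776, 4),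
   ([0,3,2,3,2,5], [0,4,2,3,1,5], 32784, 2051, 4),
   ([0,4,0,4,2,5], [0,4,1,4,2,4], 20496, 1536, 4),
   ([0,3,0,5,0,3], [0,5,2,5,2,5], 4112, 1031, 7)]

/-- check for `s, t` -/
def ka9 (s t : ℕ) : Bool := bd9 s t ||
  ca9.ck2 3 (grc 1 1 t s) (ca9.pg dl9) (((ta9.getD (s - 1) []).getD (t - 1) ([], [], 0, 0, 0)))

theorem ka9_1 : (List.range 8).all (fun t => ka9 1 (t + 1)) = true := by
  decide +kernel

theorem ka9_2 : (List.range 8).all (fun t => ka9 2 (t + 1)) = true := by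
  decide +kernel

theorem ka9_3 : (List.range 8).all (fun t => ka9 3 (t + 1)) = true := by
  decide +kernel

theorem ka9_4 : (List.range 8).all (fun t => ka9 4 (t + 1)) = true := by
  decide +kernel

theorem ka9_5 : (List.range 8).all (fun t => ka9 5 (t + 1)) = true := by
  decide +kernel

theorem ka9_6 : (List.range 8).all (fun t => ka9 6 (t + 1)) = true := by
  decide +kernel

theorem ka9_7 : (List.range 8).all (fun t => ka9 7 (t + 1)) = true := by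
  decide +kernel

theorem ka9_8 : (List.range 8).all (fun t => ka9 8 (t + 1)) = true := by
  decide +kernel

theorem kb9 : (List.range 7).all (fun t =>
    ca9.ck2 3 (grc 0 1 (t + 2) 1) (ca9.pg dl9) (tb9.getD (t + 1) ([], [], 0, 0, 0))) = true := by
  decide +kernel

/-- the vector `s` only involves the second and fourth basis vector, `v` the others -/
def sp9 (e : List ℕ × List ℕ × ℕ × ℕ × ℕ) : Bool :=
  dg e.2.2.1 0 == 0 && dg e.2.2.1 2 == 0 && dg e.2.2.2.1 1 == 0 && dg e.2.2.2.1 3 == 0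

theorem kc9 : (List.range 7).all (fun t => kp9 (t + 2) ||
    (ca9.ck2 3 (grc 0 1 (t + 2) 0) (ca9.pg dl9) (tc9.getD (t + 1) ([], [], 0, 0, 0)) &&
     sp9 (tc9.getD (t + 1) ([], [], 0, 0, 0)))) = true := by
  decide +kernel

/-- lookup -/
theorem ka9_all (s t : ℕ) (hs0 : s ≠ 0) (hs : s < 9) (ht0 : t ≠ 0) (ht : t < 9) :
    ka9 s t = true := by
  obtain ⟨t, rfl⟩ : ∃ k, t = k + 1 := ⟨t - 1, by omega⟩
  have h : (List.range 8).all (fun t => ka9 s (t + 1)) = true := by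
    interval_cases s
    · exact absurd rfl hs0
    · exact ka9_1
    · exact ka9_2
    · exact ka9_3
    · exact ka9_4
    · exact ka9_5
    · exact ka9_6
    · exact ka9_7
    · exact ka9_8
  rw [List.all_eq_true] at h
  exact h t (List.mem_range.2 (by omega))

end Pool.Agent.H33.TO
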