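import Pool.Agent.H33.TO.CoreChk
import Pool.Agent.H33.TO.Tab9

/-!
# Words for a rotation and a root group, `q = 9`
-/

namespace Pool.Agent.H33.TO

/-- `a = 0`, `n = 1`, `g = 0, 1`, first vector `e` -/
def ra9 : List (List ℕ × ℕ × List ℕ × ℕ) := [
  ([3,1,3,1,4], 8208, [], 0),
  ([3,1,3,1,4], 8208, [], 0)]

/-- `a = 0`, `n = 1`, `g = 0, 1`, first vector `f` -/
def rb9 : List (List ℕ × ℕ × List ℕ × ℕ) := [
  ([4,1,3,1,3], 258, [], 0),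
  ([3,0,5,1,10,0,9], 1539, [], 0)]

/-- `a = 1`, `n = 0`, `g = 0, 1, 4` (4 is a nonsquare), first vector `e` -/
def rc9 : List (List ℕ × ℕ × List ℕ × ℕ) := [
  ([0,3,0,6,1,9], 24576, [], 0),
  ([3,0,3,0,9,2,3], 17536, [3,0,9,2,3,2,3], 18496),
  ([3,0,5,2,3,1,6], 24864, [3,0,9,1,4,2,10], 17248)]

/-- `a = 1`, `n = 1`, all `g`, first vector `e` -/
def rd9 : List (List ℕ × ℕ × List ℕ × ℕ) := [
  ([3,1,3,1,4], 8208, [], 0),
  ([3,0,5,1,7,1,9], 1392, [3,1,5,2,10,0,3], 34080),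
  ([3,0,4,0,6,2,5], 5952, [3,2,4,2,9,0,8], 5232),
  ([3,0,4,2,9,0,8], 21312, [3,1,4,2,9,1,5], 13632),
  ([3,2,5,1,9,2,6], 16992, [3,2,7,2,10,0,9], 17232),
  ([3,2,5,1,9,1,9], 16512, [], 0),
  ([3,0,6,2,9,2,9], 13392, [3,0,8,1,6,2,7], 8736),
  ([3,0,5,2,9,0,3], 32832, [], 0),
  ([3,0,3,2,9,1,4], 26208, [3,0,6,0,3,1,8], 16992)]

theorem ra9_ok : (List.range 2).all (fun g =>
    ca9.ckR (grR 0 1 g) (ca9.rg (grR 0 1 g) 9 dl9) 0 1 (ra9.getD g ([], 0, [], 0))) = true := by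
  decide +kernel

theorem rb9_ok : (List.range 2).all (fun g =>
    ca9.ckR (grR 0 1 g) (ca9.rg (grR 0 1 g) 9 dl9) 1 16 (rb9.getD g ([], 0, [], 0))) = true := by
  decide +kernel

theorem rc9_ok : (List.range 3).all (fun g =>
    ca9.ckR (grR 1 0 ([0, 1, 4].getD g 0)) (ca9.rg (grR 1 0 ([0, 1, 4].getD g 0)) 9 dl9) 0 1
      (rc9.getD g ([], 0, [], 0))) = true := by
  decide +kernel

theorem rd9_ok : (List.range 9).all (fun g =>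
    ca9.ckR (grR 1 1 g) (ca9.rg (grR 1 1 g) 9 dl9) 0 1 (rd9.getD g ([], 0, [], 0))) = true := by
  decide +kernel

end Pool.Agent.H33.TO
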