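import Pool.Agent.H33.TO.PairCert
import Pool.Agent.H33.TO.TabR7
import Pool.Agent.H33.TO.TabR9
import Pool.Agent.H33.TO.TabR11
import Pool.Agent.H33.TO.PairLem

/-!
# JOB TO-2: the core lemma for a rotation and a root group, normalised parameters

Setting: `e, f, s, v` with `HP B e f`, `B s s = 0`, `B s v = 0`, `B f s = 1`, `B f v = 0`,
`PL F B e f`, `RG F B s v`.  Parameters `a = B e s`, `n = B e v`, `g = B v v`.
The tables `TabR7`, `TabR9`, `TabR11` are kernel checked (`ra7_ok` etc.); this file turns them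
into statements about `F`.

Proof.  Let `c` be the coded field (`cd7 h`, `cd9 h i hi`, `cd11 h`), `b = ![e, f, s, v]`.
(1) Gram matrix: `∀ i j, B (b i) (b j) = c.mat (grR a' n' g') i j` when `a = c.ph a'` etc.
(as in `gram_pair` of `PairCert.lean`; the entry list is
`[0, 1, a, n, 1, 0, 1, 0, a, 1, 0, 0, n, 0, 0, g]`).
(2) Generators `c.rg G q dl`: the rotations are handled by `has_rc` as in `has_pg` (with
`Dat.dl` : to be independent of `PairLem`, prove the needed facts on `dl7, dl9, dl11` here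
again, or take them from `PairLem.lean`, which has the stubs `dat7, dat9, dat11`; you may import
`Pool.Agent.H33.TO.PairLem`).  The root elements: `c.sgc G 256 ((k+1) * 4096)` for `k < q - 1`:
`CD.Ph_sgc` says that it is `sg B (c.vec b 256) (c.vec b ((k+1) * 4096))`; the digits of `256`
are `0,0,1,0` and those of `(k+1) * 4096` are `0,0,0,k+1` (`k + 1 < 16`), so these vectors are
`s` and `c.ph (k+1) • v` (`vec_four`), and `RG F B s v` applies.
(3) Soundness of `ckR`: `has_run` and `CD.Ph_sgc` give `Has F (sg B (c.vec b base) (c.vec b y))`,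
for `base = 1`: `c.vec b 1 = e`; `base = 16`: `c.vec b 16 = f`; and `CD.B_vec_vec` gives
`B e y = 0` (resp. `B f y = 0`).
(4) The last part of the check: with `y1 = y10 e + y11 f + α1 s + β1 v`,
`y2 = y20 e + y21 f + α2 s + β2 v`, either `α1 β2 - β1 α2 ≠ 0` (then `v` and `s` are
combinations of `y1, y2, e, f` by Cramer's rule), or `α1 = 0`, `β1 ≠ 0` (mode 0: `v` is a
combination of `y1, e, f`), or `β1 = 0`, `α1 ≠ 0` (mode 1, for `s`).  For the nonvanishing use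
`CD.ne0` (the minor `mn` and `c.ad x 0` are values of `c.ad`).
(5) Cases: `c.ph 0 = 0`, `c.ph 1 = 1`; nonsquare representatives: code 3 for q = 7, code 4 for
q = 9, code 2 for q = 11.
The predicate `CR` below is the conclusion.  All five statements are for every `K` with `QK q K`:
treat `q = 7, 9, 11` separately, the three proofs are the same.
-/

namespace Pool.Agent.H33.TO

variable {K : Type*} [Field K] {V : Type*} [AddCommGroup V] [Module K V]
  {B : LinearMap.BilinForm K V} {F : Subgroup (V ≃ₗ[K] V)}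

/-- conclusion of the core lemma: root elements with first vector `e` in `F` whose second
vectors, together with `e, f`, span `v` -/
def CR (F : Subgroup (V ≃ₗ[K] V)) (B : LinearMap.BilinForm K V) (e f v : V) : Prop :=
  ∃ y1 y2 : V, ∃ c1 c2 c3 c4 : K, B e y1 = 0 ∧ B e y2 = 0 ∧ Has F (sg B e y1) ∧
    Has F (sg B e y2) ∧ v = c1 • y1 + c2 • y2 + c3 • e + c4 • f

/-- the setting -/
structure CS (F : Subgroup (V ≃ₗ[K] V)) (B : LinearMap.BilinForm K V) (e f s v : V) : Prop where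
  sym : ∀ u v, B u v = B v u
  hp : HP B e f
  ss : B s s = 0
  sv : B s v = 0
  fs : B f s = 1
  fv : B f v = 0
  pl : PL F B e f
  rg : RG F B s v

/-- the Gram matrix of `e, f, s, v` -/
theorem gram_core (c : CD K) {e f s v : V} (h : CS F B e f s v) {a n g : ℕ} (la : a < 16)
    (ln : n < 16) (lg : g < 16) (ha : B e s = c.ph a) (hn : B e v = c.ph n)
    (hg : B v v = c.ph g) (i j : Fin 4) :
    B (![e, f, s, v] i) (![e, f, s, v] j) = c.mat (grR a n g) i j := by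
  obtain ⟨a1, a2, a3⟩ := h.hp
  have hlt : ∀ k < 16, [0, 1, a, n, 1, 0, 1, 0, a, 1, 0, 0, n, 0, 0, g].getD k 0 < 16 := by
    intro k hk
    interval_cases k <;> simp <;> omega
  rw [CD.mat, grR, dg_bd _ 16 hlt _ (by omega)]
  have a4 : B f e = 1 := by rw [h.sym]; exact a3
  have e5 : B s e = c.ph a := by rw [h.sym]; exact ha
  have e6 : B v e = c.ph n := by rw [h.sym]; exact hn
  have e7 : B s f = 1 := by rw [h.sym]; exact h.fs
  have e8 : B v f = 0 := by rw [h.sym]; exact h.fv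
  have e9 : B v s = 0 := by rw [h.sym]; exact h.sv
  have e10 := h.ss
  have e11 := h.sv
  have e12 := h.fs
  have e13 := h.fv
  have h0 := c.h0
  have h1 := c.h1
  fin_cases i <;> fin_cases j <;> simp [*]

/-- the vector with code `256` -/
theorem vec_s (c : CD K) (e f s v : V) : c.vec ![e, f, s, v] 256 = s := by
  have x0 : c.cf 256 0 = 0 := by
    show c.ph (dg 256 0) = 0
    rw [show dg 256 0 = 0 by norm_num [dg], c.h0]
  have x1 : c.cf 256 1 = 0 := by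
    show c.ph (dg 256 1) = 0
    rw [show dg 256 1 = 0 by norm_num [dg], c.h0]
  have x2 : c.cf 256 2 = 1 := by
    show c.ph (dg 256 2) = 1
    rw [show dg 256 2 = 1 by norm_num [dg], c.h1]
  have x3 : c.cf 256 3 = 0 := by
    show c.ph (dg 256 3) = 0
    rw [show dg 256 3 = 0 by norm_num [dg], c.h0]
  rw [vec_four, x0, x1, x2, x3]
  simp

/-- the vector with code `1` -/
theorem vec_e (c : CD K) (e f s v : V) : c.vec ![e, f, s, v] 1 = e := by
  have x0 : c.cf 1 0 = 1 := by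
    show c.ph (dg 1 0) = 1
    rw [show dg 1 0 = 1 by norm_num [dg], c.h1]
  have x1 : c.cf 1 1 = 0 := by
    show c.ph (dg 1 1) = 0
    rw [show dg 1 1 = 0 by norm_num [dg], c.h0]
  have x2 : c.cf 1 2 = 0 := by
    show c.ph (dg 1 2) = 0
    rw [show dg 1 2 = 0 by norm_num [dg], c.h0]
  have x3 : c.cf 1 3 = 0 := by
    show c.ph (dg 1 3) = 0
    rw [show dg 1 3 = 0 by norm_num [dg], c.h0]
  rw [vec_four, x0, x1, x2, x3]
  simp

/-- the vector with code `16` -/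
theorem vec_f (c : CD K) (e f s v : V) : c.vec ![e, f, s, v] 16 = f := by
  have x0 : c.cf 16 0 = 0 := by
    show c.ph (dg 16 0) = 0
    rw [show dg 16 0 = 0 by norm_num [dg], c.h0]
  have x1 : c.cf 16 1 = 1 := by
    show c.ph (dg 16 1) = 1
    rw [show dg 16 1 = 1 by norm_num [dg], c.h1]
  have x2 : c.cf 16 2 = 0 := by
    show c.ph (dg 16 2) = 0
    rw [show dg 16 2 = 0 by norm_num [dg], c.h0]
  have x3 : c.cf 16 3 = 0 := by
    show c.ph (dg 16 3) = 0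
    rw [show dg 16 3 = 0 by norm_num [dg], c.h0]
  rw [vec_four, x0, x1, x2, x3]
  simp

/-- the vector with code `(l + 1) * 4096` -/
theorem vec_v (c : CD K) (e f s v : V) (l : ℕ) (hl : l + 1 < 16) :
    c.vec ![e, f, s, v] ((l + 1) * 4096) = c.ph (l + 1) • v := by
  have x0 : c.cf ((l + 1) * 4096) 0 = 0 := by
    show c.ph (dg ((l + 1) * 4096) 0) = 0
    rw [show dg ((l + 1) * 4096) 0 = 0 by simp only [dg]; norm_num; omega, c.h0]
  have x1 : c.cf ((l + 1) * 4096) 1 = 0 := by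
    show c.ph (dg ((l + 1) * 4096) 1) = 0
    rw [show dg ((l + 1) * 4096) 1 = 0 by simp only [dg]; norm_num; omega, c.h0]
  have x2 : c.cf ((l + 1) * 4096) 2 = 0 := by
    show c.ph (dg ((l + 1) * 4096) 2) = 0
    rw [show dg ((l + 1) * 4096) 2 = 0 by simp only [dg]; norm_num; omega, c.h0]
  have x3 : c.cf ((l + 1) * 4096) 3 = c.ph (l + 1) := by
    show c.ph (dg ((l + 1) * 4096) 3) = c.ph (l + 1)
    congr 1
    simp only [dg]
    norm_num
    omega
  rw [vec_four, x0, x1, x2, x3]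
  simp

theorem has_rg (c : CD K) {dl : List (ℕ × ℕ)} {q : ℕ} (hq16 : q ≤ 16)
    (hdl : ∀ d ∈ dl, c.ph d.1 ≠ 0 ∧ IsSquare (c.ph d.1) ∧ c.ph d.2 = (c.ph d.1)⁻¹)
    {e f s v : V} (h : CS F B e f s v) (G : ℕ)
    (hG : ∀ i j, B (![e, f, s, v] i) (![e, f, s, v] j) = c.mat G i j) :
    ∀ m ∈ c.rg G q dl, Has F (Ph B ![e, f, s, v] (c.mat m)) := by
  intro m hm
  rw [CA.rg, List.mem_append, List.mem_map, List.mem_map] at hm
  rcases hm with ⟨d, hd, rfl⟩ | ⟨l, hl, rfl⟩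
  · obtain ⟨h1, h2, h3⟩ := hdl d hd
    exact has_rc c ![e, f, s, v] 0 1 (by decide) d h3 (h.pl _ h1 h2)
  · rw [List.mem_range] at hl
    refine (h.rg (c.ph (l + 1))).congr fun u => ?_
    rw [c.Ph_sgc h.sym _ G hG, vec_s, vec_v c e f s v l (by omega)]

/-- soundness of `ckR` -/
theorem ckR_sound (c : CD K) {dl : List (ℕ × ℕ)} {q : ℕ} (hq16 : q ≤ 16)
    (hdl : ∀ d ∈ dl, c.ph d.1 ≠ 0 ∧ IsSquare (c.ph d.1) ∧ c.ph d.2 = (c.ph d.1)⁻¹)
    {e f s v : V} (h : CS F B e f s v) (G : ℕ)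
    (hG : ∀ i j, B (![e, f, s, v] i) (![e, f, s, v] j) = c.mat G i j) (mode base : ℕ)
    (x : List ℕ × ℕ × List ℕ × ℕ) (hx : c.ckR G (c.rg G q dl) mode base x = true) :
    ∃ p r : Fin 4 → K, ∃ y1 y2 : V, y1 = p 0 • e + p 1 • f + p 2 • s + p 3 • v ∧
      y2 = r 0 • e + r 1 • f + r 2 • s + r 3 • v ∧
      B (c.vec ![e, f, s, v] base) y1 = 0 ∧ B (c.vec ![e, f, s, v] base) y2 = 0 ∧
      Has F (sg B (c.vec ![e, f, s, v] base) y1) ∧
      Has F (sg B (c.vec ![e, f, s, v] base) y2) ∧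
      (p 2 * r 3 - p 3 * r 2 ≠ 0 ∨ (mode = 0 ∧ p 2 = 0 ∧ p 3 ≠ 0) ∨
        (mode = 1 ∧ p 3 = 0 ∧ p 2 ≠ 0)) := by
  simp only [CA.ckR, Bool.and_eq_true, Bool.or_eq_true, beq_iff_eq, bne_iff_ne] at hx
  obtain ⟨⟨⟨⟨h1, h2⟩, h3⟩, h4⟩, h5⟩ := hx
  have hg := has_rg c (q := q) hq16 hdl h G hG
  refine ⟨c.cf x.2.1, c.cf x.2.2.2, _, _, vec_four c e f s v x.2.1,
    vec_four c e f s v x.2.2.2, ?_, ?_, ?_, ?_, ?_⟩
  · rw [c.B_vec_vec h.sym _ G hG, h2, c.h0]
  · rw [c.B_vec_vec h.sym _ G hG, h4, c.h0]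
  · have := has_run c _ G hG _ hg x.1
    rw [h1] at this
    exact this.congr fun u => c.Ph_sgc h.sym _ G hG _ _ u
  · have := has_run c _ G hG _ hg x.2.2.1
    rw [h3] at this
    exact this.congr fun u => c.Ph_sgc h.sym _ G hG _ _ u
  · have c2 : ∀ t, c.cf t 2 = c.ph (dg t 2) := fun t => rfl
    have c3 : ∀ t, c.cf t 3 = c.ph (dg t 3) := fun t => rfl
    rcases h5 with (h5 | h5) | h5
    · left
      have := c.ne0 _ _ h5
      rw [c.had] at this
      simp only [c.hmu, c.hm1] at this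
      intro h0
      apply this
      rw [c2, c2, c3, c3] at h0
      linear_combination h0
    · right; left
      refine ⟨h5.1.1, ?_, ?_⟩
      · rw [c2, h5.1.2, c.h0]
      · have := c.ne0 _ _ h5.2
        rw [c.had, c.h0, add_zero] at this
        rw [c3]
        exact this
    · right; right
      refine ⟨h5.1.1, ?_, ?_⟩
      · rw [c3, h5.1.2, c.h0]
      · have := c.ne0 _ _ h5.2
        rw [c.had, c.h0, add_zero] at this
        rw [c2]
        exact this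

theorem ckR_zero (c : CD K) {dl : List (ℕ × ℕ)} {q : ℕ} (hq16 : q ≤ 16)
    (hdl : ∀ d ∈ dl, c.ph d.1 ≠ 0 ∧ IsSquare (c.ph d.1) ∧ c.ph d.2 = (c.ph d.1)⁻¹)
    {e f s v : V} (h : CS F B e f s v) {a n g : ℕ} (la : a < 16) (ln : n < 16) (lg : g < 16)
    (ha : B e s = c.ph a) (hn : B e v = c.ph n) (hg : B v v = c.ph g)
    (x : List ℕ × ℕ × List ℕ × ℕ)
    (hx : c.ckR (grR a n g) (c.rg (grR a n g) q dl) 0 1 x = true) : CR F B e f v := by
  obtain ⟨p, r, y1, y2, e1, e2, o1, o2, m1, m2, hd⟩ :=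
    ckR_sound c hq16 hdl h (grR a n g) (gram_core c h la ln lg ha hn hg) 0 1 x hx
  rw [vec_e] at o1 o2 m1 m2
  rcases hd with hd | ⟨-, hd, hd'⟩ | ⟨hd, -⟩
  · refine ⟨y1, y2, (p 2 * r 3 - p 3 * r 2)⁻¹ * (- r 2), (p 2 * r 3 - p 3 * r 2)⁻¹ * p 2,
      (p 2 * r 3 - p 3 * r 2)⁻¹ * (r 2 * p 0 - p 2 * r 0),
      (p 2 * r 3 - p 3 * r 2)⁻¹ * (r 2 * p 1 - p 2 * r 1), o1, o2, m1, m2, ?_⟩
    rw [e1, e2]
    match_scalars <;> field_simp <;> ring
  · refine ⟨y1, y2, (p 3)⁻¹, 0, - ((p 3)⁻¹ * p 0), - ((p 3)⁻¹ * p 1), o1, o2, m1, m2, ?_⟩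
    rw [e1, hd]
    match_scalars <;> field_simp <;> ring
  · exact absurd hd (by norm_num)

theorem ckR_one (c : CD K) {dl : List (ℕ × ℕ)} {q : ℕ} (hq16 : q ≤ 16)
    (hdl : ∀ d ∈ dl, c.ph d.1 ≠ 0 ∧ IsSquare (c.ph d.1) ∧ c.ph d.2 = (c.ph d.1)⁻¹)
    {e f s v : V} (h : CS F B e f s v) {a n g : ℕ} (la : a < 16) (ln : n < 16) (lg : g < 16)
    (ha : B e s = c.ph a) (hn : B e v = c.ph n) (hg : B v v = c.ph g)
    (x : List ℕ × ℕ × List ℕ × ℕ)
    (hx : c.ckR (grR a n g) (c.rg (grR a n g) q dl) 1 16 x = true) : CR F B f e s := by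
  obtain ⟨p, r, y1, y2, e1, e2, o1, o2, m1, m2, hd⟩ :=
    ckR_sound c hq16 hdl h (grR a n g) (gram_core c h la ln lg ha hn hg) 1 16 x hx
  rw [vec_f] at o1 o2 m1 m2
  rcases hd with hd | ⟨hd, -⟩ | ⟨-, hd, hd'⟩
  · refine ⟨y1, y2, (p 2 * r 3 - p 3 * r 2)⁻¹ * (r 3), (p 2 * r 3 - p 3 * r 2)⁻¹ * (- p 3),
      (p 2 * r 3 - p 3 * r 2)⁻¹ * (p 3 * r 1 - r 3 * p 1),
      (p 2 * r 3 - p 3 * r 2)⁻¹ * (p 3 * r 0 - r 3 * p 0), o1, o2, m1, m2, ?_⟩
    rw [e1, e2]
    match_scalars <;> field_simp <;> ring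
  · exact absurd hd (by norm_num)
  · refine ⟨y1, y2, (p 2)⁻¹, 0, - ((p 2)⁻¹ * p 1), - ((p 2)⁻¹ * p 0), o1, o2, m1, m2, ?_⟩
    rw [e1, hd]
    match_scalars <;> field_simp <;> ring

/-- the four conclusions for a coded field -/
theorem core_of {q : ℕ} (c : CD K) {dl : List (ℕ × ℕ)} (hq16 : q ≤ 16)
    (hdl : ∀ d ∈ dl, c.ph d.1 ≠ 0 ∧ IsSquare (c.ph d.1) ∧ c.ph d.2 = (c.ph d.1)⁻¹)
    (hsurj : ∀ x, ∃ n < q, c.ph n = x)
    (ra rb rc rd : List (List ℕ × ℕ × List ℕ × ℕ)) (ns : ℕ) (hns : ns < 16)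
    (h1 : (List.range 2).all (fun g =>
      c.ckR (grR 0 1 g) (c.rg (grR 0 1 g) q dl) 0 1 (ra.getD g ([], 0, [], 0))) = true)
    (h2 : (List.range 2).all (fun g =>
      c.ckR (grR 0 1 g) (c.rg (grR 0 1 g) q dl) 1 16 (rb.getD g ([], 0, [], 0))) = true)
    (h3 : (List.range 3).all (fun g =>
      c.ckR (grR 1 0 ([0, 1, ns].getD g 0)) (c.rg (grR 1 0 ([0, 1, ns].getD g 0)) q dl) 0 1
        (rc.getD g ([], 0, [], 0))) = true)
    (h4 : (List.range q).all (fun g =>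
      c.ckR (grR 1 1 g) (c.rg (grR 1 1 g) q dl) 0 1 (rd.getD g ([], 0, [], 0))) = true)
    {e f s v : V} (h : CS F B e f s v) :
    (B e s = 0 → B e v = 1 → (B v v = 0 ∨ B v v = 1) → CR F B e f v) ∧
    (B e s = 0 → B e v = 1 → (B v v = 0 ∨ B v v = 1) → CR F B f e s) ∧
    (B e s = 1 → B e v = 0 → (B v v = 0 ∨ B v v = 1 ∨ B v v = c.ph ns) → CR F B e f v) ∧
    (B e s = 1 → B e v = 1 → CR F B e f v) := by
  refine ⟨?_, ?_, ?_, ?_⟩
  · intro ha hn hg
    rcases hg with hg | hg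
    · exact ckR_zero c hq16 hdl h (by norm_num) (by norm_num) (by norm_num)
        (by rw [ha, c.h0]) (by rw [hn, c.h1]) (by rw [hg, c.h0]) _
        (List.all_eq_true.1 h1 0 (List.mem_range.2 (by norm_num)))
    · exact ckR_zero c hq16 hdl h (by norm_num) (by norm_num) (by norm_num)
        (by rw [ha, c.h0]) (by rw [hn, c.h1]) (by rw [hg, c.h1]) _
        (List.all_eq_true.1 h1 1 (List.mem_range.2 (by norm_num)))
  · intro ha hn hg
    rcases hg with hg | hg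
    · exact ckR_one c hq16 hdl h (by norm_num) (by norm_num) (by norm_num)
        (by rw [ha, c.h0]) (by rw [hn, c.h1]) (by rw [hg, c.h0]) _
        (List.all_eq_true.1 h2 0 (List.mem_range.2 (by norm_num)))
    · exact ckR_one c hq16 hdl h (by norm_num) (by norm_num) (by norm_num)
        (by rw [ha, c.h0]) (by rw [hn, c.h1]) (by rw [hg, c.h1]) _
        (List.all_eq_true.1 h2 1 (List.mem_range.2 (by norm_num)))
  · intro ha hn hg
    rcases hg with hg | hg | hg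
    · exact ckR_zero c hq16 hdl h (a := 1) (n := 0) (g := 0) (by norm_num) (by norm_num)
        (by norm_num) (by rw [ha, c.h1]) (by rw [hn, c.h0]) (by rw [hg, c.h0]) _
        (List.all_eq_true.1 h3 0 (List.mem_range.2 (by norm_num)))
    · exact ckR_zero c hq16 hdl h (a := 1) (n := 0) (g := 1) (by norm_num) (by norm_num)
        (by norm_num) (by rw [ha, c.h1]) (by rw [hn, c.h0]) (by rw [hg, c.h1]) _
        (List.all_eq_true.1 h3 1 (List.mem_range.2 (by norm_num)))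
    · exact ckR_zero c hq16 hdl h (a := 1) (n := 0) (g := ns) (by norm_num) (by norm_num) hns
        (by rw [ha, c.h1]) (by rw [hn, c.h0]) hg _
        (List.all_eq_true.1 h3 2 (List.mem_range.2 (by norm_num)))
  · intro ha hn
    obtain ⟨g, hgq, hg⟩ := hsurj (B v v)
    exact ckR_zero c hq16 hdl h (by norm_num) (by norm_num) (by omega)
      (by rw [ha, c.h1]) (by rw [hn, c.h1]) hg.symm _
      (List.all_eq_true.1 h4 g (List.mem_range.2 hgq))

theorem core_all {q : ℕ} (hq : QK q K) : ∃ x : K, ¬ IsSquare x ∧ ∀ {e f s v : V},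
    CS F B e f s v →
    (B e s = 0 → B e v = 1 → (B v v = 0 ∨ B v v = 1) → CR F B e f v) ∧
    (B e s = 0 → B e v = 1 → (B v v = 0 ∨ B v v = 1) → CR F B f e s) ∧
    (B e s = 1 → B e v = 0 → (B v v = 0 ∨ B v v = 1 ∨ B v v = x) → CR F B e f v) ∧
    (B e s = 1 → B e v = 1 → CR F B e f v) := by
  obtain ⟨h, h7 | h9 | h11⟩ := hq
  · subst h7
    refine ⟨(cd7 h).ph 3, ?_, fun hcs => core_of (cd7 h) (by norm_num) (dat7 h).dl (cd7_surj h)
      ra7 rb7 rc7 rd7 3 (by norm_num) ra7_ok rb7_ok rc7_ok rd7_ok hcs⟩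
    rintro ⟨r, hr⟩
    obtain ⟨n, hn, rfl⟩ := cd7_surj h r
    have key : ∀ n < 7, (3 + 6 * (n * n % 7)) % 7 ≠ 0 := by decide
    refine (cd7 h).ne0 3 (6 * (n * n % 7)) (key n hn) ?_
    have e1 : (cd7 h).ph ((cd7 h).ad 3 (6 * (n * n % 7))) =
        (cd7 h).ph 3 + (cd7 h).ph (6 * (n * n % 7)) := (cd7 h).had _ _
    rw [e1, hr]
    have h7 : ((7 : ℕ) : K) = 0 := by have := card_cast K; rwa [h] at this
    show ((n : ℕ) : K) * ((n : ℕ) : K) + ((6 * (n * n % 7) : ℕ) : K) = 0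
    push_cast
    rw [cast_mod h7]
    push_cast at h7 ⊢
    linear_combination (n : K) * (n : K) * h7
  · subst h9
    obtain ⟨i, hi⟩ := exists_i h
    refine ⟨(cd9 h i hi).ph 4, ?_, fun hcs => core_of (cd9 h i hi) (by norm_num)
      (dat9 h i hi).dl (cd9_surj h i hi)
      ra9 rb9 rc9 rd9 4 (by norm_num) ra9_ok rb9_ok rc9_ok rd9_ok hcs⟩
    rintro ⟨r, hr⟩
    set c := cd9 h i hi with hc
    obtain ⟨n, hn, rfl⟩ := cd9_surj h i hi r
    have key : ∀ n < 9, ad9 4 (mu9 2 (mu9 n n)) ≠ 0 := by decide +kernel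
    refine c.ne0 4 (mu9 2 (mu9 n n)) (key n hn) ?_
    have e1 : c.ph (c.ad 4 (mu9 2 (mu9 n n))) = c.ph 4 + c.ph (mu9 2 (mu9 n n)) := c.had _ _
    have e2 : c.ph (mu9 2 (mu9 n n)) = c.ph 2 * c.ph (mu9 n n) := c.hmu _ _
    have e3 : c.ph (mu9 n n) = c.ph n * c.ph n := c.hmu _ _
    have e4 : c.ph 2 = -1 := c.hm1
    rw [e1, e2, e3, e4, hr]
    ring
  · subst h11
    refine ⟨(cd11 h).ph 2, ?_, fun hcs => core_of (cd11 h) (by norm_num) (dat11 h).dl
      (cd11_surj h)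
      ra11 rb11 rc11 rd11 2 (by norm_num) ra11_ok rb11_ok rc11_ok rd11_ok hcs⟩
    rintro ⟨r, hr⟩
    set c := cd11 h with hc
    obtain ⟨n, hn, rfl⟩ := cd11_surj h r
    have key : ∀ n < 11, (2 + (10 * ((n * n) % 11)) % 11) % 11 ≠ 0 := by decide
    refine c.ne0 2 ((10 * ((n * n) % 11)) % 11) (key n hn) ?_
    have e1 : c.ph (c.ad 2 ((10 * ((n * n) % 11)) % 11)) =
      c.ph 2 + c.ph ((10 * ((n * n) % 11)) % 11) := c.had _ _
    have e2 : c.ph ((10 * ((n * n) % 11)) % 11) = c.ph 10 * c.ph ((n * n) % 11) := c.hmu _ _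
    have e3 : c.ph ((n * n) % 11) = c.ph n * c.ph n := c.hmu _ _
    have e4 : c.ph 10 = -1 := c.hm1
    rw [e1, e2, e3, e4, hr]
    ring

/-- `a = 0`, `n = 1`, `g = 0` or `1` -/
theorem coreN_a {q : ℕ} (hq : QK q K) {e f s v : V} (h : CS F B e f s v) (ha : B e s = 0)
    (hn : B e v = 1) (hg : B v v = 0 ∨ B v v = 1) : CR F B e f v := by
  obtain ⟨x, -, hx⟩ := core_all (F := F) (B := B) hq
  exact (hx h).1 ha hn hg

/-- `a = 0`, `n = 1`, `g = 0` or `1`, mirrored -/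
theorem coreN_b {q : ℕ} (hq : QK q K) {e f s v : V} (h : CS F B e f s v) (ha : B e s = 0)
    (hn : B e v = 1) (hg : B v v = 0 ∨ B v v = 1) : CR F B f e s := by
  obtain ⟨x, -, hx⟩ := core_all (F := F) (B := B) hq
  exact (hx h).2.1 ha hn hg

/-- `a = 1`, `n = 0`, `g` equal to `0`, `1` or a certain nonsquare -/
theorem coreN_c {q : ℕ} (hq : QK q K) : ∃ x : K, ¬ IsSquare x ∧ ∀ {e f s v : V},
    CS F B e f s v → B e s = 1 → B e v = 0 → (B v v = 0 ∨ B v v = 1 ∨ B v v = x) →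
    CR F B e f v := by
  obtain ⟨x, hns, hx⟩ := core_all (F := F) (B := B) hq
  exact ⟨x, hns, fun h ha hn hg => (hx h).2.2.1 ha hn hg⟩

/-- `a = 1`, `n = 1`, `g` arbitrary -/
theorem coreN_d {q : ℕ} (hq : QK q K) {e f s v : V} (h : CS F B e f s v) (ha : B e s = 1)
    (hn : B e v = 1) : CR F B e f v := by
  obtain ⟨x, -, hx⟩ := core_all (F := F) (B := B) hq
  exact (hx h).2.2.2 ha hn

end Pool.Agent.H33.TO
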