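import Pool.Agent.H33.TO.CoreN

/-!
# JOB TO-3: the core lemma for a rotation and a root group

`e, f, s, v` as in `CoreN.lean`, but with arbitrary parameters `a = B e s`, `n = B e v`,
`g = B v v` and `B f s ≠ 0`.

Proof of `coreR`.
(0) Replace `s` by `(B f s)⁻¹ • s` (`RG.smul_left`; `B s s = 0`, `B s v = 0` are kept, the
    conclusion does not mention `s`), so `B f s = 1`.
(1) `a = 0`, `n = 0`: direct.  For `m : K` let `X = sg B s (m • v) ∈ F`, `R = rt B e f d ∈ F`
    with `d` a nonzero square, `d ≠ 1`.  `R X⁻¹ R⁻¹ = sg B (R s) (R (-m v)) = sg B (R s) (-m v)`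
    because `B e v = B f v = 0`, and `R s = s + (d - 1) B(f,s) e + (d⁻¹ - 1) B(e,s) f
    = s + (d - 1) e`.  The product `X * (R X⁻¹ R⁻¹)` is `sg B e (y_m)` with
    `y_m = m (1 - d) v + (1/2) g m² (d - 1) s`  (this is `sg_core` in `Basic.lean`, proved).
    `B e y_m = 0`.  With `m = 1, -1`: `y_1 - y_{-1} = 2 (1 - d) v`, so
    `v = (2 (1-d))⁻¹ (y_1 - y_{-1})`.  (A square `d ≠ 0, 1` exists: `QK`: 2 for q = 7, 4 for
    q = 11, -1 for q = 9; or use `TorB.two_sq`.)
(2) `a = 0`, `n ≠ 0`, `g = 0`: replace `e, f, s` by `n⁻¹ e, n f, n⁻¹ s`: then `B f s = 1` still,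
    `B e v = 1`; `coreN_a`.  `PL.scale`, `RG.smul_left`.  `CR F B (n⁻¹ e) (n f) v` gives
    `CR F B e f v` since `sg B (n⁻¹ • e) y = sg B e (n⁻¹ • y)` (`sg_smul`).
(3) `a = 0`, `n ≠ 0`, `g ≠ 0`: change the form: `B' = g⁻¹ • B`, `e' = x • e`,
    `f' = (g x⁻¹) • f`, `s' = x • s`, `v' = v` with `x = g / n`:  `B' e' f' = 1`,
    `B' f' s' = g⁻¹ g x⁻¹ x = 1`, `B' e' v' = g⁻¹ x n = 1`, `B' v' v' = 1`; `coreN_a`.
    `sg_form`, `rt_form` of `Basic.lean` show that `HP, PL, RG, Has (sg ..)` translate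
    (`sg (c • B) s v = sg B s (c • v)`).
(4) `a ≠ 0`, `n = 0`: `B' = a⁻¹ • B`, `e' = e`, `f' = a • f`, `s' = s`, `v' = z • v`:
    `B' e' f' = 1`, `B' f' s' = 1`, `B' e' s' = 1`, `B' e' v' = 0`, `B' v' v' = z² g / a`:
    choose `z ≠ 0` with `z² g / a ∈ {0, 1, x}` (in a finite field of odd order the quotient of
    two nonsquares is a square); `coreN_c`.
(5) `a ≠ 0`, `n ≠ 0`: `B' = a⁻¹ • B`, `e' = e`, `f' = a • f`, `s' = s`, `v' = (a / n) • v`:
    `B' e' v' = 1`; `coreN_d`.

Proof of `coreRm` (`a = 0`, `n ≠ 0`, conclusion about `f` and `s`): as (0), (2), (3) with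
`coreN_b`.  (For `s` in the conclusion keep track of the scalars.)
-/

namespace Pool.Agent.H33.TO

variable {K : Type*} [Field K] {V : Type*} [AddCommGroup V] [Module K V]
  {B : LinearMap.BilinForm K V} {F : Subgroup (V ≃ₗ[K] V)}

/-- change of the form and of the scalars -/
theorem CS.chg {e f s v : V} (h : CS F B e f s v) {c x : K} (hc : c ≠ 0) (hx : x ≠ 0) (z : K) :
    CS F (c • B) (x • e) ((c * x)⁻¹ • f) (x • s) (z • v) := by
  obtain ⟨hp1, hp2, hp3⟩ := h.hp
  refine ⟨fun u w => ?_, ⟨?_, ?_, ?_⟩, ?_, ?_, ?_, ?_, ?_, ?_⟩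
  · simp only [LinearMap.smul_apply, smul_eq_mul, h.sym u w]
  · simp only [LinearMap.smul_apply, map_smul, smul_eq_mul, hp1, mul_zero]
  · simp only [LinearMap.smul_apply, map_smul, smul_eq_mul, hp2, mul_zero]
  · simp only [LinearMap.smul_apply, map_smul, smul_eq_mul, hp3, mul_one]
    field_simp
  · simp only [LinearMap.smul_apply, map_smul, smul_eq_mul, h.ss, mul_zero]
  · simp only [LinearMap.smul_apply, map_smul, smul_eq_mul, h.sv, mul_zero]
  · simp only [LinearMap.smul_apply, map_smul, smul_eq_mul, h.fs, mul_one]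
    field_simp
  · simp only [LinearMap.smul_apply, map_smul, smul_eq_mul, h.fv, mul_zero]
  · intro d hd hsq
    refine (h.pl d hd hsq).congr fun u => ?_
    rw [mul_inv, mul_smul, rt_form hc, rt_scale e f hx]
  · intro t
    refine (h.rg (x * c * t * z)).congr fun u => ?_
    have h1 : (x * c * t * z) • v = x • c • t • z • v := by
      simp only [smul_smul, mul_assoc]
    rw [sg_form, sg_smul, h1]

/-- translate the conclusion back -/
theorem CR.back {e f v : V} {c α β γ : K} (hc : c ≠ 0) (hα : α ≠ 0) (hγ : γ ≠ 0)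
    (h : CR F (c • B) (α • e) (β • f) (γ • v)) : CR F B e f v := by
  obtain ⟨y1, y2, c1, c2, c3, c4, h1, h2, h3, h4, h5⟩ := h
  have hB : ∀ y, (c • B) (α • e) y = 0 → B e ((α * c) • y) = 0 := by
    intro y hy
    simp only [LinearMap.smul_apply, map_smul, smul_eq_mul] at hy ⊢
    rcases mul_eq_zero.1 hy with hy | hy
    · exact absurd hy hα
    · rcases mul_eq_zero.1 hy with hy | hy
      · exact absurd hy hc
      · rw [hy, mul_zero]
  have hS : ∀ y, Has F (sg (c • B) (α • e) y) → Has F (sg B e ((α * c) • y)) := by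
    intro y hy
    refine hy.congr fun u => ?_
    rw [sg_form, sg_smul, smul_smul]
  refine ⟨(α * c) • y1, (α * c) • y2, γ⁻¹ * c1 * (α * c)⁻¹, γ⁻¹ * c2 * (α * c)⁻¹, γ⁻¹ * c3 * α,
    γ⁻¹ * c4 * β, hB y1 h1, hB y2 h2, hS y1 h3, hS y2 h4, ?_⟩
  have hac : α * c ≠ 0 := mul_ne_zero hα hc
  have h6 : v = γ⁻¹ • (γ • v) := by rw [smul_smul, inv_mul_cancel₀ hγ, one_smul]
  rw [h6, h5]
  simp only [smul_add, smul_smul]
  have e1 : ∀ t : K, t * (α * c)⁻¹ * (α * c) = t := fun t => inv_mul_cancel_right₀ hac t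
  rw [e1, e1, mul_assoc γ⁻¹ c3 α, mul_assoc γ⁻¹ c4 β]

/-- a square different from `0`, `1` -/
theorem cr_sq {q : ℕ} (hq : QK q K) : ∃ d : K, d ≠ 0 ∧ d ≠ 1 ∧ IsSquare d := by
  classical
  have := hq.finite
  have := Fintype.ofFinite K
  by_contra hcon
  push Not at hcon
  have h1 : (Finset.univ : Finset K) ⊆ {0, 1, -1} := by
    intro c _
    simp only [Finset.mem_insert, Finset.mem_singleton]
    by_contra h2
    push Not at h2
    obtain ⟨h3, h4, h5⟩ := h2
    refine hcon (c * c) (mul_ne_zero h3 h3) (fun h6 => ?_) ⟨c, rfl⟩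
    rcases mul_self_eq_one_iff.1 h6 with h7 | h7
    · exact h4 h7
    · exact h5 h7
  have h2 := Finset.card_le_card h1
  have h3 : (Finset.univ : Finset K).card = q := by
    rw [Finset.card_univ, ← Nat.card_eq_fintype_card]
    exact hq.1
  have h4 : ({0, 1, -1} : Finset K).card ≤ 3 := Finset.card_le_three
  rcases hq.2 with h5 | h5 | h5 <;> omega

/-- the product of two nonsquares is a square -/
theorem cr_nsq {q : ℕ} (hq : QK q K) {x y : K} (hx : ¬ IsSquare x) (hy : ¬ IsSquare y) :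
    IsSquare (x * y) := by
  classical
  have := hq.finite
  have := Fintype.ofFinite K
  have hx0 : x ≠ 0 := fun h => hx (by rw [h]; exact ⟨0, by simp⟩)
  have hy0 : y ≠ 0 := fun h => hy (by rw [h]; exact ⟨0, by simp⟩)
  rw [← quadraticChar_one_iff_isSquare (mul_ne_zero hx0 hy0), map_mul,
    quadraticChar_neg_one_iff_not_isSquare.2 hx, quadraticChar_neg_one_iff_not_isSquare.2 hy]
  norm_num

/-- the direct case -/
theorem cr_direct {q : ℕ} (hq : QK q K) {e f s v : V} (h : CS F B e f s v) (ha : B e s = 0)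
    (hn : B e v = 0) : CR F B e f v := by
  obtain ⟨d, hd0, hd1, hdsq⟩ := cr_sq hq
  obtain ⟨ρ, hρ, hρ'⟩ := h.pl d hd0 hdsq
  have h2 := hq.two_ne
  have hiso : ∀ u w, B (ρ u) (ρ w) = B u w := fun u w => by
    rw [hρ', hρ']
    exact rt_isom h.sym h.hp hd0 u w
  have hs : ρ s = s + (d - 1) • e := by
    rw [hρ']
    simp only [rt, h.fs, ha, mul_one, mul_zero, zero_smul, add_zero]
  have hv : ρ v = v := by
    rw [hρ']
    simp only [rt, h.fv, hn, mul_zero, zero_smul, add_zero]
  have key : ∀ m : K, Has F (sg B e ((m * (1 - d)) • v + (1 / 2 * B v v * m ^ 2 * (d - 1)) • s)) := by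
    intro m
    have h3 := (h.rg m).comp ((h.rg (-m)).conj hρ)
    refine h3.congr fun u => ?_
    rw [sg_conj hiso, map_smul, hs, hv]
    exact sg_core h.sym h2 h.hp.1 ha hn h.ss h.sv m d u
  have hB : ∀ m : K, B e ((m * (1 - d)) • v + (1 / 2 * B v v * m ^ 2 * (d - 1)) • s) = 0 := by
    intro m
    simp only [map_add, map_smul, smul_eq_mul, ha, hn, mul_zero, add_zero]
  have h1d : 1 - d ≠ 0 := sub_ne_zero.2 (Ne.symm hd1)
  refine ⟨_, _, (2 * (1 - d))⁻¹, -(2 * (1 - d))⁻¹, 0, 0, hB 1, hB (-1), key 1, key (-1), ?_⟩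
  rw [zero_smul, zero_smul, add_zero, add_zero]
  match_scalars
  · field_simp
    ring
  · field_simp
    ring

theorem cr_main {q : ℕ} (hq : QK q K) {e f s v : V} (h : CS F B e f s v) : CR F B e f v := by
  by_cases ha : B e s = 0
  · by_cases hn : B e v = 0
    · exact cr_direct hq h ha hn
    · by_cases hg : B v v = 0
      · have h1 := h.chg (c := 1) (x := (B e v)⁻¹) one_ne_zero (inv_ne_zero hn) 1
        refine CR.back one_ne_zero (inv_ne_zero hn) (one_ne_zero (α := K))
          (coreN_a hq h1 ?_ ?_ (Or.inl ?_))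
        · simp only [LinearMap.smul_apply, map_smul, smul_eq_mul, ha, mul_zero]
        · simp only [LinearMap.smul_apply, map_smul, smul_eq_mul, one_mul]
          exact inv_mul_cancel₀ hn
        · simp only [LinearMap.smul_apply, map_smul, smul_eq_mul, hg, mul_zero]
      · have hx : B v v / B e v ≠ 0 := div_ne_zero hg hn
        have h1 := h.chg (c := (B v v)⁻¹) (x := B v v / B e v) (inv_ne_zero hg) hx 1
        refine CR.back (inv_ne_zero hg) hx (one_ne_zero (α := K))
          (coreN_a hq h1 ?_ ?_ (Or.inr ?_))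
        · simp only [LinearMap.smul_apply, map_smul, smul_eq_mul, ha, mul_zero]
        · simp only [LinearMap.smul_apply, map_smul, smul_eq_mul, one_mul]
          field_simp
        · simp only [LinearMap.smul_apply, map_smul, smul_eq_mul, one_mul]
          exact inv_mul_cancel₀ hg
  · by_cases hn : B e v = 0
    · obtain ⟨x, hx, hcx⟩ := coreN_c hq (F := F) (B := (B e s)⁻¹ • B)
      obtain ⟨z, hz, hz'⟩ : ∃ z : K, z ≠ 0 ∧
          (z ^ 2 * (B v v / B e s) = 0 ∨ z ^ 2 * (B v v / B e s) = 1 ∨ z ^ 2 * (B v v / B e s) = x) := by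
        by_cases hg : B v v / B e s = 0
        · exact ⟨1, one_ne_zero, Or.inl (by rw [hg, mul_zero])⟩
        · by_cases hsq : IsSquare (B v v / B e s)
          · obtain ⟨r, hr⟩ := hsq
            have hr0 : r ≠ 0 := fun h0 => hg (by rw [hr, h0, mul_zero])
            refine ⟨r⁻¹, inv_ne_zero hr0, Or.inr (Or.inl ?_)⟩
            rw [hr]
            field_simp
          · obtain ⟨r, hr⟩ := cr_nsq hq hsq hx
            have hx0 : x ≠ 0 := fun h => hx (by rw [h]; exact ⟨0, by simp⟩)
            have hr0 : r ≠ 0 := fun h0 => mul_ne_zero hg hx0 (by rw [hr, h0, mul_zero])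
            refine ⟨x / r, div_ne_zero hx0 hr0, Or.inr (Or.inr ?_)⟩
            calc (x / r) ^ 2 * (B v v / B e s) = x * (B v v / B e s * x) / r ^ 2 := by
                  field_simp
              _ = x := by
                  rw [hr]
                  field_simp
      have h1 := h.chg (c := (B e s)⁻¹) (x := 1) (inv_ne_zero ha) one_ne_zero z
      refine CR.back (inv_ne_zero ha) (one_ne_zero (α := K)) hz (hcx h1 ?_ ?_ ?_)
      · simp only [LinearMap.smul_apply, map_smul, smul_eq_mul, one_mul]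
        exact inv_mul_cancel₀ ha
      · simp only [LinearMap.smul_apply, map_smul, smul_eq_mul, hn, mul_zero]
      · have h2 : ((B e s)⁻¹ • B) (z • v) (z • v) = z ^ 2 * (B v v / B e s) := by
          simp only [LinearMap.smul_apply, map_smul, smul_eq_mul]
          field_simp
        rw [h2]
        exact hz'
    · have hz : B e s / B e v ≠ 0 := div_ne_zero ha hn
      have h1 := h.chg (c := (B e s)⁻¹) (x := 1) (inv_ne_zero ha) one_ne_zero (B e s / B e v)
      refine CR.back (inv_ne_zero ha) (one_ne_zero (α := K)) hz (coreN_d hq h1 ?_ ?_)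
      · simp only [LinearMap.smul_apply, map_smul, smul_eq_mul, one_mul]
        exact inv_mul_cancel₀ ha
      · simp only [LinearMap.smul_apply, map_smul, smul_eq_mul, one_mul]
        field_simp

theorem cr_mirror {q : ℕ} (hq : QK q K) {e f s v : V} (h : CS F B e f s v) (ha : B e s = 0)
    (hn : B e v ≠ 0) : CR F B f e s := by
  by_cases hg : B v v = 0
  · have h1 := h.chg (c := 1) (x := (B e v)⁻¹) one_ne_zero (inv_ne_zero hn) 1
    refine CR.back one_ne_zero (inv_ne_zero (mul_ne_zero (one_ne_zero (α := K)) (inv_ne_zero hn)))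
      (inv_ne_zero hn) (coreN_b hq h1 ?_ ?_ (Or.inl ?_))
    · simp only [LinearMap.smul_apply, map_smul, smul_eq_mul, ha, mul_zero]
    · simp only [LinearMap.smul_apply, map_smul, smul_eq_mul, one_mul]
      exact inv_mul_cancel₀ hn
    · simp only [LinearMap.smul_apply, map_smul, smul_eq_mul, hg, mul_zero]
  · have hx : B v v / B e v ≠ 0 := div_ne_zero hg hn
    have h1 := h.chg (c := (B v v)⁻¹) (x := B v v / B e v) (inv_ne_zero hg) hx 1
    refine CR.back (inv_ne_zero hg) (inv_ne_zero (mul_ne_zero (inv_ne_zero hg) hx)) hx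
      (coreN_b hq h1 ?_ ?_ (Or.inr ?_))
    · simp only [LinearMap.smul_apply, map_smul, smul_eq_mul, ha, mul_zero]
    · simp only [LinearMap.smul_apply, map_smul, smul_eq_mul, one_mul]
      field_simp
    · simp only [LinearMap.smul_apply, map_smul, smul_eq_mul, one_mul]
      exact inv_mul_cancel₀ hg

/-- normalisation of `s` -/
theorem cr_norm (hsym : ∀ u v, B u v = B v u) {e f s v : V}
    (h : HP B e f) (hs : B s s = 0) (hv : B s v = 0) (hfs : B f s ≠ 0) (hfv : B f v = 0)
    (hP : PL F B e f) (hR : RG F B s v) : CS F B e f ((B f s)⁻¹ • s) v := by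
  refine ⟨hsym, h, ?_, ?_, ?_, hfv, hP, hR.smul_left _⟩
  · simp only [LinearMap.smul_apply, map_smul, smul_eq_mul, hs, mul_zero]
  · simp only [LinearMap.smul_apply, map_smul, smul_eq_mul, hv, mul_zero]
  · simp only [map_smul, smul_eq_mul]
    exact inv_mul_cancel₀ hfs

theorem coreR {q : ℕ} (hq : QK q K) (hsym : ∀ u v, B u v = B v u) {e f s v : V}
    (h : HP B e f) (hs : B s s = 0) (hv : B s v = 0) (hfs : B f s ≠ 0) (hfv : B f v = 0)
    (hP : PL F B e f) (hR : RG F B s v) : CR F B e f v :=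
  cr_main hq (cr_norm hsym h hs hv hfs hfv hP hR)

theorem coreRm {q : ℕ} (hq : QK q K) (hsym : ∀ u v, B u v = B v u) {e f s v : V}
    (h : HP B e f) (hs : B s s = 0) (hv : B s v = 0) (hfs : B f s ≠ 0) (hfv : B f v = 0)
    (hes : B e s = 0) (hev : B e v ≠ 0) (hP : PL F B e f) (hR : RG F B s v) :
    CR F B f e s := by
  have h1 := cr_mirror hq (cr_norm hsym h hs hv hfs hfv hP hR)
    (by simp only [map_smul, smul_eq_mul, hes, mul_zero]) hev
  refine CR.back (c := 1) (α := 1) (β := 1) one_ne_zero one_ne_zero (inv_ne_zero hfs) ?_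
  rw [one_smul, one_smul, one_smul]
  exact h1

end Pool.Agent.H33.TO
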