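import Pool.Agent.H33.TO.LemR
import Pool.Agent.H33.TO.Closed

/-!
# JOB TO-12: entries of full root groups, and the group they generate

Let `RG F (s, v)`, `s` singular, `v ⊥ s`, `x = sg s v`.  The coordinate `a` of
`x (ev b) - ev b` is `s_{-b} v_a - v_{-b} s_a - (1/2) bl(v,v) s_{-b} s_a` (`bl_ev`: `bl (ev b) s =
s (ng b)`).  Claim (`rg_entries`): if `x (ev b) a ≠ 0` then `RR F a b`.
Proof.  `a = b` is trivial (`RR F a a`).  Let `a ≠ b`, so the displayed expression is nonzero.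
Write `β c d = s_c v_d - s_d v_c`.
(i) `a ≠ ng b`.  Then `ng b ≠ a`, `ng b ≠ ng a`.  If `β a (ng b) ≠ 0`: `lemR` gives
`SS F a (ng b)`, so `RR F a b`.  If `β a (ng b) = 0`, then `bl(v,v) ≠ 0`, `s_a ≠ 0`,
`s_{-b} ≠ 0`.  Let `v' = v - (v_a/s_a) s`: `v'_a = 0`, `v'_{-b} = 0`, `bl(v',v') = bl(v,v) ≠ 0`,
and `s_c v'_d - s_d v'_c = β c d`.  Since `bl(v',v') = ∑ v'_c v'_{-c}` there is `c` with
`v'_c ≠ 0`, `v'_{-c} ≠ 0`.  So `c ≠ a, ng a, b, ng b`.  `β a c = s_a v'_c ≠ 0`, and
`β (ng b) (ng c) = s_{-b} v'_{-c} ≠ 0`, so `lemR` gives `SS F a c` and `SS F (ng b) (ng c)`,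
i.e. `SS F (ng c) (ng b)`, and transitivity (`ss_nr`) gives `SS F a (ng b)`.
(ii) `b = ng a`, `a ≠ none`: the expression is `s_a v_a - v_a s_a - (1/2) bl(v,v) s_a²`, so
`bl(v,v) ≠ 0`, `s_a ≠ 0`; with `v'` as before there is `c` with `v'_c, v'_{-c} ≠ 0`,
`c ≠ a, ng a`, and `SS F a c`, `SS F a (ng c)`: third alternative of `RR`.

`EF F` is the group generated by all full root groups of `F`.
`EF_le`: clear (`RG` with `c = 1`).  `EF_normal`: `RG.conj`, `sg_conj`.
`EF_entries`: induction over the closure: the identity and products are clear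
(`(g h) (ev b) a = ∑ c, h (ev b) c * g (ev c) a`, reflexivity and `net_trans`), and the set of
generators is closed under inverses (`(sg s v)⁻¹ = sg s (-v)`, and `RG F s (-v)`).
-/

namespace Pool.Agent.H33.TO

variable {l : ℕ} {K : Type*} [Field K] {F : Subgroup ((Ix l → K) ≃ₗ[K] (Ix l → K))}

theorem en_sg {s v : Ix l → K} {a b : Ix l} (hab : a ≠ b) :
    sg (bl l K) s v (ev b) a =
      s (ng b) * v a - v (ng b) * s a - (1 / 2 * bl l K v v * s (ng b)) * s a := by
  simp only [sg, Pi.add_apply, Pi.sub_apply, Pi.smul_apply, smul_eq_mul, bl_ev, ev_ne hab, zero_add]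

/-- a common index -/
theorem en_idx {s v : Ix l → K} (hs : bl l K s s = 0) (hv : bl l K s v = 0)
    (hg : bl l K v v ≠ 0) {a : Ix l} (ha : s a ≠ 0) :
    ∃ c, c ≠ a ∧ c ≠ ng a ∧ s a * v c - s c * v a ≠ 0 ∧ s a * v (ng c) - s (ng c) * v a ≠ 0 := by
  have hv' : bl l K v s = 0 := by rw [bl_symm]; exact hv
  have h1 : bl l K (s a • v - v a • s) (s a • v - v a • s) = s a * s a * bl l K v v := by
    simp only [map_sub, map_smul, LinearMap.sub_apply, LinearMap.smul_apply, smul_eq_mul, hs, hv, hv']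
    ring
  have h2 : bl l K (s a • v - v a • s) (s a • v - v a • s) ≠ 0 := by
    rw [h1]
    exact mul_ne_zero (mul_ne_zero ha ha) hg
  rw [bl_apply] at h2
  obtain ⟨c, -, hc⟩ := Finset.exists_ne_zero_of_sum_ne_zero h2
  simp only [Pi.sub_apply, Pi.smul_apply, smul_eq_mul] at hc
  have hc1 := left_ne_zero_of_mul hc
  have hc2 := right_ne_zero_of_mul hc
  refine ⟨c, ?_, ?_, ?_, ?_⟩
  · rintro rfl
    exact hc1 (by ring)
  · rintro rfl
    rw [ng_ng] at hc2
    exact hc2 (by ring)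
  · rwa [mul_comm (v a)] at hc1
  · rwa [mul_comm (v a)] at hc2

theorem rg_entries {q : ℕ} (hq : QK q K) (hF : Ctx l K F) {s v : Ix l → K}
    (hs : bl l K s s = 0) (hv : bl l K s v = 0) (hR : RG F (bl l K) s v) {a b : Ix l}
    (h : sg (bl l K) s v (ev b) a ≠ 0) : RR F a b := by
  by_cases hab : a = b
  · exact Or.inl hab
  rw [en_sg hab] at h
  by_cases hab' : a = ng b
  · have hba : b = ng a := by rw [hab', ng_ng]
    have h1 : bl l K v v ≠ 0 := fun h0 => h (by rw [h0, ← hab']; ring)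
    have h2 : s a ≠ 0 := fun h0 => h (by rw [← hab', h0]; ring)
    obtain ⟨c, hc1, hc2, hc3, hc4⟩ := en_idx hs hv h1 h2
    refine Or.inr (Or.inr ⟨hba, c, lemR hq hF hs hv hR hc1 hc2 hc3, lemR hq hF hs hv hR ?_ ?_ hc4⟩)
    · exact fun h0 => hc2 (ng_eq_iff.1 h0)
    · exact fun h0 => hc1 (ng_inj h0)
  · refine Or.inr (Or.inl ?_)
    have n1 : ng b ≠ a := fun h0 => hab' h0.symm
    have n2 : ng b ≠ ng a := fun h0 => hab (ng_inj h0).symm
    by_cases hβ : s a * v (ng b) - s (ng b) * v a = 0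
    · have h1 : bl l K v v ≠ 0 := fun h0 => h (by rw [h0]; linear_combination -hβ)
      have h2 : s a ≠ 0 := fun h0 => h (by linear_combination -hβ - (1 / 2 * bl l K v v * s (ng b)) * h0)
      have h3 : s (ng b) ≠ 0 := fun h0 => h (by linear_combination -hβ - (1 / 2 * bl l K v v * s a) * h0)
      obtain ⟨c, hc1, hc2, hc3, hc4⟩ := en_idx hs hv h1 h2
      have m1 : ng c ≠ ng b := fun h0 => hc4 (by rw [h0]; exact hβ)
      have m2 : ng c ≠ ng (ng b) := fun h0 => hc3 (by rw [ng_inj h0]; exact hβ)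
      have h4 : s (ng b) * v (ng c) - s (ng c) * v (ng b) ≠ 0 := by
        intro h0
        have h5 : s (ng b) * (s a * v (ng c) - s (ng c) * v a) = 0 := by
          linear_combination s a * h0 + s (ng c) * hβ
        exact mul_ne_zero h3 hc4 h5
      have h5 := lemR hq hF hs hv hR hc1 hc2 hc3
      have h6 := lemR hq hF hs hv hR m1 m2 h4
      exact (ss_nr hq hF).trans a c (ng b) h5 h6.symm n1 n2
    · exact lemR hq hF hs hv hR n1 n2 hβ

/-- the group generated by the full root groups of `F` -/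
def EF (F : Subgroup ((Ix l → K) ≃ₗ[K] (Ix l → K))) :
    Subgroup ((Ix l → K) ≃ₗ[K] (Ix l → K)) :=
  Subgroup.closure {g | ∃ s v : Ix l → K, bl l K s s = 0 ∧ bl l K s v = 0 ∧
    RG F (bl l K) s v ∧ ∀ u, g u = sg (bl l K) s v u}

theorem EF_le : EF F ≤ F := by
  rw [EF, Subgroup.closure_le]
  rintro g ⟨s, v, -, -, hR, hg⟩
  obtain ⟨g', hg', h⟩ := hR 1
  have h1 : g = g' := by
    ext1 u
    rw [hg, h, one_smul]
  rw [h1]
  exact hg'

theorem EF_normal (hF : Ctx l K F) {g x : (Ix l → K) ≃ₗ[K] (Ix l → K)} (hg : g ∈ F)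
    (hx : x ∈ EF F) : g * x * g⁻¹ ∈ EF F := by
  unfold EF at hx
  induction hx using Subgroup.closure_induction with
  | mem x hx =>
    obtain ⟨s, v, hs, hv, hR, hx⟩ := hx
    refine Subgroup.subset_closure ⟨g s, g v, ?_, ?_, hR.conj hg (hF.iso g hg), fun u => ?_⟩
    · rw [hF.iso g hg]; exact hs
    · rw [hF.iso g hg]; exact hv
    · rw [LinearEquiv.mul_apply, LinearEquiv.mul_apply, hx, sg_conj (hF.iso g hg)]
  | one => rw [mul_one, mul_inv_cancel]; exact Subgroup.one_mem _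
  | mul x y _ _ h1 h2 =>
    have h3 : g * (x * y) * g⁻¹ = (g * x * g⁻¹) * (g * y * g⁻¹) := by group
    rw [h3]
    exact Subgroup.mul_mem _ h1 h2
  | inv x _ h1 =>
    have h3 : g * x⁻¹ * g⁻¹ = (g * x * g⁻¹)⁻¹ := by group
    rw [h3]
    exact Subgroup.inv_mem _ h1

theorem EF_entries {q : ℕ} (hq : QK q K) (hF : Ctx l K F)
    {x : (Ix l → K) ≃ₗ[K] (Ix l → K)} (hx : x ∈ EF F) {a b : Ix l} (h : x (ev b) a ≠ 0) :
    RR F a b := by
  have key : ∀ a b : Ix l, x (ev b) a ≠ 0 → RR F a b := by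
    clear h
    unfold EF at hx
    induction hx using Subgroup.closure_induction'' with
    | mem x hx =>
      obtain ⟨s, v, hs, hv, hR, hx⟩ := hx
      intro a b hab
      rw [hx] at hab
      exact rg_entries hq hF hs hv hR hab
    | inv_mem x hx =>
      obtain ⟨s, v, hs, hv, hR, hx⟩ := hx
      intro a b hab
      have hv' : bl l K s (-v) = 0 := by rw [map_neg, hv, neg_zero]
      have h1 : ∀ u, x⁻¹ u = sg (bl l K) s (-v) u := by
        intro u
        have h2 : x (sg (bl l K) s (-v) u) = u := by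
          rw [hx, sg_comp bl_symm hq.two_ne hs hv hv', add_neg_cancel, sg_zero]
        have h3 : x⁻¹ (x (sg (bl l K) s (-v) u)) = sg (bl l K) s (-v) u := by
          rw [← LinearEquiv.mul_apply, inv_mul_cancel]
          rfl
        rw [← h3, h2]
      have hR' : RG F (bl l K) s (-v) := by
        have h2 := hR.smul (-1)
        rwa [neg_one_smul] at h2
      rw [h1] at hab
      exact rg_entries hq hF hs hv' hR' hab
    | one =>
      intro a b hab
      by_cases h0 : a = b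
      · exact Or.inl h0
      · exact absurd (ev_ne h0) hab
    | mul x y _ _ h1 h2 =>
      intro a b hab
      have h3 : (x * y) (ev b) a = ∑ c, y (ev b) c * x (ev c) a := by
        rw [LinearEquiv.mul_apply, sum_ev (y (ev b)), map_sum, Finset.sum_apply]
        refine Finset.sum_congr rfl fun c _ => ?_
        rw [map_smul, Pi.smul_apply, smul_eq_mul, ← sum_ev (y (ev b))]
      rw [h3] at hab
      obtain ⟨c, -, hc⟩ := Finset.exists_ne_zero_of_sum_ne_zero hab
      exact net_trans (ss_nr hq hF) (h1 a c (right_ne_zero_of_mul hc)) (h2 c b (left_ne_zero_of_mul hc))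
  exact key a b h

end Pool.Agent.H33.TO
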