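import Pool.Agent.H33.TO.EnumChk

/-!
# Enumeration, q = 11: tables and kernel checks
-/

namespace Pool.Agent.H33.TO

/-- data -/
def ed11 : ED where
  c := ca11
  q := 11
  m2 := 9
  iv := [0, 1, 6, 4, 3, 9, 2, 8, 7, 5, 10]
  sqs := [3, 5]
  wit := [(3, 3), (2, 7), (7, 2)]
  wi3 := []
  sg := [(9, 9), (4, 1), (1, 4)]
  kp := [2, 10]
  s1 := [
    (0,0,0,0), (0,1,0,0), (0,2,0,0), (0,3,0,0), (0,4,0,0), (0,5,0,0),
    (0,6,0,0), (0,7,0,0), (0,8,0,0), (0,9,0,0), (0,10,0,0), (1,0,0,0),
    (2,0,0,0), (3,0,0,0), (4,0,0,0), (5,0,0,0), (6,0,0,0), (7,0,0,0),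
    (8,0,0,0), (9,0,0,0), (10,0,0,0), (0,0,0,1), (0,1,0,1), (0,2,0,1),
    (0,3,0,1), (0,4,0,1), (0,5,0,1), (0,6,0,1), (0,7,0,1), (0,8,0,1),
    (0,9,0,1), (0,10,0,1), (1,0,0,1), (2,0,0,1), (3,0,0,1), (4,0,0,1),
    (5,0,0,1), (6,0,0,1), (7,0,0,1), (8,0,0,1), (9,0,0,1), (10,0,0,1),
    (0,0,0,2), (0,0,0,10), (0,0,1,0), (0,1,1,0), (0,2,1,0), (0,3,1,0),
    (0,4,1,0), (0,5,1,0), (0,6,1,0), (0,7,1,0), (0,8,1,0), (0,9,1,0),
    (0,10,1,0), (1,0,1,0), (2,0,1,0), (3,0,1,0), (4,0,1,0), (5,0,1,0),
    (6,0,1,0), (7,0,1,0), (8,0,1,0), (9,0,1,0), (10,0,1,0), (1,4,1,4),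
    (2,2,1,4), (3,5,1,4), (4,1,1,4), (5,3,1,4), (6,8,1,4), (7,10,1,4),
    (8,6,1,4), (9,9,1,4), (10,7,1,4), (0,0,2,0), (1,4,4,1), (2,2,4,1),
    (3,5,4,1), (4,1,4,1), (5,3,4,1), (6,8,4,1), (7,10,4,1), (8,6,4,1),
    (9,9,4,1), (10,7,4,1), (1,4,9,9), (2,2,9,9), (3,5,9,9), (4,1,9,9),
    (5,3,9,9), (6,8,9,9), (7,10,9,9), (8,6,9,9), (9,9,9,9), (10,7,9,9),
    (0,0,10,0)]
  adj := [
    0, 0, 0,
    0, 0, 0,
    0, 0, 0,
    0, 0, 0,
    0, 0, 0,
    0, 0, 0,
    0, 0, 0,
    0, 0, 0,
    0, 0, 0,
    0, 0, 0,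
    0, 0, 0,
    0, 0, 0,
    0, 0, 0,
    0, 0, 0,
    79228162514264346389636972544, 37778931867355208220672, 0,
    0, 0, 0,
    0, 0, 0,
    0, 0, 0,
    0, 0, 0,
    0, 0, 0,
    0, 0, 0,
    0, 0, 39614081257132168796771975168,
    19807040628566084398385987584, 9903520314283042199192993792, 4951760157141521099596496896,
    2475880078570760549798248448, 1237940039285380274899124224, 618970019642690137449562112,
    309485009821345068724781056, 154742504910672534362390528, 77371252455336267181195264,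
    79228162514264346389636972544, 39614081257132168796771975168, 19807040628566084398385987584,
    9903520314283042199192993792, 4951760157141521099596496896, 2475880078570760549798248448,
    1237940039285380274899124224, 618970019642690137449562112, 309485009821345068724781056,
    154742504910672534362390528, 77371252455336267181195264, 38704515693599612171452416,
    19352257846799806085726208, 9676128923399903042863104, 4838064461699951521431552,
    2419032230849975760715776, 1209516115424987880357888, 604758057712493940178944,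
    302379028856246970089472, 151189514428123485044736, 75594757214061742522368,
    37778931867355208220672]

theorem ed11_k1 : (List.range 11).all ed11.k1 = true := by
  decide +kernel

theorem ed11_k2_0 : (List.range 20).all (fun i => ed11.k2 (0 + i)) = true := by
  decide +kernel

theorem ed11_k2_1 : (List.range 20).all (fun i => ed11.k2 (20 + i)) = true := by
  decide +kernel

theorem ed11_k2_2 : (List.range 20).all (fun i => ed11.k2 (40 + i)) = true := by
  decide +kernel

theorem ed11_k2_3 : (List.range 20).all (fun i => ed11.k2 (60 + i)) = true := by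
  decide +kernel

theorem ed11_k2_4 : (List.range 17).all (fun i => ed11.k2 (80 + i)) = true := by
  decide +kernel

theorem ed11_k3 : (List.range 97).all ed11.k3 = true := by
  decide +kernel

theorem ed11_k2 (i : ℕ) (hi : i < 97) : ed11.k2 i = true := by
  obtain ⟨a, b, hb, rfl⟩ : ∃ a b, b < 20 ∧ i = 20 * a + b := ⟨i / 20, i % 20, by omega, by omega⟩
  have ha : a < 5 := by omega
  interval_cases a
  · have h := ed11_k2_0
    rw [List.all_eq_true] at h
    exact h b (List.mem_range.2 (by omega))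
  · have h := ed11_k2_1
    rw [List.all_eq_true] at h
    exact h b (List.mem_range.2 (by omega))
  · have h := ed11_k2_2
    rw [List.all_eq_true] at h
    exact h b (List.mem_range.2 (by omega))
  · have h := ed11_k2_3
    rw [List.all_eq_true] at h
    exact h b (List.mem_range.2 (by omega))
  · have h := ed11_k2_4
    rw [List.all_eq_true] at h
    exact h b (List.mem_range.2 (by omega))

end Pool.Agent.H33.TO
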