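import Pool.Agent.H33.TO.EnumSound
import Pool.Agent.H33.TO.EnumTab7

/-!
# JOB TO-19: the enumeration for q = 7

A finite check.  Data at one index: `(p, p', A, B)` with `A B = p p'`.  `Tri` says that for all
`(t_0, t_1, t_2)` with square product the position is in `Alw`.  Call a datum trivial if
`(A, B) ∈ {(0,0), (1,0), (0,1)}`.

Reduction to codes: every element of `K` has a code (`cd7_surj`), the codes compute sums and
products (`CD.had`, `CD.hmu`), so `Tri` implies a Boolean check on codes; write a Boolean function
`alw : ℕ → ℕ → ℕ → ℕ → Bool` on codes with `Alw 7 (ph a) (ph b) (ph c) (ph d) → alw a b c d = true`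
for codes `< 7` (for codes `< 7`, `ph a = 0` only if `a = 0`, `ph a = ph b` only if `a = b`).
The inverse `t⁻¹` is given by a table.

Structure of the check (checked by a C++ program, 137 data pass, there are 1317 compatible pairs: no pair consisting of a trivial and a nontrivial datum, 832 pairs of nontrivial data, and no three nontrivial data are pairwise compatible):
(1) one index: `t_0` runs over the nonzero squares, `t_1 = t_2 = 1` (`nu 1 = 0`): list `S1` of
the data which pass.
(2) two indices: `t_0 t_1` a square, `t_2 = 1`: list of compatible pairs `S2` of data in `S1`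
(about 120000 evaluations of `alw` with early exit).  Compatible pairs of trivial data: at most
one of the two has `(A,B) ≠ (0,0)`, and `p = 0` for both or `p' = 0` for both.  A trivial datum
is never compatible with a nontrivial one.
(3) So three pairwise compatible data are all trivial or all nontrivial.  All trivial: the
conclusion `TriC` follows from the statement about pairs (for the last part: if
`p i ≠ 0` and `p' j ≠ 0` the pair `(i,j)` (or `(i,k)` if `i = j`) is not compatible).
All nontrivial: excluded as described above.
Let the kernel do the computation with `decide +kernel` on natural numbers (the kernel is fast on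
`Nat` arithmetic, about 30 µs per operation in our experience, see `Tab7.lean`, `Phi.lean`);
split it into several theorems of less than a minute each (e.g. one for each first datum or
each value of `A`), keep each file below 3 minutes.  Nontrivial compatible pairs can be stored as
bit masks (`Nat.land`, `Nat.testBit`) to exclude triangles.  Symmetries which may be used to
shorten the work: `t → t⁻¹` (exchange `A, B`), exchange of `p, p'`.
-/

namespace Pool.Agent.H33.TO

variable {K : Type*} [Field K]

theorem eok7 (h : Nat.card K = 7) : EOK ed7 (cd7 h) := by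
  have h0 : ((7 : ℕ) : K) = 0 := by have := card_cast K; rwa [h] at this
  have hinj : ∀ a < 7, ∀ b < 7, (cd7 h).ph a = (cd7 h).ph b → a = b := by
    intro a ha b hb hab
    by_contra hne
    have hab' : ((a : ℕ) : K) = ((b : ℕ) : K) := hab
    have h1 : ((a + (7 - b) : ℕ) : K) = 0 := by
      push_cast [Nat.cast_sub hb.le]
      push_cast at h0
      rw [hab']; linear_combination h0
    refine cast_ne_of_prime h0 _ ?_ h1
    intro h2
    apply hne
    omega
  have hnat : ∀ n : ℕ, ((n : ℕ) : K) = (cd7 h).ph n := fun n => rfl
  have hsq : ∀ r a, ca7.mu r r = a → IsSquare ((cd7 h).ph a) := fun r a hr =>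
    ⟨(cd7 h).ph r, by rw [← hr]; exact (cd7 h).hmu r r⟩
  have hmul : ∀ a b, (cd7 h).ph a * (cd7 h).ph b = (cd7 h).ph (ca7.mu a b) :=
    fun a b => ((cd7 h).hmu a b).symm
  refine
    { hc := rfl
      adq := fun a b => ?_
      muq := fun a b => ?_
      inj := hinj
      surj := cd7_surj h
      inv := fun t ht h1 => ?_
      hm2 := ?_
      one := by decide
      sqs := fun t ht => ?_
      wit := fun w hw => ?_
      wi3 := fun w hw => ?_
      sg := fun s hs t ht H => ?_
      kp := fun t ht H => ?_ }
  · exact Nat.mod_lt _ (by norm_num)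
  · exact Nat.mod_lt _ (by norm_num)
  · have key : ∀ t < 7, t ≠ 0 → ca7.mu t (ed7.inv t) = 1 := by decide +kernel
    refine eq_inv_of_mul_eq_one_right ?_
    rw [hmul, key t ht h1]
    exact (cd7 h).h1
  · show ((5 : ℕ) : K) = -2
    push_cast at h0 ⊢
    linear_combination h0
  · have ht' : t = 2 := by simpa [ed7] using ht
    subst ht'
    exact ⟨by decide, by decide, hsq 3 _ rfl⟩
  · have hw' : w = (3, 6) ∨ w = (2, 2) ∨ w = (3, 5) ∨ w = (6, 3) ∨ w = (6, 6) := by simpa [ed7] using hw
    rcases hw' with rfl | rfl | rfl | rfl | rfl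
    · exact ⟨⟨by decide, by decide⟩, ⟨by decide, by decide⟩, by rw [hmul]; exact hsq 2 _ rfl⟩
    · exact ⟨⟨by decide, by decide⟩, ⟨by decide, by decide⟩, by rw [hmul]; exact hsq 2 _ rfl⟩
    · exact ⟨⟨by decide, by decide⟩, ⟨by decide, by decide⟩, by rw [hmul]; exact hsq 1 _ rfl⟩
    · exact ⟨⟨by decide, by decide⟩, ⟨by decide, by decide⟩, by rw [hmul]; exact hsq 2 _ rfl⟩
    · exact ⟨⟨by decide, by decide⟩, ⟨by decide, by decide⟩, by rw [hmul]; exact hsq 1 _ rfl⟩
  · exact absurd hw (by simp [ed7])
  · rcases H with ⟨hq, H⟩ | ⟨hq, H⟩ | ⟨hq, H⟩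
    · have e : ∀ (x n : ℕ), x < 7 → n < 7 → (cd7 h).ph x = (n : K) → x = n :=
        fun x n hx hn hxn => hinj x hx n (by omega) (by rw [hxn, hnat])
      rcases H with ⟨H1, H2⟩ | ⟨H1, H2⟩ | ⟨H1, H2⟩ | ⟨H1, H2⟩
      · rw [e s 1 hs (by norm_num) (by rw [H1]; norm_num), e t 1 ht (by norm_num) (by rw [H2]; norm_num)]
        simp [ed7]
      · rw [e s 4 hs (by norm_num) (by rw [H1]; norm_num), e t 4 ht (by norm_num) (by rw [H2]; norm_num)]
        simp [ed7]
      · rw [e s 2 hs (by norm_num) (by rw [H1]; norm_num), e t 4 ht (by norm_num) (by rw [H2]; norm_num)]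
        simp [ed7]
      · rw [e s 4 hs (by norm_num) (by rw [H1]; norm_num), e t 2 ht (by norm_num) (by rw [H2]; norm_num)]
        simp [ed7]
    · exact absurd hq (by decide)
    · exact absurd hq (by decide)
  · rcases H with ⟨hq, H⟩ | ⟨hq, H⟩ | ⟨hq, H⟩
    · have e : ∀ (x n : ℕ), x < 7 → n < 7 → (cd7 h).ph x = (n : K) → x = n :=
        fun x n hx hn hxn => hinj x hx n (by omega) (by rw [hxn, hnat])
      rcases H with H | H
      · rw [e t 3 ht (by norm_num) (by rw [H]; norm_num)]
        simp [ed7]
      · rw [e t 5 ht (by norm_num) (by rw [H]; norm_num)]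
        simp [ed7]
    · exact absurd hq (by decide)
    · exact absurd hq (by decide)

theorem enum7 (h : Nat.card K = 7) (p p' A B : Fin 3 → K) (hAB : ∀ i, A i * B i = p i * p' i)
    (ht : Tri 7 p p' A B) : TriC p p' A B := by
  refine (eok7 h).sound (fun a ha => ?_) (fun j hj => ed7_k2 j hj) (fun j hj => ?_)
    p p' A B hAB ht
  · have := ed7_k1
    rw [List.all_eq_true] at this
    exact this a (List.mem_range.2 ha)
  · have := ed7_k3
    rw [List.all_eq_true] at this
    exact this j (List.mem_range.2 hj)

end Pool.Agent.H33.TO
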