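import Pool.Agent.H33.TO.EnumChk

/-!
# Enumeration, q = 9: tables and kernel checks
-/

namespace Pool.Agent.H33.TO

/-- data -/
def ed9 : ED where
  c := ca9
  q := 9
  m2 := 1
  iv := [0, 1, 2, 6, 5, 4, 3, 8, 7]
  sqs := [2, 3]
  wit := [(4, 4), (3, 3), (4, 7), (2, 2)]
  wi3 := [(2, 4, 4)]
  sg := [(1, 1), (1, 2), (2, 1), (2, 2)]
  kp := [2]
  s1 := [
    (0,0,0,0), (0,1,0,0), (0,2,0,0), (0,3,0,0), (0,4,0,0), (0,5,0,0),
    (0,6,0,0), (0,7,0,0), (0,8,0,0), (1,0,0,0), (2,0,0,0), (3,0,0,0),
    (4,0,0,0), (5,0,0,0), (6,0,0,0), (7,0,0,0), (8,0,0,0), (0,0,0,1),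
    (0,1,0,1), (0,2,0,1), (0,3,0,1), (0,4,0,1), (0,5,0,1), (0,6,0,1),
    (0,7,0,1), (0,8,0,1), (1,0,0,1), (2,0,0,1), (3,0,0,1), (4,0,0,1),
    (5,0,0,1), (6,0,0,1), (7,0,0,1), (8,0,0,1), (0,0,0,2), (0,0,0,5),
    (0,0,0,8), (0,0,1,0), (0,1,1,0), (0,2,1,0), (0,3,1,0), (0,4,1,0),
    (0,5,1,0), (0,6,1,0), (0,7,1,0), (0,8,1,0), (1,0,1,0), (2,0,1,0),
    (3,0,1,0), (4,0,1,0), (5,0,1,0), (6,0,1,0), (7,0,1,0), (8,0,1,0),
    (1,1,1,1), (2,2,1,1), (3,6,1,1), (4,5,1,1), (5,4,1,1), (6,3,1,1),
    (7,8,1,1), (8,7,1,1), (1,2,1,2), (2,1,1,2), (3,3,1,2), (4,7,1,2),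
    (5,8,1,2), (6,6,1,2), (7,4,1,2), (8,5,1,2), (0,0,2,0), (1,2,2,1),
    (2,1,2,1), (3,3,2,1), (4,7,2,1), (5,8,2,1), (6,6,2,1), (7,4,2,1),
    (8,5,2,1), (1,1,2,2), (2,2,2,2), (3,6,2,2), (4,5,2,2), (5,4,2,2),
    (6,3,2,2), (7,8,2,2), (8,7,2,2), (1,1,3,6), (2,2,3,6), (3,6,3,6),
    (4,5,3,6), (5,4,3,6), (6,3,3,6), (7,8,3,6), (8,7,3,6), (0,0,5,0),
    (1,2,5,8), (2,1,5,8), (3,3,5,8), (4,7,5,8), (5,8,5,8), (6,6,5,8),
    (7,4,5,8), (8,5,5,8), (1,1,6,3), (2,2,6,3), (3,6,6,3), (4,5,6,3),
    (5,4,6,3), (6,3,6,3), (7,8,6,3), (8,7,6,3), (0,0,8,0), (1,2,8,5),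
    (2,1,8,5), (3,3,8,5), (4,7,8,5), (5,8,8,5), (6,6,8,5), (7,4,8,5),
    (8,5,8,5)]
  adj := [
    0, 0, 0,
    0, 0, 0,
    0, 0, 0,
    0, 0, 0,
    0, 0, 0,
    0, 0, 0,
    0, 0, 0,
    0, 0, 0,
    0, 0, 0,
    0, 0, 0,
    0, 0, 0,
    0, 1180591620734591172608, 5192296858534827628530565048696832,
    39614081257132168831131713536, 0, 0,
    0, 0, 0,
    0, 0, 0,
    0, 0, 0,
    0, 0, 0,
    0, 0, 0,
    36028797018963968, 18014398509481984, 576460752303423488,
    2305843009213693952, 1152921504606846976, 72057594037927936,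
    288230376151711744, 144115188075855872, 4731589854906499989504,
    2365794927453249994752, 75705437678503999832064, 302821750714015999328256,
    151410875357007999664128, 9463179709812999979008, 37852718839251999916032,
    18926359419625999958016, 1180591620734591172608, 4731589854906499989504,
    2365794927453249994752, 75705437678503999832064, 302821750714015999328256,
    151410875357007999664128, 9463179709812999979008, 37852718839251999916032,
    18926359419625999958016, 0, 0,
    0, 0, 0,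
    0, 0, 0,
    40565128692313162192963227353088, 20282564346156581096481613676544, 649042059077010595087411637649408,
    2596168236308042380349646550597632, 1298084118154021190174823275298816, 81130257384626324385926454706176,
    324521029538505297543705818824704, 162260514769252648771852909412352, 5192296858534827628530565048696832,
    0, 0, 0,
    0, 0, 0,
    0, 0, 40565128692313162192963227353088,
    20282564346156581096481613676544, 649042059077010595087411637649408, 2596168236308042380349646550597632,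
    1298084118154021190174823275298816, 81130257384626324385926454706176, 324521029538505297543705818824704,
    162260514769252648771852909412352, 39614081257132168831131713536, 0,
    0, 0, 0,
    0, 0, 0,
    0]

theorem ed9_k1 : (List.range 9).all ed9.k1 = true := by
  decide +kernel

theorem ed9_k2_0 : (List.range 20).all (fun i => ed9.k2 (0 + i)) = true := by
  decide +kernel

theorem ed9_k2_1 : (List.range 20).all (fun i => ed9.k2 (20 + i)) = true := by
  decide +kernel

theorem ed9_k2_2 : (List.range 20).all (fun i => ed9.k2 (40 + i)) = true := by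
  decide +kernel

theorem ed9_k2_3 : (List.range 20).all (fun i => ed9.k2 (60 + i)) = true := by
  decide +kernel

theorem ed9_k2_4 : (List.range 20).all (fun i => ed9.k2 (80 + i)) = true := by
  decide +kernel

theorem ed9_k2_5 : (List.range 20).all (fun i => ed9.k2 (100 + i)) = true := by
  decide +kernel

theorem ed9_k2_6 : (List.range 1).all (fun i => ed9.k2 (120 + i)) = true := by
  decide +kernel

theorem ed9_k3 : (List.range 121).all ed9.k3 = true := by
  decide +kernel

theorem ed9_k2 (i : ℕ) (hi : i < 121) : ed9.k2 i = true := by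
  obtain ⟨a, b, hb, rfl⟩ : ∃ a b, b < 20 ∧ i = 20 * a + b := ⟨i / 20, i % 20, by omega, by omega⟩
  have ha : a < 7 := by omega
  interval_cases a
  · have h := ed9_k2_0
    rw [List.all_eq_true] at h
    exact h b (List.mem_range.2 (by omega))
  · have h := ed9_k2_1
    rw [List.all_eq_true] at h
    exact h b (List.mem_range.2 (by omega))
  · have h := ed9_k2_2
    rw [List.all_eq_true] at h
    exact h b (List.mem_range.2 (by omega))
  · have h := ed9_k2_3
    rw [List.all_eq_true] at h
    exact h b (List.mem_range.2 (by omega))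
  · have h := ed9_k2_4
    rw [List.all_eq_true] at h
    exact h b (List.mem_range.2 (by omega))
  · have h := ed9_k2_5
    rw [List.all_eq_true] at h
    exact h b (List.mem_range.2 (by omega))
  · have h := ed9_k2_6
    rw [List.all_eq_true] at h
    exact h b (List.mem_range.2 (by omega))

end Pool.Agent.H33.TO
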