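import Pool.Agent.H33.TO.EnumSound
import Pool.Agent.H33.TO.EnumTab9

/-!
# JOB TO-21: the enumeration for q = 9

A finite check.  Data at one index: `(p, p', A, B)` with `A B = p p'`.  `Tri` says that for all
`(t_0, t_1, t_2)` with square product the position is in `Alw`.  Call a datum trivial if
`(A, B) ∈ {(0,0), (1,0), (0,1)}`.

Reduction to codes: every element of `K` has a code (`cd9_surj`), the codes compute sums and
products (`CD.had`, `CD.hmu`), so `Tri` implies a Boolean check on codes; write a Boolean function
`alw : ℕ → ℕ → ℕ → ℕ → Bool` on codes with `Alw 9 (ph a) (ph b) (ph c) (ph d) → alw a b c d = true`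
for codes `< 9` (for codes `< 9`, `ph a = 0` only if `a = 0`, `ph a = ph b` only if `a = b`).
The inverse `t⁻¹` is given by a table.

Structure of the check (checked by a C++ program, 121 data pass, there are 889 compatible pairs: no pair consisting of a trivial and a nontrivial datum, 84 pairs of nontrivial data, and the only triples of pairwise compatible nontrivial data are those with p = p' = 0 and (A, B) in {(0,2), (2,0)} at all three indices (8 triples); these are excluded by triples (t1,t2,t3) with three nontrivial entries, e.g. look for (t1,t2,t3) with square product among the codes 3..8):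
(1) one index: `t_0` runs over the nonzero squares, `t_1 = t_2 = 1` (`nu 1 = 0`): list `S1` of
the data which pass.
(2) two indices: `t_0 t_1` a square, `t_2 = 1`: list of compatible pairs `S2` of data in `S1`
(about 120000 evaluations of `alw` with early exit).  Compatible pairs of trivial data: at most
one of the two has `(A,B) ≠ (0,0)`, and `p = 0` for both or `p' = 0` for both.  A trivial datum
is never compatible with a nontrivial one.
(3) So three pairwise compatible data are all trivial or all nontrivial.  All trivial: the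
conclusion `TriC` follows from the statement about pairs (for the last part: if
`p i ≠ 0` and `p' j ≠ 0` the pair `(i,j)` (or `(i,k)` if `i = j`) is not compatible).
All nontrivial: excluded as described above.
Let the kernel do the computation with `decide +kernel` on natural numbers (the kernel is fast on
`Nat` arithmetic, about 30 µs per operation in our experience, see `Tab9.lean`, `Phi.lean`);
split it into several theorems of less than a minute each (e.g. one for each first datum or
each value of `A`), keep each file below 3 minutes.  Nontrivial compatible pairs can be stored as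
bit masks (`Nat.land`, `Nat.testBit`) to exclude triangles.  Symmetries which may be used to
shorten the work: `t → t⁻¹` (exchange `A, B`), exchange of `p, p'`.
-/

namespace Pool.Agent.H33.TO

variable {K : Type*} [Field K]

theorem eok9 (h : Nat.card K = 9) (i : K) (hi : i * i = -1) : EOK ed9 (cd9 h i hi) := by
  have h0 := three_eq_zero h
  have hinj : ∀ a < 9, ∀ b < 9, (cd9 h i hi).ph a = (cd9 h i hi).ph b → a = b := by
    intro a ha b hb hab
    by_contra hne
    have h1 : (cd9 h i hi).ph (ad9 a (mu9 2 b)) = 0 := by
      have e1 : (cd9 h i hi).ph (ad9 a (mu9 2 b)) = (cd9 h i hi).ph a +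
        (cd9 h i hi).ph (mu9 2 b) := (cd9 h i hi).had _ _
      have e2 : (cd9 h i hi).ph (mu9 2 b) = (cd9 h i hi).ph 2 * (cd9 h i hi).ph b :=
        (cd9 h i hi).hmu _ _
      have e3 : (cd9 h i hi).ph 2 = -1 := (cd9 h i hi).hm1
      rw [e1, e2, e3, hab]; ring
    refine (cd9 h i hi).ne0 a (mu9 2 b) ?_ h1
    intro h2
    apply hne
    have h3 : ad9 a (mu9 2 b) = 0 := h2
    have key : ∀ a < 9, ∀ b < 9, ad9 a (mu9 2 b) = 0 → a = b := by decide +kernel
    exact key a ha b hb h3
  have hnat : ∀ n < 3, ((n : ℕ) : K) = (cd9 h i hi).ph n := by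
    intro n hn
    show (n : K) = (n : K) + ((n / 3 : ℕ) : K) * i
    rw [Nat.div_eq_of_lt hn]; simp
  have hsq : ∀ r a, ca9.mu r r = a → IsSquare ((cd9 h i hi).ph a) := fun r a hr =>
    ⟨(cd9 h i hi).ph r, by rw [← hr]; exact (cd9 h i hi).hmu r r⟩
  have hmul : ∀ a b, (cd9 h i hi).ph a * (cd9 h i hi).ph b = (cd9 h i hi).ph (ca9.mu a b) :=
    fun a b => ((cd9 h i hi).hmu a b).symm
  refine
    { hc := rfl
      adq := fun a b => ?_
      muq := fun a b => ?_
      inj := hinj
      surj := cd9_surj h i hi
      inv := fun t ht h1 => ?_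
      hm2 := ?_
      one := by decide
      sqs := fun t ht => ?_
      wit := fun w hw => ?_
      wi3 := fun w hw => ?_
      sg := fun s hs t ht H => ?_
      kp := fun t ht H => ?_ }
  · show ad9 a b < 9
    simp only [ad9]; omega
  · show mu9 a b < 9
    simp only [mu9]; omega
  · have key : ∀ t < 9, t ≠ 0 → ca9.mu t (ed9.inv t) = 1 := by decide +kernel
    refine eq_inv_of_mul_eq_one_right ?_
    rw [hmul, key t ht h1]
    exact (cd9 h i hi).h1
  · show (cd9 h i hi).ph 1 = -2
    rw [← hnat 1 (by norm_num)]
    push_cast at h0 ⊢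
    linear_combination h0
  · have ht' : t = 2 ∨ t = 3 := by simpa [ed9] using ht
    rcases ht' with rfl | rfl
    · exact ⟨by decide, by decide, hsq 3 _ rfl⟩
    · exact ⟨by decide, by decide, hsq 5 _ rfl⟩
  · have hw' : w = (4, 4) ∨ w = (3, 3) ∨ w = (4, 7) ∨ w = (2, 2) := by simpa [ed9] using hw
    rcases hw' with rfl | rfl | rfl | rfl
    · exact ⟨⟨by decide, by decide⟩, ⟨by decide, by decide⟩, by rw [hmul]; exact hsq 4 _ rfl⟩
    · exact ⟨⟨by decide, by decide⟩, ⟨by decide, by decide⟩, by rw [hmul]; exact hsq 3 _ rfl⟩
    · exact ⟨⟨by decide, by decide⟩, ⟨by decide, by decide⟩, by rw [hmul]; exact hsq 3 _ rfl⟩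
    · exact ⟨⟨by decide, by decide⟩, ⟨by decide, by decide⟩, by rw [hmul]; exact hsq 1 _ rfl⟩
  · have hw' : w = (2, 4, 4) := by simpa [ed9] using hw
    subst hw'
    exact ⟨⟨by decide, by decide⟩, ⟨by decide, by decide⟩, ⟨by decide, by decide⟩, by
      rw [hmul, hmul]; exact hsq 5 _ rfl⟩
  · rcases H with ⟨hq, H⟩ | ⟨hq, H⟩ | ⟨hq, H⟩
    · exact absurd hq (by decide)
    · exact absurd hq (by decide)
    · have e : ∀ (x n : ℕ), x < 9 → n < 3 → (cd9 h i hi).ph x = (n : K) → x = n :=
        fun x n hx hn hxn => hinj x hx n (by omega) (by rw [hxn, hnat n hn])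
      rcases H with ⟨H1, H2⟩ | ⟨H1, H2⟩ | ⟨H1, H2⟩ | ⟨H1, H2⟩
      · rw [e s 1 hs (by norm_num) (by rw [H1]; norm_num), e t 1 ht (by norm_num) (by rw [H2]; norm_num)]
        simp [ed9]
      · rw [e s 1 hs (by norm_num) (by rw [H1]; norm_num), e t 2 ht (by norm_num) (by rw [H2]; norm_num)]
        simp [ed9]
      · rw [e s 2 hs (by norm_num) (by rw [H1]; norm_num), e t 1 ht (by norm_num) (by rw [H2]; norm_num)]
        simp [ed9]
      · rw [e s 2 hs (by norm_num) (by rw [H1]; norm_num), e t 2 ht (by norm_num) (by rw [H2]; norm_num)]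
        simp [ed9]
  · rcases H with ⟨hq, H⟩ | ⟨hq, H⟩ | ⟨hq, H⟩
    · exact absurd hq (by decide)
    · exact absurd hq (by decide)
    · have e : ∀ (x n : ℕ), x < 9 → n < 3 → (cd9 h i hi).ph x = (n : K) → x = n :=
        fun x n hx hn hxn => hinj x hx n (by omega) (by rw [hxn, hnat n hn])
      rw [e t 2 ht (by norm_num) (by rw [H]; norm_num)]
      simp [ed9]

theorem enum9 (h : Nat.card K = 9) (p p' A B : Fin 3 → K) (hAB : ∀ i, A i * B i = p i * p' i)
    (ht : Tri 9 p p' A B) : TriC p p' A B := by
  obtain ⟨i, hi⟩ := exists_i h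
  refine (eok9 h i hi).sound (fun a ha => ?_) (fun j hj => ed9_k2 j hj) (fun j hj => ?_)
    p p' A B hAB ht
  · have := ed9_k1
    rw [List.all_eq_true] at this
    exact this a (List.mem_range.2 ha)
  · have := ed9_k3
    rw [List.all_eq_true] at this
    exact this j (List.mem_range.2 hj)

end Pool.Agent.H33.TO
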