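import Pool.Agent.H33.TO.Enum7
import Pool.Agent.H33.TO.Enum9
import Pool.Agent.H33.TO.Enum11

/-!
# JOB TO-22: from triples of indices to all indices

Let `i, j, k` be different indices (`3 ≤ l`).  For `t : Fin 3 → K` nonzero with square product
let `τ_i = t 0`, `τ_j = t 1`, `τ_k = t 2` and `τ = 1` at the other indices.  `nu 1 = 0`,
`1 - 1 = 0`, `1⁻¹ - 1 = 0`, so the sums over all indices reduce to the sums over `i, j, k`, and the
hypothesis says `Tri q` for the restricted data (`![p i, p j, p k]` etc.).  `enum7`, `enum9`,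
`enum11` give `TriC` for all triples of different indices.  Every index and every pair of
indices lies in such a triple, this gives the first two claims; for the third: if `p i ≠ 0` and
`p' j ≠ 0`, take a triple containing `i` and `j`.
-/

namespace Pool.Agent.H33.TO

variable {l : ℕ} {K : Type*} [Field K]

theorem enumAll_tri {q : ℕ} (e : Fin 3 → Fin l) (he : Function.Injective e) (p p' A B : Fin l → K)
    (h : ∀ τ : Fin l → Kˣ, IsSquare (∏ i, τ i) →
      Alw q (∑ i, p i * nu (τ i : K))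
        (1 + ∑ i, (A i * ((τ i : K) - 1) + B i * ((τ i : K)⁻¹ - 1)))
        (1 + ∑ i, (A i * ((τ i : K)⁻¹ - 1) + B i * ((τ i : K) - 1)))
        (∑ i, p' i * nu (τ i : K))) :
    Tri q (fun m => p (e m)) (fun m => p' (e m)) (fun m => A (e m)) (fun m => B (e m)) := by
  intro t ht hsq
  let τ : Fin l → Kˣ := Function.extend e (fun m => Units.mk0 (t m) (ht m)) 1
  have h1 : ∀ m, (τ (e m) : K) = t m := fun m => by
    show ((Function.extend e (fun m => Units.mk0 (t m) (ht m)) 1 (e m) : Kˣ) : K) = t m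
    rw [he.extend_apply]
    rfl
  have h2 : ∀ x, x ∉ Set.range e → τ x = 1 := fun x hx => by
    show Function.extend e (fun m => Units.mk0 (t m) (ht m)) 1 x = 1
    rw [Function.extend_apply' _ _ _ (fun ⟨a, ha⟩ => hx ⟨a, ha⟩)]
    rfl
  have hnu : nu (1 : K) = 0 := by
    rw [nu, inv_one]
    ring
  have hsq' : IsSquare (∏ i, τ i) := by
    have h3 : ∏ m, Units.mk0 (t m) (ht m) = ∏ i, τ i := by
      refine Fintype.prod_of_injective e he _ _ (fun x hx => h2 x hx) (fun m => ?_)
      apply Units.ext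
      rw [h1 m]
      rfl
    rw [← h3]
    obtain ⟨a, ha⟩ := hsq
    have ha0 : a ≠ 0 := by
      intro h0
      rw [h0, mul_zero] at ha
      exact mul_ne_zero (mul_ne_zero (ht 0) (ht 1)) (ht 2) ha
    refine ⟨Units.mk0 a ha0, ?_⟩
    apply Units.ext
    rw [Fin.prod_univ_three]
    show t 0 * t 1 * t 2 = a * a
    exact ha
  have h4 := h τ hsq'
  have s1 : ∀ P : Fin l → K, ∑ m, P (e m) * nu (t m) = ∑ i, P i * nu (τ i : K) := fun P =>
    Fintype.sum_of_injective e he _ _ (fun x hx => by rw [h2 x hx, Units.val_one, hnu, mul_zero])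
      (fun m => by rw [h1 m])
  have s2 : ∀ P R : Fin l → K, ∑ m, (P (e m) * (t m - 1) + R (e m) * ((t m)⁻¹ - 1)) =
      ∑ i, (P i * ((τ i : K) - 1) + R i * ((τ i : K)⁻¹ - 1)) := fun P R =>
    Fintype.sum_of_injective e he _ _ (fun x hx => by
      rw [h2 x hx, Units.val_one, inv_one, sub_self, mul_zero, mul_zero, add_zero])
      (fun m => by rw [h1 m])
  have s3 : ∀ P R : Fin l → K, ∑ m, (P (e m) * ((t m)⁻¹ - 1) + R (e m) * (t m - 1)) =
      ∑ i, (P i * ((τ i : K)⁻¹ - 1) + R i * ((τ i : K) - 1)) := fun P R =>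
    Fintype.sum_of_injective e he _ _ (fun x hx => by
      rw [h2 x hx, Units.val_one, inv_one, sub_self, mul_zero, mul_zero, add_zero])
      (fun m => by rw [h1 m])
  show Alw q (∑ m, p (e m) * nu (t m)) (1 + ∑ m, (A (e m) * (t m - 1) + B (e m) * ((t m)⁻¹ - 1)))
    (1 + ∑ m, (A (e m) * ((t m)⁻¹ - 1) + B (e m) * (t m - 1))) (∑ m, p' (e m) * nu (t m))
  rw [s1 p, s1 p', s2 A B, s3 A B]
  exact h4

theorem enumAll_triC {q : ℕ} (hq : QK q K) (p p' A B : Fin 3 → K) (hAB : ∀ i, A i * B i = p i * p' i)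
    (ht : Tri q p p' A B) : TriC p p' A B := by
  obtain ⟨hc, rfl | rfl | rfl⟩ := hq
  · exact enum7 hc p p' A B hAB ht
  · exact enum9 hc p p' A B hAB ht
  · exact enum11 hc p p' A B hAB ht

theorem enumAll_ex (hl : 3 ≤ l) (i j : Fin l) (hij : i ≠ j) :
    ∃ e : Fin 3 → Fin l, Function.Injective e ∧ e 0 = i ∧ e 1 = j := by
  obtain ⟨k, hk⟩ : ∃ k : Fin l, k ≠ i ∧ k ≠ j := by
    have h1 : (({i, j} : Finset (Fin l))).card < (Finset.univ : Finset (Fin l)).card := by
      rw [Finset.card_univ, Fintype.card_fin]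
      exact lt_of_le_of_lt Finset.card_le_two (by omega)
    obtain ⟨k, _, hk⟩ := Finset.exists_mem_notMem_of_card_lt_card h1
    rw [Finset.mem_insert, Finset.mem_singleton, not_or] at hk
    exact ⟨k, hk⟩
  refine ⟨![i, j, k], ?_, rfl, rfl⟩
  intro a b hab
  fin_cases a <;> fin_cases b <;> first
    | rfl
    | exact absurd hab hij
    | exact absurd hab hij.symm
    | exact absurd hab hk.1
    | exact absurd hab hk.1.symm
    | exact absurd hab hk.2
    | exact absurd hab hk.2.symm

theorem enum_all {q : ℕ} (hq : QK q K) (hl : 3 ≤ l) (p p' A B : Fin l → K)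
    (hAB : ∀ i, A i * B i = p i * p' i)
    (h : ∀ τ : Fin l → Kˣ, IsSquare (∏ i, τ i) →
      Alw q (∑ i, p i * nu (τ i : K))
        (1 + ∑ i, (A i * ((τ i : K) - 1) + B i * ((τ i : K)⁻¹ - 1)))
        (1 + ∑ i, (A i * ((τ i : K)⁻¹ - 1) + B i * ((τ i : K) - 1)))
        (∑ i, p' i * nu (τ i : K))) :
    (∀ i, Loc (A i) (B i)) ∧ (∀ i j, i ≠ j → (A i = 0 ∧ B i = 0) ∨ (A j = 0 ∧ B j = 0)) ∧
      ((∀ i, p i = 0) ∨ ∀ i, p' i = 0) := by
  have key : ∀ e : Fin 3 → Fin l, Function.Injective e →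
      TriC (fun m => p (e m)) (fun m => p' (e m)) (fun m => A (e m)) (fun m => B (e m)) :=
    fun e he => enumAll_triC hq _ _ _ _ (fun m => hAB (e m)) (enumAll_tri e he p p' A B h)
  have hex : ∀ i : Fin l, ∃ j : Fin l, i ≠ j := by
    intro i
    have h1 : (({i} : Finset (Fin l))).card < (Finset.univ : Finset (Fin l)).card := by
      rw [Finset.card_univ, Fintype.card_fin, Finset.card_singleton]
      omega
    obtain ⟨k, _, hk⟩ := Finset.exists_mem_notMem_of_card_lt_card h1
    rw [Finset.mem_singleton] at hk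
    exact ⟨k, fun h => hk h.symm⟩
  refine ⟨fun i => ?_, fun i j hij => ?_, ?_⟩
  · obtain ⟨j, hij⟩ := hex i
    obtain ⟨e, he, h0, h1⟩ := enumAll_ex hl i j hij
    have h2 := (key e he).1 0
    beta_reduce at h2
    rwa [h0] at h2
  · obtain ⟨e, he, h0, h1⟩ := enumAll_ex hl i j hij
    have h2 := (key e he).2.1 0 1 (by decide)
    beta_reduce at h2
    rwa [h0, h1] at h2
  · by_contra hcon
    rw [not_or, not_forall, not_forall] at hcon
    obtain ⟨⟨i, hi⟩, ⟨j, hj⟩⟩ := hcon
    by_cases hij : i = j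
    · obtain ⟨j', hij'⟩ := hex i
      obtain ⟨e, he, h0, h1⟩ := enumAll_ex hl i j' hij'
      rcases (key e he).2.2 with h2 | h2
      · have h3 := h2 0
        beta_reduce at h3
        rw [h0] at h3
        exact hi h3
      · have h3 := h2 0
        beta_reduce at h3
        rw [h0, hij] at h3
        exact hj h3
    · obtain ⟨e, he, h0, h1⟩ := enumAll_ex hl i j hij
      rcases (key e he).2.2 with h2 | h2
      · have h3 := h2 0
        beta_reduce at h3
        rw [h0] at h3
        exact hi h3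
      · have h3 := h2 1
        beta_reduce at h3
        rw [h1] at h3
        exact hj h3

end Pool.Agent.H33.TO
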