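import Pool.Agent.H33.TO.EnumDef

/-!
# Enumeration on codes: definitions of the checks
-/

namespace Pool.Agent.H33.TO

/-- data for the enumeration -/
structure ED where
  c : CA
  q : ℕ
  m2 : ℕ
  iv : List ℕ
  sqs : List ℕ
  wit : List (ℕ × ℕ)
  wi3 : List (ℕ × ℕ × ℕ)
  sg : List (ℕ × ℕ)
  kp : List ℕ
  s1 : List (ℕ × ℕ × ℕ × ℕ)
  adj : List ℕ

namespace ED

variable (E : ED)

def inv (t : ℕ) : ℕ := E.iv.getD t 0

def nu (t : ℕ) : ℕ := E.c.ad (E.c.ad t (E.inv t)) E.m2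

def um (t : ℕ) : ℕ := E.c.ad t E.c.m1

def vm (t : ℕ) : ℕ := E.c.ad (E.inv t) E.c.m1

/-- contributions of a datum `(p, p', A, B)` -/
def c1 (x : ℕ × ℕ × ℕ × ℕ) (t : ℕ) : ℕ := E.c.mu x.1 (E.nu t)

def c2 (x : ℕ × ℕ × ℕ × ℕ) (t : ℕ) : ℕ :=
  E.c.ad (E.c.mu x.2.2.1 (E.um t)) (E.c.mu x.2.2.2 (E.vm t))

def c3 (x : ℕ × ℕ × ℕ × ℕ) (t : ℕ) : ℕ :=
  E.c.ad (E.c.mu x.2.2.1 (E.vm t)) (E.c.mu x.2.2.2 (E.um t))

def c4 (x : ℕ × ℕ × ℕ × ℕ) (t : ℕ) : ℕ := E.c.mu x.2.1 (E.nu t)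

/-- `Alw` on codes -/
def alw (a b c d : ℕ) : Bool :=
  if a == 0 then
    (b == 0 || c == 0 || E.c.mu b c == 1 || (d == 0 && E.kp.contains (E.c.mu b c)))
  else if d == 0 then (b == 0 || c == 0 || E.c.mu b c == 1)
  else if b == 0 then (E.c.mu a d == 1 || (c == 0 && E.kp.contains (E.c.mu a d)))
  else if c == 0 then E.c.mu a d == 1
  else E.sg.contains (E.c.mu a d, E.c.mu b c)

def e1 (x : ℕ × ℕ × ℕ × ℕ) (t : ℕ) : Bool :=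
  E.alw (E.c1 x t) (E.c.ad 1 (E.c2 x t)) (E.c.ad 1 (E.c3 x t)) (E.c4 x t)

def e2 (x y : ℕ × ℕ × ℕ × ℕ) (t s : ℕ) : Bool :=
  E.alw (E.c.ad (E.c1 x t) (E.c1 y s)) (E.c.ad (E.c.ad 1 (E.c2 x t)) (E.c2 y s))
    (E.c.ad (E.c.ad 1 (E.c3 x t)) (E.c3 y s)) (E.c.ad (E.c4 x t) (E.c4 y s))

def e3 (x y z : ℕ × ℕ × ℕ × ℕ) (t s r : ℕ) : Bool :=
  E.alw (E.c.ad (E.c.ad (E.c1 x t) (E.c1 y s)) (E.c1 z r))
    (E.c.ad (E.c.ad (E.c.ad 1 (E.c2 x t)) (E.c2 y s)) (E.c2 z r))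
    (E.c.ad (E.c.ad (E.c.ad 1 (E.c3 x t)) (E.c3 y s)) (E.c3 z r))
    (E.c.ad (E.c.ad (E.c4 x t) (E.c4 y s)) (E.c4 z r))

/-- trivial datum -/
def tv (x : ℕ × ℕ × ℕ × ℕ) : Bool :=
  (x.2.2.1 == 0 && (x.2.2.2 == 0 || x.2.2.2 == 1)) || (x.2.2.2 == 0 && x.2.2.1 == 1)

/-- zero datum -/
def zr (x : ℕ × ℕ × ℕ × ℕ) : Bool := x.2.2.1 == 0 && x.2.2.2 == 0

def good (x y : ℕ × ℕ × ℕ × ℕ) : Bool :=
  tv x && tv y && (zr x || zr y) && ((x.1 == 0 && y.1 == 0) || (x.2.1 == 0 && y.2.1 == 0))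

/-- the data at index `i` -/
def gt (i : ℕ) : ℕ × ℕ × ℕ × ℕ := E.s1.getD i (0, 0, 0, 0)

/-- first check, for fixed `A` -/
def k1 (A : ℕ) : Bool :=
  (List.range E.q).all fun B => (List.range E.q).all fun p => (List.range E.q).all fun p' =>
    (E.c.mu A B != E.c.mu p p') || E.s1.contains (p, p', A, B) ||
      E.sqs.any fun t => !E.e1 (p, p', A, B) t

/-- second check, for fixed `i` -/
def k2 (i : ℕ) : Bool :=
  (List.range E.s1.length).all fun j => good (E.gt i) (E.gt j) ||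
    Nat.testBit (E.adj.getD i 0) j || E.wit.any fun w => !E.e2 (E.gt i) (E.gt j) w.1 w.2

/-- third check, for fixed `i` -/
def k3 (i : ℕ) : Bool :=
  (E.adj.getD i 0 == 0 || !tv (E.gt i)) &&
  (List.range E.s1.length).all fun j => !Nat.testBit (E.adj.getD i 0) j ||
    (Nat.land (E.adj.getD i 0) (E.adj.getD j 0) == 0) ||
    (List.range E.s1.length).all fun k =>
      !Nat.testBit (Nat.land (E.adj.getD i 0) (E.adj.getD j 0)) k ||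
        E.wi3.any fun w => !E.e3 (E.gt i) (E.gt j) (E.gt k) w.1 w.2.1 w.2.2

end ED

end Pool.Agent.H33.TO
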