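import Pool.Agent.H33.TO.Codes

/-!
# Enumeration: definitions
-/

namespace Pool.Agent.H33.TO

variable {K : Type*} [Field K]

/-- `ν(t) = t + t⁻¹ - 2` -/
def nu (t : K) : K := t + t⁻¹ - 2

/-- the conclusion about the local data at one index -/
def Loc (A B : K) : Prop := (A = 0 ∧ B = 0) ∨ (A = 1 ∧ B = 0) ∨ (A = 0 ∧ B = 1)

/-- triples of local data: the relative positions for all torus elements with square product
are in the list `Alw` -/
def Tri (q : ℕ) (p p' A B : Fin 3 → K) : Prop :=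
  ∀ t : Fin 3 → K, (∀ i, t i ≠ 0) → IsSquare (t 0 * t 1 * t 2) →
    Alw q (∑ i, p i * nu (t i))
      (1 + ∑ i, (A i * (t i - 1) + B i * ((t i)⁻¹ - 1)))
      (1 + ∑ i, (A i * ((t i)⁻¹ - 1) + B i * (t i - 1)))
      (∑ i, p' i * nu (t i))

/-- the conclusion about a triple -/
def TriC (p p' A B : Fin 3 → K) : Prop :=
  (∀ i, Loc (A i) (B i)) ∧ (∀ i j, i ≠ j → (A i = 0 ∧ B i = 0) ∨ (A j = 0 ∧ B j = 0)) ∧
    ((∀ i, p i = 0) ∨ ∀ i, p' i = 0)

end Pool.Agent.H33.TO
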