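import Pool.Agent.H33.TO.EnumChk

/-!
# Enumeration: soundness of the checks
-/

namespace Pool.Agent.H33.TO

variable {K : Type*} [Field K]

/-- compatibility of the enumeration data with a coded field -/
structure EOK (E : ED) (c : CD K) : Prop where
  hc : c.toCA = E.c
  adq : ∀ a b, E.c.ad a b < E.q
  muq : ∀ a b, E.c.mu a b < E.q
  inj : ∀ a < E.q, ∀ b < E.q, c.ph a = c.ph b → a = b
  surj : ∀ x : K, ∃ n < E.q, c.ph n = x
  inv : ∀ t < E.q, t ≠ 0 → c.ph (E.inv t) = (c.ph t)⁻¹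
  hm2 : c.ph E.m2 = -2
  one : 1 < E.q
  sqs : ∀ t ∈ E.sqs, t ≠ 0 ∧ t < E.q ∧ IsSquare (c.ph t)
  wit : ∀ w ∈ E.wit, (w.1 ≠ 0 ∧ w.1 < E.q) ∧ (w.2 ≠ 0 ∧ w.2 < E.q) ∧
    IsSquare (c.ph w.1 * c.ph w.2)
  wi3 : ∀ w ∈ E.wi3, (w.1 ≠ 0 ∧ w.1 < E.q) ∧ (w.2.1 ≠ 0 ∧ w.2.1 < E.q) ∧
    (w.2.2 ≠ 0 ∧ w.2.2 < E.q) ∧ IsSquare (c.ph w.1 * c.ph w.2.1 * c.ph w.2.2)
  sg : ∀ s < E.q, ∀ t < E.q, sigOK E.q (c.ph s) (c.ph t) → (s, t) ∈ E.sg
  kp : ∀ t < E.q, kapOK E.q (c.ph t) → t ∈ E.kp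

namespace EOK

variable {E : ED} {c : CD K} (h : EOK E c)

include h

theorem had (a b : ℕ) : c.ph (E.c.ad a b) = c.ph a + c.ph b := by
  rw [← h.hc]; exact c.had a b

theorem hmu (a b : ℕ) : c.ph (E.c.mu a b) = c.ph a * c.ph b := by
  rw [← h.hc]; exact c.hmu a b

theorem hm1 : c.ph E.c.m1 = -1 := by
  rw [← h.hc]; exact c.hm1

theorem ph0 {a : ℕ} (ha : a < E.q) : c.ph a = 0 ↔ a = 0 := by
  constructor
  · intro h0
    exact h.inj a ha 0 (by have := h.one; omega) (by rw [h0, c.h0])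
  · rintro rfl; exact c.h0

theorem ph1 {a : ℕ} (ha : a < E.q) : c.ph a = 1 ↔ a = 1 := by
  constructor
  · intro h0
    exact h.inj a ha 1 h.one (by rw [h0, c.h1])
  · rintro rfl; exact c.h1

theorem alw_of {a b c' d : ℕ} (ha : a < E.q) (hb : b < E.q) (hc' : c' < E.q) (hd : d < E.q)
    (H : Alw E.q (c.ph a) (c.ph b) (c.ph c') (c.ph d)) : E.alw a b c' d = true := by
  have z := fun {x : ℕ} (hx : x < E.q) => h.ph0 hx
  have m1 : ∀ x y, (c.ph x * c.ph y = 1) ↔ E.c.mu x y = 1 := fun x y => by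
    rw [← h.hmu, h.ph1 (h.muq _ _)]
  have k1 : ∀ x y, kapOK E.q (c.ph x * c.ph y) → E.c.mu x y ∈ E.kp := fun x y hk => by
    rw [← h.hmu] at hk
    exact h.kp _ (h.muq _ _) hk
  have s1 : ∀ x y u v, sigOK E.q (c.ph x * c.ph y) (c.ph u * c.ph v) →
      (E.c.mu x y, E.c.mu u v) ∈ E.sg := fun x y u v hk => by
    rw [← h.hmu, ← h.hmu] at hk
    exact h.sg _ (h.muq _ _) _ (h.muq _ _) hk
  simp only [Alw, m1, z ha, z hb, z hc', z hd, ne_eq] at H
  have k2 := k1 b c'
  have k3 := k1 a d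
  have s2 := s1 a d b c'
  unfold ED.alw
  by_cases ea : a = 0 <;> by_cases eb : b = 0 <;> by_cases ec : c' = 0 <;>
    by_cases ed : d = 0 <;> simp_all
  · exact H.imp id (k1 _ _)
  · exact H.imp id (k1 _ _)

theorem ph_nu {t : ℕ} (ht : t < E.q) (h0 : t ≠ 0) : c.ph (E.nu t) = nu (c.ph t) := by
  rw [ED.nu, h.had, h.had, h.inv t ht h0, h.hm2, nu]; ring

theorem ph_um (t : ℕ) : c.ph (E.um t) = c.ph t - 1 := by
  rw [ED.um, h.had, h.hm1]; ring

theorem ph_vm {t : ℕ} (ht : t < E.q) (h0 : t ≠ 0) : c.ph (E.vm t) = (c.ph t)⁻¹ - 1 := by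
  rw [ED.vm, h.had, h.hm1, h.inv t ht h0]; ring

end EOK

theorem nu_one : nu (1 : K) = 0 := by simp [nu]; norm_num

theorem EOK.sound {E : ED} {c : CD K} (h : EOK E c)
    (K1 : ∀ A < E.q, E.k1 A = true) (K2 : ∀ i < E.s1.length, E.k2 i = true)
    (K3 : ∀ i < E.s1.length, E.k3 i = true) (p p' A B : Fin 3 → K)
    (hAB : ∀ i, A i * B i = p i * p' i) (ht : Tri E.q p p' A B) : TriC p p' A B := by
  choose P hP hP' using fun i => h.surj (p i)
  choose P' hQ hQ' using fun i => h.surj (p' i)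
  choose A' hA hA' using fun i => h.surj (A i)
  choose B' hB hB' using fun i => h.surj (B i)
  set x : Fin 3 → ℕ × ℕ × ℕ × ℕ := fun i => (P i, P' i, A' i, B' i) with hx
  have ph1 : ∀ i t, t < E.q → t ≠ 0 → c.ph (E.c1 (x i) t) = p i * nu (c.ph t) := by
    intro i t ht h0
    rw [ED.c1, h.hmu, h.ph_nu ht h0]
    show c.ph (P i) * _ = _
    rw [hP']
  have ph4 : ∀ i t, t < E.q → t ≠ 0 → c.ph (E.c4 (x i) t) = p' i * nu (c.ph t) := by
    intro i t ht h0
    rw [ED.c4, h.hmu, h.ph_nu ht h0]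
    show c.ph (P' i) * _ = _
    rw [hQ']
  have ph2 : ∀ i t, t < E.q → t ≠ 0 → c.ph (E.c2 (x i) t) =
      A i * (c.ph t - 1) + B i * ((c.ph t)⁻¹ - 1) := by
    intro i t ht h0
    rw [ED.c2, h.had, h.hmu, h.hmu, h.ph_um, h.ph_vm ht h0]
    show c.ph (A' i) * _ + c.ph (B' i) * _ = _
    rw [hA', hB']
  have ph3 : ∀ i t, t < E.q → t ≠ 0 → c.ph (E.c3 (x i) t) =
      A i * ((c.ph t)⁻¹ - 1) + B i * (c.ph t - 1) := by
    intro i t ht h0
    rw [ED.c3, h.had, h.hmu, h.hmu, h.ph_um, h.ph_vm ht h0]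
    show c.ph (A' i) * _ + c.ph (B' i) * _ = _
    rw [hA', hB']
  have ne0 : ∀ t, t < E.q → t ≠ 0 → c.ph t ≠ 0 := fun t ht h0 h1 => h0 ((h.ph0 ht).1 h1)
  -- one index
  have E1 : ∀ i, ∀ t ∈ E.sqs, E.e1 (x i) t = true := by
    intro i t htm
    obtain ⟨t0, tq, tsq⟩ := h.sqs t htm
    apply h.alw_of (a := E.c1 (x i) t) (d := E.c4 (x i) t) (h.muq _ _) (h.adq _ _) (h.adq _ _)
      (h.muq _ _)
    have := ht (fun m => if m = i then c.ph t else 1) (fun m => by
      split_ifs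
      · exact ne0 t tq t0
      · exact one_ne_zero) (by
        fin_cases i <;> simpa using tsq)
    rw [ph1 i t tq t0, ph4 i t tq t0, h.had, h.had, ph2 i t tq t0, ph3 i t tq t0, c.h1]
    convert this using 1 <;> fin_cases i <;> simp [Fin.sum_univ_three, nu_one]
  have E2 : ∀ i j, i ≠ j → ∀ w ∈ E.wit, E.e2 (x i) (x j) w.1 w.2 = true := by
    intro i j hij w hw
    obtain ⟨⟨t0, tq⟩, ⟨s0, sq⟩, wsq⟩ := h.wit w hw
    apply h.alw_of (h.adq _ _) (h.adq _ _) (h.adq _ _) (h.adq _ _)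
    have := ht (fun m => if m = i then c.ph w.1 else if m = j then c.ph w.2 else 1)
      (fun m => by
        split_ifs
        · exact ne0 _ tq t0
        · exact ne0 _ sq s0
        · exact one_ne_zero) (by
        fin_cases i <;> fin_cases j <;> first
          | exact absurd rfl hij
          | simpa [mul_comm] using wsq
          | simpa using wsq)
    simp only [h.had, ph1 i _ tq t0, ph4 i _ tq t0, ph2 i _ tq t0, ph3 i _ tq t0,
      ph1 j _ sq s0, ph4 j _ sq s0, ph2 j _ sq s0, ph3 j _ sq s0, c.h1]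
    convert this using 1 <;> fin_cases i <;> fin_cases j <;> first
      | exact absurd rfl hij
      | (simp [Fin.sum_univ_three, nu_one]; try ring)
  have E3 : ∀ w ∈ E.wi3, E.e3 (x 0) (x 1) (x 2) w.1 w.2.1 w.2.2 = true := by
    intro w hw
    obtain ⟨⟨t0, tq⟩, ⟨s0, sq⟩, ⟨r0, rq⟩, wsq⟩ := h.wi3 w hw
    apply h.alw_of (h.adq _ _) (h.adq _ _) (h.adq _ _) (h.adq _ _)
    have := ht ![c.ph w.1, c.ph w.2.1, c.ph w.2.2] (fun m => by
        fin_cases m
        · exact ne0 _ tq t0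
        · exact ne0 _ sq s0
        · exact ne0 _ rq r0) (by simpa using wsq)
    simp only [h.had, ph1 0 _ tq t0, ph4 0 _ tq t0, ph2 0 _ tq t0, ph3 0 _ tq t0,
      ph1 1 _ sq s0, ph4 1 _ sq s0, ph2 1 _ sq s0, ph3 1 _ sq s0,
      ph1 2 _ rq r0, ph4 2 _ rq r0, ph2 2 _ rq r0, ph3 2 _ rq r0, c.h1]
    convert this using 1 <;> simp [Fin.sum_univ_three] <;> ring
  -- membership in `s1`
  have M : ∀ i, ∃ n < E.s1.length, E.gt n = x i := by
    intro i
    have k := K1 (A' i) (hA i)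
    rw [ED.k1, List.all_eq_true] at k
    have k2 := k (B' i) (List.mem_range.2 (hB i))
    rw [List.all_eq_true] at k2
    have k3 := k2 (P i) (List.mem_range.2 (hP i))
    rw [List.all_eq_true] at k3
    have k4 := k3 (P' i) (List.mem_range.2 (hQ i))
    have e : E.c.mu (A' i) (B' i) = E.c.mu (P i) (P' i) := by
      apply h.inj _ (h.muq _ _) _ (h.muq _ _)
      rw [h.hmu, h.hmu, hA', hB', hP', hQ', hAB]
    rw [e] at k4
    simp only [bne_self_eq_false, Bool.false_or, Bool.or_eq_true, List.contains_iff_mem,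
      List.any_eq_true, Bool.not_eq_true'] at k4
    rcases k4 with k4 | ⟨t, ht1, ht2⟩
    · obtain ⟨n, hn, hn'⟩ := List.getElem_of_mem k4
      exact ⟨n, hn, by rw [ED.gt, List.getD_eq_getElem _ _ hn, hn']⟩
    · have := E1 i t ht1
      rw [hx] at this
      simp only at this
      rw [this] at ht2
      exact absurd ht2 (by decide)
  choose n hn hn' using M
  have G : ∀ i j, i ≠ j → ED.good (x i) (x j) = true ∨
      Nat.testBit (E.adj.getD (n i) 0) (n j) = true := by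
    intro i j hij
    have k := K2 (n i) (hn i)
    rw [ED.k2, List.all_eq_true] at k
    have k2 := k (n j) (List.mem_range.2 (hn j))
    rw [hn', hn'] at k2
    simp only [Bool.or_eq_true, List.any_eq_true, Bool.not_eq_true'] at k2
    rcases k2 with (k2 | k2) | ⟨w, hw1, hw2⟩
    · exact Or.inl k2
    · exact Or.inr k2
    · have := E2 i j hij w hw1
      rw [this] at hw2
      exact absurd hw2 (by decide)
  have T3 : ∀ i, (E.adj.getD (n i) 0 = 0 ∨ ED.tv (x i) = false) ∧ ∀ j,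
      Nat.testBit (E.adj.getD (n i) 0) (n j) = false ∨
      Nat.land (E.adj.getD (n i) 0) (E.adj.getD (n j) 0) = 0 ∨ ∀ k < E.s1.length,
        Nat.testBit (Nat.land (E.adj.getD (n i) 0) (E.adj.getD (n j) 0)) k = false ∨
        ∃ w ∈ E.wi3, E.e3 (x i) (x j) (E.gt k) w.1 w.2.1 w.2.2 = false := by
    intro i
    have k := K3 (n i) (hn i)
    rw [ED.k3, hn'] at k
    simp only [Bool.and_eq_true, Bool.or_eq_true, beq_iff_eq, Bool.not_eq_true',
      List.all_eq_true, List.mem_range, List.any_eq_true] at k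
    refine ⟨k.1, fun j => ?_⟩
    have k2 := k.2 (n j) (hn j)
    rw [hn'] at k2
    rcases k2 with (k2 | k2) | k2
    · exact Or.inl k2
    · exact Or.inr (Or.inl k2)
    · exact Or.inr (Or.inr k2)
  have NT : ∀ i j, i ≠ j → Nat.testBit (E.adj.getD (n i) 0) (n j) = true →
      ED.tv (x i) = false := by
    intro i j _ hb
    rcases (T3 i).1 with h0 | h0
    · rw [h0] at hb; simp at hb
    · exact h0
  have notAdj : ∀ i j, i ≠ j → ¬ Nat.testBit (E.adj.getD (n i) 0) (n j) = true := by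
    intro i j hij hb
    have tx := NT i j hij hb
    -- all nontrivial and all adjacent
    have step : ∀ a b, a ≠ b → ED.tv (x a) = false →
        Nat.testBit (E.adj.getD (n a) 0) (n b) = true ∧
        Nat.testBit (E.adj.getD (n b) 0) (n a) = true ∧ ED.tv (x b) = false := by
      intro a b hab ha
      have g1 : ¬ ED.good (x a) (x b) = true := by
        intro hg; simp [ED.good, ha] at hg
      have g2 : ¬ ED.good (x b) (x a) = true := by
        intro hg; simp [ED.good, ha] at hg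
      have a1 := (G a b hab).resolve_left g1
      have a2 := (G b a (Ne.symm hab)).resolve_left g2
      exact ⟨a1, a2, NT b a (Ne.symm hab) a2⟩
    have t0 : ED.tv (x 0) = false := by
      by_cases h0 : i = 0
      · rw [← h0]; exact tx
      · exact (step i 0 h0 tx).2.2
    have a01 := step 0 1 (by decide) t0
    have a02 := step 0 2 (by decide) t0
    have a12 := step 1 2 (by decide) a01.2.2
    rcases (T3 0).2 1 with k | k | k
    · rw [k] at a01; exact absurd a01.1 (by decide)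
    · have : Nat.testBit (Nat.land (E.adj.getD (n 0) 0) (E.adj.getD (n 1) 0)) (n 2) = true := by
        show Nat.testBit (E.adj.getD (n 0) 0 &&& E.adj.getD (n 1) 0) (n 2) = true
        rw [Nat.testBit_and, a02.1, a12.1]; rfl
      rw [k] at this
      simp at this
    · have h2 : Nat.testBit (Nat.land (E.adj.getD (n 0) 0) (E.adj.getD (n 1) 0)) (n 2) =
          true := by
        show Nat.testBit (E.adj.getD (n 0) 0 &&& E.adj.getD (n 1) 0) (n 2) = true
        rw [Nat.testBit_and, a02.1, a12.1]; rfl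
      rcases k (n 2) (hn 2) with k2 | ⟨w, hw, hw2⟩
      · rw [h2] at k2; exact absurd k2 (by decide)
      · rw [hn', E3 w hw] at hw2
        exact absurd hw2 (by decide)
  have GG : ∀ i j, i ≠ j → ED.good (x i) (x j) = true := fun i j hij =>
    (G i j hij).resolve_right (notAdj i j hij)
  have ex : ∀ i : Fin 3, ∃ j, i ≠ j := fun i => by
    fin_cases i
    · exact ⟨1, by decide⟩
    · exact ⟨0, by decide⟩
    · exact ⟨0, by decide⟩
  have z1 : ∀ i, A i = 0 ↔ A' i = 0 := fun i => by rw [← hA', h.ph0 (hA i)]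
  have z2 : ∀ i, B i = 0 ↔ B' i = 0 := fun i => by rw [← hB', h.ph0 (hB i)]
  have z3 : ∀ i, A i = 1 ↔ A' i = 1 := fun i => by rw [← hA', h.ph1 (hA i)]
  have z4 : ∀ i, B i = 1 ↔ B' i = 1 := fun i => by rw [← hB', h.ph1 (hB i)]
  have z5 : ∀ i, p i = 0 ↔ P i = 0 := fun i => by rw [← hP', h.ph0 (hP i)]
  have z6 : ∀ i, p' i = 0 ↔ P' i = 0 := fun i => by rw [← hQ', h.ph0 (hQ i)]
  refine ⟨fun i => ?_, fun i j hij => ?_, ?_⟩
  · obtain ⟨j, hij⟩ := ex i
    have := GG i j hij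
    simp only [ED.good, ED.tv, Bool.and_eq_true, Bool.or_eq_true, beq_iff_eq] at this
    rw [Loc, z1, z2, z3, z4]
    have t := this.1.1.1
    simp only [hx] at t
    tauto
  · have := GG i j hij
    simp only [ED.good, ED.zr, Bool.and_eq_true, Bool.or_eq_true, beq_iff_eq] at this
    rw [z1, z2, z1, z2]
    exact this.1.2
  · by_contra hcon
    push Not at hcon
    obtain ⟨⟨i, hi⟩, ⟨j, hj⟩⟩ := hcon
    rw [ne_eq, z5] at hi
    rw [ne_eq, z6] at hj
    have key : ∀ a b, a ≠ b → ¬ (P a ≠ 0 ∧ P' b ≠ 0) ∧ ¬ (P a ≠ 0 ∧ P' a ≠ 0) := by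
      intro a b hab
      have := GG a b hab
      simp only [ED.good, Bool.and_eq_true, Bool.or_eq_true, beq_iff_eq] at this
      have t := this.2
      simp only [hx] at t
      tauto
    by_cases hij : i = j
    · subst hij
      obtain ⟨m, hm⟩ := ex i
      exact (key i m hm).2 ⟨hi, hj⟩
    · exact (key i j hij).1 ⟨hi, hj⟩

end Pool.Agent.H33.TO
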