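import Pool.Agent.H33.TO.Move

/-!
# JOB TO-27: frames

Assume `hS`.  Every `g ∈ F` is `e * n` with `e ∈ ES F` and `n ∈ F` monomial.

Proof.  Claim: for every finite set `J` of indices `j : Fin l` there is `e ∈ ES F` such that, with
`g' = e⁻¹ g`, for all `j ∈ J` there are `c ≠ none`, `x ≠ 0` with `g' (ev j) = x • ev c` and
`g' (ev (ng j)) = x⁻¹ • ev (ng c)` (`j` stands for `some (j, true)`).
Induction: `J = ∅`: `e = 1`.  Let it hold for `J` with `e`, `j ∉ J`.  `g' ∈ F` (`ES_le`).  Let
`w = g' (ev j)`, `w' = g' (ev (ng j))`; `HP` and `PL F (w, w')` (`pl_ev`, `PL.conj`, isometry).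
`plane_move` gives `e' ∈ ES F`, `c`, `x` with `e' (ev c) = x • w`, `e' (ev (ng c)) = x⁻¹ • w'`.  So
`e'⁻¹ g' (ev j) = x⁻¹ • ev c`, `e'⁻¹ g' (ev (ng j)) = x • ev (ng c)`.  For `j' ∈ J` with
`g' (ev j') = x' • ev c'`, `g' (ev (ng j')) = x'⁻¹ • ev (ng c')`: orthogonality
(`bl (ev j) (ev j') = 0` etc., `g'` isometry) gives `w_{-c'} = 0`, `w_{c'} = 0`, `w'_{±c'} = 0`, so
`e'` fixes `ev c'`, `ev (ng c')`, and `e'⁻¹ g'` has the property for `j'`.  Take `e * e'`.
For `J` everything: `n = e⁻¹ g` maps `ev j` and `ev (ng j)`, for every `j`, to a multiple of a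
basis vector `ev c`, `c ≠ none`.  `n (ev none)`: it is orthogonal to all `n (ev b)`, `b ≠ none`,
i.e. to `ev (π b)` where `π : {b ≠ none} → {c ≠ none}` is injective (`n` injective: if
`π b = π b'` then `n (ev b)` and `n (ev b')` are proportional, so `ev b` and `ev b'` are),
so bijective (finite), so all coordinates of `n (ev none)` except the one at `none` vanish.
-/

namespace Pool.Agent.H33.TO

variable {l : ℕ} {K : Type*} [Field K] {F : Subgroup ((Ix l → K) ≃ₗ[K] (Ix l → K))}

theorem frames_ind {q : ℕ} (hq : QK q K) (hl : 3 ≤ l) (hF : Ctx l K F)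
    (hS : ∀ a b, SS F a b → SS F (ng a) (ng b)) {g : (Ix l → K) ≃ₗ[K] (Ix l → K)}
    (hg : g ∈ F) (J : Finset (Fin l)) : ∃ e ∈ ES F, ∀ j ∈ J, ∃ c : Ix l, ∃ x : K, c ≠ none ∧
      x ≠ 0 ∧ (e⁻¹ * g) (ev (some (j, true))) = x • ev c ∧
      (e⁻¹ * g) (ev (some (j, false))) = x⁻¹ • ev (ng c) := by
  classical
  induction J using Finset.induction_on with
  | empty => exact ⟨1, Subgroup.one_mem _, fun j hj => absurd hj (Finset.notMem_empty j)⟩
  | insert j J hj ih =>
    obtain ⟨e, he, hJ⟩ := ih
    set g' := e⁻¹ * g with hg'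
    have hg'F : g' ∈ F := F.mul_mem (F.inv_mem (ES_le he)) hg
    have hiso := hF.iso g' hg'F
    have hjn : (some (j, true) : Ix l) ≠ none := by simp
    have hng : ng (some (j, true) : Ix l) = some (j, false) := rfl
    have h0 : HP (bl l K) (ev (some (j, true))) (ev (some (j, false))) := by
      have := hp_ev (K := K) hjn
      rwa [hng] at this
    have p0 : PL F (bl l K) (ev (some (j, true))) (ev (some (j, false))) := by
      have := pl_ev hF hjn
      rwa [hng] at this
    have h1 : HP (bl l K) (g' (ev (some (j, true)))) (g' (ev (some (j, false)))) :=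
      ⟨by rw [hiso]; exact h0.1, by rw [hiso]; exact h0.2.1, by rw [hiso]; exact h0.2.2⟩
    obtain ⟨e', he', c, x, hc, hx, -, e1, e2, e3⟩ :=
      plane_move hq hl hF hS h1 (p0.conj hg'F hiso)
    have hinv : ∀ v, e'⁻¹ (e' v) = v := fun v => by
      rw [← LinearEquiv.mul_apply, inv_mul_cancel]; rfl
    refine ⟨e * e', (ES F).mul_mem he he', fun i hi => ?_⟩
    have hmul : (e * e')⁻¹ * g = e'⁻¹ * g' := by rw [hg']; group
    rw [hmul]
    rcases Finset.mem_insert.1 hi with rfl | hi
    · refine ⟨c, x⁻¹, hc, inv_ne_zero hx, ?_, ?_⟩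
      · rw [LinearEquiv.mul_apply]
        have : g' (ev (some (i, true))) = x⁻¹ • e' (ev c) := by
          rw [e1, smul_smul, inv_mul_cancel₀ hx, one_smul]
        rw [this, map_smul, hinv]
      · rw [LinearEquiv.mul_apply]
        have : g' (ev (some (i, false))) = x • e' (ev (ng c)) := by
          rw [e2, smul_smul, mul_inv_cancel₀ hx, one_smul]
        rw [this, map_smul, hinv, inv_inv]
    · have hij : i ≠ j := fun h => hj (h ▸ hi)
      obtain ⟨c', x', hc', hx', f1, f2⟩ := hJ i hi
      have horth : ∀ σ τ : Bool, bl l K (ev (some (i, σ))) (ev (some (j, τ))) = 0 := by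
        intro σ τ
        rw [bl_ev]
        apply ev_ne
        intro h
        simp only [ng, Option.some.injEq, Prod.mk.injEq] at h
        exact hij h.1
      have z1 : ∀ τ : Bool, g' (ev (some (j, τ))) (ng c') = 0 := by
        intro τ
        have h2 := hiso (ev (some (i, true))) (ev (some (j, τ)))
        rw [horth, f1, map_smul, LinearMap.smul_apply, bl_ev, smul_eq_mul] at h2
        exact (mul_eq_zero.1 h2).resolve_left hx'
      have z2 : ∀ τ : Bool, g' (ev (some (j, τ))) c' = 0 := by
        intro τ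
        have h2 := hiso (ev (some (i, false))) (ev (some (j, τ)))
        rw [horth, f2, map_smul, LinearMap.smul_apply, bl_ev, ng_ng, smul_eq_mul] at h2
        exact (mul_eq_zero.1 h2).resolve_left (inv_ne_zero hx')
      have k1 := e3 c' (z2 true) (z1 true) (z2 false) (z1 false)
      have k2 := e3 (ng c') (z1 true) (by rw [ng_ng]; exact z2 true) (z1 false)
        (by rw [ng_ng]; exact z2 false)
      have k1' : e'⁻¹ (ev c') = ev c' := by
        have := hinv (ev c')
        rwa [k1] at this
      have k2' : e'⁻¹ (ev (ng c')) = ev (ng c') := by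
        have := hinv (ev (ng c'))
        rwa [k2] at this
      refine ⟨c', x', hc', hx', ?_, ?_⟩
      · rw [LinearEquiv.mul_apply, f1, map_smul, k1']
      · rw [LinearEquiv.mul_apply, f2, map_smul, k2']

theorem frames {q : ℕ} (hq : QK q K) (hl : 3 ≤ l) (hF : Ctx l K F)
    (hS : ∀ a b, SS F a b → SS F (ng a) (ng b)) {g : (Ix l → K) ≃ₗ[K] (Ix l → K)}
    (hg : g ∈ F) : ∃ e ∈ ES F, ∃ n ∈ F, g = e * n ∧ ∀ a, ∃ b, ∃ c : K, n (ev a) = c • ev b := by
  classical
  obtain ⟨e, he, hJ⟩ := frames_ind hq hl hF hS hg Finset.univ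
  have hnF : e⁻¹ * g ∈ F := F.mul_mem (F.inv_mem (ES_le he)) hg
  set n := e⁻¹ * g with hn
  have hmon : ∀ b : Ix l, b ≠ none → ∃ c : Ix l, ∃ x : K, c ≠ none ∧ x ≠ 0 ∧
      n (ev b) = x • ev c := by
    intro b hb
    rcases b with _ | ⟨j, σ⟩
    · exact absurd rfl hb
    obtain ⟨c, x, hc, hx, f1, f2⟩ := hJ j (Finset.mem_univ j)
    cases σ
    · exact ⟨ng c, x⁻¹, ng_ne_none hc, inv_ne_zero hx, f2⟩
    · exact ⟨c, x, hc, hx, f1⟩
  refine ⟨e, he, n, hnF, by rw [hn]; group, fun a => ?_⟩
  by_cases ha : a = none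
  · subst ha
    refine ⟨none, n (ev none) none, ?_⟩
    choose! π y hπ hy hny using hmon
    let ρ : Ix l → Ix l := fun b => if b = none then none else π b
    have hρ0 : ρ none = none := if_pos rfl
    have hρ1 : ∀ b, b ≠ none → ρ b = π b := fun b hb => if_neg hb
    have hinj : Function.Injective ρ := by
      intro b b' h
      by_cases hb : b = none
      · by_cases hb' : b' = none
        · rw [hb, hb']
        · rw [hb, hρ0, hρ1 b' hb'] at h
          exact absurd h.symm (hπ b' hb')
      · by_cases hb' : b' = none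
        · rw [hb', hρ0, hρ1 b hb] at h
          exact absurd h (hπ b hb)
        · rw [hρ1 b hb, hρ1 b' hb'] at h
          by_contra hne
          have h1 : n ((y b')  • ev b) = n ((y b) • ev b') := by
            rw [map_smul, map_smul, hny b hb, hny b' hb', h, smul_smul, smul_smul, mul_comm]
          have h2 := congrFun (n.injective h1) b
          rw [Pi.smul_apply, Pi.smul_apply, ev_same, ev_ne hne, smul_zero, smul_eq_mul,
            mul_one] at h2
          exact hy b' hb' h2
    have hsurj := Finite.surjective_of_injective hinj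
    funext m
    rw [Pi.smul_apply, smul_eq_mul]
    by_cases hm : m = none
    · rw [hm, ev_same, mul_one]
    · rw [ev_ne hm, mul_zero]
      obtain ⟨b, hb⟩ := hsurj (ng m)
      have hb0 : b ≠ none := by
        rintro rfl
        rw [hρ0] at hb
        exact ng_ne_none hm hb.symm
      rw [hρ1 b hb0] at hb
      have h1 := hF.iso n hnF (ev b) (ev none)
      rw [hny b hb0, map_smul, LinearMap.smul_apply, bl_ev, bl_ev, hb, ng_ng,
        ev_ne (ng_ne_none hb0), smul_eq_mul] at h1
      exact (mul_eq_zero.1 h1).resolve_left (hy b hb0)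
  · obtain ⟨c, x, -, -, h⟩ := hmon a ha
    exact ⟨c, x, h⟩

end Pool.Agent.H33.TO
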