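import Pool.Agent.H33.TO.CoreR
import Pool.Agent.H33.TO.TorB

/-!
# JOB TO-5: Lemma R

If `F` contains the full root group of `(s, v)` and `s_a v_b - s_b v_a ≠ 0`, `b ≠ ± a`, then
`F` contains the coordinate root group `X(a,b)`.

Proof.  `β := s_a v_b - s_b v_a`.  One of `a, b` is not `none`, and the claim is symmetric
(`SS.symm`, `β` changes sign), so let `a ≠ none`.  Put `e = ev a`, `f = ev (ng a)`; `HP e f`
(`hp_ev`), `PL F e f` (`pl_ev`), `B(e, u) = u (ng a)`, `B(f, u) = u a` (`bl_ev`).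
Case 1: `s_a ≠ 0`.  Replace `v` by `v - (v_a/s_a) s` (`RG.shift`), so `v_a = 0`; `β` does not
  change, so `v_b ≠ 0`.  `coreR` gives `y1, y2` with `B e y_i = y_i (ng a) = 0`,
  `Has F (sg e y_i)` and `v = c1 y1 + c2 y2 + c3 e + c4 f`.  As `b ≠ ± a` the coordinate `b` of
  `e, f` is `0`, so `y1 b ≠ 0` or `y2 b ≠ 0`, and `lemT` gives `SS F a b`.
Case 2: `s_a = 0`.  Then `β = - s_b v_a`, so `v_a ≠ 0`, `s_b ≠ 0`.
 2a: `s_{-a} = 0`.  Then `s ⊥ e, f`.  The set `U` of the `u` with `B s u = 0`, `RG F s u` is a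
  `K`-subspace (`sg_comp`, `RG.smul`).  It contains `v`, and for every square `d ≠ 0` it
  contains `t v` with `t = rt e f d ∈ F` (`RG.conj`, `t s = s`), so
  `t v - v = (d - 1) v_a e + (d⁻¹ - 1) v_{-a} f ∈ U` (note `B(f, v) = v_a`).  With two squares
  `d, e' ≠ 1` (`two_sq`) it follows that `e ∈ U`: `RG F s e`.  So `Has F (sg B s e)`, and
  `sg B s e = sg B e (-s)` (`sg_swap`), `(-s) (ng a) = 0`, `(-s) b ≠ 0`: `lemT`.
 2b: `s_{-a} ≠ 0`.  Use `coreRm` with `e' = ev (ng a)`, `f' = ev a`: `B f' s = s_{-a} ≠ 0`,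
  `B e' s = s_a = 0`; shift `v` by a multiple of `s` so that `B f' v = v_{-a} = 0`
  (`v_a` does not change as `s_a = 0`), `B e' v = v_a ≠ 0`.  Result: root elements
  `sg f' y_i = sg (ev a) y_i ∈ F` with `s = c1 y1 + c2 y2 + c3 f' + c4 e'`, `s_b ≠ 0`, so
  `y_i b ≠ 0` for some `i`: `lemT`.
-/

namespace Pool.Agent.H33.TO

variable {l : ℕ} {K : Type*} [Field K] {F : Subgroup ((Ix l → K) ≃ₗ[K] (Ix l → K))}

theorem lemR_add {s x y : Ix l → K} (h2 : (2 : K) ≠ 0) (hs : bl l K s s = 0) (hx : bl l K s x = 0)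
    (hy : bl l K s y = 0) (h1 : RG F (bl l K) s x) (h3 : RG F (bl l K) s y) : RG F (bl l K) s (x + y) := by
  intro c
  refine ((h1 c).comp (h3 c)).congr fun u => ?_
  have e1 : bl l K s (c • x) = 0 := by rw [map_smul, hx, smul_zero]
  have e2 : bl l K s (c • y) = 0 := by rw [map_smul, hy, smul_zero]
  rw [sg_comp bl_symm h2 hs e1 e2, smul_add]

theorem lemR_cr {q : ℕ} (hq : QK q K) (hF : Ctx l K F) {w : Ix l → K} {a b : Ix l} (ha : a ≠ none)
    (hb : b ≠ a) (hb' : b ≠ ng a) (hwb : w b ≠ 0) (h : CR F (bl l K) (ev a) (ev (ng a)) w) : SS F a b := by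
  obtain ⟨y1, y2, c1, c2, c3, c4, h1, h2, h3, h4, h5⟩ := h
  rw [bl_ev] at h1 h2
  by_cases hy1 : y1 b = 0
  · by_cases hy2 : y2 b = 0
    · exfalso
      apply hwb
      rw [h5]
      simp only [Pi.add_apply, Pi.smul_apply, smul_eq_mul, hy1, hy2, ev_ne hb, ev_ne hb']
      ring
    · exact lemT hq hF ha h2 h4 hb hb' hy2
  · exact lemT hq hF ha h1 h3 hb hb' hy1

theorem lemR_aux {q : ℕ} (hq : QK q K) (hF : Ctx l K F) {s v : Ix l → K}
    (hs : bl l K s s = 0) (hv : bl l K s v = 0) (hR : RG F (bl l K) s v) {a b : Ix l} (ha : a ≠ none)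
    (hb : b ≠ a) (hb' : b ≠ ng a) (hβ : s a * v b - s b * v a ≠ 0) : SS F a b := by
  have h2 : (2 : K) ≠ 0 := hq.two_ne
  by_cases hsa : s a = 0
  · have hsb : s b ≠ 0 := by
      intro h
      apply hβ
      rw [hsa, h]
      ring
    have hva : v a ≠ 0 := by
      intro h
      apply hβ
      rw [hsa, h]
      ring
    by_cases hsn : s (ng a) = 0
    · -- case 2a
      have key : ∀ d : K, d ≠ 0 → IsSquare d → bl l K s (((d - 1) * v a) • (ev a : Ix l → K) +
          ((d⁻¹ - 1) * v (ng a)) • (ev (ng a) : Ix l → K)) = 0 ∧ RG F (bl l K) s (((d - 1) * v a) • (ev a : Ix l → K) +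
          ((d⁻¹ - 1) * v (ng a)) • (ev (ng a) : Ix l → K)) := by
        intro d hd hsq
        obtain ⟨t, ht, ht'⟩ := pl_ev hF ha d hd hsq
        have h3 := hR.conj ht (hF.iso t ht)
        have e1 : t s = s := by
          rw [ht']
          simp only [rt, bl_ev, ng_ng, hsa, hsn, mul_zero, zero_smul, add_zero]
        have e2 : t v = v + ((d - 1) * v a) • (ev a : Ix l → K) + ((d⁻¹ - 1) * v (ng a)) • (ev (ng a) : Ix l → K) := by
          rw [ht']
          simp only [rt, bl_ev, ng_ng]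
        rw [e1, e2] at h3
        have e3 : bl l K s (((d - 1) * v a) • (ev a : Ix l → K) +
          ((d⁻¹ - 1) * v (ng a)) • (ev (ng a) : Ix l → K)) = 0 := by
          rw [map_add, map_smul, map_smul, bl_ev', bl_ev', ng_ng, hsa, hsn]
          simp
        refine ⟨e3, ?_⟩
        have h4 := hR.smul (-1)
        have e4 : bl l K s ((-1 : K) • v) = 0 := by rw [map_smul, hv, smul_zero]
        have e5 : bl l K s (v + ((d - 1) * v a) • (ev a : Ix l → K) + ((d⁻¹ - 1) * v (ng a)) • (ev (ng a) : Ix l → K)) = 0 := by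
          rw [add_assoc, map_add, hv, e3, add_zero]
        have h5 := lemR_add h2 hs e4 e5 h4 h3
        have e6 : (-1 : K) • v + (v + ((d - 1) * v a) • (ev a : Ix l → K) + ((d⁻¹ - 1) * v (ng a)) • (ev (ng a) : Ix l → K)) =
            ((d - 1) * v a) • (ev a : Ix l → K) + ((d⁻¹ - 1) * v (ng a)) • (ev (ng a) : Ix l → K) := by
          module
        rw [e6] at h5
        exact h5
      obtain ⟨d, e, hdsq, hesq, hd0, he0, hd1, he1, hde, _⟩ := two_sq hq
      obtain ⟨k1, k2⟩ := key d hd0 hdsq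
      obtain ⟨k3, k4⟩ := key e he0 hesq
      have k5 := k2.smul (e⁻¹ - 1)
      have k6 := k4.smul (-(d⁻¹ - 1))
      have e1 : bl l K s ((e⁻¹ - 1) • (((d - 1) * v a) • (ev a : Ix l → K) +
          ((d⁻¹ - 1) * v (ng a)) • (ev (ng a) : Ix l → K))) = 0 := by rw [map_smul, k1, smul_zero]
      have e2 : bl l K s ((-(d⁻¹ - 1)) • (((e - 1) * v a) • (ev a : Ix l → K) +
          ((e⁻¹ - 1) * v (ng a)) • (ev (ng a) : Ix l → K))) = 0 := by rw [map_smul, k3, smul_zero]
      have k7 := lemR_add h2 hs e1 e2 k5 k6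
      set m : K := (v a) * ((d - 1) * (e - 1) * (e - d) / (d * e)) with hm
      have hm0 : m ≠ 0 := by
        rw [hm]
        refine mul_ne_zero hva (div_ne_zero (mul_ne_zero (mul_ne_zero (sub_ne_zero.2 hd1) (sub_ne_zero.2 he1))
          (sub_ne_zero.2 (Ne.symm hde))) (mul_ne_zero hd0 he0))
      have e3 : (e⁻¹ - 1) • (((d - 1) * v a) • (ev a : Ix l → K) +
          ((d⁻¹ - 1) * v (ng a)) • (ev (ng a) : Ix l → K)) + (-(d⁻¹ - 1)) • (((e - 1) * v a) • (ev a : Ix l → K) +
          ((e⁻¹ - 1) * v (ng a)) • (ev (ng a) : Ix l → K)) = m • (ev a : Ix l → K) := by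
        have e4 : (e⁻¹ - 1) * ((d - 1) * v a) + (-(d⁻¹ - 1)) * ((e - 1) * v a) = m := by
          rw [hm]
          field_simp
          ring
        rw [← e4]
        module
      rw [e3] at k7
      have k8 := k7.smul m⁻¹
      rw [smul_smul, inv_mul_cancel₀ hm0, one_smul] at k8
      have k9 := k8 1
      rw [one_smul] at k9
      have hee : bl l K (ev a) (ev a) = 0 := (hp_ev ha).1
      have k10 : Has F (sg (bl l K) (ev a) (-s)) := k9.congr fun u => sg_swap hs hee u
      refine lemT hq hF ha ?_ k10 hb hb' ?_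
      · rw [Pi.neg_apply, hsn, neg_zero]
      · rw [Pi.neg_apply]
        exact neg_ne_zero.2 hsb
    · -- case 2b
      set c : K := -(v (ng a) / s (ng a)) with hc
      have hR' := hR.shift bl_symm hs hv c
      have hv' : bl l K s (v + c • s) = 0 := by rw [map_add, map_smul, hv, hs]; simp
      have k := coreRm hq bl_symm (e := ev (ng a)) (f := ev a) ((hp_ev ha).swap bl_symm) hs hv'
        (by rw [bl_ev]; exact hsn)
        (by
          rw [bl_ev, Pi.add_apply, Pi.smul_apply, smul_eq_mul, hc]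
          field_simp
          ring)
        (by rw [bl_ev, ng_ng]; exact hsa)
        (by
          rw [bl_ev, ng_ng, Pi.add_apply, Pi.smul_apply, smul_eq_mul, hsa, mul_zero, add_zero]
          exact hva)
        (pl_ev hF ha).swap hR'
      exact lemR_cr hq hF ha hb hb' hsb k
  · -- case 1
    set c : K := -(v a / s a) with hc
    have hR' := hR.shift bl_symm hs hv c
    have hv' : bl l K s (v + c • s) = 0 := by rw [map_add, map_smul, hv, hs]; simp
    have k := coreR hq bl_symm (hp_ev ha) hs hv' (by rw [bl_ev, ng_ng]; exact hsa)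
      (by
        rw [bl_ev, ng_ng, Pi.add_apply, Pi.smul_apply, smul_eq_mul, hc]
        field_simp
        ring)
      (pl_ev hF ha) hR'
    refine lemR_cr hq hF ha hb hb' ?_ k
    intro h
    rw [Pi.add_apply, Pi.smul_apply, smul_eq_mul, hc] at h
    apply hβ
    field_simp at h
    linear_combination h

/-- Lemma R -/
theorem lemR {q : ℕ} (hq : QK q K) (hF : Ctx l K F) {s v : Ix l → K}
    (hs : bl l K s s = 0) (hv : bl l K s v = 0) (hR : RG F (bl l K) s v) {a b : Ix l}
    (hb : b ≠ a) (hb' : b ≠ ng a) (hβ : s a * v b - s b * v a ≠ 0) : SS F a b := by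
  by_cases ha : a = none
  · have hbn : b ≠ none := fun h => hb (by rw [h, ha])
    refine (lemR_aux hq hF hs hv hR hbn (Ne.symm hb) ?_ ?_).symm
    · intro h
      apply hb'
      rw [h, ng_ng]
    · intro h
      apply hβ
      linear_combination -h
  · exact lemR_aux hq hF hs hv hR ha hb hb' hβ

end Pool.Agent.H33.TO
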