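import Pool.Agent.H33.TO.TorB

/-!
# JOB TO-8: the Levi lemma

`A` is a set of indices with `none ∉ A`, `A ∩ -A = ∅`, such that `W = span (ev a : a ∈ A)` is
`F`-stable (`TSt F A`).  Blocks: `blk A a = 0` on `A`, `2` on `-A`, `1` else.

(1) `upper`: every `g ∈ F` is block upper triangular.  For `b ∈ A` (block 0) this is `stab`.
For `b` in block 1 we need `(g (ev b)) a = 0` for `a ∈ -A`, i.e. `a = ng c`, `c ∈ A`:
`(g (ev b)) (ng c) = bl (ev c) (g (ev b)) = bl (g⁻¹ (ev c)) (ev b)` (`Ctx.iso`), and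
`g⁻¹ (ev c)` is a combination of the `ev d`, `d ∈ A` (stab for `g⁻¹ ∈ F`), and
`bl (ev d) (ev b) = (ev b) (ng d) = 0` since `b ≠ ng d` (`b ∉ -A`).
(2) `levi`: let `d` be the square of prime power order: `d = 2` (order 3, q = 7), `d = i`
(order 4, q = 9), `d = 4` (order 5, q = 11), and let `t ∈ F` be the torus element with
`t (ev a) = d (ev a)` on `A`, `d⁻¹` on `-A`, `1` on block 1 (`τ_i = d^{±1}` or `1`; all `τ_i`
are squares so the product is a square; `Ctx.has_tor`).  `t` has order a power of a prime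
`ℓ ≠ p` (`ℓ = 3, 2, 5`, `p = 7, 3, 11`).
Let `R' = {r ∈ F : UR A r}`: a subgroup (block upper triangular matrices with identity diagonal
blocks are closed under products and inverses), normalised by `t` (conjugation by a diagonal
matrix multiplies the `(a,b)` entry by `t_a / t_b`), and a `p`-group: for `r ∈ R'`, `(r - 1)^3 = 0`
(block strictly upper triangular with 3 blocks), so `r^p = 1 + (r - 1)^p = 1` as `p ≥ 3`
(`sub_pow_char`-type lemma for commuting elements in `Module.End`, or `r^n = 1 + n (r-1) +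
C(n,2) (r-1)^2` by induction, with `n = p`).
For `g ∈ F` the element `g⁻¹ t g t⁻¹` is in `R'`: `t g t⁻¹` has the same diagonal blocks as `g`.
So `x ↦ t x t⁻¹` maps the coset `g R'` to itself and generates an action of the `ℓ`-group
`zpowers t` on `g R'`, a set with `|R'| = p^k` elements, not divisible by `ℓ`.  By
`IsPGroup.nonempty_fixed_point_of_prime_not_dvd_card` there is `h ∈ g R'` with
`t h t⁻¹ = h`.  Then `h (ev b) a * (t_a - t_b) = 0`, so `h` is block diagonal (`d, 1, d⁻¹` are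
different), and `h⁻¹ g ∈ R'`.
(It may be easier to work with the action of `zpowers t` (or of `Multiplicative (ZMod (ℓ^j))`)
on the subtype `{x // x ∈ F ∧ UR A (g⁻¹ * x)}`, whose cardinality is that of `R'`.)

Status: complete (helper26).
-/

namespace Pool.Agent.H33.TO

variable {l : ℕ} {K : Type*} [Field K] {F : Subgroup ((Ix l → K) ≃ₗ[K] (Ix l → K))}

open Classical in
/-- the block of an index: `0` on `A`, `2` on `-A`, `1` otherwise -/
noncomputable def blk (A : Set (Ix l)) (a : Ix l) : ℕ :=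
  if a ∈ A then 0 else if ng a ∈ A then 2 else 1

/-- `A` spans a totally singular `F`-stable coordinate subspace -/
structure TSt (F : Subgroup ((Ix l → K) ≃ₗ[K] (Ix l → K))) (A : Set (Ix l)) : Prop where
  none : none ∉ A
  sing : ∀ a ∈ A, ng a ∉ A
  stab : ∀ g ∈ F, ∀ a ∈ A, ∀ b, b ∉ A → g (ev a) b = 0

/-- block diagonal -/
def BD (A : Set (Ix l)) (g : (Ix l → K) ≃ₗ[K] (Ix l → K)) : Prop :=
  ∀ a b, blk A a ≠ blk A b → g (ev b) a = 0

/-- identity diagonal blocks -/
def UR (A : Set (Ix l)) (g : (Ix l → K) ≃ₗ[K] (Ix l → K)) : Prop :=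
  ∀ a b, blk A a = blk A b → g (ev b) a = (ev b : Ix l → K) a

/-- the value of a linear equivalence, entrywise -/
theorem levi_apply (g : (Ix l → K) ≃ₗ[K] (Ix l → K)) (u : Ix l → K) (a : Ix l) :
    g u a = ∑ c, u c * g (ev c) a := by
  conv_lhs => rw [sum_ev u, map_sum, Finset.sum_apply]
  refine Finset.sum_congr rfl fun c _ => ?_
  rw [map_smul, Pi.smul_apply, smul_eq_mul]

theorem upper (hF : Ctx l K F) {A : Set (Ix l)} (hA : TSt F A)
    {g : (Ix l → K) ≃ₗ[K] (Ix l → K)} (hg : g ∈ F) {a b : Ix l} (h : blk A b < blk A a) :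
    g (ev b) a = 0 := by
  classical
  by_cases hb : b ∈ A
  · have ha : a ∉ A := by
      intro ha
      simp [blk, ha, hb] at h
    exact hA.stab g hg b hb a ha
  · have hb1 : ng b ∉ A := by
      intro hb1
      have h2 : blk A b = 2 := by simp [blk, hb, hb1]
      rw [h2] at h
      unfold blk at h
      split_ifs at h <;> omega
    have h2 : blk A b = 1 := by simp [blk, hb, hb1]
    have ha : ng a ∈ A := by
      rw [h2] at h
      by_contra hna
      unfold blk at h
      split_ifs at h <;> omega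
    have h3 : g (ev b) a = bl l K (ev (ng a)) (g (ev b)) := by rw [bl_ev, ng_ng]
    have h4 : g (g⁻¹ (ev (ng a))) = ev (ng a) := by
      rw [← LinearEquiv.mul_apply, mul_inv_cancel]; rfl
    have h5 : bl l K (ev (ng a)) (g (ev b)) = bl l K (g⁻¹ (ev (ng a))) (ev b) := by
      rw [← hF.iso g hg (g⁻¹ (ev (ng a))) (ev b), h4]
    rw [h3, h5, bl_ev']
    exact hA.stab g⁻¹ (F.inv_mem hg) (ng a) ha (ng b) hb1

/-- product of two block upper triangular matrices on the diagonal blocks -/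
theorem levi_mul (hF : Ctx l K F) {A : Set (Ix l)} (hA : TSt F A)
    {r s : (Ix l → K) ≃ₗ[K] (Ix l → K)} (hr : r ∈ F) (hs : s ∈ F) {a b : Ix l}
    (h : blk A a = blk A b) : (r * s) (ev b) a =
      ∑ c ∈ Finset.univ.filter (fun c => blk A c = blk A b), s (ev b) c * r (ev c) a := by
  rw [LinearEquiv.mul_apply, levi_apply r]
  refine (Finset.sum_subset (Finset.filter_subset _ _) fun c _ hc => ?_).symm
  have hc' : blk A c ≠ blk A b := fun h' => hc (Finset.mem_filter.2 ⟨Finset.mem_univ _, h'⟩)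
  rcases lt_or_gt_of_ne hc' with h1 | h1
  · rw [upper hF hA hr (h ▸ h1 : blk A c < blk A a), mul_zero]
  · rw [upper hF hA hs h1, zero_mul]

theorem levi_M1 (hF : Ctx l K F) {A : Set (Ix l)} (hA : TSt F A)
    {r s : (Ix l → K) ≃ₗ[K] (Ix l → K)} (hr : r ∈ F) (hs : s ∈ F) (hU : UR A s) {a b : Ix l}
    (h : blk A a = blk A b) : (r * s) (ev b) a = r (ev b) a := by
  classical
  rw [levi_mul hF hA hr hs h, Finset.sum_eq_single b]
  · rw [hU b b rfl, ev_same, one_mul]
  · intro c hc hcb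
    rw [hU c b (Finset.mem_filter.1 hc).2, ev_ne hcb, zero_mul]
  · intro hb
    exact absurd (by simp) hb

theorem levi_UR_mul (hF : Ctx l K F) {A : Set (Ix l)} (hA : TSt F A)
    {r s : (Ix l → K) ≃ₗ[K] (Ix l → K)} (hr : r ∈ F) (hs : s ∈ F) (hrU : UR A r) (hsU : UR A s) :
    UR A (r * s) := fun a b h => by rw [levi_M1 hF hA hr hs hsU h, hrU a b h]

theorem levi_UR_inv (hF : Ctx l K F) {A : Set (Ix l)} (hA : TSt F A)
    {r : (Ix l → K) ≃ₗ[K] (Ix l → K)} (hr : r ∈ F) (hrU : UR A r) : UR A r⁻¹ := fun a b h => by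
  have h1 := levi_M1 hF hA (F.inv_mem hr) hr hrU h
  rw [inv_mul_cancel] at h1
  exact h1.symm

/-- the group of the elements with identity diagonal blocks -/
def leviR (hF : Ctx l K F) {A : Set (Ix l)} (hA : TSt F A) :
    Subgroup ((Ix l → K) ≃ₗ[K] (Ix l → K)) where
  carrier := {r | r ∈ F ∧ UR A r}
  mul_mem' := fun {r s} hr hs => ⟨F.mul_mem hr.1 hs.1, levi_UR_mul hF hA hr.1 hs.1 hr.2 hs.2⟩
  one_mem' := ⟨F.one_mem, fun _ _ _ => rfl⟩
  inv_mem' := fun {r} hr => ⟨F.inv_mem hr.1, levi_UR_inv hF hA hr.1 hr.2⟩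

/-- an abstract fixed point argument -/
theorem levi_fix {G : Type*} [Group G] [Finite G] {p ℓ k : ℕ} [hp : Fact p.Prime]
    [hl : Fact ℓ.Prime] (hne : ℓ ≠ p) (R : Subgroup G) (hR : IsPGroup p R) (t g : G)
    (ht : t ^ ℓ ^ k = 1) (hn : ∀ r ∈ R, t * r * t⁻¹ ∈ R) (hg : g⁻¹ * (t * g * t⁻¹) ∈ R) :
    ∃ r ∈ R, t * (g * r) * t⁻¹ = g * r := by
  classical
  have hX : ∀ x, g⁻¹ * x ∈ R → g⁻¹ * (t * x * t⁻¹) ∈ R := by
    intro x hx
    have h1 := R.mul_mem hg (hn _ hx)
    have h2 : g⁻¹ * (t * g * t⁻¹) * (t * (g⁻¹ * x) * t⁻¹) = g⁻¹ * (t * x * t⁻¹) := by group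
    rwa [h2] at h1
  let X := {x : G // g⁻¹ * x ∈ R}
  have : Fintype X := Fintype.ofFinite X
  let f : Function.End X := fun x => ⟨t * x.1 * t⁻¹, hX _ x.2⟩
  have hfn : ∀ n : ℕ, ∀ x : X, ((f ^ n) x).1 = t ^ n * x.1 * (t ^ n)⁻¹ := by
    intro n
    induction n with
    | zero =>
      intro x
      change x.1 = _
      simp
    | succ n ih =>
      intro x
      rw [pow_succ']
      change (f ((f ^ n) x)).1 = _
      change t * ((f ^ n) x).1 * t⁻¹ = _
      rw [ih x, pow_succ']
      group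
  have hf1 : f ^ ℓ ^ k = 1 := by
    funext x
    apply Subtype.ext
    rw [hfn, ht]
    change 1 * x.1 * 1⁻¹ = x.1
    simp
  have hmod := Equiv.Perm.card_fixedPoints_modEq (α := X) (f := f) (p := ℓ) (n := k) hf1
  obtain ⟨m, hm⟩ := (IsPGroup.iff_card (G := R)).1 hR
  have hcard : Fintype.card X = p ^ m := by
    rw [← hm, ← Nat.card_eq_fintype_card]
    refine Nat.card_congr ⟨fun x => ⟨g⁻¹ * x.1, x.2⟩, fun r => ⟨g * r.1, ?_⟩, ?_, ?_⟩
    · rw [inv_mul_cancel_left]; exact r.2
    · intro x; apply Subtype.ext; exact mul_inv_cancel_left g x.1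
    · intro r; apply Subtype.ext; exact inv_mul_cancel_left g r.1
  have hndvd : ¬ ℓ ∣ Fintype.card X := by
    rw [hcard]
    intro h
    have h1 := hl.out.dvd_of_dvd_pow h
    exact hne ((Nat.prime_dvd_prime_iff_eq hl.out hp.out).1 h1)
  have hne0 : Nonempty (Function.fixedPoints f) := by
    by_contra hemp
    rw [not_nonempty_iff] at hemp
    have h0 : Fintype.card (Function.fixedPoints f) = 0 := Fintype.card_eq_zero
    rw [h0] at hmod
    exact hndvd ((Nat.modEq_zero_iff_dvd).1 hmod)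
  obtain ⟨x, hx⟩ := hne0
  refine ⟨g⁻¹ * x.1, x.2, ?_⟩
  rw [mul_inv_cancel_left]
  exact congrArg Subtype.val hx

/-- strictly block upper triangular matrices with three blocks have cube zero -/
theorem levi_cube {A : Set (Ix l)} (n : Module.End K (Ix l → K))
    (hn : ∀ a b, blk A b ≤ blk A a → n (ev b) a = 0) : n * n * n = 0 := by
  have happ : ∀ (u : Ix l → K) (a : Ix l), n u a = ∑ c, u c * n (ev c) a := by
    intro u a
    conv_lhs => rw [sum_ev u, map_sum, Finset.sum_apply]
    refine Finset.sum_congr rfl fun c _ => ?_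
    rw [map_smul, Pi.smul_apply, smul_eq_mul]
  have key : ∀ (k : ℕ) (u : Ix l → K), (∀ a, k + 1 ≤ blk A a → u a = 0) →
      ∀ a, k ≤ blk A a → n u a = 0 := by
    intro k u hu a ha
    rw [happ]
    refine Finset.sum_eq_zero fun c _ => ?_
    rcases Nat.lt_or_ge k (blk A c) with hc | hc
    · rw [hu c hc, zero_mul]
    · rw [hn a c (hc.trans ha), mul_zero]
  have hb : ∀ a, blk A a < 3 := by
    intro a
    unfold blk
    split_ifs <;> omega
  apply LinearMap.ext
  intro u
  funext a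
  have h1 := key 2 u (fun a ha => absurd (hb a) (by omega))
  have h2 := key 1 (n u) h1
  have h3 := key 0 (n (n u)) h2 a (Nat.zero_le _)
  exact h3

theorem levi_pow {p : ℕ} [hp : Fact p.Prime] [CharP K p] (h3 : 3 ≤ p) (hF : Ctx l K F)
    {A : Set (Ix l)} (hA : TSt F A) {r : (Ix l → K) ≃ₗ[K] (Ix l → K)} (hr : r ∈ F)
    (hU : UR A r) : r ^ p = 1 := by
  classical
  let ρ : Module.End K (Ix l → K) := (r : (Ix l → K) →ₗ[K] (Ix l → K))
  have hcube := levi_cube (A := A) (ρ - 1) (by
    intro a b hab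
    change r (ev b) a - (ev b : Ix l → K) a = 0
    rcases hab.lt_or_eq with h | h
    · rw [upper hF hA hr h, ev_ne, sub_zero]
      rintro rfl
      exact lt_irrefl _ h
    · rw [hU a b h.symm, sub_self])
  have : Nontrivial (Module.End K (Ix l → K)) := by
    refine ⟨0, 1, fun h => ?_⟩
    have h1 := congrArg (fun m : Module.End K (Ix l → K) => m (ev none) none) h
    simp only [LinearMap.zero_apply, Pi.zero_apply, Module.End.one_apply, ev_same] at h1
    exact zero_ne_one h1
  have : CharP (Module.End K (Ix l → K)) p :=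
    charP_of_injective_algebraMap (algebraMap K (Module.End K (Ix l → K))).injective p
  have h4 : ρ ^ p = 1 := by
    have h5 : ρ = 1 + (ρ - 1) := by abel
    have h6 : Commute (1 : Module.End K (Ix l → K)) (ρ - 1) := Commute.one_left _
    rw [h5, add_pow_char_of_commute _ h6, one_pow]
    have h7 : (ρ - 1) ^ p = 0 := by
      obtain ⟨k, hk⟩ := Nat.exists_eq_add_of_le h3
      rw [hk, pow_add]
      have h8 : (ρ - 1) ^ 3 = 0 := by rw [pow_three', hcube]
      rw [h8, zero_mul]
    rw [h7, add_zero]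
  have h5 : ∀ (n : ℕ) (u : Ix l → K), (r ^ n) u = (ρ ^ n) u := by
    intro n
    induction n with
    | zero => intro u; rfl
    | succ n ih =>
      intro u
      rw [pow_succ', pow_succ', LinearEquiv.mul_apply, Module.End.mul_apply, ih]
      rfl
  ext1 u
  rw [h5, h4]
  rfl

/-- the three fields -/
theorem levi_field {q : ℕ} (hq : QK q K) : ∃ (p ℓ k : ℕ) (_ : Fact p.Prime) (_ : Fact ℓ.Prime),
    CharP K p ∧ 3 ≤ p ∧ ℓ ≠ p ∧ Finite K ∧
    ∃ r : Kˣ, (r * r) ^ ℓ ^ k = 1 ∧ (r * r) ≠ 1 ∧ (r * r) ≠ (r * r)⁻¹ := by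
  obtain ⟨hcard, hq'⟩ := hq
  have hfin : Finite K := Nat.finite_of_card_ne_zero (by rw [hcard]; rcases hq' with h | h | h <;> omega)
  obtain ⟨d, -, ⟨r, hr⟩, -, hd0, -, hd1, -, -, hd2⟩ := two_sq (K := K) ⟨hcard, hq'⟩
  have hr0 : r ≠ 0 := by
    rintro rfl
    exact hd0 (by rw [hr, mul_zero])
  have hr1 : (Units.mk0 r hr0) * (Units.mk0 r hr0) ≠ 1 := by
    intro h
    apply hd1
    rw [hr]
    exact congrArg Units.val h
  have hr2 : (Units.mk0 r hr0) * (Units.mk0 r hr0) ≠
      ((Units.mk0 r hr0) * (Units.mk0 r hr0))⁻¹ := by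
    intro h
    apply hd2
    rw [eq_inv_iff_mul_eq_one] at h
    rw [hr]
    exact congrArg Units.val h
  have hpow : ∀ m, q - 1 = 2 * m → ((Units.mk0 r hr0) * (Units.mk0 r hr0)) ^ m = 1 := by
    intro m hm
    rw [← pow_two, ← pow_mul, ← hm, ← hcard]
    have h1 : Nat.card Kˣ = Nat.card K - 1 := Nat.card_units K
    rw [← h1]
    exact pow_card_eq_one'
  rcases hq' with h | h | h
  · refine ⟨7, 3, 1, ⟨by norm_num⟩, ⟨by norm_num⟩, ?_, by norm_num, by norm_num, hfin,
      Units.mk0 r hr0, ?_, hr1, hr2⟩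
    · rw [CharP.charP_iff_prime_eq_zero (by norm_num)]
      have := card_cast K
      rwa [hcard, h] at this
    · exact hpow _ (by rw [h]; norm_num)
  · refine ⟨3, 2, 2, ⟨by norm_num⟩, ⟨by norm_num⟩, ?_, by norm_num, by norm_num, hfin,
      Units.mk0 r hr0, ?_, hr1, hr2⟩
    · rw [CharP.charP_iff_prime_eq_zero (by norm_num)]
      have h1 := card_cast K
      rw [hcard, h] at h1
      have h2 : ((3 : ℕ) : K) * ((3 : ℕ) : K) = 0 := by
        rw [← h1]; push_cast; norm_num
      rcases mul_eq_zero.1 h2 with h3 | h3 <;> exact h3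
    · exact hpow _ (by rw [h]; norm_num)
  · refine ⟨11, 5, 1, ⟨by norm_num⟩, ⟨by norm_num⟩, ?_, by norm_num, by norm_num, hfin,
      Units.mk0 r hr0, ?_, hr1, hr2⟩
    · rw [CharP.charP_iff_prime_eq_zero (by norm_num)]
      have := card_cast K
      rwa [hcard, h] at this
    · exact hpow _ (by rw [h]; norm_num)

/-- the levi lemma -/
theorem levi {q : ℕ} (hq : QK q K) (hF : Ctx l K F) {A : Set (Ix l)} (hA : TSt F A)
    {g : (Ix l → K) ≃ₗ[K] (Ix l → K)} (hg : g ∈ F) : ∃ h ∈ F, BD A h ∧ UR A (h⁻¹ * g) := by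
  classical
  obtain ⟨p, ℓ, k, hp, hl, hchar, hp3, hne, hfin, x, hx1, hx2, hx3⟩ := levi_field hq
  -- the torus element
  let ρ : Fin l → Kˣ := fun i => if (some (i, true) : Ix l) ∈ A then x else
    if (some (i, false) : Ix l) ∈ A then x⁻¹ else 1
  obtain ⟨t, ht, ht', ht''⟩ := hF.has_tor (fun i => ρ i * ρ i) (by
    rw [Finset.prod_mul_distrib]
    exact ⟨_, rfl⟩)
  set T : Ix l → K := tco (fun i => ρ i * ρ i) with hT
  let dd : ℕ → K := fun n => if n = 0 then ((x * x : Kˣ) : K) else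
    if n = 2 then (((x * x)⁻¹ : Kˣ) : K) else 1
  have hTb : ∀ a, T a = dd (blk A a) := by
    intro a
    rcases a with _ | ⟨i, b⟩
    · have h1 : blk A (none : Ix l) = 1 := by
        unfold blk
        rw [if_neg hA.none, if_neg (by rw [ng_none]; exact hA.none)]
      rw [h1]
      rfl
    · cases b with
      | true =>
        change ((ρ i * ρ i : Kˣ) : K) = _
        have hng : ng (some (i, true) : Ix l) = some (i, false) := rfl
        by_cases h1 : (some (i, true) : Ix l) ∈ A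
        · simp [ρ, dd, blk, h1]
        · by_cases h2 : (some (i, false) : Ix l) ∈ A
          · simp [ρ, dd, blk, h1, h2, hng]
          · simp [ρ, dd, blk, h1, h2, hng]
      | false =>
        change (((ρ i * ρ i)⁻¹ : Kˣ) : K) = _
        have hng : ng (some (i, false) : Ix l) = some (i, true) := rfl
        by_cases h1 : (some (i, false) : Ix l) ∈ A
        · have h2 : (some (i, true) : Ix l) ∉ A := by
            have := hA.sing _ h1
            rwa [hng] at this
          simp [ρ, dd, blk, h1, h2]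
        · by_cases h2 : (some (i, true) : Ix l) ∈ A
          · simp [ρ, dd, blk, h1, h2, hng]
          · simp [ρ, dd, blk, h1, h2, hng]
  have hT0 : ∀ a, T a ≠ 0 := fun a => tco_ne _ a
  have hconj : ∀ (r : (Ix l → K) ≃ₗ[K] (Ix l → K)) (a b : Ix l),
      (t * r * t⁻¹) (ev b) a = T a * (T b)⁻¹ * r (ev b) a := by
    intro r a b
    have h1 : t⁻¹ (ev b) = (T b)⁻¹ • (ev b : Ix l → K) := by
      apply t.injective
      have h2 : t (t⁻¹ (ev b)) = ev b := by
        rw [← LinearEquiv.mul_apply, mul_inv_cancel]; rfl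
      rw [h2, map_smul, ht'', smul_smul, inv_mul_cancel₀ (hT0 b), one_smul]
    rw [LinearEquiv.mul_apply, LinearEquiv.mul_apply, h1, map_smul, ht', Pi.smul_apply,
      smul_eq_mul]
    ring
  have hsame : ∀ (r : (Ix l → K) ≃ₗ[K] (Ix l → K)) (a b : Ix l), blk A a = blk A b →
      (t * r * t⁻¹) (ev b) a = r (ev b) a := by
    intro r a b h
    rw [hconj, hTb a, hTb b, h, ← hTb b, mul_inv_cancel₀ (hT0 b), one_mul]
  -- finiteness
  have : Finite (Ix l → K) := inferInstance
  have : Finite ((Ix l → K) ≃ₗ[K] (Ix l → K)) :=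
    Finite.of_injective (fun g => (g : (Ix l → K) → (Ix l → K))) DFunLike.coe_injective
  have htk : t ^ ℓ ^ k = 1 := by
    have h1 : ∀ (n : ℕ) (u : Ix l → K) (a : Ix l), (t ^ n) u a = T a ^ n * u a := by
      intro n
      induction n with
      | zero => intro u a; simp
      | succ n ih =>
        intro u a
        rw [pow_succ', LinearEquiv.mul_apply, ht', ih, pow_succ']
        ring
    ext1 u
    funext a
    rw [h1]
    have h2 : T a ^ ℓ ^ k = 1 := by
      rw [hTb a]
      change (if blk A a = 0 then ((x * x : Kˣ) : K) else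
        if blk A a = 2 then (((x * x)⁻¹ : Kˣ) : K) else 1) ^ ℓ ^ k = 1
      split_ifs
      · rw [← Units.val_pow_eq_pow_val, hx1, Units.val_one]
      · rw [← Units.val_pow_eq_pow_val, inv_pow, hx1, inv_one, Units.val_one]
      · rw [one_pow]
    rw [h2, one_mul]
    rfl
  have hdd : ∀ a b, blk A a ≠ blk A b → T a ≠ T b := by
    intro a b hab
    rw [hTb a, hTb b]
    have hb : ∀ a, blk A a < 3 := by
      intro a
      unfold blk
      split_ifs <;> omega
    have e1 : ((x * x : Kˣ) : K) ≠ 1 := fun h => hx2 (Units.ext h)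
    have e2 : ((x * x : Kˣ) : K) ≠ (((x * x)⁻¹ : Kˣ) : K) := fun h => hx3 (Units.ext h)
    have e3 : (((x * x)⁻¹ : Kˣ) : K) ≠ 1 := fun h => hx2 (inv_eq_one.1 (Units.ext h))
    have ha := hb a
    have hb' := hb b
    generalize blk A a = m at *
    generalize blk A b = n at *
    change (if m = 0 then ((x * x : Kˣ) : K) else if m = 2 then (((x * x)⁻¹ : Kˣ) : K) else 1) ≠
      (if n = 0 then ((x * x : Kˣ) : K) else if n = 2 then (((x * x)⁻¹ : Kˣ) : K) else 1)
    split_ifs
    · omega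
    · exact e2
    · exact e1
    · exact e2.symm
    · omega
    · exact e3
    · exact e1.symm
    · exact e3.symm
    · omega
  -- the group R
  obtain ⟨r, hr, hfix⟩ := levi_fix (k := k) hne (leviR hF hA) (by
    intro r
    refine ⟨1, ?_⟩
    apply Subtype.ext
    rw [pow_one]
    exact levi_pow hp3 hF hA r.2.1 r.2.2) t g htk (by
    rintro r ⟨h1, h2⟩
    exact ⟨F.mul_mem (F.mul_mem ht h1) (F.inv_mem ht), fun a b h => by
      rw [hsame r a b h, h2 a b h]⟩) (by
    have h1 : t * g * t⁻¹ ∈ F := F.mul_mem (F.mul_mem ht hg) (F.inv_mem ht)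
    refine ⟨F.mul_mem (F.inv_mem hg) h1, fun a b h => ?_⟩
    rw [levi_mul hF hA (F.inv_mem hg) h1 h]
    have h2 : ∀ c ∈ Finset.univ.filter (fun c => blk A c = blk A b),
        (t * g * t⁻¹) (ev b) c * g⁻¹ (ev c) a = g (ev b) c * g⁻¹ (ev c) a := by
      intro c hc
      rw [hsame g c b (Finset.mem_filter.1 hc).2]
    rw [Finset.sum_congr rfl h2, ← levi_mul hF hA (F.inv_mem hg) hg h, inv_mul_cancel]
    rfl)
  refine ⟨g * r, F.mul_mem hg hr.1, ?_, ?_⟩
  · intro a b hab
    have h1 := hconj (g * r) a b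
    rw [hfix] at h1
    by_contra h0
    apply hdd a b hab
    have h2 : T a * (T b)⁻¹ = 1 := by
      have h3 : (1 : K) * (g * r) (ev b) a = T a * (T b)⁻¹ * (g * r) (ev b) a := by
        rw [one_mul]; exact h1
      exact (mul_right_cancel₀ h0 h3).symm
    exact (mul_inv_eq_one₀ (hT0 b)).1 h2
  · have h1 : (g * r)⁻¹ * g = r⁻¹ := by group
    rw [h1]
    exact levi_UR_inv hF hA hr.1 hr.2

end Pool.Agent.H33.TO
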