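import Pool.Agent.H33.TO.LemR
import Pool.Agent.H33.TO.Closed

/-!
# JOB TO-15: if the set of roots is symmetric then every full root group of F lies in ES F

Assume `hS : SS F a b → SS F (ng a) (ng b)`.  Write `a ~ b` for `RR F a b` (an equivalence
relation: `NP.refl`, `net_trans`, `net_symm` with `ss_nr`; also `a ~ b → -a ~ -b`, `net_neg`).
For `b ≠ a`: `a ~ b` and `b ≠ ng a` implies `SS F a (ng b)` (definition of `RR`), and then
also `SS F (ng a) b` by `hS`.

Step 1 (`move`).  Let `s` be singular, `s ≠ 0`, and suppose there is `a` with `s_b ≠ 0 → b ~ a`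
for all `b`.  Then there are `g ∈ ES F`, `c ≠ none`, `x ≠ 0` with `g s = x • ev c`.
 Proof.  Some `s_c ≠ 0` with `c ≠ none` (otherwise `s = s_0 (ev none)` and
 `bl s s = s_0² ≠ 0`).  Let `y = ∑_{b ≠ c, ng c} (- s_b / s_c) (ev b)`.  If `y_b ≠ 0` then
 `b ~ a ~ c`, `b ≠ c, ng c`, so `SS F (ng c) b`.  So the `g` acting as `sg (ev (ng c)) y` is in
 `ES F` (`sg_mem_ES` with `ng c`; `y (ng (ng c)) = y c = 0`).  `g s = s + s_c y - (bl s y + ..)
 (ev (ng c))` has the coordinates `s_b + s_c y_b = 0` for `b ≠ c, ng c`, and `s_c` at `c`.  So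
 `g s = s_c (ev c) + μ (ev (ng c))`, and `bl (g s) (g s) = 0` gives `2 s_c μ = 0`, `μ = 0`.
 (`bl (g s) (g s) = bl s s` by `sg_isom`.)
Step 2.  Let `RG F (s, v)`, `s` singular, `s ⊥ v`, and suppose `s ≠ 0` satisfies the hypothesis
 of step 1.  Then the `h` acting as `sg s v` is in `ES F`.
 Proof.  With `g, c, x` from step 1, `g h g⁻¹` acts as `sg (x • ev c) (g v) = sg (ev c) (x • g v)`
 (`sg_conj`, `sg_smul`), and lies in `F`.  `y = x • g v` has `y (ng c) = bl (ev c) y = 0`
 (as `bl s v = 0`).  For `b ≠ c` with `y_b ≠ 0` (so `b ≠ ng c`) `lemT` gives `SS F c b`.  So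
 `sg_mem_ES` shows `g h g⁻¹ ∈ ES F`, and `h ∈ ES F`.
Step 3.  General `(s, v)` with `RG F (s, v)`.  If `s, v` are linearly dependent then `sg s v = id`
 (if `s = 0` clear; `v = μ s`: `sg_shift` with `sg_zero`).  Let them be independent,
 `β a b = s_a v_b - s_b v_a`, rows `r_a = s_a v - v_a s`, `(r_a)_b = β a b`.  Claim: `β a b ≠ 0`
 implies `b ~ ng a`: if `b = ng a` clear; `b = a` impossible; else `SS F a b` by `lemR`, i.e.
 `RR F a (ng b)`, `net_neg`, `net_symm`.  So `r_a` is supported on the class of `ng a`.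
 Choose `a` with `r_a ≠ 0` (exists as `s, v` are independent: some `s_a ≠ 0` or `v_a ≠ 0`, and
 then `r_a ≠ 0`).
 Case 3a: all nonzero rows are supported on the class of `ng a`, in the sense: `β c b ≠ 0`
  implies `b ~ ng a`.  Then (by `β b c = - β c b`) every `b` with `s_b ≠ 0` or `v_b ≠ 0`
  satisfies `r_b ≠ 0`, so `β b c ≠ 0` for some `c`, so `β c b ≠ 0`, `b ~ ng a`.  So `s`
  satisfies the hypothesis of step 1, and step 2 applies.
 Case 3b: there are `c, b` with `β c b ≠ 0` and not `b ~ ng a`.  Then `b ~ ng c`, so not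
  `c ~ a`.  `r_a` is supported on the class of `ng a`, `r_c` on the class of `ng c`, which are
  different classes, `r_a, r_c ≠ 0`.  They are linearly independent vectors in the plane
  `⟨s, v⟩`, so the plane is `⟨r_a, r_c⟩`: `r_a = s_a v - v_a s`, `r_c = s_c v - v_c s`.
  The `2 × 2` determinant `Δ = s_c v_a - s_a v_c ≠ 0` (up to sign it is `β a c`), so
  `a ~ ng c` by the claim applied to `β a c ≠ 0` (or `c = ng a`).  So the class of `ng a` is the
  class of `c`, and `r_c` is supported on the class of `ng c`, i.e. of `a`.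
  `bl (r_a, r_a) = 0`: it is `s_a² bl(v,v)`.  Let us see that `bl(v,v) = 0`:  `r_a` is
  supported on the class `C` of `ng a`, with `-C` = class of `a` `≠ C` (if `a ~ ng a` then
  `c ~ ng a ~ a` contradicting not `c ~ a`).  So `bl (r_a, r_a) = ∑ (r_a)_b (r_a)_{-b} = 0`,
  hence `s_a² bl(v,v) = 0`; similarly `s_c² bl(v,v) = 0`.  As `β a c ≠ 0`, not both
  `s_a, s_c` vanish, so `bl(v,v) = 0`.
  So `⟨s, v⟩` is totally singular, and for any basis `(s', v')` of it, `sg s v = sg s' (κ v')`
  for a scalar `κ` (the determinant): if `s = α s' + β' v'`, `v = γ s' + δ v'`, then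
  `sg s v u = u + (αδ - β'γ) (B(u,s') v' - B(u,v') s')` by expansion, using
  `B s' s' = B s' v' = B v' v' = 0`.  With `s' = r_a`, `v' = r_c`: `RG F (r_a, r_c)` holds and
  the given element is `sg r_a (κ r_c)`.  `r_a` satisfies the hypothesis of step 1.  Step 2.
Conclusion `rg_mem_ES`.  `ES_normal`: a generator of `ES F` acts as `sg (ev a) (c • ev b)`,
 its conjugate by `g ∈ F` acts as `sg (g (ev a)) (c • g (ev b))`, and
 `RG F (g (ev a)) (c • g (ev b))` by `RG.conj`, `RG.smul`.
-/

namespace Pool.Agent.H33.TO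

variable {l : ℕ} {K : Type*} [Field K] {F : Subgroup ((Ix l → K) ≃ₗ[K] (Ix l → K))}

theorem rges_move {q : ℕ} (hq : QK q K) (hF : Ctx l K F)
    (hS : ∀ a b, SS F a b → SS F (ng a) (ng b)) {s : Ix l → K} (hs : bl l K s s = 0)
    (hs0 : s ≠ 0) {a : Ix l} (ha : ∀ b, s b ≠ 0 → RR F b a) :
    ∃ g ∈ ES F, ∃ c : Ix l, c ≠ none ∧ ∃ x : K, x ≠ 0 ∧ g s = x • ev c := by
  have hnr := ss_nr (F := F) hq hF
  have h2 := hq.two_ne
  obtain ⟨c, hc, hsc⟩ : ∃ c : Ix l, c ≠ none ∧ s c ≠ 0 := by
    by_contra hcon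
    push Not at hcon
    apply hs0
    have h1 : bl l K s s = s none * s none := by
      rw [bl_apply, Finset.sum_eq_single none]
      · rfl
      · intro b _ hb
        rw [hcon b hb, zero_mul]
      · intro h; exact absurd (Finset.mem_univ _) h
    rw [hs] at h1
    have h3 : s none = 0 := by
      rcases mul_eq_zero.1 h1.symm with h | h <;> exact h
    funext b
    by_cases hb : b = none
    · rw [hb, h3]; rfl
    · rw [hcon b hb]; rfl
  have hcn : ng c ≠ none := ng_ne_none hc
  have hcc : ng c ≠ c := ng_ne_self hc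
  let y : Ix l → K := fun b => if b = c ∨ b = ng c then 0 else -(s b / s c)
  have hy1 : y c = 0 := if_pos (Or.inl rfl)
  have hy2 : y (ng c) = 0 := if_pos (Or.inr rfl)
  have hy3 : ∀ b, b ≠ c → b ≠ ng c → y b = -(s b / s c) := fun b h1 h2 =>
    if_neg (by rintro (h | h); exacts [h1 h, h2 h])
  have hsing : bl l K (ev (ng c)) (ev (ng c)) = 0 := by
    rw [bl_ev, ng_ng, ev_ne hcc.symm]
  have hperp : bl l K (ev (ng c)) y = 0 := by rw [bl_ev, ng_ng, hy1]
  obtain ⟨g, hg⟩ := exists_sg (B := bl l K) bl_symm h2 hsing hperp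
  have hgE : g ∈ ES F := by
    refine sg_mem_ES hq hcn (by rw [ng_ng, hy1]) ?_ hg
    intro b hb hyb
    have hbc : b ≠ c := fun h => hyb (by rw [h, hy1])
    have hsb : s b ≠ 0 := fun h => hyb (by rw [hy3 b hbc hb, h, zero_div, neg_zero])
    have h3 : RR F b c := net_trans hnr (ha b hsb) (net_symm hnr hS (ha c hsc))
    rcases h3 with h3 | h3 | ⟨h3, -⟩
    · exact absurd h3 hbc
    · exact h3.symm
    · exact absurd (by rw [h3, ng_ng]) hb
  refine ⟨g, hgE, c, hc, s c, hsc, ?_⟩
  have hgs : ∀ b, g s b = s b + s c * y b -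
      (bl l K s y + 1 / 2 * bl l K y y * s c) * (ev (ng c) : Ix l → K) b := by
    intro b
    rw [hg]
    simp only [sg, bl_ev', ng_ng, Pi.add_apply, Pi.sub_apply, Pi.smul_apply, smul_eq_mul]
    ring
  have hgc : g s c = s c := by
    rw [hgs, hy1, ev_ne hcc.symm]; ring
  have hgb : ∀ b, b ≠ c → b ≠ ng c → g s b = 0 := by
    intro b h1 h3
    rw [hgs, hy3 b h1 h3, ev_ne h3]
    field_simp
    ring
  have hdec : g s = s c • (ev c : Ix l → K) + g s (ng c) • (ev (ng c) : Ix l → K) := by
    funext b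
    simp only [Pi.add_apply, Pi.smul_apply, smul_eq_mul]
    by_cases h1 : b = c
    · subst h1
      rw [hgc, ev_same, ev_ne hcc.symm]; ring
    · by_cases h3 : b = ng c
      · subst h3
        rw [ev_same, ev_ne hcc]; ring
      · rw [hgb b h1 h3, ev_ne h1, ev_ne h3]; ring
  have hiso : bl l K (g s) (g s) = 0 := by
    rw [hg, sg_isom bl_symm h2 hsing hperp, hs]
  have hexp : bl l K (g s) (g s) = 2 * (s c * g s (ng c)) := by
    obtain ⟨e1, e2, e3⟩ := hp_ev (K := K) hc
    have e4 : bl l K (ev (ng c)) (ev c) = 1 := by rw [bl_symm]; exact e3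
    conv_lhs => rw [hdec]
    simp only [map_add, map_smul, LinearMap.add_apply, LinearMap.smul_apply, smul_eq_mul,
      e1, e2, e3, e4]
    ring
  have hmu : g s (ng c) = 0 := by
    rw [hexp] at hiso
    rcases mul_eq_zero.1 hiso with h | h
    · exact absurd h h2
    · rcases mul_eq_zero.1 h with h | h
      · exact absurd h hsc
      · exact h
  rw [hdec, hmu, zero_smul, add_zero]

theorem rges_step {q : ℕ} (hq : QK q K) (hF : Ctx l K F)
    (hS : ∀ a b, SS F a b → SS F (ng a) (ng b)) {s v : Ix l → K}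
    (hs : bl l K s s = 0) (hv : bl l K s v = 0) (hR : RG F (bl l K) s v)
    (hs0 : s ≠ 0) {a : Ix l} (ha : ∀ b, s b ≠ 0 → RR F b a)
    {h : (Ix l → K) ≃ₗ[K] (Ix l → K)} (hh : ∀ u, h u = sg (bl l K) s v u) : h ∈ ES F := by
  obtain ⟨g, hgE, c, hc, x, hx, hgs⟩ := rges_move hq hF hS hs hs0 ha
  have hgF : g ∈ F := ES_le hgE
  have hiso := hF.iso g hgF
  have hhF : h ∈ F := by
    obtain ⟨h', hh', hh''⟩ := hR 1
    have : h = h' := by ext1 u; rw [hh, hh'', one_smul]
    rw [this]; exact hh'
  have hact : ∀ u, (g * h * g⁻¹) u = sg (bl l K) (ev c) (x • g v) u := by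
    intro u
    rw [LinearEquiv.mul_apply, LinearEquiv.mul_apply, hh, sg_conj hiso, hgs, sg_smul]
  have hmem : g * h * g⁻¹ ∈ F := F.mul_mem (F.mul_mem hgF hhF) (F.inv_mem hgF)
  have hy : (x • g v) (ng c) = 0 := by
    rw [← bl_ev c (x • g v), map_smul, smul_eq_mul]
    have : bl l K (x • ev c) (g v) = 0 := by rw [← hgs, hiso, hv]
    rw [map_smul, LinearMap.smul_apply, smul_eq_mul] at this
    exact this
  have hmain : g * h * g⁻¹ ∈ ES F := by
    refine sg_mem_ES hq hc hy ?_ hact
    intro b hb hyb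
    refine lemT hq hF hc hy ⟨_, hmem, hact⟩ hb ?_ hyb
    rintro rfl
    exact hyb hy
  have : h = g⁻¹ * (g * h * g⁻¹) * g := by group
  rw [this]
  exact (ES F).mul_mem ((ES F).mul_mem ((ES F).inv_mem hgE) hmain) hgE

theorem rg_mem_ES {q : ℕ} (hq : QK q K) (hF : Ctx l K F)
    (hS : ∀ a b, SS F a b → SS F (ng a) (ng b)) {s v : Ix l → K}
    (hs : bl l K s s = 0) (hv : bl l K s v = 0) (hR : RG F (bl l K) s v)
    {g : (Ix l → K) ≃ₗ[K] (Ix l → K)} (hg : ∀ u, g u = sg (bl l K) s v u) : g ∈ ES F := by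
  have hnr := ss_nr (F := F) hq hF
  have hvs : bl l K v s = 0 := by rw [bl_symm]; exact hv
  have hcl : ∀ a b, s a * v b - s b * v a ≠ 0 → RR F b (ng a) := by
    intro a b hβ
    by_cases h1 : b = ng a
    · rw [h1]; exact Or.inl rfl
    by_cases h2 : b = a
    · subst h2; exact absurd (by ring) hβ
    have h3 : SS F a b := lemR hq hF hs hv hR h2 h1 hβ
    have h4 : RR F a (ng b) := Or.inr (Or.inl (by rw [ng_ng]; exact h3))
    have h5 : NP (SS F) (ng a) (ng (ng b)) := net_neg hnr hS h4
    rw [ng_ng] at h5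
    exact net_symm hnr hS h5
  by_cases hdep : ∀ a b, s a * v b - s b * v a = 0
  · have hid : ∀ u, sg (bl l K) s v u = u := by
      intro u
      by_cases hs0 : s = 0
      · rw [hs0]; simp [sg]
      · obtain ⟨a, ha⟩ : ∃ a, s a ≠ 0 := by
          by_contra hcon
          push Not at hcon
          exact hs0 (funext hcon)
        have hv' : v = 0 + (v a / s a) • s := by
          funext b
          have := hdep a b
          rw [zero_add, Pi.smul_apply, smul_eq_mul]
          field_simp
          linear_combination this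
        rw [hv', sg_shift bl_symm hs (map_zero _), sg_zero]
    have : g = 1 := by ext1 u; rw [hg, hid]; rfl
    rw [this]
    exact (ES F).one_mem
  push Not at hdep
  obtain ⟨a, b0, hab⟩ := hdep
  have hs0 : s ≠ 0 := by
    rintro rfl
    exact hab (by simp)
  by_cases h3a : ∀ c b, s c * v b - s b * v c ≠ 0 → RR F b (ng a)
  · refine rges_step hq hF hS hs hv hR hs0 (a := ng a) ?_ hg
    intro b hb
    by_contra hcon
    have h1 : ∀ c, s c * v b - s b * v c = 0 := fun c => by
      by_contra h; exact hcon (h3a c b h)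
    have h2 : ∀ c, v c = s c * v b / s b := fun c => by
      field_simp
      linear_combination -(h1 c)
    apply hab
    rw [h2 a, h2 b0]
    ring
  push Not at h3a
  obtain ⟨c, b, hcb, hnb⟩ := h3a
  have hbc := hcl c b hcb
  have hnca : ¬ RR F c a := fun h => by
    have h5 : NP (SS F) (ng c) (ng a) := net_neg hnr hS h
    exact hnb (net_trans hnr hbc h5)
  have hb0a := hcl a b0 hab
  have hcb0 : s c * v b0 - s b0 * v c = 0 := by
    by_contra h
    have h4 := hcl c b0 h
    have h5 : NP (SS F) (ng c) (ng a) := net_trans hnr (net_symm hnr hS h4) hb0a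
    have h6 : NP (SS F) (ng (ng c)) (ng (ng a)) := net_neg hnr hS h5
    rw [ng_ng, ng_ng] at h6
    exact hnca h6
  have hac : s a * v c - s c * v a ≠ 0 := by
    intro h
    -- s_c r_a = s_a r_c , v_c r_a = v_a r_c
    have e1 : s c * (s a * v b0 - s b0 * v a) = 0 := by
      linear_combination s a * hcb0 + s b0 * h
    have e2 : v c * (s a * v b0 - s b0 * v a) = 0 := by
      linear_combination v a * hcb0 + v b0 * h
    have hsc : s c = 0 := (mul_eq_zero.1 e1).resolve_right hab
    have hvc : v c = 0 := (mul_eq_zero.1 e2).resolve_right hab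
    exact hcb (by rw [hsc, hvc]; ring)
  have hca : RR F c (ng a) := hcl a c hac
  -- rows
  have hrow : ∀ d, (∀ x, ¬ (s d * v x - s x * v d ≠ 0 ∧ s d * v (ng x) - s (ng x) * v d ≠ 0)) →
      s d * s d * bl l K v v = 0 := by
    intro d hd
    have h1 : bl l K (s d • v - v d • s) (s d • v - v d • s) = 0 := by
      rw [bl_apply]
      refine Finset.sum_eq_zero fun x _ => ?_
      simp only [Pi.sub_apply, Pi.smul_apply, smul_eq_mul]
      by_contra h
      refine hd x ⟨fun h' => h ?_, fun h' => h ?_⟩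
      · have : s d * v x - v d * s x = 0 := by linear_combination h'
        rw [this, zero_mul]
      · have : s d * v (ng x) - v d * s (ng x) = 0 := by linear_combination h'
        rw [this, mul_zero]
    simp only [map_sub, map_smul, LinearMap.sub_apply, LinearMap.smul_apply, smul_eq_mul,
      hs, hv, hvs] at h1
    linear_combination h1
  have hra : s a * s a * bl l K v v = 0 := by
    refine hrow a fun x ⟨h1, h2⟩ => ?_
    have e1 : NP (SS F) x (ng a) := hcl a x h1
    have e2 : NP (SS F) (ng x) (ng a) := hcl a (ng x) h2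
    have e3 : NP (SS F) (ng x) (ng (ng a)) := net_neg hnr hS e1
    rw [ng_ng] at e3
    have e4 : NP (SS F) (ng a) a := net_trans hnr (net_symm hnr hS e2) e3
    exact hnca (net_trans hnr hca e4)
  have hrc : s c * s c * bl l K v v = 0 := by
    refine hrow c fun x ⟨h1, h2⟩ => ?_
    have e1 : NP (SS F) x (ng c) := hcl c x h1
    have e2 : NP (SS F) (ng x) (ng c) := hcl c (ng x) h2
    have e3 : NP (SS F) (ng x) (ng (ng c)) := net_neg hnr hS e1
    rw [ng_ng] at e3
    have e4 : NP (SS F) (ng c) c := net_trans hnr (net_symm hnr hS e2) e3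
    have e5 : NP (SS F) (ng c) (ng (ng a)) := net_neg hnr hS hca
    rw [ng_ng] at e5
    exact hnca (net_trans hnr (net_symm hnr hS e4) e5)
  have hvv : bl l K v v = 0 := by
    by_contra h
    have e1 : s a = 0 := by
      have := (mul_eq_zero.1 hra).resolve_right h
      rcases mul_eq_zero.1 this with h | h <;> exact h
    have e2 : s c = 0 := by
      have := (mul_eq_zero.1 hrc).resolve_right h
      rcases mul_eq_zero.1 this with h | h <;> exact h
    exact hac (by rw [e1, e2]; ring)
  -- the new basis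
  set D : K := s a * v c - s c * v a with hD
  have hkey : ∀ (x : K) (u : Ix l → K),
      sg (bl l K) (s a • v - v a • s) (x • D⁻¹ • (s c • v - v c • s)) u =
        sg (bl l K) s (x • v) u := by
    intro x u
    simp only [sg, map_sub, map_smul, LinearMap.sub_apply, LinearMap.smul_apply, smul_eq_mul,
      hs, hv, hvs, hvv]
    match_scalars
    · ring
    · field_simp
      rw [hD]; ring
    · field_simp
      rw [hD]; ring
  have hs1 : bl l K (s a • v - v a • s) (s a • v - v a • s) = 0 := by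
    simp only [map_sub, map_smul, LinearMap.sub_apply, LinearMap.smul_apply, smul_eq_mul,
      hs, hv, hvs, hvv]
    ring
  have hs2 : bl l K (s a • v - v a • s) (D⁻¹ • (s c • v - v c • s)) = 0 := by
    simp only [map_sub, map_smul, LinearMap.sub_apply, LinearMap.smul_apply, smul_eq_mul,
      hs, hv, hvs, hvv]
    ring
  have hR' : RG F (bl l K) (s a • v - v a • s) (D⁻¹ • (s c • v - v c • s)) := fun x =>
    (hR x).congr fun u => (hkey x u).symm
  refine rges_step hq hF hS hs1 hs2 hR' ?_ (a := ng a) ?_ ?_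
  · intro h
    have := congrFun h b0
    simp only [Pi.sub_apply, Pi.smul_apply, smul_eq_mul, Pi.zero_apply] at this
    exact hab (by linear_combination this)
  · intro x hx
    refine hcl a x fun h => hx ?_
    simp only [Pi.sub_apply, Pi.smul_apply, smul_eq_mul]
    linear_combination h
  · intro u
    have := hkey 1 u
    rw [one_smul, one_smul] at this
    rw [hg, this]

theorem ES_normal {q : ℕ} (hq : QK q K) (hF : Ctx l K F)
    (hS : ∀ a b, SS F a b → SS F (ng a) (ng b)) {g x : (Ix l → K) ≃ₗ[K] (Ix l → K)}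
    (hg : g ∈ F) (hx : x ∈ ES F) : g * x * g⁻¹ ∈ ES F := by
  have hiso := hF.iso g hg
  rw [ES] at hx
  induction hx using Subgroup.closure_induction with
  | mem x hx =>
    obtain ⟨a, b, c, ha, hab, hx'⟩ := hx
    have hR : RG F (bl l K) (g (ev a)) (g (c • ev b)) :=
      ((hab.2.2.1 ha).smul c).conj hg hiso
    refine rg_mem_ES hq hF hS ?_ ?_ hR ?_
    · rw [hiso, bl_ev, ev_ne (ng_ne_self ha)]
    · rw [hiso, map_smul, smul_eq_mul, bl_ev, ev_ne (Ne.symm hab.2.1), mul_zero]
    · intro u
      rw [LinearEquiv.mul_apply, LinearEquiv.mul_apply, hx', sg_conj hiso]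
  | one => simpa using (ES F).one_mem
  | mul x y _ _ hx hy =>
    have : g * (x * y) * g⁻¹ = (g * x * g⁻¹) * (g * y * g⁻¹) := by group
    rw [this]
    exact (ES F).mul_mem hx hy
  | inv x _ hx =>
    have : g * x⁻¹ * g⁻¹ = (g * x * g⁻¹)⁻¹ := by group
    rw [this]
    exact (ES F).inv_mem hx

end Pool.Agent.H33.TO
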