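import Pool.Agent.H33.TO.Supp
import Pool.Agent.H33.TO.RgES

/-!
# JOB TO-26: moving a plane to a coordinate plane

Assume `hS`.  `(w, w')` a hyperbolic pair with `PL F (w, w')`.  `a ~ b` stands for `RR F a b`, an
equivalence relation compatible with `ng` (`ss_nr`, `net_trans`, `net_symm`, `net_neg`).
Let `β a b = w_a w'_b - w_b w'_a`; by `plane_supp`, `β a b ≠ 0` implies `b ~ ng a` (if `b = ng a`
trivially; else `SS F a b`, i.e. `a ~ ng b`).
(1) `w` is supported on one class: there is `c ≠ none` with `w_c ≠ 0` and `w_b ≠ 0 → b ~ c`.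
 Proof.  Rows `r_a = w_a w' - w'_a w`, supported on the class of `ng a`.
 `w` and `w'` are independent (`bl w w = 0`, `bl w w' = 1`).  If `w_a ≠ 0` then `r_a ≠ 0`.
 Case (i): all `b` with `w_b ≠ 0` or `w'_b ≠ 0` are equivalent: fine.
 Case (ii): not.  Let `r_a ≠ 0`, `r_c ≠ 0` with `a`, `c` not equivalent.  (If `w_b ≠ 0` or
 `w'_b ≠ 0` then `r_b ≠ 0`.)  `r_a`, `r_c` have disjoint supports (classes of `ng a`, `ng c`), so
 they are independent and span the plane `⟨w, w'⟩`.  `β a c ≠ 0` up to sign is the determinant, so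
 `c ~ ng a`.  So `a`, `ng a` are not equivalent, and `r_a`, supported on the class of `ng a`, is
 singular (`bl r_a r_a = ∑ (r_a)_b (r_a)_{-b} = 0` because `b ~ ng a` and `ng b ~ ng a` would
 give `ng a ~ b ~ a`).  `bl r_a r_a = - 2 w_a w'_a` (by `bl w w' = 1`, `bl w w = bl w' w' = 0`),
 so `w_a = 0` or `w'_a = 0`, i.e. `r_a` is a multiple of `w` or of `w'`; the same for `r_c`.
 As they are independent one is a multiple of `w` (nonzero), so `w` is supported on one class.
 (The same for `w'`, not needed.)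
 `c ≠ none` with `w_c ≠ 0` exists because `w ≠ 0` is singular.
(2) Let `y1 = ∑_{b ≠ c, ng c} (w_b / w_c) (ev b)`.  If `y1_b ≠ 0` then `b ~ c`, `b ≠ c, ng c`, so
 `SS F c (ng b)`, so `SS F (ng c) b` by `hS`.  So `u1 ∈ ES F`, acting as `sg (ev (ng c)) y1`
 (`exists_sg`, `sg_mem_ES`).  `u1 (ev c) = ev c + y1 - (1/2) bl y1 y1 (ev (ng c))`, and
 `w_c • u1 (ev c) = w` because both are singular and agree outside the coordinate `ng c`, and
 have nonzero coordinate `w_c` at `c`.
(3) Let `w'' = u1⁻¹ w'`.  `(w_c (ev c), w'') = (u1⁻¹ w, u1⁻¹ w')` is a hyperbolic pair with `PL`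
 (`u1⁻¹ ∈ ES F ≤ F`).  `w''_{-c} = w_c⁻¹`.  For `b ≠ c, ng c`, `w''_b ≠ 0`: `plane_supp` for this
 pair, with `β c b = w_c w''_b ≠ 0`: `SS F c b`.  Let `y2 = ∑_{b ≠ c, ng c} (w_c w''_b) (ev b)` and
 `u2 ∈ ES F` acting as `sg (ev c) y2`: `u2 (ev (ng c)) = ev (ng c) + y2 - (1/2) bl y2 y2 (ev c)
 = w_c • w''` (both singular, same coordinates except possibly at `c`), `u2 (ev c) = ev c`.
(4) `e = u1 u2`: `e (ev c) = u1 (ev c) = w_c⁻¹ • w`, `e (ev (ng c)) = w_c • u1 w'' = w_c • w'`.
 So `x = w_c⁻¹`.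
(5) If `w_m = w_{-m} = w'_m = w'_{-m} = 0`, then `m ≠ c, ng c`, `y1_{±m} = 0`, so
 `u1 (ev m) = ev m - y1_{-m}(..) = ev m`; `w''_{±m} = bl (ev (ng (±m))) (u1⁻¹ w')
 = bl (u1 (ev (∓m))) w' = w'_{±m} = 0`, so `y2_{±m} = 0` and `u2 (ev m) = ev m`.
-/

namespace Pool.Agent.H33.TO

variable {l : ℕ} {K : Type*} [Field K] {F : Subgroup ((Ix l → K) ≃ₗ[K] (Ix l → K))}

/-! #### helper lemmas for `plane_move` -/

theorem mv_eq {c : Ix l} (h2 : (2 : K) ≠ 0) (hc : c ≠ none) {w z : Ix l → K}
    (hw : bl l K w w = 0) (hz : bl l K z z = 0) (h : ∀ b, b ≠ ng c → w b = z b)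
    (hwc : w c ≠ 0) : w = z := by
  have hcc : c ≠ ng c := (ng_ne_self hc).symm
  have e : w = z + (w (ng c) - z (ng c)) • (ev (ng c) : Ix l → K) := by
    funext b
    rw [Pi.add_apply, Pi.smul_apply, smul_eq_mul]
    by_cases hb : b = ng c
    · rw [hb, ev_same]
      ring
    · rw [ev_ne hb, h b hb]
      ring
  set t := w (ng c) - z (ng c) with ht
  have hzc : z c ≠ 0 := by
    rw [← h c hcc]
    exact hwc
  have h1 : bl l K w w = bl l K z z + 2 * t * z c := by
    rw [e]
    simp only [map_add, map_smul, LinearMap.add_apply, LinearMap.smul_apply, smul_eq_mul,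
      bl_ev, bl_ev', ng_ng, ev_ne hcc]
    ring
  rw [hw, hz, zero_add] at h1
  have h3 : t = 0 := by
    have h4 : 2 * t * z c = 0 := h1.symm
    rcases mul_eq_zero.mp h4 with h5 | h5
    · rcases mul_eq_zero.mp h5 with h6 | h6
      · exact absurd h6 h2
      · exact h6
    · exact absurd h5 hzc
  rw [h3, zero_smul, add_zero] at e
  exact e

theorem mv_ne_none {w w' : Ix l → K} (h : HP (bl l K) w w') : ∃ c, c ≠ none ∧ w c ≠ 0 := by
  by_contra hcon
  push Not at hcon
  have e : w = w none • (ev none : Ix l → K) := by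
    funext b
    rw [Pi.smul_apply, smul_eq_mul]
    by_cases hb : b = none
    · rw [hb, ev_same, mul_one]
    · rw [ev_ne hb, mul_zero, hcon b hb]
  have h1 : bl l K w w = w none * w none := by
    conv_lhs => rw [e]
    simp only [map_smul, LinearMap.smul_apply, smul_eq_mul, bl_ev, ng_none, ev_same, mul_one]
  have h2 : w none = 0 := by
    rw [h.1] at h1
    exact mul_self_eq_zero.mp h1.symm
  have h3 : w = 0 := by
    rw [e, h2, zero_smul]
  have h4 := h.2.2
  rw [h3, map_zero, LinearMap.zero_apply] at h4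
  exact zero_ne_one h4

/-- the support of a totally singular row -/
theorem mv_row {q : ℕ} (hq : QK q K) (hl : 3 ≤ l) (hF : Ctx l K F)
    (hS : ∀ a b, SS F a b → SS F (ng a) (ng b)) {w w' : Ix l → K}
    (h : HP (bl l K) w w') (hP : PL F (bl l K) w w') {a b : Ix l}
    (hβ : w a * w' b - w b * w' a ≠ 0) : NP (SS F) b (ng a) := by
  have hN := ss_nr hq hF
  by_cases h1 : b = ng a
  · rw [h1]
    exact NP.refl _ _
  · have h2 : b ≠ a := by
      rintro rfl
      exact hβ (by ring)
    have h3 := plane_supp hq hl hF hS h hP h2 h1 hβ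
    have h4 : NP (SS F) a (ng b) := Or.inr (Or.inl (by rw [ng_ng]; exact h3))
    have h5 := net_neg hN hS h4
    rw [ng_ng] at h5
    exact net_symm hN hS h5

theorem mv_class {q : ℕ} (hq : QK q K) (hl : 3 ≤ l) (hF : Ctx l K F)
    (hS : ∀ a b, SS F a b → SS F (ng a) (ng b)) {w w' : Ix l → K}
    (h : HP (bl l K) w w') (hP : PL F (bl l K) w w') {a c : Ix l} (ha : w a ≠ 0)
    (hc : w c ≠ 0) : NP (SS F) a c := by
  have hN := ss_nr hq hF
  have h2 := hq.two_ne
  by_contra hac
  -- the key claim, for a row which is not selfdual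
  have key : ∀ a : Ix l, w a ≠ 0 → ¬ NP (SS F) a (ng a) → w' a = 0 := by
    intro a ha hna
    have hr : bl l K (w a • w' - w' a • w) (w a • w' - w' a • w) = 0 := by
      rw [bl_apply]
      apply Finset.sum_eq_zero
      intro b _
      by_contra hb
      have hb1 : (w a • w' - w' a • w) b ≠ 0 := left_ne_zero_of_mul hb
      have hb2 : (w a • w' - w' a • w) (ng b) ≠ 0 := right_ne_zero_of_mul hb
      have e1 : w a * w' b - w b * w' a ≠ 0 := by
        intro h0
        apply hb1
        rw [Pi.sub_apply, Pi.smul_apply, Pi.smul_apply, smul_eq_mul, smul_eq_mul, ← h0]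
        ring
      have e2 : w a * w' (ng b) - w (ng b) * w' a ≠ 0 := by
        intro h0
        apply hb2
        rw [Pi.sub_apply, Pi.smul_apply, Pi.smul_apply, smul_eq_mul, smul_eq_mul, ← h0]
        ring
      have r1 := mv_row hq hl hF hS h hP e1
      have r2 := mv_row hq hl hF hS h hP e2
      have r3 := net_neg hN hS r1
      rw [ng_ng] at r3
      exact hna (net_trans hN (net_symm hN hS r3) r2)
    have h3 : bl l K w' w = 1 := by rw [bl_symm]; exact h.2.2
    have hr2 : bl l K (w a • w' - w' a • w) (w a • w' - w' a • w) = - (2 * (w a * w' a)) := by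
      simp only [map_sub, map_smul, LinearMap.sub_apply, LinearMap.smul_apply, smul_eq_mul,
        h.1, h.2.1, h.2.2, h3]
      ring
    rw [hr2] at hr
    have h4 := neg_eq_zero.mp hr
    rcases mul_eq_zero.mp h4 with h5 | h5
    · exact absurd h5 h2
    · rcases mul_eq_zero.mp h5 with h6 | h6
      · exact absurd h6 ha
      · exact h6
  -- rows are nonzero
  have row : ∀ a : Ix l, w a ≠ 0 → ∃ b, w a * w' b - w b * w' a ≠ 0 := by
    intro a ha
    by_contra hcon
    push Not at hcon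
    have e : w a • w' = w' a • w := by
      funext b
      rw [Pi.smul_apply, Pi.smul_apply, smul_eq_mul, smul_eq_mul]
      linear_combination hcon b
    have e2 := congrArg (bl l K w) e
    rw [map_smul, map_smul, h.2.2, h.1, smul_eq_mul, smul_eq_mul, mul_zero, mul_one] at e2
    exact ha e2
  have hβ : w a * w' c - w c * w' a ≠ 0 := by
    intro h0
    obtain ⟨b, hb⟩ := row a ha
    have hb' : w c * w' b - w b * w' c ≠ 0 := by
      intro h1
      apply hb
      have e : w c * (w a * w' b - w b * w' a) = 0 := by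
        linear_combination w a * h1 + w b * h0
      rcases mul_eq_zero.mp e with h5 | h5
      · exact absurd h5 hc
      · exact h5
    have r1 := mv_row hq hl hF hS h hP hb
    have r2 := mv_row hq hl hF hS h hP hb'
    have r3 := net_trans hN (net_symm hN hS r1) r2
    have r4 := net_neg hN hS r3
    rw [ng_ng, ng_ng] at r4
    exact hac r4
  have hca := mv_row hq hl hF hS h hP hβ
  have hna : ¬ NP (SS F) a (ng a) := fun h5 => hac (net_trans hN h5 (net_symm hN hS hca))
  have hnc : ¬ NP (SS F) c (ng c) := by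
    intro h5
    have h6 := net_neg hN hS hca
    rw [ng_ng] at h6
    exact hac (net_symm hN hS (net_trans hN h5 h6))
  have h7 := key a ha hna
  have h8 := key c hc hnc
  exact hβ (by rw [h7, h8]; ring)

theorem plane_move {q : ℕ} (hq : QK q K) (hl : 3 ≤ l) (hF : Ctx l K F)
    (hS : ∀ a b, SS F a b → SS F (ng a) (ng b)) {w w' : Ix l → K}
    (h : HP (bl l K) w w') (hP : PL F (bl l K) w w') :
    ∃ e ∈ ES F, ∃ c : Ix l, ∃ x : K, c ≠ none ∧ x ≠ 0 ∧ w c ≠ 0 ∧ e (ev c) = x • w ∧
      e (ev (ng c)) = x⁻¹ • w' ∧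
      ∀ m, w m = 0 → w (ng m) = 0 → w' m = 0 → w' (ng m) = 0 → e (ev m) = ev m := by
  classical
  have hN := ss_nr hq hF
  have h2 := hq.two_ne
  obtain ⟨c, hc, hwc⟩ := mv_ne_none h
  have hcc : c ≠ ng c := (ng_ne_self hc).symm
  have hcc' : ng c ≠ c := ng_ne_self hc
  have hnc : ng c ≠ none := ng_ne_none hc
  have hcl : ∀ b, w b ≠ 0 → b ≠ c → b ≠ ng c → SS F (ng c) b := by
    intro b hb hb1 hb2
    have h3 := mv_class hq hl hF hS h hP hwc hb
    rcases h3 with h4 | h4 | h4
    · exact absurd h4.symm hb1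
    · have h5 := hS _ _ h4
      rw [ng_ng] at h5
      exact h5
    · exact absurd h4.1 hb2
  -- the first element
  set y1 : Ix l → K := fun b => if b = c ∨ b = ng c then 0 else w b / w c with hy1
  have y1c : y1 c = 0 := by simp [hy1]
  have y1n : y1 (ng c) = 0 := by simp [hy1]
  have y1b : ∀ b, b ≠ c → b ≠ ng c → y1 b = w b / w c := by
    intro b hb hb'
    simp [hy1, hb, hb']
  have hs1 : bl l K (ev (ng c)) (ev (ng c)) = 0 := by rw [bl_ev, ng_ng, ev_ne hcc]
  have hv1 : bl l K (ev (ng c)) y1 = 0 := by rw [bl_ev, ng_ng, y1c]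
  obtain ⟨u1, hu1⟩ := exists_sg (K := K) bl_symm h2 hs1 hv1
  have hu1E : u1 ∈ ES F := by
    refine sg_mem_ES hq hnc (by rw [ng_ng]; exact y1c) ?_ hu1
    intro b hb hyb
    have hbc : b ≠ c := by
      rintro rfl
      exact hyb y1c
    have hwb : w b ≠ 0 := by
      intro h0
      apply hyb
      rw [y1b b hbc hb, h0, zero_div]
    exact hcl b hwb hbc hb
  have hu1F := ES_le hu1E
  have hu1i := hF.iso u1 hu1F
  have hu1c : u1 (ev c) = ev c + y1 - ((1 / 2 : K) * bl l K y1 y1) • ev (ng c) := by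
    rw [hu1]
    simp only [sg, bl_ev, y1n, ev_same]
    module
  have hw1 : w c • u1 (ev c) = w := by
    symm
    apply mv_eq h2 hc h.1 _ _ hwc
    · rw [map_smul, map_smul, LinearMap.smul_apply, hu1i, (hp_ev hc).1]
      simp
    · intro b hb
      rw [hu1c, Pi.smul_apply, Pi.sub_apply, Pi.add_apply, Pi.smul_apply, ev_ne hb, smul_zero,
        sub_zero, smul_eq_mul]
      by_cases hbc : b = c
      · rw [hbc, ev_same, y1c]
        ring
      · rw [ev_ne hbc, y1b b hbc hb, zero_add, mul_div_cancel₀ _ hwc]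
  -- the second element
  have hui : ∀ v, u1 (u1⁻¹ v) = v := fun v => by
    rw [← LinearEquiv.mul_apply, mul_inv_cancel]; rfl
  have hui' : ∀ v, u1⁻¹ (u1 v) = v := fun v => by
    rw [← LinearEquiv.mul_apply, inv_mul_cancel]; rfl
  set w2 : Ix l → K := u1⁻¹ w' with hw2
  have hw1' : u1⁻¹ w = w c • (ev c : Ix l → K) := by
    have h4 : u1⁻¹ w = u1⁻¹ (u1 (w c • (ev c : Ix l → K))) := by rw [map_smul, hw1]
    rw [h4, hui']
  have hinv := hF.iso u1⁻¹ (F.inv_mem hu1F)
  have hH2 : HP (bl l K) (w c • (ev c : Ix l → K)) w2 := by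
    rw [← hw1', hw2]
    exact ⟨by rw [hinv]; exact h.1, by rw [hinv]; exact h.2.1, by rw [hinv]; exact h.2.2⟩
  have hP2 : PL F (bl l K) (w c • (ev c : Ix l → K)) w2 := by
    rw [← hw1', hw2]
    exact hP.conj (F.inv_mem hu1F) hinv
  have hw2n : w c * w2 (ng c) = 1 := by
    have h4 := hH2.2.2
    rw [map_smul, LinearMap.smul_apply, bl_ev, smul_eq_mul] at h4
    exact h4
  have hcl2 : ∀ b, w2 b ≠ 0 → b ≠ c → b ≠ ng c → SS F c b := by
    intro b hb hb1 hb2
    apply plane_supp hq hl hF hS hH2 hP2 hb1 hb2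
    rw [Pi.smul_apply, Pi.smul_apply, ev_same, ev_ne hb1, smul_zero, zero_mul, sub_zero,
      smul_eq_mul, mul_one]
    exact mul_ne_zero hwc hb
  set y2 : Ix l → K := fun b => if b = c ∨ b = ng c then 0 else w c * w2 b with hy2
  have y2c : y2 c = 0 := by simp [hy2]
  have y2n : y2 (ng c) = 0 := by simp [hy2]
  have y2b : ∀ b, b ≠ c → b ≠ ng c → y2 b = w c * w2 b := by
    intro b hb hb'
    simp [hy2, hb, hb']
  have hs2 : bl l K (ev c) (ev c) = 0 := (hp_ev hc).1
  have hv2 : bl l K (ev c) y2 = 0 := by rw [bl_ev, y2n]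
  obtain ⟨u2, hu2⟩ := exists_sg (K := K) bl_symm h2 hs2 hv2
  have hu2E : u2 ∈ ES F := by
    refine sg_mem_ES hq hc y2n ?_ hu2
    intro b hb hyb
    have hbc : b ≠ ng c := by
      rintro rfl
      exact hyb y2n
    have hwb : w2 b ≠ 0 := by
      intro h0
      apply hyb
      rw [y2b b hb hbc, h0, mul_zero]
    exact hcl2 b hwb hb hbc
  have hu2i := hF.iso u2 (ES_le hu2E)
  have hu2n : u2 (ev (ng c)) = ev (ng c) + y2 - ((1 / 2 : K) * bl l K y2 y2) • ev c := by
    rw [hu2]
    simp only [sg, bl_ev, ng_ng, y2c, ev_same]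
    module
  have hu2c : u2 (ev c) = ev c := by
    rw [hu2]
    simp only [sg, bl_ev, y2n, ev_ne hcc']
    module
  have hw2' : w c • w2 = u2 (ev (ng c)) := by
    have e0 : (w c • w2) (ng c) = 1 := by rw [Pi.smul_apply, smul_eq_mul, hw2n]
    apply mv_eq h2 hnc
    · rw [map_smul, map_smul, LinearMap.smul_apply, hH2.2.1]
      simp
    · rw [hu2i, hs1]
    · intro b hb
      rw [ng_ng] at hb
      rw [hu2n, Pi.smul_apply, Pi.sub_apply, Pi.add_apply, Pi.smul_apply, ev_ne hb, smul_zero,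
        sub_zero, smul_eq_mul]
      by_cases hbc : b = ng c
      · rw [hbc, ev_same, y2n, hw2n]
        ring
      · rw [ev_ne hbc, y2b b hb hbc, zero_add]
    · rw [e0]
      exact one_ne_zero
  refine ⟨u1 * u2, (ES F).mul_mem hu1E hu2E, c, (w c)⁻¹, hc, inv_ne_zero hwc, hwc, ?_, ?_, ?_⟩
  · rw [LinearEquiv.mul_apply, hu2c]
    calc u1 (ev c) = (w c)⁻¹ • (w c • u1 (ev c)) := by
          rw [smul_smul, inv_mul_cancel₀ hwc, one_smul]
      _ = (w c)⁻¹ • w := by rw [hw1]
  · rw [LinearEquiv.mul_apply, ← hw2', map_smul, hw2, hui, inv_inv]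
  · intro m hm hmn hm' hmn'
    have hmc : m ≠ c := by
      rintro rfl
      exact hwc hm
    have hmc' : m ≠ ng c := by
      rintro rfl
      rw [ng_ng] at hmn
      exact hwc hmn
    have hnm : ng m ≠ c := fun h0 => hmc' (by rw [← h0, ng_ng])
    have hnm' : ng m ≠ ng c := fun h0 => hmc (ng_inj h0)
    have hy1m : y1 (ng m) = 0 := by rw [y1b _ hnm hnm', hmn, zero_div]
    have hu1m : u1 (ev m) = ev m := by
      rw [hu1]
      simp only [sg, bl_ev, hy1m, ev_ne hnm']
      module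
    have hw2m : w2 (ng m) = 0 := by
      have h5 : bl l K (ev m) w2 = bl l K (ev m) w' := by
        rw [← hu1i (ev m) w2, hu1m, hw2, hui]
      rw [bl_ev, bl_ev, hmn'] at h5
      exact h5
    have hy2m : y2 (ng m) = 0 := by rw [y2b _ hnm hnm', hw2m, mul_zero]
    have hu2m : u2 (ev m) = ev m := by
      rw [hu2]
      simp only [sg, bl_ev, hy2m, ev_ne hnm]
      module
    rw [LinearEquiv.mul_apply, hu2m, hu1m]

end Pool.Agent.H33.TO
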