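import Pool.Agent.H33.TO.Star
import Pool.Agent.H33.TO.PairLem

/-!
# JOB TO-17: roots and planes, a class with two elements

Let `hS` hold (symmetry), `(w, w')` a hyperbolic pair with `PL F (w, w')`,
`β c d = w_c w'_d - w_d w'_c`, `β a b ≠ 0`, `b ≠ a, ng a`, `¬ SS F a b`.
Claim (`L1`): `¬ SS F a (ng b)`.

Proof.  Suppose `SS F a (ng b)`, hence `SS F (ng a) b`.  By `starstar` the only `d` with `SS F a d`
is `ng b`, the only `d` with `SS F b d` is `ng a`; by `hS` the only `d` with `SS F (ng a) d` is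
`b`, the only `d` with `SS F (ng b) d` is `a`.  `a, b ≠ none`: if `a = none`, then `SS F none (ng b)`
gives by `hS` `SS F none b`, contradiction with `¬ SS F a b`; the same for `b`.
(1) `w, w'` are supported on `M = {a, b, ng a, ng b}`.  Let `β a d ≠ 0`, `d ∉ M`.  Then
  `¬ SS F a d`, and `starstar` for `(a, d)` says that `SS F a (ng b)` implies `ng b = ng d`,
  i.e. `b = d`, contradiction.  So the row `r_a = w_a w' - w'_a w` is supported on `M`,
  similarly the row `r_b` (use `SS F b (ng a)`).  As `β a b ≠ 0`, `w` and `w'` are combinations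
  of `r_a, r_b` (Cramer), so they are supported on `M`.
(2) Let `w = x e_a + x' e_b + y e_{-a} + y' e_{-b}`, similarly `w'`.  `D := β a b = w_a w'_b -
  w_b w'_a ≠ 0`.  There is `g ∈ ES F ≤ F` such that `g w = p e_a + m e_{-b}`,
  `g w' = z e_b + u e_{-a}` with `p z = D`.
  Proof: the elements acting as `sg (ev a) (c • ev (ng b))`, which map
  `e_b ↦ e_b - c e_a`, `e_{-a} ↦ e_{-a} + c e_{-b}`, and fix `e_a, e_{-b}`; and those acting as
  `sg (ev b) (c • ev (ng a))` (`SS F b (ng a)`) which map `e_a ↦ e_a - c e_b`,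
  `e_{-b} ↦ e_{-b} + c e_{-a}` and fix `e_b, e_{-a}`, are in `F`.  On the pair of columns
  `(w_a, w_b), (w'_a, w'_b)` they act as elementary matrices of determinant 1.  The matrix
  `(w_a w'_a; w_b w'_b)` has determinant `D ≠ 0`.  Row operations make it diagonal
  `diag(p, z)`: if `w_a = 0` first add row `b` to row `a`; then clear `w_b` with row `a`; then
  the second entry of the last row is `w'_b ≠ 0` (determinant), clear `w'_a` with it.
  So we may assume `w = p e_a + y e_{-a} + m e_{-b}`, `w' = z e_b + u e_{-a} + v e_{-b}`.  Now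
  `bl w w = 2 p y = 0` so `y = 0`; `bl w' w' = 2 z v = 0` so `v = 0`.  And
  `bl w w' = p u + m z = 1`.  (Replace `(w, w')` by `(g w, g w')`: `HP`, `PL` are kept.)
(3) For `r ∈ Kˣ` there is `t ∈ F` of the torus with `t_a t_b = r`: take `t_a = r`, `t_b = 1`
  and at a third index `k` (`3 ≤ l`, so there is `k ≠ ± a, ± b`, `k ≠ none`) `t_k = r`: then
  the product of the `τ_i` is `r^{±1} r^{±1}`, a square (`Ctx.has_two` with `a`, `k`: `x = y = r`).
  `t w = r p e_a + m e_{-b}`, `t w' = z e_b + r⁻¹ u e_{-a}`.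
  `bl w (t w) = 0`, `bl w' (t w') = 0`, `bl w (t w') = p u r⁻¹ + m z`,
  `bl w' (t w) = m z + p u r`, product
  `τ(r) = 1 + c (r + r⁻¹ - 2)`, `c = (p u)(m z)` (using `p u + m z = 1`).
(4) For every `r`: `τ(r) = 0` or `τ(r) = 1` or `kapOK q (τ(r))`.  Otherwise `pair_lemma3` for the
  planes `(w, w')`, `(t w, t w')` gives `s = x1 w' + x3 t w' ∈ ⟨e_b, e_{-a}⟩`,
  `v = y0 w + y2 t w ∈ ⟨e_a, e_{-b}⟩`, independent, `s` singular, `bl s v = 0`, `RG F (s, v)`.
  Then `s_a = 0`, `v_b = 0`, `s_a v_b - s_b v_a = - s_b v_a`: if `≠ 0` then `lemR` gives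
  `SS F a b`, contradiction, so `s_b v_a = 0`.  Similarly for `(ng a, ng b)`:
  `s_{-a} v_{-b} - s_{-b} v_{-a} = s_{-a} v_{-b}`; if `≠ 0`, `SS F (ng a) (ng b)`, so `SS F a b` by
  `hS`; so `s_{-a} v_{-b} = 0`.  `s, v ≠ 0`.  If `s_b ≠ 0`: `v_a = 0`, so `v_{-b} ≠ 0`, so
  `s_{-a} = 0`, `bl s v = s_b v_{-b} ≠ 0`, contradiction.  If `s_b = 0`: `s_{-a} ≠ 0`,
  `v_{-b} = 0`, `v_a ≠ 0`, `bl s v = s_{-a} v_a ≠ 0`, contradiction.
(5) (4) implies `c = 0`: a finite check over `K` (`sigma_zero` below; q = 7: `r = 2, 3, 6` give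
  `1 + 4c`, `1 + 6c`, `1 + 3c ∈ {0,1,3,5}`; q = 11: `1 + 7c, 1 + 6c, 1 + 5c, 1 + c, 1 + 2c ∈
  {0,1,2,10}`; q = 9: `r = i` gives `1 + c ∈ {0,1,2}`, `r = 1 + i` gives
  `1 + c (1 + 2i) ∈ {0,1,2}`).  Use `cd7_surj` etc. to reduce to codes.
(6) `c = 0`: `p u = 0` or `m z = 0`, `p, z ≠ 0`, `p u + m z = 1`.
  * `m = 0`: `p u = 1`.  `w = p e_a`, `w' = z e_b + p⁻¹ e_{-a}`.  `(p⁻¹ w, p w') =
    (e_a, e_{-a} + p z e_b)` has `PL` (`PL.scale`).  `rt_shift` with `e = e_a`, `f = e_{-a}`,
    `y = p z e_b` (`bl y y = 0`): for a square `d ≠ 0, 1` the product of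
    `rt e (f + y - 0) d` and `rt e f d⁻¹` (both in `F`; the second by `pl_ev`) is
    `sg e ((1 - d) y)`; so `lemT` gives `SS F a b`, contradiction.
  * `u = 0`: `m z = 1`, `w' = z e_b`, `w = p e_a + z⁻¹ e_{-b}`: the same with the pair
    `(z⁻¹ w', z w) = (e_b, e_{-b} + z p e_a)` (`PL.swap`): `SS F b a`, contradiction.
-/

namespace Pool.Agent.H33.TO

variable {l : ℕ} {K : Type*} [Field K] {F : Subgroup ((Ix l → K) ≃ₗ[K] (Ix l → K))}

theorem natcast_mod_eq {p : ℕ} [Fact p.Prime] (hp : ((p : ℕ) : K) = 0) {a b : ℕ}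
    (h : (a : K) = b) : a % p = b % p := by
  have hchar : CharP K p := by
    have h1 : ringChar K ∣ p := ringChar.dvd hp
    have h2 : ringChar K ≠ 1 := by
      intro h
      have := ringChar.spec K 1
      rw [h] at this
      simp at this
    have h3 : ringChar K = p := ((Nat.dvd_prime Fact.out).1 h1).resolve_left h2
    rw [← h3]
    exact ringChar.charP K
  exact (CharP.natCast_eq_natCast K p).1 h

theorem sigma_zero7 (h7 : Nat.card K = 7) {c : K}
    (h : ∀ r s : K, r * s = 1 → (1 + c * (r + s - 2) = 0 ∨ 1 + c * (r + s - 2) = 1 ∨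
      kapOK 7 (1 + c * (r + s - 2)))) : c = 0 := by
  have hp : ((7 : ℕ) : K) = 0 := by have := card_cast K; rwa [h7] at this
  have hp' : (7 : K) = 0 := by exact_mod_cast hp
  obtain ⟨n, hn, hc⟩ := cd7_surj h7 c
  have hc' : (n : K) = c := hc
  have key : ∀ r s m : ℕ, r * s % 7 = 1 → (r + s - 2) = m → 2 ≤ r + s →
      ((1 + n * m) % 7 = 0 ∨ (1 + n * m) % 7 = 1 ∨ (1 + n * m) % 7 = 3 ∨ (1 + n * m) % 7 = 5) := by
    intro r s m hrs hm h2
    have e1 : (r : K) * (s : K) = 1 := by
      rw [← Nat.cast_mul, ← cast_mod hp, hrs, Nat.cast_one]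
    have e2 : (r : K) + s - 2 = m := by
      have : ((m + 2 : ℕ) : K) = ((r + s : ℕ) : K) := by congr 1; omega
      push_cast at this
      linear_combination -this
    have e3 : 1 + c * ((r : K) + s - 2) = ((1 + n * m : ℕ) : K) := by
      rw [e2, ← hc']
      push_cast
      rfl
    rcases h r s e1 with h0 | h0 | h0 | h0 | h0
    · left
      rw [e3] at h0
      have := natcast_mod_eq (p := 7) hp (b := 0) (by rw [h0]; simp)
      simpa using this
    · right; left
      rw [e3] at h0
      have := natcast_mod_eq (p := 7) hp (b := 1) (by rw [h0]; simp)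
      simpa using this
    · right; right
      rw [e3] at h0
      rcases h0.2 with h0 | h0
      · left
        have := natcast_mod_eq (p := 7) hp (b := 3) (by rw [h0]; norm_num)
        simpa using this
      · right
        have := natcast_mod_eq (p := 7) hp (b := 5) (by rw [h0]; norm_num)
        simpa using this
    · exact absurd h0.1 (by norm_num)
    · exact absurd h0.1 (by norm_num)
  have k1 := key 2 4 4 (by norm_num) (by norm_num) (by norm_num)
  have k2 := key 3 5 6 (by norm_num) (by norm_num) (by norm_num)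
  have k3 := key 6 6 10 (by norm_num) (by norm_num) (by norm_num)
  have : n = 0 := by
    interval_cases n <;> first | rfl | (exfalso; revert k1 k2 k3; decide)
  rw [← hc', this, Nat.cast_zero]

theorem sigma_zero11 (h7 : Nat.card K = 11) {c : K}
    (h : ∀ r s : K, r * s = 1 → (1 + c * (r + s - 2) = 0 ∨ 1 + c * (r + s - 2) = 1 ∨
      kapOK 11 (1 + c * (r + s - 2)))) : c = 0 := by
  have hp : ((11 : ℕ) : K) = 0 := by have := card_cast K; rwa [h7] at this
  obtain ⟨n, hn, hc⟩ := cd11_surj h7 c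
  have hc' : (n : K) = c := hc
  have key : ∀ r s m : ℕ, r * s % 11 = 1 → (r + s - 2) = m → 2 ≤ r + s →
      ((1 + n * m) % 11 = 0 ∨ (1 + n * m) % 11 = 1 ∨ (1 + n * m) % 11 = 2 ∨
        (1 + n * m) % 11 = 10) := by
    intro r s m hrs hm h2
    have e1 : (r : K) * (s : K) = 1 := by
      rw [← Nat.cast_mul, ← cast_mod hp, hrs, Nat.cast_one]
    have e2 : (r : K) + s - 2 = m := by
      have : ((m + 2 : ℕ) : K) = ((r + s : ℕ) : K) := by congr 1; omega
      push_cast at this
      linear_combination -this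
    have e3 : 1 + c * ((r : K) + s - 2) = ((1 + n * m : ℕ) : K) := by
      rw [e2, ← hc']
      push_cast
      rfl
    rcases h r s e1 with h0 | h0 | h0 | h0 | h0
    · left
      rw [e3] at h0
      have := natcast_mod_eq (p := 11) hp (b := 0) (by rw [h0]; simp)
      simpa using this
    · right; left
      rw [e3] at h0
      have := natcast_mod_eq (p := 11) hp (b := 1) (by rw [h0]; simp)
      simpa using this
    · exact absurd h0.1 (by norm_num)
    · right; right
      rw [e3] at h0
      rcases h0.2 with h0 | h0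
      · left
        have := natcast_mod_eq (p := 11) hp (b := 2) (by rw [h0]; norm_num)
        simpa using this
      · right
        have := natcast_mod_eq (p := 11) hp (b := 10) (by rw [h0]; norm_num)
        simpa using this
    · exact absurd h0.1 (by norm_num)
  have k1 := key 5 9 12 (by norm_num) (by norm_num) (by norm_num)
  have k2 := key 7 8 13 (by norm_num) (by norm_num) (by norm_num)
  have k3 := key 3 4 5 (by norm_num) (by norm_num) (by norm_num)
  have : n = 0 := by
    interval_cases n <;> first | rfl | (exfalso; revert k1 k2 k3; decide)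
  rw [← hc', this, Nat.cast_zero]

theorem sigma_zero9 (h9 : Nat.card K = 9) {c : K}
    (h : ∀ r s : K, r * s = 1 → (1 + c * (r + s - 2) = 0 ∨ 1 + c * (r + s - 2) = 1 ∨
      kapOK 9 (1 + c * (r + s - 2)))) : c = 0 := by
  have h3' := three_eq_zero h9
  have h3 : (3 : K) = 0 := by exact_mod_cast h3'
  obtain ⟨i, hi⟩ := exists_i h9
  have hk : ∀ x : K, kapOK 9 x → x = 2 := by
    intro x hx
    rcases hx with hx | hx | hx
    · exact absurd hx.1 (by norm_num)
    · exact absurd hx.1 (by norm_num)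
    · exact hx.2
  have h2 : (2 : K) ≠ 0 := fun h2 => by
    have : (1 : K) = 0 := by linear_combination h3 - h2
    exact one_ne_zero this
  have hi3 : ∀ x : K, x = 0 ∨ x = 1 ∨ x = -1 → i ≠ x := by
    intro x hx hix
    rcases hx with hx | hx | hx
    · rw [hix, hx] at hi
      exact one_ne_zero (α := K) (by linear_combination hi)
    · rw [hix, hx] at hi
      exact h2 (by linear_combination hi)
    · rw [hix, hx] at hi
      exact h2 (by linear_combination hi)
  have s1 := h i (-i) (by linear_combination -hi)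
  have s2 := h (1 + i) (2 + i) (by linear_combination hi + i * h3)
  have t1 : c = 0 ∨ c = 1 ∨ c = -1 := by
    rcases s1 with e | e | e
    · right; right
      linear_combination e + c * h3
    · left
      linear_combination e + c * h3
    · right; left
      have := hk _ e
      linear_combination this + c * h3
  rcases t1 with e | e | e
  · exact e
  · exfalso
    rw [e] at s2
    rcases s2 with f | f | f
    · exact hi3 (-1) (Or.inr (Or.inr rfl)) (by linear_combination -f + (1 + i) * h3)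
    · exact hi3 1 (Or.inr (Or.inl rfl)) (by linear_combination -f + (1 + i) * h3 - h3)
    · have f := hk _ f
      exact hi3 0 (Or.inl rfl) (by linear_combination -f + (1 + i) * h3 - h3)
  · exfalso
    rw [e] at s2
    rcases s2 with f | f | f
    · exact hi3 0 (Or.inl rfl) (by linear_combination f + i * h3)
    · exact hi3 1 (Or.inr (Or.inl rfl)) (by linear_combination f + i * h3)
    · have f := hk _ f
      exact hi3 (-1) (Or.inr (Or.inr rfl)) (by linear_combination f + i * h3 + h3)

theorem sigma_zero {q : ℕ} (hq : QK q K) {c : K}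
    (h : ∀ r : K, r ≠ 0 → (1 + c * (r + r⁻¹ - 2) = 0 ∨ 1 + c * (r + r⁻¹ - 2) = 1 ∨
      kapOK q (1 + c * (r + r⁻¹ - 2)))) : c = 0 := by
  have h' : ∀ r s : K, r * s = 1 → (1 + c * (r + s - 2) = 0 ∨ 1 + c * (r + s - 2) = 1 ∨
      kapOK q (1 + c * (r + s - 2))) := by
    intro r s hrs
    have hr : r ≠ 0 := left_ne_zero_of_mul_eq_one hrs
    have hs : r⁻¹ = s := inv_eq_of_mul_eq_one_right hrs
    rw [← hs]
    exact h r hr
  obtain ⟨h1, rfl | rfl | rfl⟩ := hq
  · exact sigma_zero7 h1 h'
  · exact sigma_zero9 h1 h'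
  · exact sigma_zero11 h1 h'

theorem exists_third (hl : 3 ≤ l) (i j : Fin l) : ∃ m : Fin l, m ≠ i ∧ m ≠ j := by
  by_contra h
  push Not at h
  have h1 : (Finset.univ : Finset (Fin l)) ⊆ {i, j} := by
    intro m _
    by_cases hm : m = i
    · simp [hm]
    · simp [h m hm]
  have h2 := Finset.card_le_card h1
  have h3 : ({i, j} : Finset (Fin l)).card ≤ 2 := Finset.card_le_two
  rw [Finset.card_univ, Fintype.card_fin] at h2
  omega

/-- a further index -/
theorem exists_idx (hl : 3 ≤ l) (a b : Ix l) : ∃ k : Ix l, k ≠ none ∧ k ≠ a ∧ k ≠ ng a ∧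
    k ≠ b ∧ k ≠ ng b := by
  have h0 : ∀ a : Ix l, ∃ i : Fin l, ∀ m : Fin l, m ≠ i → (some (m, true) : Ix l) ≠ a ∧
      (some (m, true) : Ix l) ≠ ng a := by
    intro a
    rcases a with _ | ⟨i, c⟩
    · exact ⟨⟨0, by omega⟩, fun m _ => ⟨by simp, by simp⟩⟩
    · refine ⟨i, fun m hm => ⟨fun e => hm ?_, fun e => hm ?_⟩⟩
      · simp only [Option.some.injEq, Prod.mk.injEq] at e
        exact e.1
      · simp only [ng, Option.some.injEq, Prod.mk.injEq] at e
        exact e.1
  obtain ⟨i, hi⟩ := h0 a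
  obtain ⟨j, hj⟩ := h0 b
  obtain ⟨m, hm1, hm2⟩ := exists_third hl i j
  exact ⟨some (m, true), by simp, (hi m hm1).1, (hi m hm1).2, (hj m hm2).1, (hj m hm2).2⟩

/-- the last step of `L1` -/
theorem L1fin {q : ℕ} (hq : QK q K) (hF : Ctx l K F) {a b : Ix l} (ha : a ≠ none)
    (hbn : b ≠ none) (hb : b ≠ a) (hb' : b ≠ ng a) {k : K} (hk : k ≠ 0)
    (hP : PL F (bl l K) (ev a) (ev (ng a) + k • ev b)) : SS F a b := by
  obtain ⟨d, -, hd, -, hd0, -, hd1, -⟩ := two_sq hq
  have hyy : bl l K (k • ev b) (k • ev b) = 0 := by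
    rw [map_smul, map_smul, LinearMap.smul_apply, bl_ev, ev_ne (ng_ne_self hbn)]
    simp
  have hey : bl l K (ev a) (k • ev b) = 0 := by
    rw [map_smul, bl_ev, ev_ne (Ne.symm hb'), smul_zero]
  have hfy : bl l K (ev (ng a)) (k • ev b) = 0 := by
    rw [map_smul, bl_ev, ng_ng, ev_ne (Ne.symm hb), smul_zero]
  have h1 := hP d hd0 hd
  have h2 := pl_ev hF ha d⁻¹ (inv_ne_zero hd0) (by
    obtain ⟨r, hr⟩ := hd
    exact ⟨r⁻¹, by rw [hr, mul_inv]⟩)
  have h3 : Has F (sg (bl l K) (ev a) ((1 - d) • (k • ev b))) := by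
    refine (h1.comp h2).congr fun u => ?_
    rw [← rt_shift bl_symm hq.two_ne (hp_ev ha) hey hfy hd0 u, hyy]
    simp
  refine lemT hq hF ha ?_ h3 hb hb' ?_
  · simp only [Pi.smul_apply, smul_eq_mul]
    rw [ev_ne (Ne.symm hb')]
    simp
  · simp only [Pi.smul_apply, smul_eq_mul, ev_same, mul_one]
    exact mul_ne_zero (sub_ne_zero.2 (Ne.symm hd1)) hk

/-- `L1` for a pair in normal form -/
theorem L1norm {q : ℕ} (hq : QK q K) (hl : 3 ≤ l) (hF : Ctx l K F)
    (hS : ∀ a b, SS F a b → SS F (ng a) (ng b)) {w w' : Ix l → K}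
    (h : HP (bl l K) w w') (hP : PL F (bl l K) w w') {a b : Ix l} (hb : b ≠ a)
    (hb' : b ≠ ng a) (hwa : w a ≠ 0) (hwb : w b = 0) (hwa' : w' a = 0) (hwb' : w' b ≠ 0)
    (hn : ¬ SS F a b) (han : a ≠ none) (hbn : b ≠ none) (hab : SS F a (ng b)) : False := by
  have hβ : w a * w' b - w b * w' a ≠ 0 := by
    rw [hwb, zero_mul, sub_zero]
    exact mul_ne_zero hwa hwb'
  obtain ⟨hA, hB⟩ := starstar hq hF hS h hP hb hb' hβ hn
  have hba : SS F b (ng a) := by
    have := (hS _ _ hab).symm
    rwa [ng_ng] at this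
  have e1 : a ≠ ng a := fun e => ng_ne_self han e.symm
  have e2 : b ≠ ng b := fun e => ng_ne_self hbn e.symm
  have e3 : a ≠ ng b := fun e => hb' (by rw [e, ng_ng])
  have e4 : ng a ≠ ng b := fun e => hb (ng_inj e).symm
  -- support
  have hsup : ∀ d, d ≠ a → d ≠ ng a → d ≠ b → d ≠ ng b → w d = 0 ∧ w' d = 0 := by
    intro d d1 d2 d3 d4
    have k1 : w a * w' d - w d * w' a = 0 := by
      by_contra hne
      have hn' : ¬ SS F a d := fun e => d4 (hA d e)
      have := (starstar hq hF hS h hP d1 d2 hne hn').1 _ hab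
      exact d3 (ng_inj this).symm
    have k2 : w b * w' d - w d * w' b = 0 := by
      by_contra hne
      have hn' : ¬ SS F b d := fun e => d2 (hB d e)
      have := (starstar hq hF hS h hP d3 d4 hne hn').1 _ hba
      exact d1 (ng_inj this).symm
    rw [hwa', mul_zero, sub_zero] at k1
    rw [hwb, zero_mul, zero_sub, neg_eq_zero] at k2
    refine ⟨?_, ?_⟩
    · exact (mul_eq_zero.1 k2).resolve_right hwb'
    · exact (mul_eq_zero.1 k1).resolve_left hwa
  have hw0 : w = w a • ev a + w (ng a) • ev (ng a) + w (ng b) • ev (ng b) := by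
    funext d
    simp only [Pi.add_apply, Pi.smul_apply, smul_eq_mul]
    by_cases d1 : d = a
    · subst d1
      rw [ev_same, ev_ne e1, ev_ne e3]; ring
    · by_cases d2 : d = ng a
      · subst d2
        rw [ev_same, ev_ne d1, ev_ne e4]; ring
      · by_cases d3 : d = b
        · subst d3
          rw [hwb, ev_ne d1, ev_ne d2, ev_ne e2]; ring
        · by_cases d4 : d = ng b
          · subst d4
            rw [ev_same, ev_ne d1, ev_ne d2]; ring
          · rw [(hsup d d1 d2 d3 d4).1, ev_ne d1, ev_ne d2, ev_ne d4]; ring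
  have hw0' : w' = w' b • ev b + w' (ng a) • ev (ng a) + w' (ng b) • ev (ng b) := by
    funext d
    simp only [Pi.add_apply, Pi.smul_apply, smul_eq_mul]
    by_cases d1 : d = a
    · subst d1
      rw [hwa', ev_ne (Ne.symm hb), ev_ne e1, ev_ne e3]; ring
    · by_cases d2 : d = ng a
      · subst d2
        rw [ev_same, ev_ne (Ne.symm hb'), ev_ne e4]; ring
      · by_cases d3 : d = b
        · subst d3
          rw [ev_same, ev_ne d2, ev_ne e2]; ring
        · by_cases d4 : d = ng b
          · subst d4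
            rw [ev_same, ev_ne d3, ev_ne d2]; ring
          · rw [(hsup d d1 d2 d3 d4).2, ev_ne d3, ev_ne d2, ev_ne d4]; ring
  have blw : ∀ X : Ix l → K, bl l K w X = w a * X (ng a) + w (ng a) * X a + w (ng b) * X b := by
    intro X
    conv_lhs => rw [hw0]
    simp only [map_add, map_smul, LinearMap.add_apply, LinearMap.smul_apply, smul_eq_mul, bl_ev,
      ng_ng]
  have blw' : ∀ X : Ix l → K, bl l K w' X = w' b * X (ng b) + w' (ng a) * X a +
      w' (ng b) * X b := by
    intro X
    conv_lhs => rw [hw0']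
    simp only [map_add, map_smul, LinearMap.add_apply, LinearMap.smul_apply, smul_eq_mul, bl_ev,
      ng_ng]
  obtain ⟨hww, hww', hone⟩ := id h
  have h2 := hq.two_ne
  have hy : w (ng a) = 0 := by
    rw [blw, hwb] at hww
    have : (2 * w a) * w (ng a) = 0 := by linear_combination hww
    exact (mul_eq_zero.1 this).resolve_left (mul_ne_zero h2 hwa)
  have hv : w' (ng b) = 0 := by
    rw [blw', hwa'] at hww'
    have : (2 * w' b) * w' (ng b) = 0 := by linear_combination hww'
    exact (mul_eq_zero.1 this).resolve_left (mul_ne_zero h2 hwb')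
  rw [blw, hy, hwa'] at hone
  -- p = w a, m = w (ng b), z = w' b, u = w' (ng a)
  have hc : (w a * w' (ng a)) * (w (ng b) * w' b) = 0 := by
    apply sigma_zero hq
    intro r hr
    by_contra hbad
    simp only [not_or] at hbad
    obtain ⟨hb0, hb1, hb2⟩ := hbad
    obtain ⟨k, kn, ka, ka', kb, kb'⟩ := exists_idx hl a b
    obtain ⟨t, ht, ht'⟩ := hF.has_two han kn ka ka' (Units.mk0 r hr) (Units.mk0 r hr) ⟨_, rfl⟩
    have hiso := hF.iso t ht
    have ta : ∀ u, t u a = r * u a := fun u => by rw [ht', if_pos rfl]; rfl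
    have ta' : ∀ u, t u (ng a) = r⁻¹ * u (ng a) := fun u => by
      rw [ht', if_neg (Ne.symm e1), if_pos rfl]
      rfl
    have tb : ∀ u, t u b = u b := fun u => by
      rw [ht', if_neg hb, if_neg hb', if_neg (Ne.symm kb), if_neg, one_mul]
      exact fun e => kb' (by rw [e, ng_ng])
    have tb' : ∀ u, t u (ng b) = u (ng b) := fun u => by
      rw [ht', if_neg (Ne.symm e3), if_neg (Ne.symm e4), if_neg (Ne.symm kb'), if_neg, one_mul]
      exact fun e => kb (ng_inj e).symm
    have g11 : bl l K w (t w) = 0 := by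
      rw [blw, ta', ta, tb, hy, hwb]; ring
    have g22 : bl l K w' (t w') = 0 := by
      rw [blw', tb', ta, tb, hv, hwa']; ring
    have g12 : bl l K w (t w') = w a * (r⁻¹ * w' (ng a)) + w (ng b) * w' b := by
      rw [blw, ta', ta, tb, hy]; ring
    have g21 : bl l K w' (t w) = w' b * w (ng b) + w' (ng a) * (r * w a) := by
      rw [blw', tb', ta, tb, hv]; ring
    have gpr : bl l K w (t w') * bl l K w' (t w) =
        1 + (w a * w' (ng a)) * (w (ng b) * w' b) * (r + r⁻¹ - 2) := by
      rw [g12, g21]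
      have e5 : w a * w' (ng a) + w (ng b) * w' b = 1 := by linear_combination hone
      have e6 : r * r⁻¹ = 1 := mul_inv_cancel₀ hr
      linear_combination (w a * w' (ng a) + w (ng b) * w' b + 1) * e5 +
        (w a * w' (ng a)) * (w a * w' (ng a)) * e6
    have hpc := pair_lemma3 hq bl_symm h (z := t w) (z' := t w')
      ⟨by rw [hiso]; exact hww, by rw [hiso]; exact h.2.1, by rw [hiso]; exact h.2.2⟩ hP
      (hP.conj ht hiso) g11 g22 (by rw [gpr]; exact hb0) (by rw [gpr]; exact hb1)
      (by rw [gpr]; exact hb2)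
    obtain ⟨x, y, s, v, hs, hv', hss, hsv, hind, hR⟩ := hpc
    have sa : s a = 0 := by
      rw [hs]
      simp only [Pi.add_apply, Pi.smul_apply, smul_eq_mul, ta, hwa']
      ring
    have snb : s (ng b) = 0 := by
      rw [hs]
      simp only [Pi.add_apply, Pi.smul_apply, smul_eq_mul, tb', hv]
      ring
    have vb : v b = 0 := by
      rw [hv']
      simp only [Pi.add_apply, Pi.smul_apply, smul_eq_mul, tb, hwb]
      ring
    have vna : v (ng a) = 0 := by
      rw [hv']
      simp only [Pi.add_apply, Pi.smul_apply, smul_eq_mul, ta', hy]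
      ring
    have tsup : ∀ (u : Ix l → K), (∀ d, d ≠ a → d ≠ ng a → d ≠ b → d ≠ ng b → u d = 0) →
        ∀ d, d ≠ a → d ≠ ng a → d ≠ b → d ≠ ng b → t u d = 0 := by
      intro u hu d d1 d2 d3 d4
      rw [ht', hu d d1 d2 d3 d4, mul_zero]
    have ssup : ∀ d, d ≠ a → d ≠ ng a → d ≠ b → d ≠ ng b → s d = 0 := by
      intro d d1 d2 d3 d4
      rw [hs]
      simp only [Pi.add_apply, Pi.smul_apply, smul_eq_mul]
      rw [tsup w' (fun d d1 d2 d3 d4 => (hsup d d1 d2 d3 d4).2) d d1 d2 d3 d4,
        (hsup d d1 d2 d3 d4).2]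
      ring
    have vsup : ∀ d, d ≠ a → d ≠ ng a → d ≠ b → d ≠ ng b → v d = 0 := by
      intro d d1 d2 d3 d4
      rw [hv']
      simp only [Pi.add_apply, Pi.smul_apply, smul_eq_mul]
      rw [tsup w (fun d d1 d2 d3 d4 => (hsup d d1 d2 d3 d4).1) d d1 d2 d3 d4,
        (hsup d d1 d2 d3 d4).1]
      ring
    have sne : s ≠ 0 := by
      intro e
      have := (hind 1 0 (by rw [e]; simp)).1
      exact one_ne_zero this
    have vne : v ≠ 0 := by
      intro e
      have := (hind 0 1 (by rw [e]; simp)).2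
      exact one_ne_zero this
    have s_or : s b ≠ 0 ∨ s (ng a) ≠ 0 := by
      by_contra hcon
      push Not at hcon
      apply sne
      funext d
      by_cases d1 : d = a
      · rw [d1]; exact sa
      by_cases d2 : d = ng a
      · rw [d2]; exact hcon.2
      by_cases d3 : d = b
      · rw [d3]; exact hcon.1
      by_cases d4 : d = ng b
      · rw [d4]; exact snb
      exact ssup d d1 d2 d3 d4
    have v_or : v a ≠ 0 ∨ v (ng b) ≠ 0 := by
      by_contra hcon
      push Not at hcon
      apply vne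
      funext d
      by_cases d1 : d = a
      · rw [d1]; exact hcon.1
      by_cases d2 : d = ng a
      · rw [d2]; exact vna
      by_cases d3 : d = b
      · rw [d3]; exact vb
      by_cases d4 : d = ng b
      · rw [d4]; exact hcon.2
      exact vsup d d1 d2 d3 d4
    have m1 : s b * v a = 0 := by
      by_contra hne
      apply hn
      apply lemR hq hF hss hsv hR hb hb'
      rw [sa]
      intro e
      exact hne (by linear_combination -e)
    have m2 : s (ng a) * v (ng b) = 0 := by
      by_contra hne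
      apply hn
      have h5 : SS F (ng a) (ng b) := by
        apply lemR hq hF hss hsv hR (Ne.symm e4) (by rw [ng_ng]; exact Ne.symm e3)
        rw [snb]
        intro e
        exact hne (by linear_combination e)
      have h6 := hS _ _ h5
      rwa [ng_ng, ng_ng] at h6
    have m3 : s b * v (ng b) + s (ng a) * v a = 0 := by
      have hs0 : s = s b • ev b + s (ng a) • ev (ng a) := by
        funext d
        simp only [Pi.add_apply, Pi.smul_apply, smul_eq_mul]
        by_cases d1 : d = a
        · subst d1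
          rw [sa, ev_ne (Ne.symm hb), ev_ne e1]; ring
        by_cases d2 : d = ng a
        · subst d2
          rw [ev_same, ev_ne (Ne.symm hb')]; ring
        by_cases d3 : d = b
        · subst d3
          rw [ev_same, ev_ne d2]; ring
        by_cases d4 : d = ng b
        · subst d4
          rw [snb, ev_ne d3, ev_ne d2]; ring
        rw [ssup d d1 d2 d3 d4, ev_ne d3, ev_ne d2]; ring
      rw [hs0] at hsv
      simp only [map_add, map_smul, LinearMap.add_apply, LinearMap.smul_apply, smul_eq_mul, bl_ev,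
        ng_ng] at hsv
      rw [← hsv]
    by_cases sb : s b = 0
    · have s1 : s (ng a) ≠ 0 := s_or.resolve_left (fun e => e sb)
      have s2 : v (ng b) = 0 := (mul_eq_zero.1 m2).resolve_left s1
      have s3 : v a ≠ 0 := v_or.resolve_right (fun e => e s2)
      rw [sb, s2, zero_mul, zero_add] at m3
      exact mul_ne_zero s1 s3 m3
    · have s1 : v a = 0 := (mul_eq_zero.1 m1).resolve_left sb
      have s2 : v (ng b) ≠ 0 := v_or.resolve_left (fun e => e s1)
      have s3 : s (ng a) = 0 := (mul_eq_zero.1 m2).resolve_right s2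
      rw [s3, zero_mul, add_zero] at m3
      exact mul_ne_zero sb s2 m3
  -- step (6)
  rcases mul_eq_zero.1 hc with hpu | hmz
  · -- `u = 0`
    have hu : w' (ng a) = 0 := (mul_eq_zero.1 hpu).resolve_left hwa
    have hm1 : w (ng b) * w' b = 1 := by linear_combination hone - hpu
    have hP2 := hP.swap.scale (c := (w' b)⁻¹) (inv_ne_zero hwb')
    rw [hu, hv, zero_smul, zero_smul, add_zero, add_zero] at hw0'
    rw [hy, zero_smul, add_zero] at hw0
    have f1 : (w' b)⁻¹ • w' = ev b := by
      have := congrArg (fun X => (w' b)⁻¹ • X) hw0'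
      rw [this, smul_smul, inv_mul_cancel₀ hwb', one_smul]
    have f2 : (w' b)⁻¹⁻¹ • w = ev (ng b) + (w' b * w a) • ev a := by
      have := congrArg (fun X => (w' b)⁻¹⁻¹ • X) hw0
      rw [this, inv_inv, smul_add, smul_smul, smul_smul, mul_comm (w' b) (w (ng b)),
        hm1, one_smul, add_comm]
    rw [f1, f2] at hP2
    have := L1fin hq hF hbn han (Ne.symm hb) e3 (mul_ne_zero hwb' hwa) hP2
    exact hn this.symm
  · -- `m = 0`
    have hm : w (ng b) = 0 := (mul_eq_zero.1 hmz).resolve_right hwb'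
    have hp1 : w a * w' (ng a) = 1 := by linear_combination hone - hmz
    have hP2 := hP.scale (c := (w a)⁻¹) (inv_ne_zero hwa)
    rw [hy, hm, zero_smul, zero_smul, add_zero, add_zero] at hw0
    rw [hv, zero_smul, add_zero] at hw0'
    have f1 : (w a)⁻¹ • w = ev a := by
      have := congrArg (fun X => (w a)⁻¹ • X) hw0
      rw [this, smul_smul, inv_mul_cancel₀ hwa, one_smul]
    have f2 : (w a)⁻¹⁻¹ • w' = ev (ng a) + (w a * w' b) • ev b := by
      have := congrArg (fun X => (w a)⁻¹⁻¹ • X) hw0'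
      rw [this, inv_inv, smul_add, smul_smul, smul_smul, hp1, one_smul, add_comm]
    rw [f1, f2] at hP2
    exact hn (L1fin hq hF han hbn hb hb' (mul_ne_zero hwa hwb') hP2)

theorem L1 {q : ℕ} (hq : QK q K) (hl : 3 ≤ l) (hF : Ctx l K F)
    (hS : ∀ a b, SS F a b → SS F (ng a) (ng b)) {w w' : Ix l → K}
    (h : HP (bl l K) w w') (hP : PL F (bl l K) w w') {a b : Ix l} (hb : b ≠ a)
    (hb' : b ≠ ng a) (hβ : w a * w' b - w b * w' a ≠ 0) (hn : ¬ SS F a b) :
    ¬ SS F a (ng b) := by
  intro hab
  have han : a ≠ none := by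
    intro e
    have := hS _ _ hab
    rw [ng_ng, e, ng_none, ← e] at this
    exact hn this
  have hbn : b ≠ none := by
    intro e
    rw [e, ng_none, ← e] at hab
    exact hn hab
  have hba : SS F b (ng a) := by
    have := (hS _ _ hab).symm
    rwa [ng_ng] at this
  have e1 : a ≠ ng a := fun e => ng_ne_self han e.symm
  have e2 : b ≠ ng b := fun e => ng_ne_self hbn e.symm
  have e3 : a ≠ ng b := fun e => hb' (by rw [e, ng_ng])
  -- the two kinds of elements
  have hg1 : ∀ c : K, ∃ g ∈ F, ∀ u : Ix l → K, g u a = u a - c * u b ∧ g u b = u b := by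
    intro c
    obtain ⟨g, hg, hg'⟩ := hab.2.2.1 han c
    refine ⟨g, hg, fun u => ⟨?_, ?_⟩⟩
    · rw [hg']
      simp only [sg, bl_ev', bl_ev, map_smul, LinearMap.smul_apply, smul_eq_mul, ng_ng,
        Pi.add_apply, Pi.sub_apply, Pi.smul_apply, ev_same, ev_ne e3, ev_ne e2]
      ring
    · rw [hg']
      simp only [sg, bl_ev', bl_ev, map_smul, LinearMap.smul_apply, smul_eq_mul, ng_ng,
        Pi.add_apply, Pi.sub_apply, Pi.smul_apply, ev_same, ev_ne e2, ev_ne hb]
      ring
  have hg2 : ∀ c : K, ∃ g ∈ F, ∀ u : Ix l → K, g u b = u b - c * u a ∧ g u a = u a := by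
    intro c
    obtain ⟨g, hg, hg'⟩ := hba.2.2.1 hbn c
    refine ⟨g, hg, fun u => ⟨?_, ?_⟩⟩
    · rw [hg']
      simp only [sg, bl_ev', bl_ev, map_smul, LinearMap.smul_apply, smul_eq_mul, ng_ng,
        Pi.add_apply, Pi.sub_apply, Pi.smul_apply, ev_same, ev_ne hb', ev_ne e1]
      ring
    · rw [hg']
      simp only [sg, bl_ev', bl_ev, map_smul, LinearMap.smul_apply, smul_eq_mul, ng_ng,
        Pi.add_apply, Pi.sub_apply, Pi.smul_apply, ev_same, ev_ne e1, ev_ne (Ne.symm hb)]
      ring
  have hmove : ∀ g ∈ F, HP (bl l K) (g w) (g w') ∧ PL F (bl l K) (g w) (g w') := by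
    intro g hg
    have hiso := hF.iso g hg
    exact ⟨⟨by rw [hiso]; exact h.1, by rw [hiso]; exact h.2.1, by rw [hiso]; exact h.2.2⟩,
      hP.conj hg hiso⟩
  -- it suffices to find a good element
  suffices H : ∃ g ∈ F, g w a ≠ 0 ∧ g w b = 0 ∧ g w' a = 0 ∧ g w' b ≠ 0 by
    obtain ⟨g, hg, k1, k2, k3, k4⟩ := H
    exact L1norm hq hl hF hS (hmove g hg).1 (hmove g hg).2 hb hb' k1 k2 k3 k4 hn han hbn hab
  -- first step
  obtain ⟨g, hg, hga, hgD⟩ : ∃ g ∈ F, g w a ≠ 0 ∧ g w a * g w' b - g w b * g w' a ≠ 0 := by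
    by_cases hwa : w a = 0
    · obtain ⟨g, hg, hg'⟩ := hg1 (-1)
      refine ⟨g, hg, ?_, ?_⟩
      · rw [(hg' w).1, hwa]
        intro e
        apply hβ
        have : w b = 0 := by linear_combination e
        rw [hwa, this]
        ring
      · rw [(hg' w).1, (hg' w').1, (hg' w).2, (hg' w').2]
        intro e
        exact hβ (by linear_combination e)
    · exact ⟨1, F.one_mem, hwa, hβ⟩
  obtain ⟨g', hg', hg''⟩ := hg2 (g w b / g w a)
  have m1 : g' (g w) b = 0 := by
    rw [(hg'' _).1]
    field_simp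
    ring
  have m2 : g' (g w) a ≠ 0 := by
    rw [(hg'' _).2]
    exact hga
  have m3 : g' (g w') b ≠ 0 := by
    intro e
    have D : g' (g w) a * g' (g w') b - g' (g w) b * g' (g w') a ≠ 0 := by
      rw [(hg'' _).1, (hg'' _).1, (hg'' _).2, (hg'' _).2]
      intro e
      exact hgD (by linear_combination e)
    rw [e, m1] at D
    exact D (by ring)
  obtain ⟨k, hk, hk'⟩ := hg1 (g' (g w') a / g' (g w') b)
  refine ⟨k * (g' * g), F.mul_mem hk (F.mul_mem hg' hg), ?_, ?_, ?_, ?_⟩
  · rw [LinearEquiv.mul_apply, LinearEquiv.mul_apply, (hk' _).1, m1, mul_zero, sub_zero]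
    exact m2
  · rw [LinearEquiv.mul_apply, LinearEquiv.mul_apply, (hk' _).2, m1]
  · rw [LinearEquiv.mul_apply, LinearEquiv.mul_apply, (hk' _).1]
    field_simp
    ring
  · rw [LinearEquiv.mul_apply, LinearEquiv.mul_apply, (hk' _).2]
    exact m3

end Pool.Agent.H33.TO
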