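import Pool.Agent.H33.TO.Tab7
import Pool.Agent.H33.TO.Tab9
import Pool.Agent.H33.TO.Tab11

/-!
# Soundness of the tables for pairs of planes
-/

namespace Pool.Agent.H33.TO

variable {K : Type*} [Field K] {V : Type*} [AddCommGroup V] [Module K V]
  {B : LinearMap.BilinForm K V} {F : Subgroup (V ≃ₗ[K] V)}

theorem CD.vec_sm (c : CD K) (b : Fin 4 → V) (l v : ℕ) :
    c.vec b (c.sm l v) = c.ph l • c.vec b v := by
  simp only [CD.vec, Finset.smul_sum, smul_smul]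
  refine Finset.sum_congr rfl fun i _ => ?_
  congr 1
  rw [CD.cf, CA.sm, dg_bd _ 4 (fun k _ => c.mult _ _) _ (by omega), c.hmu]
  rfl

/-- the Gram matrix of a pair of planes -/
theorem gram_pair (hsym : ∀ u v, B u v = B v u) (c : CD K) {w w' z z' : V} (h1 : HP B w w')
    (h2 : HP B z z') {n1 n2 n3 n4 : ℕ} (l1 : n1 < 16) (l2 : n2 < 16) (l3 : n3 < 16)
    (l4 : n4 < 16) (e1 : B w z = c.ph n1) (e2 : B w z' = c.ph n2)
    (e3 : B w' z = c.ph n3) (e4 : B w' z' = c.ph n4) (i j : Fin 4) :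
    B (![w, w', z, z'] i) (![w, w', z, z'] j) = c.mat (grc n1 n2 n3 n4) i j := by
  obtain ⟨a1, a2, a3⟩ := h1
  obtain ⟨b1, b2, b3⟩ := h2
  have hlt : ∀ k < 16, [0, 1, n1, n2, 1, 0, n3, n4, n1, n3, 0, 1, n2, n4, 1, 0].getD k 0 < 16 := by
    intro k hk
    interval_cases k <;> simp <;> omega
  rw [CD.mat, grc, dg_bd _ 16 hlt _ (by omega)]
  have a4 : B w' w = 1 := by rw [hsym]; exact a3
  have b4 : B z' z = 1 := by rw [hsym]; exact b3
  have e5 : B z w = c.ph n1 := by rw [hsym]; exact e1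
  have e6 : B z' w = c.ph n2 := by rw [hsym]; exact e2
  have e7 : B z w' = c.ph n3 := by rw [hsym]; exact e3
  have e8 : B z' w' = c.ph n4 := by rw [hsym]; exact e4
  have h0 := c.h0
  have h1 := c.h1
  fin_cases i <;> fin_cases j <;> simp [*]

/-- the generators -/
theorem has_rc (c : CD K) (b : Fin 4 → V) (i j : Fin 4) (hij : i ≠ j) (d : ℕ × ℕ)
    (hd : c.ph d.2 = (c.ph d.1)⁻¹) (h : Has F (rt B (b i) (b j) (c.ph d.1))) :
    Has F (Ph B b (c.mat (c.rc i j d))) := by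
  refine h.congr fun u => ?_
  have hij' : (i : ℕ) ≠ j := fun h => hij (Fin.ext h)
  have hm : ∀ x y : Fin 4, c.mat (c.rc i j d) x y =
      if x = i ∧ y = j then c.ph d.1 - 1 else if x = j ∧ y = i then (c.ph d.1)⁻¹ - 1 else 0 := by
    intro x y
    rw [CD.mat, CA.rc, dg_bd _ 16 (fun k _ => by
      split_ifs
      · exact c.adlt _ _
      · exact c.adlt _ _
      · norm_num) _ (by omega)]
    by_cases h1 : x = i ∧ y = j
    · obtain ⟨rfl, rfl⟩ := h1
      rw [if_pos rfl, if_pos ⟨rfl, rfl⟩, c.had, c.hm1]; ring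
    · have h1' : ¬ (4 * (x : ℕ) + y = 4 * i + j) := by
        intro h
        apply h1
        constructor <;> ext <;> omega
      rw [if_neg h1', if_neg h1]
      by_cases h2 : x = j ∧ y = i
      · obtain ⟨rfl, rfl⟩ := h2
        rw [if_pos rfl, if_pos ⟨rfl, rfl⟩, c.had, c.hm1, hd]; ring
      · have h2' : ¬ (4 * (x : ℕ) + y = 4 * j + i) := by
          intro h
          apply h2
          constructor <;> ext <;> omega
        rw [if_neg h2', if_neg h2, c.h0]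
  simp only [Ph, rt]
  rw [add_assoc]
  congr 1
  have h1 : ∀ x y : Fin 4, (c.mat (c.rc i j d) x y * B (b y) u) • b x =
      (if x = i then (if y = j then ((c.ph d.1 - 1) * B (b j) u) • b i else 0) else 0) +
      (if x = j then (if y = i then (((c.ph d.1)⁻¹ - 1) * B (b i) u) • b j else 0) else 0) := by
    intro x y
    rw [hm]
    by_cases hx : x = i
    · subst hx
      by_cases hy : y = j
      · subst hy
        simp [hij]
      · simp [hy, hij]
    · by_cases hx2 : x = j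
      · subst hx2
        by_cases hy : y = i
        · subst hy
          simp [hx]
        · simp [hx, hy]
      · simp [hx, hx2]
  simp only [h1, Finset.sum_add_distrib]
  simp

theorem has_pg (c : CD K) (dl : List (ℕ × ℕ))
    (hdl : ∀ d ∈ dl, c.ph d.1 ≠ 0 ∧ IsSquare (c.ph d.1) ∧ c.ph d.2 = (c.ph d.1)⁻¹)
    {w w' z z' : V} (p1 : PL F B w w') (p2 : PL F B z z') :
    ∀ m ∈ c.pg dl, Has F (Ph B ![w, w', z, z'] (c.mat m)) := by
  intro m hm
  rw [CA.pg, List.mem_append, List.mem_map, List.mem_map] at hm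
  rcases hm with ⟨d, hd, rfl⟩ | ⟨d, hd, rfl⟩
  · obtain ⟨h1, h2, h3⟩ := hdl d hd
    exact has_rc c ![w, w', z, z'] 0 1 (by decide) d h3 (p1 _ h1 h2)
  · obtain ⟨h1, h2, h3⟩ := hdl d hd
    exact has_rc c ![w, w', z, z'] 2 3 (by decide) d h3 (p2 _ h1 h2)

theorem ck2_sound (hsym : ∀ u v, B u v = B v u) (c : CD K) (b : Fin 4 → V) (lo G : ℕ)
    (hG : ∀ i j, B (b i) (b j) = c.mat G i j) (gens : List ℕ)
    (hg : ∀ m ∈ gens, Has F (Ph B b (c.mat m))) (e : List ℕ × List ℕ × ℕ × ℕ × ℕ)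
    (h : c.ck2 lo G gens e = true) :
    (Has F (sg B (c.vec b e.2.2.1) (c.vec b e.2.2.2.1)) ∧
      B (c.vec b e.2.2.1) (c.vec b e.2.2.1) = 0 ∧
      B (c.vec b e.2.2.1) (c.vec b e.2.2.2.1) = 0 ∧
      Ind2 K (c.vec b e.2.2.1) (c.vec b e.2.2.2.1)) ∧ (lo ≤ e.2.2.2.2 ∧ e.2.2.2.2 ≤ 8) ∧
    (e.2.2.2.2 = 0 ∨ Has F (sg B (c.vec b e.2.2.1) (c.ph e.2.2.2.2 • c.vec b e.2.2.2.1))) := by
  simp only [CA.ck2, Bool.and_eq_true, Bool.or_eq_true, beq_iff_eq, Nat.ble_eq] at h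
  obtain ⟨⟨h1, h3⟩, h2⟩ := h
  refine ⟨c.chk_sound hsym b G hG gens hg _ _ _ h1, h3, ?_⟩
  rcases h2 with h2 | h2
  · exact Or.inl h2
  · right
    have := has_run c b G hG gens hg e.2.1
    rw [h2] at this
    refine this.congr fun u => ?_
    rw [c.Ph_sgc hsym b G hG, c.vec_sm]

/-- the coefficients `c` with `sg s (c v)` in `F` are closed under addition -/
theorem has_sg_add (hsym : ∀ u v, B u v = B v u) (h2 : (2 : K) ≠ 0) {s v : V}
    (hs : B s s = 0) (hv : B s v = 0) {a b : K} (ha : Has F (sg B s (a • v)))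
    (hb : Has F (sg B s (b • v))) : Has F (sg B s ((a + b) • v)) := by
  refine (ha.comp hb).congr fun u => ?_
  rw [sg_comp hsym h2 hs (by rw [map_smul, hv, smul_zero]) (by rw [map_smul, hv, smul_zero]),
    add_smul]

theorem has_sg_nat (hsym : ∀ u v, B u v = B v u) (h2 : (2 : K) ≠ 0) {s v : V}
    (hs : B s s = 0) (hv : B s v = 0) {a : K} (ha : Has F (sg B s (a • v))) (n : ℕ) :
    Has F (sg B s (((n : K) * a) • v)) := by
  induction n with
  | zero =>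
    refine Has.id.congr fun u => ?_
    rw [Nat.cast_zero, zero_mul, zero_smul, sg_zero]
  | succ n ih =>
    have := has_sg_add hsym h2 hs hv ih ha
    rwa [← add_one_mul, ← Nat.cast_succ] at this

/-- full root group, prime field -/
theorem rg_of_nat (hsym : ∀ u v, B u v = B v u) (h2 : (2 : K) ≠ 0)
    (hsurj : ∀ x : K, ∃ n : ℕ, (n : K) = x) {s v : V} (hs : B s s = 0) (hv : B s v = 0)
    (h : Has F (sg B s v)) : RG F B s v := by
  intro x
  obtain ⟨n, rfl⟩ := hsurj x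
  have := has_sg_nat hsym h2 hs hv (a := 1) (by rw [one_smul]; exact h) n
  rwa [mul_one] at this

/-- full root group, nine elements -/
theorem rg_of_two (hsym : ∀ u v, B u v = B v u) (h2 : (2 : K) ≠ 0) {lam : K}
    (hsurj : ∀ x : K, ∃ n m : ℕ, (n : K) + (m : K) * lam = x) {s v : V} (hs : B s s = 0)
    (hv : B s v = 0) (h : Has F (sg B s v)) (h' : Has F (sg B s (lam • v))) : RG F B s v := by
  intro x
  obtain ⟨n, m, rfl⟩ := hsurj x
  refine has_sg_add hsym h2 hs hv ?_ (has_sg_nat hsym h2 hs hv h' m)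
  have := has_sg_nat hsym h2 hs hv (a := 1) (by rw [one_smul]; exact h) n
  rwa [mul_one] at this

/-- the conclusion for a pair of planes -/
def PC (F : Subgroup (V ≃ₗ[K] V)) (B : LinearMap.BilinForm K V) (w w' z z' : V) : Prop :=
  ∃ x y : Fin 4 → K, ∃ s v : V, s = x 0 • w + x 1 • w' + x 2 • z + x 3 • z' ∧
    v = y 0 • w + y 1 • w' + y 2 • z + y 3 • z' ∧ B s s = 0 ∧ B s v = 0 ∧ Ind2 K s v ∧
    RG F B s v

/-- the special conclusion for a pair of planes -/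
def PC3 (F : Subgroup (V ≃ₗ[K] V)) (B : LinearMap.BilinForm K V) (w w' z z' : V) : Prop :=
  ∃ x y : Fin 4 → K, ∃ s v : V, s = x 1 • w' + x 3 • z' ∧
    v = y 0 • w + y 2 • z ∧ B s s = 0 ∧ B s v = 0 ∧ Ind2 K s v ∧ RG F B s v

theorem vec_four (c : CD K) (w w' z z' : V) (s : ℕ) : c.vec ![w, w', z, z'] s =
    c.cf s 0 • w + c.cf s 1 • w' + c.cf s 2 • z + c.cf s 3 • z' := by
  simp [CD.vec, Fin.sum_univ_four]

/-- data on the codes needed for the soundness -/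
structure Dat (c : CD K) (dl : List (ℕ × ℕ)) (lo : ℕ) : Prop where
  two : (2 : K) ≠ 0
  dl : ∀ d ∈ dl, c.ph d.1 ≠ 0 ∧ IsSquare (c.ph d.1) ∧ c.ph d.2 = (c.ph d.1)⁻¹
  gen : ∀ l : ℕ, lo ≤ l → l ≤ 8 → ∀ x : K, ∃ n m : ℕ,
    (n : K) + (m : K) * (if l = 0 then 0 else c.ph l) = x

theorem Dat.rg {c : CD K} {dl : List (ℕ × ℕ)} {lo : ℕ} (D : Dat c dl lo)
    (hsym : ∀ u v, B u v = B v u) {s v : V} (hs : B s s = 0) (hv : B s v = 0)
    (h : Has F (sg B s v)) (l : ℕ) (h1 : lo ≤ l) (h2 : l ≤ 8)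
    (h' : l = 0 ∨ Has F (sg B s (c.ph l • v))) : RG F B s v := by
  refine rg_of_two hsym D.two (D.gen l h1 h2) hs hv h ?_
  by_cases h0 : l = 0
  · rw [if_pos h0]
    exact Has.id.congr fun u => by rw [zero_smul, sg_zero]
  · rw [if_neg h0]
    exact h'.resolve_left h0

theorem Dat.pair {c : CD K} {dl : List (ℕ × ℕ)} {lo : ℕ} (D : Dat c dl lo)
    (hsym : ∀ u v, B u v = B v u) {w w' z z' : V} (h1 : HP B w w')
    (h2 : HP B z z') (p1 : PL F B w w') (p2 : PL F B z z')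
    {n1 n2 n3 n4 : ℕ} (l1 : n1 < 16) (l2 : n2 < 16) (l3 : n3 < 16)
    (l4 : n4 < 16) (e1 : B w z = c.ph n1) (e2 : B w z' = c.ph n2)
    (e3 : B w' z = c.ph n3) (e4 : B w' z' = c.ph n4) (e : List ℕ × List ℕ × ℕ × ℕ × ℕ)
    (h : c.ck2 lo (grc n1 n2 n3 n4) (c.pg dl) e = true) :
    PC F B w w' z z' ∧ ((dg e.2.2.1 0 = 0 ∧ dg e.2.2.1 2 = 0 ∧ dg e.2.2.2.1 1 = 0 ∧
      dg e.2.2.2.1 3 = 0) → PC3 F B w w' z z') := by
  have hG := gram_pair hsym c h1 h2 l1 l2 l3 l4 e1 e2 e3 e4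
  obtain ⟨⟨a1, a2, a3, a4⟩, ⟨b1, b2⟩, b3⟩ :=
    ck2_sound hsym c _ lo _ hG (c.pg dl) (has_pg c dl D.dl p1 p2) e h
  have hR := D.rg hsym a2 a3 a1 _ b1 b2 b3
  constructor
  · exact ⟨c.cf e.2.2.1, c.cf e.2.2.2.1, _, _, vec_four c w w' z z' _,
      vec_four c w w' z z' _, a2, a3, a4, hR⟩
  · rintro ⟨d1, d2, d3, d4⟩
    refine ⟨c.cf e.2.2.1, c.cf e.2.2.2.1, _, _, ?_, ?_, a2, a3, a4, hR⟩
    · rw [vec_four]
      have x1 : c.cf e.2.2.1 0 = 0 := by
        show c.ph (dg e.2.2.1 0) = 0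
        rw [d1, c.h0]
      have x2 : c.cf e.2.2.1 2 = 0 := by
        show c.ph (dg e.2.2.1 2) = 0
        rw [d2, c.h0]
      rw [x1, x2]; simp
    · rw [vec_four]
      have x1 : c.cf e.2.2.2.1 1 = 0 := by
        show c.ph (dg e.2.2.2.1 1) = 0
        rw [d3, c.h0]
      have x2 : c.cf e.2.2.2.1 3 = 0 := by
        show c.ph (dg e.2.2.2.1 3) = 0
        rw [d4, c.h0]
      rw [x1, x2]; simp

end Pool.Agent.H33.TO
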