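import Pool.Agent.H33.TO.Codes

/-!
# Checking words for pairs of planes
-/

namespace Pool.Agent.H33.TO

/-- scalar multiple of a coefficient vector -/
def CA.sm (c : CA) (l v : ℕ) : ℕ := bd (fun k => c.mu l (dg v k)) 4

/-- code of the rotation in the plane with basis vectors number `i` and `j` -/
def CA.rc (c : CA) (i j : ℕ) (d : ℕ × ℕ) : ℕ :=
  bd (fun k => if k = 4 * i + j then c.ad d.1 c.m1 else
    if k = 4 * j + i then c.ad d.2 c.m1 else 0) 16

/-- generators for a pair of planes -/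
def CA.pg (c : CA) (dl : List (ℕ × ℕ)) : List ℕ :=
  dl.map (c.rc 0 1) ++ dl.map (c.rc 2 3)

/-- Gram matrix of a pair of planes -/
def grc (a b c d : ℕ) : ℕ := bd (fun k => [0, 1, a, b, 1, 0, c, d, a, c, 0, 1, b, d, 1, 0].getD k 0) 16

/-- check of a pair of words; the last entry `0` means that there is no second word -/
def CA.ck2 (c : CA) (lo G : ℕ) (gens : List ℕ) (e : List ℕ × List ℕ × ℕ × ℕ × ℕ) : Bool :=
  c.chk G gens e.1 e.2.2.1 e.2.2.2.1 && (Nat.ble lo e.2.2.2.2 && Nat.ble e.2.2.2.2 8) &&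
    (e.2.2.2.2 == 0 || c.run G gens e.2.1 == c.sgc G e.2.2.1 (c.sm e.2.2.2.2 e.2.2.2.1))

end Pool.Agent.H33.TO
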