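import Pool.Agent.H33.TO.Basic

/-!
# Formal algebra: words in rotations and Siegel transformations, in codes

`Ph B b C` is the map `u ↦ u + ∑ C i j B(b_j,u) b_i`.  The composition formula only involves the
Gram matrix of the `b_i`.  Codes for field elements are natural numbers, and codes for
`4 × 4` matrices are natural numbers in base 16, so that the kernel computes quickly.
-/

namespace Pool.Agent.H33.TO

variable {K : Type*} [Field K] {V : Type*} [AddCommGroup V] [Module K V]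

/-- the map `u ↦ u + ∑ C i j B(b_j,u) b_i` -/
def Ph (B : LinearMap.BilinForm K V) (b : Fin 4 → V) (C : Fin 4 → Fin 4 → K) (u : V) : V :=
  u + ∑ i, ∑ j, (C i j * B (b j) u) • b i

/-- digit -/
def dg (m k : ℕ) : ℕ := m / 16 ^ k % 16

/-- number with given digits -/
def bd (f : ℕ → ℕ) : ℕ → ℕ
  | 0 => 0
  | n + 1 => bd f n + f n * 16 ^ n

theorem bd_lt (f : ℕ → ℕ) (n : ℕ) (h : ∀ k < n, f k < 16) : bd f n < 16 ^ n := by
  induction n with
  | zero => simp [bd]
  | succ n ih =>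
    have h1 := ih (fun k hk => h k (by omega))
    have h2 := h n (by omega)
    have h3 : f n * 16 ^ n ≤ 15 * 16 ^ n := Nat.mul_le_mul_right _ (by omega)
    simp only [bd, pow_succ]
    omega

theorem dg_bd (f : ℕ → ℕ) (n : ℕ) (h : ∀ k < n, f k < 16) (k : ℕ) (hk : k < n) :
    dg (bd f n) k = f k := by
  induction n with
  | zero => omega
  | succ n ih =>
    have hlt := bd_lt f n (fun k hk => h k (by omega))
    rcases Nat.lt_succ_iff_lt_or_eq.1 hk with hk' | rfl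
    · rw [← ih (fun k hk => h k (by omega)) hk']
      simp only [dg, bd]
      have : f n * 16 ^ n = 16 ^ k * (16 * (f n * 16 ^ (n - k - 1))) := by
        have : 16 ^ n = 16 ^ k * (16 * 16 ^ (n - k - 1)) := by
          rw [← pow_succ', ← pow_add]
          congr 1
          omega
        rw [this]; ring
      rw [this, Nat.add_mul_div_left _ _ (by positivity)]
      omega
    · simp only [dg, bd]
      rw [mul_comm, Nat.add_mul_div_left _ _ (by positivity), Nat.div_eq_of_lt hlt, zero_add]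
      exact Nat.mod_eq_of_lt (h k (by omega))

/-- arithmetic on codes -/
structure CA where
  ad : ℕ → ℕ → ℕ
  mu : ℕ → ℕ → ℕ
  m1 : ℕ
  hf : ℕ

/-- coded field -/
structure CD (K : Type*) [Field K] extends CA where
  ph : ℕ → K
  had : ∀ a b, ph (ad a b) = ph a + ph b
  hmu : ∀ a b, ph (mu a b) = ph a * ph b
  h0 : ph 0 = 0
  h1 : ph 1 = 1
  hm1 : ph m1 = -1
  hhf : ph hf = 1 / 2
  adlt : ∀ a b, ad a b < 16
  mult : ∀ a b, mu a b < 16
  ne0 : ∀ a b, ad a b ≠ 0 → ph (ad a b) ≠ 0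

namespace CA

variable (c : CA)

/-- sum of four products -/
def s4 (a1 b1 a2 b2 a3 b3 a4 b4 : ℕ) : ℕ :=
  c.ad (c.ad (c.mu a1 b1) (c.mu a2 b2)) (c.ad (c.mu a3 b3) (c.mu a4 b4))

/-- matrix product in codes -/
def mm (a b : ℕ) : ℕ :=
  bd (fun k => c.s4 (dg a (k / 4 * 4)) (dg b (k % 4)) (dg a (k / 4 * 4 + 1)) (dg b (k % 4 + 4))
    (dg a (k / 4 * 4 + 2)) (dg b (k % 4 + 8)) (dg a (k / 4 * 4 + 3)) (dg b (k % 4 + 12))) 16

/-- matrix sum in codes -/
def pl (a b : ℕ) : ℕ := bd (fun k => c.ad (dg a k) (dg b k)) 16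

/-- composition in codes -/
def cp (G a b : ℕ) : ℕ := c.pl (c.pl a b) (c.mm (c.mm a G) b)

/-- value of a word -/
def run (G : ℕ) (gens : List ℕ) : List ℕ → ℕ
  | [] => 0
  | g :: w => c.cp G (gens.getD g 0) (run G gens w)

/-- `G s` in codes (four digits) -/
def gv (G s : ℕ) : ℕ :=
  bd (fun k => c.s4 (dg G (4 * k)) (dg s 0) (dg G (4 * k + 1)) (dg s 1)
    (dg G (4 * k + 2)) (dg s 2) (dg G (4 * k + 3)) (dg s 3)) 4

/-- the product of two coefficient vectors -/
def dt (a b : ℕ) : ℕ :=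
  c.s4 (dg a 0) (dg b 0) (dg a 1) (dg b 1) (dg a 2) (dg b 2) (dg a 3) (dg b 3)

/-- the matrix of a Siegel transformation in codes -/
def sgc (G s v : ℕ) : ℕ :=
  bd (fun k => c.ad (c.ad (c.mu (dg v (k / 4)) (dg s (k % 4)))
      (c.mu c.m1 (c.mu (dg s (k / 4)) (dg v (k % 4)))))
      (c.mu (c.mu c.m1 (c.mu c.hf (c.dt (c.gv G v) v))) (c.mu (dg s (k / 4)) (dg s (k % 4))))) 16

/-- minor -/
def mn (a b i j : ℕ) : ℕ :=
  c.ad (c.mu (dg a i) (dg b j)) (c.mu c.m1 (c.mu (dg a j) (dg b i)))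

/-- the check -/
def chk (G : ℕ) (gens w : List ℕ) (s v : ℕ) : Bool :=
  c.run G gens w == c.sgc G s v && c.dt (c.gv G s) s == 0 && c.dt (c.gv G s) v == 0 &&
    (c.mn (c.gv G s) (c.gv G v) 0 1 != 0 || c.mn (c.gv G s) (c.gv G v) 0 2 != 0 ||
     c.mn (c.gv G s) (c.gv G v) 0 3 != 0 || c.mn (c.gv G s) (c.gv G v) 1 2 != 0 ||
     c.mn (c.gv G s) (c.gv G v) 1 3 != 0 || c.mn (c.gv G s) (c.gv G v) 2 3 != 0)

end CA

namespace CD

variable (c : CD K)

/-- the matrix with code `m` -/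
def mat (m : ℕ) : Fin 4 → Fin 4 → K := fun i j => c.ph (dg m (4 * i + j))

/-- the coefficient vector with code `s` -/
def cf (s : ℕ) : Fin 4 → K := fun i => c.ph (dg s i)

/-- the vector with code `s` -/
def vec (b : Fin 4 → V) (s : ℕ) : V := ∑ i, c.cf s i • b i

theorem s4_lt (c : CD K) (a1 b1 a2 b2 a3 b3 a4 b4 : ℕ) : c.s4 a1 b1 a2 b2 a3 b3 a4 b4 < 16 := c.adlt _ _

theorem ph_s4 (a1 b1 a2 b2 a3 b3 a4 b4 : ℕ) : c.ph (c.s4 a1 b1 a2 b2 a3 b3 a4 b4) =
    c.ph a1 * c.ph b1 + c.ph a2 * c.ph b2 + (c.ph a3 * c.ph b3 + c.ph a4 * c.ph b4) := by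
  simp only [CA.s4, c.had, c.hmu]

theorem mat_mm (a b : ℕ) (i j : Fin 4) :
    c.mat (c.mm a b) i j = ∑ x, c.mat a i x * c.mat b x j := by
  rw [mat, CA.mm, dg_bd _ 16 (fun k _ => CD.s4_lt c _ _ _ _ _ _ _ _) _ (by omega), ph_s4]
  have e1 : (4 * (i : ℕ) + j) / 4 * 4 = 4 * i := by omega
  have e2 : (4 * (i : ℕ) + j) % 4 = j := by omega
  rw [e1, e2, Fin.sum_univ_four]
  simp only [mat, Fin.val_zero, Fin.val_one, Fin.val_two, mul_zero, mul_one, zero_add, add_zero]
  have e3 : ((3 : Fin 4) : ℕ) = 3 := rfl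
  rw [e3]
  have e4 : (j : ℕ) + 4 = 4 + j := by omega
  have e5 : (j : ℕ) + 8 = 4 * 2 + j := by omega
  have e6 : (j : ℕ) + 12 = 4 * 3 + j := by omega
  rw [e4, e5, e6]
  ring

theorem mat_pl (a b : ℕ) (i j : Fin 4) :
    c.mat (c.pl a b) i j = c.mat a i j + c.mat b i j := by
  rw [mat, CA.pl, dg_bd _ 16 (fun k _ => c.adlt _ _) _ (by omega), c.had]
  rfl

end CD

theorem Ph_comp (B : LinearMap.BilinForm K V) (b : Fin 4 → V) (C C' : Fin 4 → Fin 4 → K)
    (u : V) :
    Ph B b C (Ph B b C' u) = Ph B b (fun i j => C i j + C' i j +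
      ∑ x, (∑ y, C i y * B (b y) (b x)) * C' x j) u := by
  simp only [Ph, Fin.sum_univ_four, map_add, map_smul, smul_eq_mul]
  module

theorem Ph_zero (B : LinearMap.BilinForm K V) (b : Fin 4 → V) (C : Fin 4 → Fin 4 → K)
    (hC : ∀ i j, C i j = 0) (u : V) : Ph B b C u = u := by
  simp [Ph, hC]

variable {B : LinearMap.BilinForm K V} {F : Subgroup (V ≃ₗ[K] V)}

theorem has_cp (c : CD K) (b : Fin 4 → V) (G : ℕ) (hG : ∀ i j, B (b i) (b j) = c.mat G i j)
    {m m' : ℕ} (h : Has F (Ph B b (c.mat m))) (h' : Has F (Ph B b (c.mat m'))) :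
    Has F (Ph B b (c.mat (c.cp G m m'))) := by
  refine (h.comp h').congr fun u => ?_
  rw [Ph_comp]
  congr 1
  funext i j
  simp only [CA.cp, CD.mat_pl, CD.mat_mm, hG]

theorem has_run (c : CD K) (b : Fin 4 → V) (G : ℕ) (hG : ∀ i j, B (b i) (b j) = c.mat G i j)
    (gens : List ℕ) (hg : ∀ m ∈ gens, Has F (Ph B b (c.mat m))) (w : List ℕ) :
    Has F (Ph B b (c.mat (c.run G gens w))) := by
  have hz : Has F (Ph B b (c.mat 0)) := Has.id.congr fun u => by
    rw [Ph_zero]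
    intro i j
    simp [CD.mat, dg, c.h0]
  induction w with
  | nil => exact hz
  | cons g w ih =>
    refine has_cp c b G hG ?_ ih
    by_cases hgl : g < gens.length
    · rw [List.getD_eq_getElem _ _ hgl]
      exact hg _ (List.getElem_mem hgl)
    · rw [List.getD_eq_default _ _ (by omega)]
      exact hz

theorem CD.B_vec (c : CD K) (b : Fin 4 → V) (G : ℕ)
    (hG : ∀ i j, B (b i) (b j) = c.mat G i j) (s : ℕ) (i : Fin 4) :
    B (b i) (c.vec b s) = c.cf (c.gv G s) i := by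
  rw [CD.cf, CA.gv, dg_bd _ 4 (fun k _ => CD.s4_lt c _ _ _ _ _ _ _ _) _ (by omega), CD.ph_s4]
  rw [CD.vec, map_sum]
  simp only [map_smul, smul_eq_mul, hG, Fin.sum_univ_four, CD.mat, CD.cf]
  simp only [Fin.val_zero, Fin.val_one, Fin.val_two, add_zero]
  have e3 : ((3 : Fin 4) : ℕ) = 3 := rfl
  rw [e3]
  ring

theorem CD.ph_dt (c : CD K) (a b : ℕ) : c.ph (c.dt a b) = ∑ i, c.cf a i * c.cf b i := by
  rw [CA.dt, CD.ph_s4, Fin.sum_univ_four]
  simp only [CD.cf, Fin.val_zero, Fin.val_one, Fin.val_two]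
  have e3 : ((3 : Fin 4) : ℕ) = 3 := rfl
  rw [e3]
  ring

theorem CD.B_vec_vec (hsym : ∀ u v, B u v = B v u) (c : CD K) (b : Fin 4 → V) (G : ℕ)
    (hG : ∀ i j, B (b i) (b j) = c.mat G i j) (s v : ℕ) :
    B (c.vec b s) (c.vec b v) = c.ph (c.dt (c.gv G s) v) := by
  rw [CD.ph_dt, hsym]
  conv_lhs => rw [CD.vec]
  simp only [map_sum, map_smul, LinearMap.sum_apply, LinearMap.smul_apply, smul_eq_mul,
    c.B_vec b G hG]
  exact Finset.sum_congr rfl fun i _ => mul_comm _ _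

theorem CD.Ph_sgc (hsym : ∀ u v, B u v = B v u) (c : CD K) (b : Fin 4 → V) (G : ℕ)
    (hG : ∀ i j, B (b i) (b j) = c.mat G i j) (s v : ℕ) (u : V) :
    Ph B b (c.mat (c.sgc G s v)) u = sg B (c.vec b s) (c.vec b v) u := by
  have h1 : ∀ i j : Fin 4, c.mat (c.sgc G s v) i j =
      c.cf v i * c.cf s j - c.cf s i * c.cf v j -
        (1 / 2 * c.ph (c.dt (c.gv G v) v)) * (c.cf s i * c.cf s j) := by
    intro i j
    rw [CD.mat, CA.sgc, dg_bd _ 16 (fun k _ => c.adlt _ _) _ (by omega)]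
    have e1 : (4 * (i : ℕ) + j) / 4 = i := by omega
    have e2 : (4 * (i : ℕ) + j) % 4 = j := by omega
    rw [e1, e2]
    simp only [c.had, c.hmu, c.hm1, c.hhf, CD.cf]
    ring
  have h2 : ∀ t : ℕ, B u (c.vec b t) = ∑ i, c.cf t i * B (b i) u := by
    intro t
    rw [CD.vec, map_sum]
    exact Finset.sum_congr rfl fun i _ => by rw [map_smul, smul_eq_mul, hsym]
  simp only [Ph, h1, sg, h2, c.B_vec_vec hsym b G hG v v]
  simp only [CD.vec, Fin.sum_univ_four]
  module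

/-- soundness of the check -/
theorem CD.chk_sound (hsym : ∀ u v, B u v = B v u) (c : CD K) (b : Fin 4 → V) (G : ℕ)
    (hG : ∀ i j, B (b i) (b j) = c.mat G i j) (gens : List ℕ)
    (hg : ∀ m ∈ gens, Has F (Ph B b (c.mat m))) (w : List ℕ) (s v : ℕ)
    (h : c.chk G gens w s v = true) :
    Has F (sg B (c.vec b s) (c.vec b v)) ∧ B (c.vec b s) (c.vec b s) = 0 ∧
      B (c.vec b s) (c.vec b v) = 0 ∧ Ind2 K (c.vec b s) (c.vec b v) := by
  simp only [CA.chk, Bool.and_eq_true, Bool.or_eq_true, beq_iff_eq, bne_iff_ne] at h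
  obtain ⟨⟨⟨h1, h2⟩, h3⟩, h4⟩ := h
  refine ⟨?_, ?_, ?_, ?_⟩
  · have := has_run c b G hG gens hg w
    rw [h1] at this
    exact this.congr fun u => c.Ph_sgc hsym b G hG s v u
  · rw [c.B_vec_vec hsym b G hG, h2, c.h0]
  · rw [c.B_vec_vec hsym b G hG, h3, c.h0]
  · have key : ∀ i j : Fin 4, c.mn (c.gv G s) (c.gv G v) i j ≠ 0 →
        c.cf (c.gv G s) i * c.cf (c.gv G v) j - c.cf (c.gv G s) j * c.cf (c.gv G v) i ≠ 0 := by
      intro i j hne
      have := c.ne0 _ _ hne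
      rw [c.had] at this
      simp only [c.hmu, c.hm1] at this
      intro h0
      apply this
      simp only [CD.cf] at h0
      linear_combination h0
    have fin : ∀ i j : Fin 4,
        c.cf (c.gv G s) i * c.cf (c.gv G v) j - c.cf (c.gv G s) j * c.cf (c.gv G v) i ≠ 0 →
        Ind2 K (c.vec b s) (c.vec b v) := by
      intro i j hne x y hxy
      have e1 : ∀ k : Fin 4, x * c.cf (c.gv G s) k + y * c.cf (c.gv G v) k = 0 := by
        intro k
        have := congrArg (B (b k)) hxy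
        rwa [map_add, map_smul, map_smul, map_zero, smul_eq_mul, smul_eq_mul,
          c.B_vec b G hG, c.B_vec b G hG] at this
      have ei := e1 i
      have ej := e1 j
      constructor
      · have : x * (c.cf (c.gv G s) i * c.cf (c.gv G v) j -
            c.cf (c.gv G s) j * c.cf (c.gv G v) i) = 0 := by
          linear_combination c.cf (c.gv G v) j * ei - c.cf (c.gv G v) i * ej
        exact (mul_eq_zero.1 this).resolve_right hne
      · have : y * (c.cf (c.gv G s) i * c.cf (c.gv G v) j -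
            c.cf (c.gv G s) j * c.cf (c.gv G v) i) = 0 := by
          linear_combination c.cf (c.gv G s) i * ej - c.cf (c.gv G s) j * ei
        exact (mul_eq_zero.1 this).resolve_right hne
    rcases h4 with ((((h4 | h4) | h4) | h4) | h4) | h4
    · exact fin 0 1 (key 0 1 h4)
    · exact fin 0 2 (key 0 2 h4)
    · exact fin 0 3 (key 0 3 h4)
    · exact fin 1 2 (key 1 2 h4)
    · exact fin 1 3 (key 1 3 h4)
    · exact fin 2 3 (key 2 3 h4)

end Pool.Agent.H33.TO
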