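import Pool.Agent.H33.TO.Net

/-!
# JOB TO-29: the root system `B_l` and pairs of indices (combinatorics)

`wt a` is `ε_i`, `-ε_i`, `0` for `a = i, -i, 0`.  `Phi l` is the set of integer vectors of norm 1
or 2.

(R1) `phi_iff`: `wt a + wt b ∈ Phi l ↔ b ≠ a ∧ b ≠ ng a`.  Norms: if `a = b = none`: `0`.  If `a = b`
or not: `a = b ≠ none`: norm 4; `b = ng a`: norm 0; otherwise norm `[a ≠ none] + [b ≠ none]`, which
is 1 or 2 (not both none since `a ≠ b`).
(R2) `phi_exists`: every `α ∈ Phi l` is `wt a + wt b` with `a ≠ none`, `b ≠ a`, `b ≠ ng a`: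
an integer vector with `∑ α_i² = 1` is `± ε_i`; with `∑ α_i² = 2` it has exactly two nonzero
entries `± 1`.
(R3) `phi_unique`: if `wt a + wt b = wt c + wt d` and `b ≠ a, ng a` then `(a, b) = (c, d)` or
`(a, b) = (d, c)`.  (By (R1) also `d ≠ c, ng c`.  Compare coordinates: the index `i` with
`(wt a)_i ≠ 0` etc.)
(R4) `rel_nr`: if `S` is closed then the relation `P a b := wt a + wt b ∈ S` satisfies `NR`:
symmetric; `ne` by (R1) and `S ⊆ Phi l`; trans: `wt a + wt b ∈ S`, `wt (ng b) + wt c ∈ S`, the sum is
`wt a + wt c` (`wt (ng b) = - wt b`), which is in `Phi l` by (R1), so in `S`.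
(R5) `closed_of_nr`: conversely if `P` satisfies `NR`, then `{α | ∃ a b, P a b ∧ α = wt a + wt b}`
is closed: let `α = wt a + wt b`, `β = wt c + wt d`, `P a b`, `P c d`, `α + β ∈ Phi l`.  Then one of
`a, b` is the negative of one of `c, d` (where `none` is its own negative): otherwise the norm of
`wt a + wt b + wt c + wt d` is at least 3 : if `a = c ≠ none` or another coincidence among the two
pairs: a coordinate `± 2`, norm at least 4; if there is no coincidence and no opposite pair
then the indices `a, b, c, d` are different and not opposite to each other, at most one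
of them is `none`, so the norm is at least 3.  By symmetry say `c = ng b`; then
`α + β = wt a + wt d`, in `Phi l`, so `d ≠ a, ng a` by (R1), and `P a d` by `trans`.
-/

namespace Pool.Agent.H33.TO

variable {l : ℕ}

/-- the weight of an index -/
def wt : Ix l → (Fin l → ℤ)
  | none => 0
  | some (i, true) => Pi.single i 1
  | some (i, false) => Pi.single i (-1)

/-- the root system of type `B_l`: the integer vectors of norm 1 or 2 -/
def Phi (l : ℕ) : Set (Fin l → ℤ) := {α | ∑ i, α i ^ 2 = 1 ∨ ∑ i, α i ^ 2 = 2}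

/-- closed sets of roots -/
def ClosedRt (S : Set (Fin l → ℤ)) : Prop :=
  S ⊆ Phi l ∧ ∀ α ∈ S, ∀ β ∈ S, α + β ∈ Phi l → α + β ∈ S

theorem wt_ng (a : Ix l) : wt (ng a) = - wt a := by
  rcases a with _ | ⟨i, _ | _⟩
  · show (0 : Fin l → ℤ) = - 0
    rw [neg_zero]
  · show (Pi.single i (1 : ℤ) : Fin l → ℤ) = - (Pi.single i (-1 : ℤ) : Fin l → ℤ)
    rw [← Pi.single_neg, neg_neg]
  · show (Pi.single i (-1 : ℤ) : Fin l → ℤ) = - (Pi.single i (1 : ℤ) : Fin l → ℤ)
    rw [← Pi.single_neg]

/-- the inner product of two weights -/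
def ipw (a b : Ix l) : ℤ := ∑ i, wt a i * wt b i

/-- the sign -/
def sgb : Bool → ℤ
  | true => 1
  | false => -1

theorem sgb_mul (s t : Bool) : sgb s * sgb t = if s = t then 1 else -1 := by
  cases s <;> cases t <;> rfl

theorem wt_some (i : Fin l) (s : Bool) : wt (some (i, s)) = Pi.single i (sgb s) := by
  cases s <;> rfl

theorem ipw_none_left (b : Ix l) : ipw none b = 0 := by
  unfold ipw
  refine Finset.sum_eq_zero fun i _ => ?_
  show (0 : ℤ) * wt b i = 0
  rw [zero_mul]

theorem ipw_comm (a b : Ix l) : ipw a b = ipw b a := by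
  unfold ipw
  exact Finset.sum_congr rfl fun i _ => mul_comm _ _

theorem ipw_some (i j : Fin l) (s t : Bool) :
    ipw (some (i, s)) (some (j, t)) = if i = j then (if s = t then 1 else -1) else 0 := by
  unfold ipw
  rw [wt_some, wt_some, Finset.sum_eq_single i]
  · rw [Pi.single_eq_same]
    by_cases h : i = j
    · subst h
      rw [Pi.single_eq_same, if_pos rfl, sgb_mul]
    · rw [Pi.single_eq_of_ne h, mul_zero, if_neg h]
  · intro k _ hk
    rw [Pi.single_eq_of_ne hk, zero_mul]
  · intro h
    exact absurd (Finset.mem_univ i) h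

theorem ipw_cases (a b : Ix l) : (ipw a b = 1 ∧ b = a ∧ a ≠ none) ∨ (ipw a b = -1 ∧ b = ng a ∧ a ≠ none) ∨
    (ipw a b = 0 ∧ (a = none ∨ b = none ∨ (b ≠ a ∧ b ≠ ng a))) := by
  rcases a with _ | ⟨i, s⟩
  · exact Or.inr (Or.inr ⟨ipw_none_left _, Or.inl rfl⟩)
  · rcases b with _ | ⟨j, t⟩
    · refine Or.inr (Or.inr ⟨?_, Or.inr (Or.inl rfl)⟩)
      rw [ipw_comm]; exact ipw_none_left _
    · rw [ipw_some]
      by_cases h : i = j
      · subst h
        by_cases hs : s = t
        · subst hs
          left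
          simp
        · right; left
          refine ⟨by rw [if_pos rfl, if_neg hs], ?_, by simp⟩
          show some (i, t) = some (i, !s)
          have : t = !s := by
            revert hs; cases s <;> cases t <;> simp
          rw [this]
      · right; right
        refine ⟨if_neg h, Or.inr (Or.inr ⟨?_, ?_⟩)⟩
        · intro e
          simp only [Option.some.injEq, Prod.mk.injEq] at e
          exact h e.1.symm
        · intro e
          have e' : some (j, t) = some (i, !s) := e
          simp only [Option.some.injEq, Prod.mk.injEq] at e'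
          exact h e'.1.symm

theorem ipw_self (a : Ix l) : ipw a a = if a = none then 0 else 1 := by
  rcases a with _ | ⟨i, s⟩
  · rw [ipw_none_left, if_pos rfl]
  · rw [ipw_some]
    simp

theorem ipw_eq_zero {a b : Ix l} (h1 : b ≠ a) (h2 : b ≠ ng a) : ipw a b = 0 := by
  rcases ipw_cases a b with h | h | h
  · exact absurd h.2.1 h1
  · exact absurd h.2.1 h2
  · exact h.1

theorem norm_add (a b : Ix l) : ∑ i, (wt a + wt b) i ^ 2 = ipw a a + 2 * ipw a b + ipw b b := by
  unfold ipw
  rw [Finset.mul_sum, ← Finset.sum_add_distrib, ← Finset.sum_add_distrib]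
  refine Finset.sum_congr rfl fun i _ => ?_
  rw [Pi.add_apply]
  ring

theorem phi_iff (a b : Ix l) : wt a + wt b ∈ Phi l ↔ b ≠ a ∧ b ≠ ng a := by
  show (∑ i, (wt a + wt b) i ^ 2 = 1 ∨ ∑ i, (wt a + wt b) i ^ 2 = 2) ↔ _
  rw [norm_add]
  rcases ipw_cases a b with ⟨h1, h2, h3⟩ | ⟨h1, h2, h3⟩ | ⟨h1, h2⟩
  · subst h2
    have h4 := ipw_self b
    rw [if_neg h3] at h4
    rw [h4]
    constructor
    · rintro (h | h) <;> omega
    · rintro ⟨h, _⟩
      exact absurd rfl h
  · subst h2
    have h4 := ipw_self a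
    rw [if_neg h3] at h4
    have h5 := ipw_self (ng a)
    rw [if_neg (ng_ne_none h3)] at h5
    rw [h1, h4, h5]
    constructor
    · rintro (h | h) <;> omega
    · rintro ⟨_, h⟩
      exact absurd rfl h
  · rw [h1, ipw_self, ipw_self]
    by_cases ha : a = none
    · subst ha
      by_cases hb : b = none
      · subst hb
        simp
      · simp [hb]
    · by_cases hb : b = none
      · subst hb
        simp only [if_neg ha, if_true]
        constructor
        · intro _
          exact ⟨fun e => ha e.symm, fun e => ng_ne_none ha e.symm⟩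
        · intro _
          left; norm_num
      · rcases h2 with h2 | h2 | h2
        · exact absurd h2 ha
        · exact absurd h2 hb
        · simp only [if_neg ha, if_neg hb]
          constructor
          · intro _
            exact h2
          · intro _
            right; norm_num

/-- Removing a weight from an integer vector of small norm. -/
theorem peel {β : Fin l → ℤ} (h0 : 0 < ∑ i, β i ^ 2) (h4 : ∑ i, β i ^ 2 < 4) :
    ∃ (i : Fin l) (s : Bool), (β - wt (some (i, s))) i = 0 ∧
      ∑ j, (β - wt (some (i, s))) j ^ 2 = ∑ j, β j ^ 2 - 1 := by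
  obtain ⟨i, _, hi⟩ : ∃ i ∈ Finset.univ, 0 < β i ^ 2 := by
    by_contra hcon
    push Not at hcon
    have : ∑ i, β i ^ 2 ≤ 0 := Finset.sum_nonpos hcon
    omega
  have hle : β i ^ 2 ≤ ∑ j, β j ^ 2 :=
    Finset.single_le_sum (f := fun j => β j ^ 2) (fun j _ => sq_nonneg _) (Finset.mem_univ i)
  have hb : β i = 1 ∨ β i = -1 := by
    have h1 : β i ^ 2 < 4 := lt_of_le_of_lt hle h4
    have h2 : β i < 2 := by nlinarith
    have h3 : -2 < β i := by nlinarith
    have h5 : β i ≠ 0 := by
      intro h
      rw [h] at hi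
      norm_num at hi
    omega
  obtain ⟨s, hs⟩ : ∃ s : Bool, β i = sgb s := by
    rcases hb with hb | hb
    · exact ⟨true, hb⟩
    · exact ⟨false, hb⟩
  have hz : (β - wt (some (i, s))) i = 0 := by
    rw [Pi.sub_apply, wt_some, Pi.single_eq_same, hs, sub_self]
  refine ⟨i, s, hz, ?_⟩
  rw [← Finset.add_sum_erase _ _ (Finset.mem_univ i), ← Finset.add_sum_erase Finset.univ (fun j => β j ^ 2)
    (Finset.mem_univ i), hz]
  have h6 : ∑ j ∈ Finset.univ.erase i, (β - wt (some (i, s))) j ^ 2 = ∑ j ∈ Finset.univ.erase i, β j ^ 2 := by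
    refine Finset.sum_congr rfl fun j hj => ?_
    rw [Pi.sub_apply, wt_some, Pi.single_eq_of_ne (Finset.ne_of_mem_erase hj), sub_zero]
  rw [h6]
  have h7 : β i ^ 2 = 1 := by
    rcases hb with hb | hb <;> rw [hb] <;> norm_num
  simp only [h7]
  ring

theorem eq_zero_of_norm {β : Fin l → ℤ} (h : ∑ i, β i ^ 2 = 0) : β = 0 := by
  funext i
  have h1 := (Finset.sum_eq_zero_iff_of_nonneg (fun j _ => sq_nonneg (β j))).1 h i (Finset.mem_univ i)
  exact pow_eq_zero_iff (two_ne_zero) |>.1 h1

theorem phi_exists {α : Fin l → ℤ} (h : α ∈ Phi l) :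
    ∃ a b : Ix l, a ≠ none ∧ b ≠ a ∧ b ≠ ng a ∧ wt a + wt b = α := by
  have h' : ∑ i, α i ^ 2 = 1 ∨ ∑ i, α i ^ 2 = 2 := h
  obtain ⟨i, s, hz, hn⟩ := peel (β := α) (by rcases h' with h | h <;> omega) (by rcases h' with h | h <;> omega)
  rcases h' with h1 | h1
  · have h2 := eq_zero_of_norm (β := α - wt (some (i, s))) (by omega)
    refine ⟨some (i, s), none, by simp, by simp, ?_, ?_⟩
    · show none ≠ some (i, !s)
      simp
    · show wt (some (i, s)) + 0 = α
      rw [add_zero]
      exact (sub_eq_zero.1 h2).symm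
  · obtain ⟨j, t, hz', hn'⟩ := peel (β := α - wt (some (i, s))) (by omega) (by omega)
    have h2 := eq_zero_of_norm (β := α - wt (some (i, s)) - wt (some (j, t))) (by omega)
    have hij : j ≠ i := by
      rintro rfl
      rw [Pi.sub_apply, hz, wt_some, Pi.single_eq_same] at hz'
      cases t <;> simp [sgb] at hz'
    refine ⟨some (i, s), some (j, t), by simp, ?_, ?_, ?_⟩
    · intro e
      simp only [Option.some.injEq, Prod.mk.injEq] at e
      exact hij e.1
    · intro e
      have e' : some (j, t) = some (i, !s) := e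
      simp only [Option.some.injEq, Prod.mk.injEq] at e'
      exact hij e'.1
    · rw [sub_sub] at h2
      exact (sub_eq_zero.1 h2).symm

theorem sum_wt_mul (a b c : Ix l) : ∑ i, (wt a + wt b) i * wt c i = ipw a c + ipw b c := by
  unfold ipw
  rw [← Finset.sum_add_distrib]
  refine Finset.sum_congr rfl fun i _ => ?_
  rw [Pi.add_apply]
  ring

theorem wt_inj {a b : Ix l} (h : wt a = wt b) : a = b := by
  have h1 : ipw a a = ipw b a := by unfold ipw; rw [h]
  have h2 : ipw b b = ipw a b := by unfold ipw; rw [h]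
  by_cases ha : a = none
  · by_cases hb : b = none
    · rw [ha, hb]
    · rw [ipw_self, if_neg hb, ha, ipw_none_left] at h2
      omega
  · rw [ipw_self, if_neg ha] at h1
    rcases ipw_cases b a with h3 | h3 | h3
    · exact h3.2.1
    · omega
    · omega

theorem phi_unique {a b c d : Ix l} (h : wt a + wt b = wt c + wt d) (h1 : b ≠ a)
    (h2 : b ≠ ng a) : (a = c ∧ b = d) ∨ (a = d ∧ b = c) := by
  have key : ∀ x : Ix l, ipw a x + ipw b x = ipw c x + ipw d x := by
    intro x
    rw [← sum_wt_mul, ← sum_wt_mul, h]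
  have h0 := ipw_eq_zero h1 h2
  have hone : ∀ x : Ix l, ipw c x + ipw d x = 1 → c = x ∨ d = x := by
    intro x hx
    rcases ipw_cases c x with h3 | h3 | h3
    · exact Or.inl h3.2.1.symm
    · exfalso
      rcases ipw_cases d x with h4 | h4 | h4 <;> omega
    · rcases ipw_cases d x with h4 | h4 | h4
      · exact Or.inr h4.2.1.symm
      · omega
      · omega
  have fin1 : ∀ x y z w : Ix l, wt x + wt y = wt z + wt w → z = x → y = w := by
    intro x y z w e1 e2
    rw [e2] at e1
    exact wt_inj (add_left_cancel e1)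
  by_cases ha : a = none
  · have hb : b ≠ none := fun hb => h1 (by rw [hb, ha])
    have h3 := key b
    rw [h0, ipw_self, if_neg hb] at h3
    rcases hone b (by omega) with h4 | h4
    · refine Or.inr ⟨?_, h4.symm⟩
      exact fin1 b a c d (by rw [add_comm, h]) h4
    · refine Or.inl ⟨?_, h4.symm⟩
      exact fin1 b a d c (by rw [add_comm, h, add_comm]) h4
  · have h3 := key a
    rw [ipw_comm b a, h0, ipw_self, if_neg ha] at h3
    rcases hone a (by omega) with h4 | h4
    · exact Or.inl ⟨h4.symm, fin1 a b c d h h4⟩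
    · exact Or.inr ⟨h4.symm, fin1 a b d c (by rw [h, add_comm]) h4⟩

theorem rel_nr {S : Set (Fin l → ℤ)} (hS : ClosedRt S) : NR (fun a b => wt a + wt b ∈ S) := by
  refine ⟨?_, ?_, ?_⟩
  · intro a b h
    show wt b + wt a ∈ S
    rw [add_comm]
    exact h
  · intro a b h
    exact (phi_iff a b).1 (hS.1 h)
  · intro a b c h1 h2 h3 h4
    have e : wt a + wt b + (wt (ng b) + wt c) = wt a + wt c := by
      rw [wt_ng]
      abel
    have h5 : wt a + wt b + (wt (ng b) + wt c) ∈ Phi l := by
      rw [e]
      exact (phi_iff a c).2 ⟨h3, h4⟩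
    have h6 := hS.2 _ h1 _ h2 h5
    rw [e] at h6
    exact h6

theorem closed_of_nr {P : Ix l → Ix l → Prop} (hP : NR P) :
    ClosedRt {α : Fin l → ℤ | ∃ a b, P a b ∧ α = wt a + wt b} := by
  refine ⟨?_, ?_⟩
  · rintro _ ⟨a, b, h, rfl⟩
    exact (phi_iff a b).2 (hP.ne a b h)
  · rintro _ ⟨a, b, h1, rfl⟩ _ ⟨c, d, h2, rfl⟩ hΦ
    -- the composition
    have step : ∀ a b d : Ix l, P a b → P (ng b) d → wt a + wt b + (wt (ng b) + wt d) ∈ Phi l →
        ∃ a' b', P a' b' ∧ wt a + wt b + (wt (ng b) + wt d) = wt a' + wt b' := by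
      intro a b d h1 h2 h3
      have e : wt a + wt b + (wt (ng b) + wt d) = wt a + wt d := by
        rw [wt_ng]
        abel
      rw [e] at h3
      obtain ⟨h4, h5⟩ := (phi_iff a d).1 h3
      exact ⟨a, d, hP.trans a b d h1 h2 h4 h5, e⟩
    show ∃ a' b', P a' b' ∧ wt a + wt b + (wt c + wt d) = wt a' + wt b'
    by_cases e1 : c = ng b
    · subst e1
      exact step a b d h1 h2 hΦ
    by_cases e2 : d = ng b
    · subst e2
      rw [add_comm (wt c)] at hΦ ⊢
      exact step a b c h1 (hP.symm _ _ h2) hΦ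
    by_cases e3 : c = ng a
    · subst e3
      rw [add_comm (wt a)] at hΦ ⊢
      exact step b a d (hP.symm _ _ h1) h2 hΦ
    by_cases e4 : d = ng a
    · subst e4
      rw [add_comm (wt a), add_comm (wt c)] at hΦ ⊢
      exact step b a c (hP.symm _ _ h1) (hP.symm _ _ h2) hΦ
    exfalso
    obtain ⟨n1, n2⟩ := hP.ne _ _ h1
    obtain ⟨n3, n4⟩ := hP.ne _ _ h2
    have hnn : ∀ {x y : Ix l}, y ≠ ng x → 0 ≤ ipw x y := by
      intro x y hxy
      rcases ipw_cases x y with h | h | h
      · omega
      · exact absurd h.2.1 hxy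
      · omega
    have p1 := hnn e1
    have p2 := hnn e2
    have p3 := hnn e3
    have p4 := hnn e4
    have hnorm : ∑ i, (wt a + wt b + (wt c + wt d)) i ^ 2 = ipw a a + 2 * ipw a b + ipw b b +
        (ipw c c + 2 * ipw c d + ipw d d) + 2 * (ipw a c + ipw a d + ipw b c + ipw b d) := by
      unfold ipw
      simp only [Finset.mul_sum, ← Finset.sum_add_distrib]
      refine Finset.sum_congr rfl fun i _ => ?_
      simp only [Pi.add_apply]
      ring
    have z1 := ipw_eq_zero n1 n2
    have z2 := ipw_eq_zero n3 n4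
    have hΦ' : ∑ i, (wt a + wt b + (wt c + wt d)) i ^ 2 = 1 ∨ ∑ i, (wt a + wt b + (wt c + wt d)) i ^ 2 = 2 := hΦ
    rw [hnorm, z1, z2] at hΦ'
    have sa := ipw_self a
    have sb := ipw_self b
    have sc := ipw_self c
    have sd := ipw_self d
    by_cases ha : a = none
    · have hb : b ≠ none := fun hb => n1 (by rw [hb, ha])
      have hc : c ≠ none := fun hc => e3 (by rw [hc, ha]; rfl)
      have hd : d ≠ none := fun hd => e4 (by rw [hd, ha]; rfl)
      rw [if_neg hb] at sb
      rw [if_neg hc] at sc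
      rw [if_neg hd] at sd
      rw [if_pos ha] at sa
      rcases hΦ' with h | h <;> omega
    · rw [if_neg ha] at sa
      by_cases hb : b = none
      · have hc : c ≠ none := fun hc => e1 (by rw [hc, hb]; rfl)
        have hd : d ≠ none := fun hd => e2 (by rw [hd, hb]; rfl)
        rw [if_pos hb] at sb
        rw [if_neg hc] at sc
        rw [if_neg hd] at sd
        rcases hΦ' with h | h <;> omega
      · rw [if_neg hb] at sb
        by_cases hc : c = none
        · have hd : d ≠ none := fun hd => n3 (by rw [hd, hc])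
          rw [if_pos hc] at sc
          rw [if_neg hd] at sd
          rcases hΦ' with h | h <;> omega
        · rw [if_neg hc] at sc
          have : 0 ≤ ipw d d := by
            rw [sd]
            split_ifs <;> omega
          rcases hΦ' with h | h <;> omega

end Pool.Agent.H33.TO
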