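import Pool.Agent.H33.TO.TorA

/-!
# JOB TO-31: the spin group acts on vectors

`Q = QQ l K`, `Q u = bl u u`, so in the Clifford algebra `ι u * ι u = bl u u` and
`ι u * ι v + ι v * ι u = 2 bl u v` (`CliffordAlgebra.ι_mul_ι_add_swap`, `QuadraticMap.polar`).
Mathlib: `spinGroup Q` (a submonoid of the Clifford algebra, with a group instance; the inverse
is `star`), `spinGroup.toUnits`, `spinGroup.conjAct_smul_ι_mem_range_ι` (needs
`Invertible (2 : K)`, take `invertibleOfNonzero`): `x * ι u * x⁻¹ ∈ range ι`.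
`CliffordAlgebra.ι` is injective when 2 is invertible (`CliffordAlgebra.ι_injective` or from
`CliffordAlgebra.ι_inj`/`invertible two`; look for it in
`Mathlib/LinearAlgebra/CliffordAlgebra/Contraction.lean`).

`exists_pi`: define `π x u` as the unique vector with `x * ι u = ι (π x u) * x`
(`x` is invertible).  Linear in `u`, multiplicative in `x`, so `π x` is invertible with inverse
`π x⁻¹`.  Isometry: `ι (π x u) = x ι(u) x⁻¹`, squares: `bl (π x u) (π x u) = bl u u` (as scalars in
the Clifford algebra: `algebraMap` is injective, `CliffordAlgebra.algebraMap_leftInverse` or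
`algebraMap_injective` for a nontrivial algebra over a field), polarise (`2 ≠ 0`).

`act_root`: with `s` singular, `bl s v = 0`, `c ∈ K`, `x = 1 + c (ι s ι v)`:
`x * ι u = ι (sg s ((-2c) • v) u) * x`.
Computation in the Clifford algebra (write `s, v, u` for `ι s` etc., `s s = 0`, `s v = - v s`,
`v v = bl v v`): with `y = c v` it suffices `c = 1`.  `x u = u + s v u`, and
`sg s (-2v) u = u - 2B(u,s) v + 2B(u,v) s - 2B(v,v)B(u,s) s`.  `s v u = 2B(u,v) s - s u v =
2B(u,v) s - 2B(u,s) v + u s v`.  So `x u = u + u s v + 2B(u,v) s - 2B(u,s) v`.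
`(sg u) x = sg u + (sg u) s v`, where `(sg u) s v = u s v - 2B(u,s) v s v + 0` (since `s s = 0`) and
`v s v = - s v v = - B(v,v) s`.  So `(sg u) x = u - 2B(u,s) v + 2B(u,v) s - 2B(v,v)B(u,s) s +
u s v + 2B(u,s)B(v,v) s = x u`.  OK.
-/

namespace Pool.Agent.H33.TO

open CliffordAlgebra

variable {l : ℕ} {K : Type*} [Field K]

/-- the split quadratic form `x_0² + 2 ∑ x_i x_{-i}` in `2 l + 1` variables -/
noncomputable def QQ (l : ℕ) (K : Type*) [Field K] : QuadraticForm K (Ix l → K) :=
  (bl l K).toQuadraticMap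

theorem QQ_apply (u : Ix l → K) : QQ l K u = bl l K u u := rfl

theorem QQ_polar (u v : Ix l → K) : QuadraticMap.polar (QQ l K) u v = 2 * bl l K u v := by
  unfold QuadraticMap.polar
  rw [QQ_apply, QQ_apply, QQ_apply]
  simp only [map_add, LinearMap.add_apply]
  rw [bl_symm v u]
  ring

theorem iota_swap (u v : Ix l → K) : ι (QQ l K) u * ι (QQ l K) v + ι (QQ l K) v * ι (QQ l K) u =
    algebraMap K _ (2 * bl l K u v) := by
  rw [CliffordAlgebra.ι_mul_ι_add_swap, QQ_polar]

theorem algMap_inj (h2 : (2 : K) ≠ 0) :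
    Function.Injective (algebraMap K (CliffordAlgebra (QQ l K))) := by
  have : Invertible (2 : K) := invertibleOfNonzero h2
  exact (algebraMap K (CliffordAlgebra (QQ l K))).injective

theorem iota_inj (h2 : (2 : K) ≠ 0) {u v : Ix l → K} (h : ι (QQ l K) u = ι (QQ l K) v) : u = v := by
  have key : ∀ w : Ix l → K, ι (QQ l K) w = 0 → w = 0 := by
    intro w hw
    funext a
    have h1 := iota_swap (K := K) w (ev (ng a))
    rw [hw, zero_mul, mul_zero, add_zero, ← map_zero (algebraMap K (CliffordAlgebra (QQ l K)))] at h1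
    have h3 := algMap_inj h2 h1
    rw [bl_ev', ng_ng] at h3
    rcases mul_eq_zero.1 h3.symm with h4 | h4
    · exact absurd h4 h2
    · exact h4
  have h1 := key (u - v) (by rw [map_sub, h, sub_self])
  exact sub_eq_zero.1 h1

theorem exists_pi (h2 : (2 : K) ≠ 0) :
    ∃ π : spinGroup (QQ l K) →* ((Ix l → K) ≃ₗ[K] (Ix l → K)),
      (∀ (x : spinGroup (QQ l K)) (u : Ix l → K),
        (x : CliffordAlgebra (QQ l K)) * ι (QQ l K) u = ι (QQ l K) (π x u) * x) ∧
      ∀ x u v, bl l K (π x u) (π x v) = bl l K u v := by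
  have : Invertible (2 : K) := invertibleOfNonzero h2
  have hex : ∀ (x : spinGroup (QQ l K)) (u : Ix l → K), ∃ w : Ix l → K,
      (x : CliffordAlgebra (QQ l K)) * ι (QQ l K) u = ι (QQ l K) w * x := by
    intro x u
    have h1 := spinGroup.conjAct_smul_ι_mem_range_ι (x := spinGroup.toUnits x) (x.2) u
    obtain ⟨w, hw⟩ := h1
    rw [ConjAct.units_smul_def] at hw
    refine ⟨w, ?_⟩
    rw [hw]
    have h3 : ((spinGroup.toUnits x)⁻¹ : (CliffordAlgebra (QQ l K))ˣ).1 * (x : CliffordAlgebra (QQ l K)) = 1 :=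
      (spinGroup.toUnits x).inv_mul
    have h4 : (ConjAct.ofConjAct (ConjAct.toConjAct (spinGroup.toUnits x))) = spinGroup.toUnits x := rfl
    rw [h4, mul_assoc, h3, mul_one]
    rfl
  have hcan : ∀ (x : spinGroup (QQ l K)) (a b : CliffordAlgebra (QQ l K)), a * (x : CliffordAlgebra (QQ l K)) = b * x →
      a = b := by
    intro x a b h
    have h1 : a * (x : CliffordAlgebra (QQ l K)) * star (x : CliffordAlgebra (QQ l K)) =
        b * (x : CliffordAlgebra (QQ l K)) * star (x : CliffordAlgebra (QQ l K)) := by rw [h]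
    rw [mul_assoc, mul_assoc, spinGroup.mul_star_self_of_mem x.2, mul_one, mul_one] at h1
    exact h1
  choose w hw using hex
  have huniq : ∀ (x : spinGroup (QQ l K)) (u v : Ix l → K),
      (x : CliffordAlgebra (QQ l K)) * ι (QQ l K) u = ι (QQ l K) v * x → w x u = v := by
    intro x u v h
    exact iota_inj h2 (hcan x _ _ ((hw x u).symm.trans h))
  let π0 : spinGroup (QQ l K) →* Module.End K (Ix l → K) :=
    { toFun := fun x =>
        { toFun := w x
          map_add' := fun u v => huniq x _ _ (by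
            rw [map_add, mul_add, hw, hw, map_add, add_mul])
          map_smul' := fun c u => huniq x _ _ (by
            rw [map_smul, mul_smul_comm, hw, RingHom.id_apply, map_smul, smul_mul_assoc]) }
      map_one' := by
        refine LinearMap.ext fun u => ?_
        exact huniq 1 _ _ (by
          show (1 : CliffordAlgebra (QQ l K)) * ι (QQ l K) u = ι (QQ l K) u * 1
          rw [one_mul, mul_one])
      map_mul' := fun x y => by
        refine LinearMap.ext fun u => ?_
        exact huniq (x * y) _ _ (by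
          show (x : CliffordAlgebra (QQ l K)) * (y : CliffordAlgebra (QQ l K)) * ι (QQ l K) u =
            ι (QQ l K) (w x (w y u)) * ((x : CliffordAlgebra (QQ l K)) * (y : CliffordAlgebra (QQ l K)))
          rw [mul_assoc, hw, ← mul_assoc, hw, mul_assoc]) }
  refine ⟨(LinearMap.GeneralLinearGroup.generalLinearEquiv K (Ix l → K)).toMonoidHom.comp
    (MonoidHom.toHomUnits π0), fun x u => hw x u, ?_⟩
  intro x u v
  show bl l K (w x u) (w x v) = bl l K u v
  have h1 := iota_swap (K := K) (w x u) (w x v)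
  have h3 : (algebraMap K (CliffordAlgebra (QQ l K)) (2 * bl l K (w x u) (w x v))) * (x : CliffordAlgebra (QQ l K)) =
      (algebraMap K (CliffordAlgebra (QQ l K)) (2 * bl l K u v)) * x := by
    rw [← h1, add_mul, mul_assoc, ← hw, mul_assoc, ← hw, ← mul_assoc, ← hw, ← mul_assoc, ← hw, mul_assoc,
      mul_assoc, ← mul_add, iota_swap, Algebra.commutes]
  have h4 := algMap_inj h2 (hcan x _ _ h3)
  exact mul_left_cancel₀ h2 h4

theorem act_root (h2 : (2 : K) ≠ 0) {s v : Ix l → K} (hs : bl l K s s = 0)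
    (hv : bl l K s v = 0) (c : K) (u : Ix l → K) :
    (1 + c • (ι (QQ l K) s * ι (QQ l K) v)) * ι (QQ l K) u =
      ι (QQ l K) (sg (bl l K) s ((-2 * c) • v) u) *
        (1 + c • (ι (QQ l K) s * ι (QQ l K) v)) := by
  have hSS : ι (QQ l K) s * ι (QQ l K) s = 0 := by
    rw [ι_sq_scalar, QQ_apply, hs, map_zero]
  have hWS : ι (QQ l K) v * ι (QQ l K) s = - (ι (QQ l K) s * ι (QQ l K) v) := by
    have h := iota_swap (K := K) s v
    rw [hv, mul_zero, map_zero] at h
    exact eq_neg_of_add_eq_zero_right h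
  have hWW : ι (QQ l K) v * ι (QQ l K) v = (bl l K v v) • 1 := by
    rw [ι_sq_scalar, QQ_apply, Algebra.algebraMap_eq_smul_one]
  have hSU : ι (QQ l K) s * ι (QQ l K) u = (2 * bl l K u s) • 1 - ι (QQ l K) u * ι (QQ l K) s := by
    have h := iota_swap (K := K) u s
    rw [Algebra.algebraMap_eq_smul_one] at h
    rw [← h]
    abel
  have hWU : ι (QQ l K) v * ι (QQ l K) u = (2 * bl l K u v) • 1 - ι (QQ l K) u * ι (QQ l K) v := by
    have h := iota_swap (K := K) u v
    rw [Algebra.algebraMap_eq_smul_one] at h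
    rw [← h]
    abel
  have e1 : ι (QQ l K) s * ι (QQ l K) v * ι (QQ l K) u = (2 * bl l K u v) • ι (QQ l K) s -
      (2 * bl l K u s) • ι (QQ l K) v + ι (QQ l K) u * (ι (QQ l K) s * ι (QQ l K) v) := by
    rw [mul_assoc, hWU, mul_sub, mul_smul_comm, mul_one, ← mul_assoc, hSU, sub_mul, smul_mul_assoc, one_mul,
      mul_assoc]
    abel
  have e2 : ι (QQ l K) v * (ι (QQ l K) s * ι (QQ l K) v) = - ((bl l K v v) • ι (QQ l K) s) := by
    rw [← mul_assoc, hWS, neg_mul, mul_assoc, hWW, mul_smul_comm, mul_one]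
  have e3 : ι (QQ l K) s * (ι (QQ l K) s * ι (QQ l K) v) = 0 := by
    rw [← mul_assoc, hSS, zero_mul]
  have hh : (1 / 2 : K) * ((-2 * c) * ((-2 * c) * bl l K v v)) = 2 * c * c * bl l K v v := by
    field_simp
  have e4 : ι (QQ l K) (sg (bl l K) s ((-2 * c) • v) u) = ι (QQ l K) u + (bl l K u s * (-2 * c)) • ι (QQ l K) v -
      ((-2 * c) * bl l K u v) • ι (QQ l K) s - (2 * c * c * bl l K v v * bl l K u s) • ι (QQ l K) s := by
    have hb1 : bl l K ((-2 * c) • v) ((-2 * c) • v) = (-2 * c) * ((-2 * c) * bl l K v v) := by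
      simp only [map_smul, LinearMap.smul_apply, smul_eq_mul]
    unfold sg
    rw [hb1, hh]
    simp only [map_sub, map_add, map_smul, smul_eq_mul, smul_smul]
  rw [e4, add_mul, one_mul, smul_mul_assoc, e1, mul_add, mul_one, mul_smul_comm, sub_mul, sub_mul, add_mul,
    smul_mul_assoc, smul_mul_assoc, smul_mul_assoc, e2, e3]
  module

end Pool.Agent.H33.TO
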