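import Pool.Agent.H33.TO.SpinA

/-!
# JOB TO-32: elements of the spin group

Membership in Mathlib's `spinGroup Q` (`spinGroup.mem_iff`, `pinGroup.mem_iff`): the element is in
`CliffordAlgebra.even Q`, it is unitary (`star x * x = 1`, `x * star x = 1`), and it is the value of
an element of `lipschitzGroup Q`, the subgroup of units generated by the invertible
vectors.

(0) `mem_spin_of_two`: if `x = ι u * ι v` with `Q u ≠ 0`, `Q v ≠ 0`, `Q u * Q v = 1`, then
`x ∈ spinGroup Q`: `ι u` is invertible as `ι u * ι u = Q u ≠ 0`; `star (ι u * ι v) = ι v * ι u`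
(`star (ι u) = - ι u`), `star x * x = ι v (ι u ι u) ι v = Q u Q v = 1`.  `x` is even
(`CliffordAlgebra.ι_mul_ι_mem_evenOdd_zero`).
More generally: the units which are products of invertible vectors, even, with
`star x * x = 1`, are in the spin group.

(1) `exists_root_elt`: `a ≠ none`, `b ≠ a`, `b ≠ ng a`, `c ∈ K`: `1 + c • (ι (ev a) * ι (ev b))` is in
the spin group.  Put `s = c • ev a` (singular, orthogonal to `ev b`, `ev none`).
 * `b = none`: `v = ev none`, `Q v = 1`: `1 + s v = (v + s) v` (`v v = 1`), `Q (v + s) = 1`, `Q v = 1`.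
 * `b ≠ none`: `v = ev b`, `v₀ = ev none`: `s v₀ s v = - s s v₀ v = 0` etc., so
   `1 + s v = (1 + s (v + v₀)) (1 - s v₀)` (cross term `s (v + v₀) s v₀ = - s s (..) = 0`), and
   `Q (v + v₀) = 1`: `1 + s (v + v₀) = ((v + v₀) + s)(v + v₀)`, `1 - s v₀ = (v₀ - s) v₀`,
   all these vectors have `Q = 1`.
(2) `exists_torus_elt`: `τ` with square product `r²`: there is `x` in the spin group with
`x * ι u = ι (tor τ u) * x` for all `u`.
 For an index `i` put `e = ι (ev i)`, `f = ι (ev (-i))`; `e e = f f = 0`, `e f + f e = 2`.  For units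
 `α, β` of `K` let `h_i(α, β) = (1/2) (ι (ev i + β • ev (-i))) * (ι (ev i + α • ev (-i)))
 = (1/2) (α e f + β f e)` (as `e e = f f = 0`).  Then `h_i` is a product of two invertible vectors
 (`Q (ev i + β ev (-i)) = 2 β ≠ 0`; put the factor `1/2` into the first one), even,
 `star h_i * h_i = α β`: (`star (e f) = f e`), `(1/4)(α f e + β e f)(α e f + β f e) =
 (1/4) αβ (f e f e + e f e f) = (1/4) αβ (2 f e + 2 e f) = αβ` using `e f e f = e (2 - e f) f = 2 e f`.
 `h_i e = (α/β)... `: `e f e = 2 e` (`e f e = e (2 - e f)`), so `h_i e = α e`, and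
 `e h_i = (1/2) β e f e = β e`, so `h_i e = (α/β) e h_i`; `h_i f = β f`, `f h_i = α f`,
 `h_i f = (β/α) f h_i`; and `h_i` commutes with `ι (ev c)`, `c ≠ ± i` (two sign changes).
 So `h_i * ι u = ι (tor (..) u) * h_i` with `τ_i = α/β`, `1` at the other indices.
 Let `x = ∏ h_i(τ_i, 1)` over the indices but with the first factor (some index `i₀`)
 replaced by `h_{i₀}(τ_{i₀}/r, 1/r)`.  Then `star x * x = ∏ τ_i / r² = 1` (the factors
 `star h_i * h_i` are scalars, so they can be taken out one after the other).  If `l = 0`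
 take `x = 1`.
 It is convenient to prove by induction over a finite set `J` of indices (or over a list):
 for every `τ` supported on `J` and every `ρ ∈ K` with `ρ = ∏ τ_i` there is a unit
 `y ∈ lipschitzGroup Q`, even, with `star y * y = ρ` (scalar) and `y * ι u = ι (tor τ u) * y`; and at the
 end multiply by the scalar `r⁻¹`, which is `(r⁻¹ v₀) * v₀` with `v₀ = ι (ev none)`,
 so an even element of the Lipschitz group.
-/

namespace Pool.Agent.H33.TO

open CliffordAlgebra

variable {l : ℕ} {K : Type*} [Field K]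

/-- Even elements of the Lipschitz group with scalar norm `ρ`. -/
def LpE (ρ : K) (y : CliffordAlgebra (QQ l K)) : Prop :=
  (∃ z ∈ lipschitzGroup (QQ l K), (z : CliffordAlgebra (QQ l K)) = y) ∧ y ∈ CliffordAlgebra.even (QQ l K) ∧
    star y * y = algebraMap K _ ρ ∧ y * star y = algebraMap K _ ρ

theorem LpE.one : LpE (1 : K) (1 : CliffordAlgebra (QQ l K)) := by
  refine ⟨⟨1, Subgroup.one_mem _, rfl⟩, Subalgebra.one_mem _, ?_, ?_⟩
  · rw [star_one, one_mul, map_one]
  · rw [star_one, one_mul, map_one]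

theorem LpE.mul {ρ ρ' : K} {y y' : CliffordAlgebra (QQ l K)} (h : LpE ρ y) (h' : LpE ρ' y') :
    LpE (ρ * ρ') (y * y') := by
  obtain ⟨⟨z, hz, hzy⟩, he, h1, h2⟩ := h
  obtain ⟨⟨z', hz', hzy'⟩, he', h1', h2'⟩ := h'
  refine ⟨⟨z * z', Subgroup.mul_mem _ hz hz', ?_⟩, Subalgebra.mul_mem _ he he', ?_, ?_⟩
  · rw [Units.val_mul, hzy, hzy']
  · rw [star_mul, mul_assoc, ← mul_assoc (star y), h1, Algebra.commutes, ← mul_assoc, h1', ← map_mul, mul_comm]
  · rw [star_mul, mul_assoc, ← mul_assoc y', h2', Algebra.commutes, ← mul_assoc, h2, ← map_mul]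

/-- An invertible vector, as an element of the Lipschitz group. -/
theorem exists_unit_iota {u : Ix l → K} (hu : bl l K u u ≠ 0) :
    ∃ z ∈ lipschitzGroup (QQ l K), (z : CliffordAlgebra (QQ l K)) = ι (QQ l K) u := by
  have h1 : ι (QQ l K) u * ι (QQ l K) u = (bl l K u u) • 1 := by
    rw [ι_sq_scalar, QQ_apply, Algebra.algebraMap_eq_smul_one]
  have h3 : ι (QQ l K) u * ((bl l K u u)⁻¹ • ι (QQ l K) u) = 1 := by
    rw [mul_smul_comm, h1, smul_smul, inv_mul_cancel₀ hu, one_smul]
  have h4 : ((bl l K u u)⁻¹ • ι (QQ l K) u) * ι (QQ l K) u = 1 := by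
    rw [smul_mul_assoc, h1, smul_smul, inv_mul_cancel₀ hu, one_smul]
  refine ⟨⟨ι (QQ l K) u, (bl l K u u)⁻¹ • ι (QQ l K) u, h3, h4⟩, ?_, rfl⟩
  exact Subgroup.subset_closure ⟨u, rfl⟩

theorem LpE.pair {u v : Ix l → K} (hu : bl l K u u ≠ 0) (hv : bl l K v v ≠ 0) :
    LpE (bl l K u u * bl l K v v) (ι (QQ l K) u * ι (QQ l K) v) := by
  obtain ⟨z, hz, hzu⟩ := exists_unit_iota hu
  obtain ⟨z', hz', hzv⟩ := exists_unit_iota hv
  have hs : star (ι (QQ l K) u * ι (QQ l K) v) = ι (QQ l K) v * ι (QQ l K) u := by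
    rw [star_mul, star_ι, star_ι, neg_mul_neg]
  refine ⟨⟨z * z', Subgroup.mul_mem _ hz hz', by rw [Units.val_mul, hzu, hzv]⟩,
    ι_mul_ι_mem_evenOdd_zero (QQ l K) u v, ?_, ?_⟩
  · rw [hs, mul_assoc, ← mul_assoc (ι (QQ l K) u), ι_sq_scalar, Algebra.commutes, ← mul_assoc, ι_sq_scalar,
      ← map_mul, QQ_apply, QQ_apply, mul_comm]
  · rw [hs, mul_assoc, ← mul_assoc (ι (QQ l K) v), ι_sq_scalar, Algebra.commutes, ← mul_assoc, ι_sq_scalar,
      ← map_mul, QQ_apply, QQ_apply]

theorem bl_none : bl l K (ev none) (ev none) = 1 := by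
  rw [bl_ev, ng_none, ev_same]

theorem LpE.smul {ρ c : K} {y : CliffordAlgebra (QQ l K)} (h : LpE ρ y) (hc : c ≠ 0) :
    LpE (c * c * ρ) (c • y) := by
  have hb : bl l K (c • ev none) (c • ev none) = c * c := by
    simp only [map_smul, LinearMap.smul_apply, smul_eq_mul, bl_none, mul_one]
  have h1 := LpE.pair (l := l) (K := K) (u := c • ev none) (v := ev none)
    (by rw [hb]; exact mul_ne_zero hc hc) (by rw [bl_none]; exact one_ne_zero)
  have h2 : ι (QQ l K) (c • ev none) * ι (QQ l K) (ev none) = c • (1 : CliffordAlgebra (QQ l K)) := by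
    rw [map_smul, smul_mul_assoc, ι_sq_scalar, QQ_apply, bl_none, map_one]
  rw [h2, hb, bl_none, mul_one] at h1
  have h3 := h1.mul h
  rwa [smul_mul_assoc, one_mul] at h3

theorem LpE.mem {y : CliffordAlgebra (QQ l K)} (h : LpE (1 : K) y) : y ∈ spinGroup (QQ l K) := by
  obtain ⟨⟨z, hz, hzy⟩, he, h1, h2⟩ := h
  rw [map_one] at h1 h2
  rw [spinGroup.mem_iff, pinGroup.mem_iff]
  exact ⟨⟨⟨z, hz, hzy⟩, h1, h2⟩, he⟩

/-- `1 + s w` for `s` singular, `w` of norm `1` orthogonal to `s`. -/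
theorem LpE.root {s w : Ix l → K} (hs : bl l K s s = 0) (hw : bl l K w w = 1) (hsw : bl l K s w = 0) :
    LpE (1 : K) (1 + ι (QQ l K) s * ι (QQ l K) w) := by
  have h1 : bl l K (w + s) (w + s) = 1 := by
    simp only [map_add, LinearMap.add_apply]
    rw [hw, hs, bl_symm w s, hsw]
    ring
  have h3 := LpE.pair (l := l) (K := K) (u := w + s) (v := w) (by rw [h1]; exact one_ne_zero)
    (by rw [hw]; exact one_ne_zero)
  rw [h1, hw, mul_one, map_add, add_mul, ι_sq_scalar, QQ_apply, hw, map_one] at h3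
  exact h3

theorem exists_root_elt (h2 : (2 : K) ≠ 0) {a b : Ix l} (ha : a ≠ none) (hb : b ≠ a)
    (hb' : b ≠ ng a) (c : K) : ∃ x : spinGroup (QQ l K),
      (x : CliffordAlgebra (QQ l K)) = 1 + c • (ι (QQ l K) (ev a) * ι (QQ l K) (ev b)) := by
  have haa : bl l K (ev a) (ev a) = 0 := (hp_ev ha).1
  have hab : bl l K (ev a) (ev b) = 0 := by rw [bl_ev, ev_ne (Ne.symm hb')]
  have ha0 : bl l K (ev a) (ev none) = 0 := by rw [bl_ev, ev_ne (ng_ne_none ha)]
  have hcc : ∀ t : K, bl l K (t • ev a) (t • ev a) = 0 := by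
    intro t
    simp only [map_smul, LinearMap.smul_apply, smul_eq_mul, haa, mul_zero]
  have hc0 : ∀ t : K, bl l K (t • ev a) (ev none) = 0 := by
    intro t
    simp only [map_smul, LinearMap.smul_apply, smul_eq_mul, ha0, mul_zero]
  by_cases hbn : b = none
  · subst hbn
    refine ⟨⟨_, (LpE.root (hcc c) bl_none (hc0 c)).mem⟩, ?_⟩
    show 1 + ι (QQ l K) (c • ev a) * ι (QQ l K) (ev none) = 1 + c • (ι (QQ l K) (ev a) * ι (QQ l K) (ev none))
    rw [map_smul, smul_mul_assoc]
  · have hbb : bl l K (ev b) (ev b) = 0 := (hp_ev hbn).1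
    have hb0 : bl l K (ev b) (ev none) = 0 := by rw [bl_ev, ev_ne (ng_ne_none hbn)]
    have hww : bl l K (ev b + ev none) (ev b + ev none) = 1 := by
      simp only [map_add, LinearMap.add_apply]
      rw [hbb, hb0, bl_symm (ev none) (ev b), hb0, bl_none]
      ring
    have hsw : bl l K (c • ev a) (ev b + ev none) = 0 := by
      simp only [map_add, map_smul, LinearMap.smul_apply, smul_eq_mul, hab, ha0, mul_zero, add_zero]
    have h3 := (LpE.root (hcc c) hww hsw).mul (LpE.root (hcc (-c)) bl_none (hc0 (-c)))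
    rw [mul_one] at h3
    refine ⟨⟨_, h3.mem⟩, ?_⟩
    show (1 + ι (QQ l K) (c • ev a) * ι (QQ l K) (ev b + ev none)) *
      (1 + ι (QQ l K) (-c • ev a) * ι (QQ l K) (ev none)) = 1 + c • (ι (QQ l K) (ev a) * ι (QQ l K) (ev b))
    have hWS : ι (QQ l K) (ev b + ev none) * ι (QQ l K) (ev a) = - (ι (QQ l K) (ev a) * ι (QQ l K) (ev b + ev none)) := by
      have h := iota_swap (K := K) (ev a) (ev b + ev none)
      have h0 : bl l K (ev a) (ev b + ev none) = 0 := by
        rw [(bl l K (ev a)).map_add, hab, ha0, add_zero]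
      rw [h0, mul_zero, map_zero] at h
      exact eq_neg_of_add_eq_zero_right h
    have hSS : ι (QQ l K) (ev a) * ι (QQ l K) (ev a) = 0 := by
      rw [ι_sq_scalar, QQ_apply, haa, map_zero]
    have hcross : ι (QQ l K) (ev a) * ι (QQ l K) (ev b + ev none) * (ι (QQ l K) (ev a) * ι (QQ l K) (ev none)) = 0 := by
      rw [mul_assoc, ← mul_assoc (ι (QQ l K) (ev b + ev none)), hWS, neg_mul, mul_neg, ← mul_assoc, ← mul_assoc,
        hSS, zero_mul, zero_mul, neg_zero]
    rw [map_smul, map_smul, smul_mul_assoc, smul_mul_assoc, add_mul, one_mul, mul_add, mul_one, smul_mul_smul_comm,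
      hcross, smul_zero, add_zero, map_add, mul_add]
    module

/-- The reflection in `v`. -/
noncomputable def rfl' (v w : Ix l → K) : Ix l → K := w - (2 * bl l K v w / bl l K v v) • v

theorem iota_rfl {v : Ix l → K} (hv : bl l K v v ≠ 0) (w : Ix l → K) :
    ι (QQ l K) v * ι (QQ l K) w = - (ι (QQ l K) (rfl' v w) * ι (QQ l K) v) := by
  have h := iota_swap (K := K) v w
  have h1 : ι (QQ l K) (rfl' v w) * ι (QQ l K) v = ι (QQ l K) w * ι (QQ l K) v -
      algebraMap K _ (2 * bl l K v w) := by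
    unfold rfl'
    rw [map_sub, map_smul, sub_mul, smul_mul_assoc, ι_sq_scalar, QQ_apply, Algebra.algebraMap_eq_smul_one,
      Algebra.algebraMap_eq_smul_one, smul_smul, div_mul_cancel₀ _ hv]
  rw [h1, neg_sub, ← h]
  abel

theorem iota_pair {u v : Ix l → K} (hu : bl l K u u ≠ 0) (hv : bl l K v v ≠ 0) (w : Ix l → K) :
    ι (QQ l K) u * ι (QQ l K) v * ι (QQ l K) w = ι (QQ l K) (rfl' u (rfl' v w)) * (ι (QQ l K) u * ι (QQ l K) v) := by
  rw [mul_assoc, iota_rfl hv, mul_neg, ← mul_assoc, iota_rfl hu, neg_mul, neg_neg, mul_assoc]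

theorem bl_ef (i : Fin l) (t : K) (w : Ix l → K) :
    bl l K (ev (some (i, true)) + t • ev (some (i, false))) w = w (some (i, false)) + t * w (some (i, true)) := by
  rw [map_add, map_smul, LinearMap.add_apply, LinearMap.smul_apply, bl_ev, bl_ev, smul_eq_mul]
  rfl

theorem bl_ef_self (i : Fin l) (t : K) :
    bl l K (ev (some (i, true)) + t • ev (some (i, false))) (ev (some (i, true)) + t • ev (some (i, false))) =
      2 * t := by
  rw [bl_ef]
  have h1 : (ev (some (i, true)) : Ix l → K) (some (i, false)) = 0 := ev_ne (by simp)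
  have h3 : (ev (some (i, false)) : Ix l → K) (some (i, true)) = 0 := ev_ne (by simp)
  simp only [Pi.add_apply, Pi.smul_apply, smul_eq_mul, h1, h3, ev_same]
  ring

/-- One coordinate of the torus. -/
theorem exists_one (h2 : (2 : K) ≠ 0) (i : Fin l) (t : Kˣ) : ∃ y : CliffordAlgebra (QQ l K), LpE (t : K) y ∧
    ∀ w, y * ι (QQ l K) w = ι (QQ l K) (tor (Pi.mulSingle i t) w) * y := by
  have ht : (t : K) ≠ 0 := t.ne_zero
  have hq1 := bl_ef_self (K := K) i 1
  have hq2 := bl_ef_self (K := K) i (t : K)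
  have n1 : bl l K (ev (some (i, true)) + (1 : K) • ev (some (i, false)))
      (ev (some (i, true)) + (1 : K) • ev (some (i, false))) ≠ 0 := by
    rw [hq1, mul_one]; exact h2
  have n2 : bl l K (ev (some (i, true)) + (t : K) • ev (some (i, false)))
      (ev (some (i, true)) + (t : K) • ev (some (i, false))) ≠ 0 := by
    rw [hq2]; exact mul_ne_zero h2 ht
  have h3 := (LpE.pair n1 n2).smul (c := (1 / 2 : K)) (one_div_ne_zero h2)
  rw [hq1, hq2] at h3
  have h4 : (1 / 2 : K) * (1 / 2) * (2 * 1 * (2 * (t : K))) = t := by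
    field_simp
  rw [h4] at h3
  refine ⟨_, h3, fun w => ?_⟩
  rw [smul_mul_assoc, mul_smul_comm, iota_pair n1 n2]
  congr 3
  funext a
  unfold rfl'
  rw [hq1, hq2, bl_ef, bl_ef]
  have e1 : (ev (some (i, true)) : Ix l → K) (some (i, false)) = 0 := ev_ne (by simp)
  have e3 : (ev (some (i, false)) : Ix l → K) (some (i, true)) = 0 := ev_ne (by simp)
  simp only [Pi.sub_apply, Pi.add_apply, Pi.smul_apply, smul_eq_mul, e1, e3, ev_same]
  unfold tor
  rcases a with _ | ⟨j, b⟩
  · have f1 : (ev (some (i, true)) : Ix l → K) none = 0 := ev_ne (by simp)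
    have f3 : (ev (some (i, false)) : Ix l → K) none = 0 := ev_ne (by simp)
    rw [f1, f3]
    show _ = 1 * w none
    ring
  · by_cases hj : j = i
    · subst hj
      cases b
      · rw [e1, ev_same]
        show _ = (((Pi.mulSingle j t : Fin l → Kˣ) j)⁻¹ : Kˣ) * w (some (j, false))
        rw [Pi.mulSingle_eq_same, Units.val_inv_eq_inv_val]
        field_simp
        ring
      · rw [e3, ev_same]
        show _ = ((Pi.mulSingle j t : Fin l → Kˣ) j : K) * w (some (j, true))
        rw [Pi.mulSingle_eq_same]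
        field_simp
        ring
    · have f1 : (ev (some (i, true)) : Ix l → K) (some (j, b)) = 0 := ev_ne (by
        intro e
        simp only [Option.some.injEq, Prod.mk.injEq] at e
        exact hj e.1)
      have f3 : (ev (some (i, false)) : Ix l → K) (some (j, b)) = 0 := ev_ne (by
        intro e
        simp only [Option.some.injEq, Prod.mk.injEq] at e
        exact hj e.1)
      rw [f1, f3]
      have g1 : tco (Pi.mulSingle i t : Fin l → Kˣ) (some (j, b)) = 1 := by
        cases b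
        · show ((((Pi.mulSingle i t : Fin l → Kˣ) j)⁻¹ : Kˣ) : K) = 1
          rw [Pi.mulSingle_eq_of_ne hj, inv_one, Units.val_one]
        · show (((Pi.mulSingle i t : Fin l → Kˣ) j : Kˣ) : K) = 1
          rw [Pi.mulSingle_eq_of_ne hj, Units.val_one]
      rw [g1]
      ring

theorem tor_mul (τ τ' : Fin l → Kˣ) (u : Ix l → K) : tor τ (tor τ' u) = tor (τ * τ') u := by
  funext a
  show tco τ a * (tco τ' a * u a) = tco (τ * τ') a * u a
  have h : tco (τ * τ') a = tco τ a * tco τ' a := by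
    rcases a with _ | ⟨i, b⟩
    · show (1 : K) = 1 * 1
      rw [one_mul]
    · cases b
      · show (((τ i * τ' i)⁻¹ : Kˣ) : K) = ((τ i)⁻¹ : Kˣ) * ((τ' i)⁻¹ : Kˣ)
        rw [mul_inv, Units.val_mul]
      · show (((τ i * τ' i) : Kˣ) : K) = (τ i : K) * (τ' i : K)
        rw [Units.val_mul]
  rw [h, mul_assoc]

theorem tor_one (u : Ix l → K) : tor (1 : Fin l → Kˣ) u = u := by
  funext a
  show tco 1 a * u a = u a
  have h : tco (1 : Fin l → Kˣ) a = 1 := by
    rcases a with _ | ⟨i, b⟩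
    · rfl
    · cases b
      · show (((1 : Kˣ)⁻¹ : Kˣ) : K) = 1
        rw [inv_one, Units.val_one]
      · show ((1 : Kˣ) : K) = 1
        rw [Units.val_one]
  rw [h, one_mul]

theorem exists_torus_elt (h2 : (2 : K) ≠ 0) (τ : Fin l → Kˣ) (h : IsSquare (∏ i, τ i)) :
    ∃ x : spinGroup (QQ l K), ∀ u : Ix l → K,
      (x : CliffordAlgebra (QQ l K)) * ι (QQ l K) u = ι (QQ l K) (tor τ u) * x := by
  classical
  have key : ∀ J : Finset (Fin l), ∃ y : CliffordAlgebra (QQ l K), LpE ((∏ i ∈ J, τ i : Kˣ) : K) y ∧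
      ∀ w, y * ι (QQ l K) w = ι (QQ l K) (tor (∏ i ∈ J, Pi.mulSingle i (τ i)) w) * y := by
    intro J
    induction J using Finset.induction_on with
    | empty =>
      refine ⟨1, ?_, fun w => ?_⟩
      · rw [Finset.prod_empty, Units.val_one]
        exact LpE.one
      · rw [Finset.prod_empty, tor_one, one_mul, mul_one]
    | insert i J hi ih =>
      obtain ⟨y, hy, hy'⟩ := ih
      obtain ⟨z, hz, hz'⟩ := exists_one h2 i (τ i)
      refine ⟨z * y, ?_, fun w => ?_⟩
      · rw [Finset.prod_insert hi, Units.val_mul]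
        exact hz.mul hy
      · rw [Finset.prod_insert hi, ← tor_mul, mul_assoc, hy', ← mul_assoc, hz', mul_assoc]
  obtain ⟨y, hy, hy'⟩ := key Finset.univ
  have hτ : (∏ i, Pi.mulSingle i (τ i) : Fin l → Kˣ) = τ := Finset.univ_prod_mulSingle τ
  rw [hτ] at hy'
  obtain ⟨r, hr⟩ := h
  rw [hr, Units.val_mul] at hy
  have hr0 : (r : K) ≠ 0 := r.ne_zero
  have h3 := hy.smul (c := (r : K)⁻¹) (inv_ne_zero hr0)
  have h4 : (r : K)⁻¹ * (r : K)⁻¹ * ((r : K) * (r : K)) = 1 := by
    field_simp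
  rw [h4] at h3
  refine ⟨⟨_, h3.mem⟩, fun u => ?_⟩
  show ((r : K)⁻¹ • y) * ι (QQ l K) u = ι (QQ l K) (tor τ u) * ((r : K)⁻¹ • y)
  rw [smul_mul_assoc, hy', mul_smul_comm]

end Pool.Agent.H33.TO
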