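import Pool.Agent.H33.TO.SpinB
import Pool.Agent.H33.TO.Roots

/-!
# JOB TO-33: dictionary between the spin group and its image in GL(V)

`IsT x`: `x` is in the torus of the spin group (it maps every `ι (ev a)` to a multiple).
`XX α x`: `x` is in the root group of the root `α`.
`GG S`: the group generated by the torus and the root groups of the roots in `S`.
`PiD π`: `π` is the homomorphism of `exists_pi`.

(1) `pi_ker`: `π x = 1` implies `IsT x` (`c = 1`).  `isT_iff`: `IsT x ↔ IsDg (π x)`: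
`x ι(ev a) = ι (π x (ev a)) x`, `x` is a unit and `ι` is injective.
(2) `pi_root`: if `x = 1 + c ι(ev a) ι(ev b)` then `π x u = sg (ev a) ((-2c) • ev b) u`
(`act_root`; `x` a unit, `ι` injective).
(3) `ctx_map`: if `F` contains the torus then `Ctx l K (F.map π)`: isometries by `PiD`; for `τ` with
square product take `x` from `exists_torus_elt`; `π x u = tor τ u`, so `IsDg (π x)`, `IsT x`,
`x ∈ F`.
(4) `mem_of_pi`: if `F` contains the torus, `y ∈ F`, `π x = π y`, then `x ∈ F`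
(`π (x y⁻¹) = 1`).
(5) `ss_iff`: for `b ≠ a, ng a`: `SS (F.map π) a b` iff the root group of `wt a + wt b` is in `F`.
Proof.  Let `XX α x` with `α = wt a + wt b`, so `x = 1 + c ι(ev a') ι(ev b')` with
`(a', b') = (a, b)` or `(b, a)` (`phi_unique`).  If `SS (F.map π) a b` then `RG` gives an element `y ∈ F`
with `π y` acting as `sg (ev a') ((-2c) • ev b')` (note `a' ≠ none`), so `π x = π y`, `x ∈ F`.
Conversely, if `a ≠ none` and `c ∈ K`, then `x = 1 + (-c/2) ι(ev a) ι(ev b)` (from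
`exists_root_elt`) satisfies `XX`, so it is in `F`, and `π x` acts as `sg (ev a) (c • ev b)`; the same
with `a`, `b` exchanged (`wt a + wt b = wt b + wt a`).
-/

namespace Pool.Agent.H33.TO

open CliffordAlgebra

variable {l : ℕ} {K : Type*} [Field K]

/-- the maximal torus of the spin group: the elements mapping every basis vector to a
multiple of itself -/
def IsT (x : spinGroup (QQ l K)) : Prop :=
  ∀ a : Ix l, ∃ c : K, (x : CliffordAlgebra (QQ l K)) * ι (QQ l K) (ev a) =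
    c • (ι (QQ l K) (ev a) * x)

/-- the root groups -/
def XX (α : Fin l → ℤ) (x : spinGroup (QQ l K)) : Prop :=
  ∃ a b : Ix l, a ≠ none ∧ b ≠ a ∧ b ≠ ng a ∧ wt a + wt b = α ∧ ∃ c : K,
    (x : CliffordAlgebra (QQ l K)) = 1 + c • (ι (QQ l K) (ev a) * ι (QQ l K) (ev b))

/-- the group generated by the torus and the root groups of the roots in `S` -/
noncomputable def GG (K : Type*) [Field K] (S : Set (Fin l → ℤ)) : Subgroup (spinGroup (QQ l K)) :=
  Subgroup.closure ({x | IsT x} ∪ {x | ∃ α ∈ S, XX α x})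

/-- `π` is the action on vectors -/
structure PiD (π : spinGroup (QQ l K) →* ((Ix l → K) ≃ₗ[K] (Ix l → K))) : Prop where
  act : ∀ (x : spinGroup (QQ l K)) (u : Ix l → K),
    (x : CliffordAlgebra (QQ l K)) * ι (QQ l K) u = ι (QQ l K) (π x u) * x
  iso : ∀ x u v, bl l K (π x u) (π x v) = bl l K u v

variable {π : spinGroup (QQ l K) →* ((Ix l → K) ≃ₗ[K] (Ix l → K))}

/-- cancel the unit `x` on the right -/
theorem spin_cancel (x : spinGroup (QQ l K)) {a b : CliffordAlgebra (QQ l K)}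
    (h : a * (x : CliffordAlgebra (QQ l K)) = b * x) : a = b := by
  have h1 : a * (x : CliffordAlgebra (QQ l K)) * star (x : CliffordAlgebra (QQ l K)) =
      b * (x : CliffordAlgebra (QQ l K)) * star (x : CliffordAlgebra (QQ l K)) := by rw [h]
  rwa [mul_assoc, mul_assoc, spinGroup.mul_star_self_of_mem x.2, mul_one, mul_one] at h1

theorem PiD.eq (h2 : (2 : K) ≠ 0) (hπ : PiD π) {x : spinGroup (QQ l K)} {u v : Ix l → K}
    (h : (x : CliffordAlgebra (QQ l K)) * ι (QQ l K) u = ι (QQ l K) v * x) : π x u = v :=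
  iota_inj h2 (spin_cancel x ((hπ.act x u).symm.trans h))

theorem isT_iff (h2 : (2 : K) ≠ 0) (hπ : PiD π) (x : spinGroup (QQ l K)) :
    IsT x ↔ IsDg (π x) := by
  constructor
  · intro h a
    obtain ⟨c, hc⟩ := h a
    refine ⟨c, hπ.eq h2 ?_⟩
    rw [hc, map_smul, smul_mul_assoc]
  · intro h a
    obtain ⟨c, hc⟩ := h a
    refine ⟨c, ?_⟩
    rw [hπ.act, hc, map_smul, smul_mul_assoc]

theorem pi_root (h2 : (2 : K) ≠ 0) (hπ : PiD π) {x : spinGroup (QQ l K)} {a b : Ix l}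
    (ha : a ≠ none) (hb : b ≠ a) (hb' : b ≠ ng a) {c : K}
    (hx : (x : CliffordAlgebra (QQ l K)) = 1 + c • (ι (QQ l K) (ev a) * ι (QQ l K) (ev b))) :
    ∀ u, π x u = sg (bl l K) (ev a) ((-2 * c) • ev b) u := by
  have _ := hb
  intro u
  apply hπ.eq h2
  rw [hx]
  exact act_root h2 (hp_ev ha).1 (by rw [bl_ev, ev_ne (Ne.symm hb')]) c u

theorem ctx_map (h2 : (2 : K) ≠ 0) (hπ : PiD π) {F : Subgroup (spinGroup (QQ l K))}
    (hT : ∀ x, IsT x → x ∈ F) : Ctx l K (F.map π) := by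
  constructor
  · rintro g ⟨x, -, rfl⟩ u v
    exact hπ.iso x u v
  · intro τ hτ
    obtain ⟨x, hx⟩ := exists_torus_elt h2 τ hτ
    have h1 : ∀ u, π x u = tor τ u := fun u => hπ.eq h2 (hx u)
    refine ⟨π x, ⟨x, hT x ((isT_iff h2 hπ x).2 fun a => ⟨tco τ a, ?_⟩), rfl⟩, h1⟩
    rw [h1, tor_ev]

theorem mem_of_pi (h2 : (2 : K) ≠ 0) (hπ : PiD π) {F : Subgroup (spinGroup (QQ l K))}
    (hT : ∀ x, IsT x → x ∈ F) {x y : spinGroup (QQ l K)} (hy : y ∈ F) (h : π x = π y) :
    x ∈ F := by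
  have h1 : π (x * y⁻¹) = 1 := by rw [map_mul, map_inv, h, mul_inv_cancel]
  have h3 : x * y⁻¹ ∈ F := hT _ ((isT_iff h2 hπ _).2 fun a => ⟨1, by rw [h1, one_smul]; rfl⟩)
  have h4 := F.mul_mem h3 hy
  rwa [inv_mul_cancel_right] at h4

theorem ss_iff (h2 : (2 : K) ≠ 0) (hπ : PiD π) {F : Subgroup (spinGroup (QQ l K))}
    (hT : ∀ x, IsT x → x ∈ F) {a b : Ix l} (hb : b ≠ a) (hb' : b ≠ ng a) :
    SS (F.map π) a b ↔ ∀ x, XX (wt a + wt b) x → x ∈ F := by
  have hb1 : a ≠ ng b := fun h => hb' (by rw [h, ng_ng])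
  have step : ∀ {a b : Ix l}, a ≠ none → b ≠ a → b ≠ ng a → RG (F.map π) (bl l K) (ev a) (ev b) →
      ∀ (x : spinGroup (QQ l K)) (c : K),
      (x : CliffordAlgebra (QQ l K)) = 1 + c • (ι (QQ l K) (ev a) * ι (QQ l K) (ev b)) → x ∈ F := by
    intro a b ha hb hb' hR x c hx
    obtain ⟨g, ⟨y, hy, hyg⟩, hg⟩ := hR (-2 * c)
    refine mem_of_pi h2 hπ hT hy (LinearEquiv.ext fun u => ?_)
    have h3 : π y = g := hyg
    rw [pi_root h2 hπ ha hb hb' hx, h3, hg]
  have back : ∀ {a b : Ix l}, a ≠ none → b ≠ a → b ≠ ng a →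
      (∀ x : spinGroup (QQ l K), XX (wt a + wt b) x → x ∈ F) → RG (F.map π) (bl l K) (ev a) (ev b) := by
    intro a b ha hb hb' h c
    obtain ⟨x, hx⟩ := exists_root_elt h2 ha hb hb' (-(c / 2))
    refine ⟨π x, ⟨x, h x ⟨a, b, ha, hb, hb', rfl, _, hx⟩, rfl⟩, fun u => ?_⟩
    rw [pi_root h2 hπ ha hb hb' hx]
    have e : -2 * -(c / 2) = c := by field_simp
    rw [e]
  constructor
  · rintro ⟨-, -, h3, h4⟩ x ⟨a', b', ha', hc1, hc2, hw, c, hx⟩
    rcases phi_unique hw hc1 hc2 with ⟨rfl, rfl⟩ | ⟨rfl, rfl⟩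
    · exact step ha' hb hb' (h3 ha') x c hx
    · exact step ha' (Ne.symm hb) hb1 (h4 ha') x c hx
  · intro h
    refine ⟨hb, hb', fun ha => back ha hb hb' h, fun hbn => back hbn (Ne.symm hb) hb1 ?_⟩
    rw [add_comm]
    exact h

end Pool.Agent.H33.TO
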