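import Pool.Agent.H33.TO.SpinC
import Pool.Agent.H33.TO.Main
import Pool.Agent.H33.TO.Incid

/-!
# JOB TO-34: existence for the spin group

`F` contains the torus.  `π` from `exists_pi`, `F' = F.map π`, `Ctx l K F'` (`ctx_map`),
`Std F'` (`main_std`).
Let `S = {α | ∃ a b, SS F' a b ∧ α = wt a + wt b}`.  Closed by `closed_of_nr` and `ss_nr`.
(1) `GG K S ≤ F`: the torus is in `F`; for `α ∈ S`, `XX α x`: `x ∈ F` by `ss_iff`.
(2) `π` maps `GG K S` into `GS F'`: `IsT x → IsDg (π x)`, `π x ∈ F'`; for `XX α x`, `α = wt a + wt b`,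
`SS F' a b`: `x = 1 + c ι(ev a') ι(ev b')`, `(a', b') = (a, b)` or `(b, a)` (`phi_unique`), and
`π x` acts as `sg (ev a') ((-2c) • ev b')` (`pi_root`), `SS F' a' b'` (`SS.symm`): in `RE F'`.
(3) Every element of `GS F'` is `π y` with `y ∈ GG K S`: closure induction over the generators
(`y ∈ F` with `π y` diagonal is in the torus by `isT_iff`; an element acting as
`sg (ev a) (c • ev b)`, `SS F' a b`, is `π y` for `y = 1 + (-c/2) ι(ev a) ι(ev b)`,
`exists_root_elt`, `pi_root`), products and inverses.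
(4) `F ≤ normalizer (GG K S)`: let `g ∈ F`, `x ∈ GG K S`.  `π (g x g⁻¹) ∈ GS F'` by (2) and `Std F'`
(`π g ∈ F'`), so it is `π y`, `y ∈ GG K S`, by (3), and `g x g⁻¹ ∈ GG K S` by `mem_of_pi` for the
group `GG K S`, which contains the torus.  The normalizer is defined by an `iff`: for the
other direction apply this to `g⁻¹`.
-/

namespace Pool.Agent.H33.TO

open CliffordAlgebra

variable {l : ℕ} {K : Type*} [Field K]

theorem spin_exists {q : ℕ} (hq : QK q K) (hl : 3 ≤ l) (F : Subgroup (spinGroup (QQ l K)))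
    (hT : ∀ x, IsT x → x ∈ F) : ∃ S : Set (Fin l → ℤ), ClosedRt S ∧ GG K S ≤ F ∧
      F ≤ Subgroup.normalizer (GG K S : Set (spinGroup (QQ l K))) := by
  have h2 := hq.two_ne
  obtain ⟨π, hact, hiso⟩ := exists_pi (l := l) (K := K) h2
  have hπ : PiD π := ⟨hact, hiso⟩
  have hC : Ctx l K (F.map π) := ctx_map h2 hπ hT
  have hstd : Std (F.map π) := main_std hq hl _ hC
  have hnr := ss_nr (F := F.map π) hq hC
  let S : Set (Fin l → ℤ) := {α | ∃ a b, SS (F.map π) a b ∧ α = wt a + wt b}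
  have hGF : GG K S ≤ F := by
    rw [GG, Subgroup.closure_le]
    rintro x (hx | ⟨α, ⟨a, b, hab, rfl⟩, hx⟩)
    · exact hT x hx
    · have hne := hnr.ne a b hab
      exact (ss_iff h2 hπ hT hne.1 hne.2).1 hab x hx
  have hmapG : ∀ x ∈ GG K S, π x ∈ GS (F.map π) := by
    intro x hx
    have hle : GG K S ≤ (GS (F.map π)).comap π := by
      rw [GG, Subgroup.closure_le]
      rintro x (hx | ⟨α, ⟨a, b, hab, rfl⟩, a', b', ha', hb1, hb2, hwt, c, hc⟩)
      · exact Subgroup.subset_closure (Or.inl ⟨⟨x, hT x hx, rfl⟩, (isT_iff h2 hπ x).1 hx⟩)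
      · have hab' : SS (F.map π) a' b' := by
          rcases phi_unique hwt hb1 hb2 with ⟨h1, h3⟩ | ⟨h1, h3⟩
          · rw [h1, h3]; exact hab
          · rw [h1, h3]; exact hab.symm
        exact Subgroup.subset_closure
          (Or.inr ⟨a', b', -2 * c, ha', hab', pi_root h2 hπ ha' hb1 hb2 hc⟩)
    exact hle hx
  have hlift : ∀ z ∈ GS (F.map π), ∃ y ∈ GG K S, π y = z := by
    have hle : GS (F.map π) ≤ (GG K S).map π := by
      rw [GS, Subgroup.closure_le]
      rintro z (⟨⟨y, hy, rfl⟩, hz⟩ | ⟨a, b, c, ha, hab, hz⟩)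
      · exact ⟨y, Subgroup.subset_closure (Or.inl ((isT_iff h2 hπ y).2 hz)), rfl⟩
      · have hne := hnr.ne a b hab
        obtain ⟨y, hy⟩ := exists_root_elt h2 ha hne.1 hne.2 (-c / 2)
        refine ⟨y, Subgroup.subset_closure (Or.inr ⟨wt a + wt b, ⟨a, b, hab, rfl⟩, a, b, ha,
          hne.1, hne.2, rfl, -c / 2, hy⟩), ?_⟩
        apply LinearEquiv.ext
        intro u
        have e : -2 * (-c / 2) = c := by field_simp
        have h3 := pi_root h2 hπ ha hne.1 hne.2 hy u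
        rw [e] at h3
        rw [h3, hz u]
    intro z hz
    obtain ⟨y, hy, h⟩ := hle hz
    exact ⟨y, hy, h⟩
  have hTG : ∀ x, IsT x → x ∈ GG K S := fun x hx => Subgroup.subset_closure (Or.inl hx)
  have hconj : ∀ g ∈ F, ∀ x ∈ GG K S, g * x * g⁻¹ ∈ GG K S := by
    intro g hg x hx
    have h1 : π (g * x * g⁻¹) ∈ GS (F.map π) := by
      rw [map_mul, map_mul, map_inv]
      exact hstd _ ⟨g, hg, rfl⟩ _ (hmapG x hx)
    obtain ⟨y, hy, hyx⟩ := hlift _ h1
    exact mem_of_pi h2 hπ hTG hy hyx.symm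
  refine ⟨S, closed_of_nr hnr, hGF, ?_⟩
  intro g hg
  rw [Subgroup.mem_normalizer_iff]
  intro x
  constructor
  · exact hconj g hg x
  · intro h
    have h3 := hconj g⁻¹ (F.inv_mem hg) _ h
    have e : g⁻¹ * (g * x * g⁻¹) * g⁻¹⁻¹ = x := by group
    rwa [e] at h3

end Pool.Agent.H33.TO
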