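import Pool.Agent.H33.TO.SpinD
import Pool.Agent.H33.TO.SpinE

/-!
# Short definitions for the final statement

`Cl l K` and `Spin l K` are the Clifford algebra and the spin group (both from Mathlib) of the
split form in `2 l + 1` variables, with their Mathlib structures, under short names.
-/

namespace Pool.Agent.H33.TO

/-- the Clifford algebra of the split form (Mathlib's) -/
def Cl (l : ℕ) (K : Type*) [Field K] : Type _ := CliffordAlgebra (QQ l K)

/-- the spin group of the split form (Mathlib's) -/
def Spin (l : ℕ) (K : Type*) [Field K] : Type _ := spinGroup (QQ l K)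

variable {l : ℕ} {K : Type*} [Field K]

noncomputable instance instRingCl : Ring (Cl l K) := CliffordAlgebra.instRing (QQ l K)

noncomputable instance instAlgebraCl : Algebra K (Cl l K) :=
  CliffordAlgebra.instAlgebra (R := K) (QQ l K)

noncomputable instance instGroupSpin : Group (Spin l K) :=
  spinGroup.instGroupSubtypeCliffordAlgebraMemSubmonoid (Q := QQ l K)

/-- the standard basis vector `e_a` as an element of the Clifford algebra -/
noncomputable def eb (K : Type*) [Field K] (a : Ix l) : Cl l K :=
  CliffordAlgebra.ι (QQ l K) (ev a)

/-- the element `x` of the spin group as an element of the Clifford algebra -/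
def Spin.val (x : Spin l K) : Cl l K := Subtype.val x

/-- the maximal torus of the spin group: `x e_a` is a multiple of `e_a x` for all `a` -/
def InT (x : Spin l K) : Prop :=
  ∀ a : Ix l, ∃ c : K, x.val * eb K a = c • (eb K a * x.val)

/-- the elements `1 + c e_a e_b`, `wt a + wt b = α`, of the root group of the root `α` -/
def InX (α : Fin l → ℤ) (x : Spin l K) : Prop :=
  ∃ a b : Ix l, a ≠ none ∧ b ≠ a ∧ b ≠ ng a ∧ wt a + wt b = α ∧ ∃ c : K,
    x.val = 1 + c • (eb K a * eb K b)

/-- the group `G(S)` generated by the torus and the root groups of the roots in `S` -/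
noncomputable def GS' (K : Type*) [Field K] (S : Set (Fin l → ℤ)) : Subgroup (Spin l K) :=
  Subgroup.closure ({x | InT x} ∪ {x | ∃ α ∈ S, InX α x})

end Pool.Agent.H33.TO
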