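import Pool.Agent.H33.TO.LemR
import Pool.Agent.H33.TO.Closed

/-!
# JOB TO-16: roots and planes, first part

`star`.  Let `(w, w')` be a hyperbolic pair with `PL F (w, w')`, `β a b = w_a w'_b - w_b w'_a`.
Suppose `SS F c d` and `β a (ng c) ≠ 0`, `a ≠ c`, `a ≠ d`, `a ≠ ng d`.  Claim `SS F a d`.
Proof.  If `c ≠ none` then `RG F (ev c) (ev d)`; if `c = none` then `d ≠ none` and
`RG F (ev d) (ev c)`, treat this case in the same way (exchange the two vectors, the
determinants below change sign).  Let `t = rt w w' x ∈ F` for a square `x ≠ 0`.  Then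
`RG F (t (ev c)) (t (ev d))` (`RG.conj`; `t` as an element of `F` from `PL`), and these vectors
satisfy `bl = 0` etc. (isometry).  If `D(x) := (t (ev c))_a (t (ev d))_d - (t (ev c))_d (t (ev d))_a
≠ 0` for some `x`, then `lemR` gives `SS F a d` (`d ≠ a`, `d ≠ ng a`).  So suppose `D(x) = 0` for
all nonzero squares `x`.
Write `c₊ = bl w' (ev c) = w'_{-c}`, `c₋ = bl w (ev c) = w_{-c}`, `d₊ = w'_{-d}`,
`d₋ = w_{-d}`.  `t (ev c) = ev c + (x - 1) c₊ w + (x⁻¹ - 1) c₋ w'`, similarly for `d`.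
With `Δ = c₊ d₋ - c₋ d₊` and `[u,v] = u_a v_d - u_d v_a`, expansion gives
`D(x) = T₀ + x T₊ + x⁻¹ T₋` with
`T₊ = [w, c₊ (ev d) - d₊ (ev c) - Δ w']`, `T₋ = [w', c₋ (ev d) - d₋ (ev c) + Δ w]`
and some `T₀` not depending on `x` (there is no `x²` or `x⁻²` term).
There are three different nonzero squares `1, d, e` (`two_sq`), so `T₊ = T₋ = 0` (Vandermonde).
The coordinates: `(ev d)_d = 1`, `(ev d)_a = 0`, and `[w, ev c] = w_a (ev c)_d - w_d (ev c)_a = 0`
since `c ≠ d`, `c ≠ a`.  So `T₊ = c₊ w_a - Δ β a d`, `T₋ = c₋ w'_a - Δ β a d`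
(as `[w', w] = - β a d`).
Hence `0 = T₊ - T₋ = w'_{-c} w_a - w_{-c} w'_a = β a (ng c) ≠ 0`, contradiction.

`starstar`.  Assume moreover `hS : SS F a b → SS F (ng a) (ng b)`.  Let `β a b ≠ 0`, `b ≠ a, ng a`,
and `¬ SS F a b`.  Claim: `SS F a d → d = ng b` and `SS F b d → d = ng a`.
Proof.  By symmetry (`β b a = - β a b`, `SS` symmetric) it suffices to prove the second claim.
Let `SS F b d`; so `SS F (ng b) (ng d)`.  Suppose `d ≠ ng a`.  If `d = a`: `SS F b a`, so
`SS F a b`, contradiction.  So `ng d ≠ a, ng a`.  Apply `star` with `c = ng b` (`ng c = b`) and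
`d := ng d`: `β a b ≠ 0`; `a ≠ ng b` holds; `a ≠ ng d`, `a ≠ ng (ng d) = d` hold: `SS F a (ng d)`.
With `SS F (ng (ng d)) b = SS F d b` and transitivity (`ss_nr`; `b ≠ a, ng a`): `SS F a b`.
Contradiction.
-/

namespace Pool.Agent.H33.TO

variable {l : ℕ} {K : Type*} [Field K] {F : Subgroup ((Ix l → K) ≃ₗ[K] (Ix l → K))}

theorem star_expand {w w' : Ix l → K} {a c d : Ix l} (hdc : d ≠ c) (h1 : a ≠ c) (h2 : a ≠ d)
    {x : K} (hx : x ≠ 0) :
    rt (bl l K) w w' x (ev c) a * rt (bl l K) w w' x (ev d) d -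
      rt (bl l K) w w' x (ev c) d * rt (bl l K) w w' x (ev d) a =
    (x - 1) * (w' (ng c) * w a - (w' (ng c) * w (ng d) - w (ng c) * w' (ng d)) *
      (w a * w' d - w d * w' a)) +
    (x⁻¹ - 1) * (w (ng c) * w' a - (w' (ng c) * w (ng d) - w (ng c) * w' (ng d)) *
      (w a * w' d - w d * w' a)) := by
  simp only [rt, bl_ev', Pi.add_apply, Pi.smul_apply, smul_eq_mul, ev_same, ev_ne h1, ev_ne hdc,
    ev_ne h2]
  field_simp
  ring

theorem star {q : ℕ} (hq : QK q K) (hF : Ctx l K F) {w w' : Ix l → K}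
    (h : HP (bl l K) w w') (hP : PL F (bl l K) w w') {a c d : Ix l} (hcd : SS F c d)
    (hβ : w a * w' (ng c) - w (ng c) * w' a ≠ 0) (h1 : a ≠ c) (h2 : a ≠ d)
    (h3 : a ≠ ng d) : SS F a d := by
  by_contra hn
  have hdc : d ≠ c := hcd.1
  have hdc' : d ≠ ng c := hcd.2.1
  have hda : d ≠ a := Ne.symm h2
  have hda' : d ≠ ng a := fun e => h3 (by rw [e, ng_ng])
  have key : ∀ x : K, x ≠ 0 → IsSquare x →
      rt (bl l K) w w' x (ev c) a * rt (bl l K) w w' x (ev d) d -
      rt (bl l K) w w' x (ev c) d * rt (bl l K) w w' x (ev d) a = 0 := by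
    intro x hx hsq
    by_contra hD
    obtain ⟨t, ht, ht'⟩ := hP x hx hsq
    have hiso := hF.iso t ht
    rw [← ht', ← ht'] at hD
    by_cases hc : c = none
    · have hd : d ≠ none := fun e => hdc (by rw [e, hc])
      have hR := (hcd.2.2.2 hd).conj ht hiso
      have e1 : bl l K (t (ev d)) (t (ev d)) = 0 := by
        rw [hiso]
        exact (hp_ev hd).1
      have e2 : bl l K (t (ev d)) (t (ev c)) = 0 := by
        rw [hiso, bl_ev, ev_ne]
        exact fun e => hdc' (ng_eq_iff.1 e)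
      exact hn (lemR hq hF e1 e2 hR hda hda' (fun e => hD (by linear_combination -e)))
    · have hR := (hcd.2.2.1 hc).conj ht hiso
      have e1 : bl l K (t (ev c)) (t (ev c)) = 0 := by
        rw [hiso]
        exact (hp_ev hc).1
      have e2 : bl l K (t (ev c)) (t (ev d)) = 0 := by
        rw [hiso, bl_ev, ev_ne]
        exact Ne.symm hdc'
      exact hn (lemR hq hF e1 e2 hR hda hda' hD)
  obtain ⟨x, y, hx, hy, hx0, hy0, hx1, hy1, hxy, -⟩ := two_sq hq
  have k1 := key x hx0 hx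
  have k2 := key y hy0 hy
  rw [star_expand hdc h1 h2 hx0] at k1
  rw [star_expand hdc h1 h2 hy0] at k2
  set T := w' (ng c) * w a - (w' (ng c) * w (ng d) - w (ng c) * w' (ng d)) *
      (w a * w' d - w d * w' a) with hT
  set T' := w (ng c) * w' a - (w' (ng c) * w (ng d) - w (ng c) * w' (ng d)) *
      (w a * w' d - w d * w' a) with hT'
  have m1 : T * x = T' := by
    have e : (x - 1) * (T * x - T') = 0 := by
      have : (x - 1) * (T * x - T') = x * ((x - 1) * T + (x⁻¹ - 1) * T') := by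
        field_simp
        ring
      rw [this, k1, mul_zero]
    rcases mul_eq_zero.1 e with e | e
    · exact absurd (sub_eq_zero.1 e) hx1
    · exact sub_eq_zero.1 e
  have m2 : T * y = T' := by
    have e : (y - 1) * (T * y - T') = 0 := by
      have : (y - 1) * (T * y - T') = y * ((y - 1) * T + (y⁻¹ - 1) * T') := by
        field_simp
        ring
      rw [this, k2, mul_zero]
    rcases mul_eq_zero.1 e with e | e
    · exact absurd (sub_eq_zero.1 e) hy1
    · exact sub_eq_zero.1 e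
  have m3 : T = 0 := by
    have e : T * (x - y) = 0 := by linear_combination m1 - m2
    rcases mul_eq_zero.1 e with e | e
    · exact e
    · exact absurd (sub_eq_zero.1 e) hxy
  have m4 : T' = 0 := by rw [← m1, m3, zero_mul]
  apply hβ
  have : w a * w' (ng c) - w (ng c) * w' a = T - T' := by
    rw [hT, hT']
    ring
  rw [this, m3, m4, sub_zero]

theorem starstar_aux {q : ℕ} (hq : QK q K) (hF : Ctx l K F)
    (hS : ∀ a b, SS F a b → SS F (ng a) (ng b)) {w w' : Ix l → K}
    (h : HP (bl l K) w w') (hP : PL F (bl l K) w w') {a b : Ix l} (hb : b ≠ a)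
    (hb' : b ≠ ng a) (hβ : w a * w' b - w b * w' a ≠ 0) (hn : ¬ SS F a b) :
    ∀ d, SS F b d → d = ng a := by
  intro d hbd
  by_contra hd
  have h1 := hS b d hbd
  have hda : d ≠ a := fun e => hn (by rw [e] at hbd; exact hbd.symm)
  have h2 : SS F a (ng d) := by
    apply star hq hF h hP h1 (by rwa [ng_ng])
    · exact fun e => hb' (by rw [e, ng_ng])
    · exact fun e => hd (by rw [e, ng_ng])
    · rw [ng_ng]
      exact Ne.symm hda
  apply hn
  have h3 := (ss_nr hq hF).trans a (ng d) b h2 (by rw [ng_ng]; exact hbd.symm) hb hb'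
  exact h3

theorem starstar {q : ℕ} (hq : QK q K) (hF : Ctx l K F)
    (hS : ∀ a b, SS F a b → SS F (ng a) (ng b)) {w w' : Ix l → K}
    (h : HP (bl l K) w w') (hP : PL F (bl l K) w w') {a b : Ix l} (hb : b ≠ a)
    (hb' : b ≠ ng a) (hβ : w a * w' b - w b * w' a ≠ 0) (hn : ¬ SS F a b) :
    (∀ d, SS F a d → d = ng b) ∧ ∀ d, SS F b d → d = ng a := by
  refine ⟨?_, starstar_aux hq hF hS h hP hb hb' hβ hn⟩
  apply starstar_aux hq hF hS h hP (Ne.symm hb) (fun e => hb' (by rw [e, ng_ng]))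
  · intro e
    exact hβ (by linear_combination -e)
  · exact fun e => hn e.symm

end Pool.Agent.H33.TO
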