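import Pool.Agent.H33.TO.EnumDef
import Pool.Agent.H33.TO.LemR
import Pool.Agent.H33.TO.Levi

/-!
# JOB TO-24: planes in the trivial part, second half

`(w, w')` a hyperbolic pair, `PL F (w, w')`, both supported on indices `a` with
`∀ d, ¬ SS F a d`; and `w_i w_{-i} = 0` for all `i`, at most one index `i` has
`(w_{-i} w'_i, w_i w'_{-i}) ≠ (0,0)`, and for that index this pair is `(1,0)` or `(0,1)`.
Claim: there is `a ≠ none` such that `w` is supported at `a` only and `w'` at `ng a` only.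

Proof.
(1) `bl w w = w_0² + 2 ∑ w_i w_{-i} = 0` so `w_0 = 0` (`w none = 0`).  Let
`Σ = {c : w_c ≠ 0}`; `none ∉ Σ`, `c ∈ Σ → ng c ∉ Σ`.
`1 = bl w w' = ∑_i (w_i w'_{-i} + w_{-i} w'_i)` so exactly one index `i` has a nonzero pair; let
`a = some (i, true)` if the pair is `(0,1)` (`w_i w'_{-i} = 1`), and `a = some (i, false)` if it is
`(1,0)`.  So `w_a w'_{-a} = 1`, and `w_c w'_{-c} = 0` for `c ≠ a` (for `c = ng a` because
`w_{-a} = 0`), i.e. `w'_{-c} = 0` for `c ∈ Σ`, `c ≠ a`.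
(2) Let `F₁ = {g ∈ F : g stabilises span(ev c : c ∈ Σ)}`, a subgroup (finite dimension: an
invertible map with `g W ⊆ W` has `g W = W`; or define it by `g` and `g⁻¹`).
`Ctx l K F₁` holds: the torus elements of `F` are diagonal, so in `F₁`.  `TSt F₁ Σ` holds.
Let `x ≠ 0` be a square and `ρ ∈ F` act as `rt w w' x`.  `ρ ∈ F₁`: for `c ∈ Σ`,
`ρ (ev c) = ev c + (x-1) bl w' (ev c) w + (x⁻¹-1) bl w (ev c) w'`, and
`bl w (ev c) = w_{-c} = 0` since `ng c ∉ Σ`.  So `ρ (ev c) ∈ span(Σ)`.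
(3) `levi` for `F₁, Σ, ρ`: there is `h ∈ F₁` block diagonal with `UR Σ (h⁻¹ ρ)`.  So the diagonal
blocks of `h` are those of `ρ`: `(h (ev b)) c = (ρ (ev b)) c` if `blk c = blk b` (from
`ρ = h (h⁻¹ ρ)`, block upper triangular: `upper`).  Claim: `h` acts as `rt w (w'_{-a} ev (ng a)) x`.
Check on `ev b`: let `z = w'_{-a} (ev (ng a))`, `bl w z = w_a w'_{-a} = 1`.
 * `b ∈ Σ`: `ρ (ev b) = ev b + (x-1) w'_{-b} w`; `rt w z x (ev b) = ev b + (x-1) bl z (ev b) w
   + 0`, `bl z (ev b) = w'_{-a} [b = a]`, and `w'_{-b} = 0` for `b ∈ Σ`, `b ≠ a`: equal.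
 * `b` in block 1: `ρ (ev b) = ev b + (x-1) w'_{-b} w` (as `w_{-b} = 0`) `≡ ev b` in block 1, and
   `rt w z x (ev b) = ev b` since `bl z (ev b) = 0`, `bl w (ev b) = w_{-b} = 0`.
 * `b ∈ -Σ`: `ρ (ev b) = ev b + (x-1) w'_{-b} w + (x⁻¹-1) w_{-b} w'`; its `-Σ` coordinates: `w` has
   none, `w'` has only `w'_{-a}` at `ng a`.  `rt w z x (ev b) = ev b + (x⁻¹-1) w_{-b} z`
   (`bl z (ev b) = w'_{-a} (ev b)_a = 0`).  Equal.
 So `PL F w z`, and by `PL.scale` (with `c = w_a⁻¹ = w'_{-a}`): `PL F (ev a + y) (ev (ng a))`,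
 `y = ∑_{c ∈ Σ, c ≠ a} (w_c/w_a) (ev c)`.
(4) By `PL.swap` `PL F (ev (ng a)) (ev a + y)`.  `rt_shift` with `e = ev (ng a)`, `f = ev a`,
`bl y y = 0`, `bl e y = y_a = 0`, `bl f y = y_{-a} = 0`: for a square `d ≠ 0, 1`
`Has F (sg (ev (ng a)) ((1-d) y))` (the second factor `rt e f d⁻¹ ∈ F` by `pl_ev`).  If
`y_c ≠ 0` then `c ≠ ng a, a`, and `lemT` gives `SS F (ng a) c`, so `SS F c (ng a)`, contradicting
the triviality of `c` (`w_c ≠ 0`).  So `y = 0`: `w = w_a (ev a)`.
(5) Then `(w, w')` scaled by `w_a⁻¹`: `PL F (ev a) (w_a w')`, `w_a w' = ev (ng a) + y' + μ (ev a)`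
with `y'_a = y'_{-a} = 0`; `bl (w_a w') (w_a w') = 0` gives `μ = -(1/2) bl y' y'`.  `rt_shift` with
`e = ev a`, `f = ev (ng a)`, `y'`: `Has F (sg (ev a) ((1-d) y'))`; if `y'_c ≠ 0` then `lemT`:
`SS F a c`, contradicting the triviality of `a` (`w_a ≠ 0`).  So `y' = 0`, `μ = 0`.
-/

namespace Pool.Agent.H33.TO

variable {l : ℕ} {K : Type*} [Field K] {F : Subgroup ((Ix l → K) ≃ₗ[K] (Ix l → K))}

/-- the elements mapping the span of the support of `w` to itself -/
def t2Stb (w : Ix l → K) (g : (Ix l → K) ≃ₗ[K] (Ix l → K)) : Prop :=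
  ∀ c, w c ≠ 0 → ∀ b, w b = 0 → g (ev c) b = 0

theorem t2Stb_mul {w : Ix l → K} {g h : (Ix l → K) ≃ₗ[K] (Ix l → K)} (hg : t2Stb w g)
    (hh : t2Stb w h) : t2Stb w (g * h) := by
  intro c hc b hb
  rw [LinearEquiv.mul_apply, levi_apply]
  refine Finset.sum_eq_zero fun d _ => ?_
  by_cases hd : w d = 0
  · rw [hh c hc d hd, zero_mul]
  · rw [hg d hd b hb, mul_zero]

theorem t2Stb_one (w : Ix l → K) : t2Stb w (1 : (Ix l → K) ≃ₗ[K] (Ix l → K)) := by
  intro c hc b hb
  have h : b ≠ c := by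
    rintro rfl
    exact hc hb
  exact ev_ne h

/-- the stabiliser in `F` -/
def t2F (F : Subgroup ((Ix l → K) ≃ₗ[K] (Ix l → K))) (w : Ix l → K) :
    Subgroup ((Ix l → K) ≃ₗ[K] (Ix l → K)) where
  carrier := {g | g ∈ F ∧ t2Stb w g ∧ t2Stb w g⁻¹}
  mul_mem' := fun {g h} hg hh => ⟨F.mul_mem hg.1 hh.1, t2Stb_mul hg.2.1 hh.2.1, by
    rw [mul_inv_rev]
    exact t2Stb_mul hh.2.2 hg.2.2⟩
  one_mem' := ⟨F.one_mem, t2Stb_one w, by rw [inv_one]; exact t2Stb_one w⟩
  inv_mem' := fun {g} hg => ⟨F.inv_mem hg.1, hg.2.2, by rw [inv_inv]; exact hg.2.1⟩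

theorem t2F_le (w : Ix l → K) : t2F F w ≤ F := fun _ hg => hg.1

theorem t2F_ctx (hF : Ctx l K F) (w : Ix l → K) : Ctx l K (t2F F w) := by
  refine ⟨fun g hg => hF.iso g hg.1, fun τ hτ => ?_⟩
  obtain ⟨t, ht, ht'⟩ := hF.tor τ hτ
  have h1 : ∀ c, t (ev c) = tco τ c • ev c := fun c => by rw [ht', tor_ev]
  have h2 : ∀ c, t⁻¹ (ev c) = (tco τ c)⁻¹ • ev c := by
    intro c
    apply t.injective
    have h3 : t (t⁻¹ (ev c)) = ev c := by
      rw [← LinearEquiv.mul_apply, mul_inv_cancel]; rfl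
    rw [h3, map_smul, h1, smul_smul, inv_mul_cancel₀ (tco_ne τ c), one_smul]
  refine ⟨t, ⟨ht, fun c hc b hb => ?_, fun c hc b hb => ?_⟩, ht'⟩
  · have h : b ≠ c := by
      rintro rfl
      exact hc hb
    rw [h1, Pi.smul_apply, ev_ne h, smul_zero]
  · have h : b ≠ c := by
      rintro rfl
      exact hc hb
    rw [h2, Pi.smul_apply, ev_ne h, smul_zero]

theorem t2_tst {w : Ix l → K} (hw0 : w none = 0) (hw : ∀ c, w c * w (ng c) = 0) :
    TSt (t2F F w) {c | w c ≠ 0} := by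
  refine ⟨fun h => h hw0, fun a ha h => ?_, fun g hg a ha b hb => hg.2.1 a ha b (not_not.1 hb)⟩
  exact mul_ne_zero ha h (hw a)

theorem t2_rt_apply (w w' : Ix l → K) (y : K) (u : Ix l → K) (c : Ix l) :
    rt (bl l K) w w' y u c = u c + ((y - 1) * bl l K w' u) * w c + ((y⁻¹ - 1) * bl l K w u) * w' c := by
  simp only [rt, Pi.add_apply, Pi.smul_apply, smul_eq_mul]

/-- the rotations lie in the stabiliser -/
theorem t2_rho {w w' : Ix l → K} (h : HP (bl l K) w w') (hw : ∀ c, w c * w (ng c) = 0)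
    {ρ : (Ix l → K) ≃ₗ[K] (Ix l → K)} (hρ : ρ ∈ F) {x : K} (hx : x ≠ 0)
    (hρ' : ∀ u, ρ u = rt (bl l K) w w' x u) : ρ ∈ t2F F w := by
  have key : ∀ (y : K) (c : Ix l), w c ≠ 0 → ∀ b, w b = 0 → rt (bl l K) w w' y (ev c) b = 0 := by
    intro y c hc b hb
    have h1 : b ≠ c := by
      rintro rfl
      exact hc hb
    have h2 : w (ng c) = 0 := by
      rcases mul_eq_zero.1 (hw c) with h3 | h3
      · exact absurd h3 hc
      · exact h3
    rw [t2_rt_apply, ev_ne h1, hb, bl_ev' c w, h2]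
    ring
  refine ⟨hρ, fun c hc b hb => ?_, fun c hc b hb => ?_⟩
  · rw [hρ']
    exact key x c hc b hb
  · have h1 : ρ⁻¹ (ev c) = rt (bl l K) w w' x⁻¹ (ev c) := by
      apply ρ.injective
      have h3 : ρ (ρ⁻¹ (ev c)) = ev c := by
        rw [← LinearEquiv.mul_apply, mul_inv_cancel]; rfl
      rw [h3, hρ', rt_comp bl_symm h hx (inv_ne_zero hx), mul_inv_cancel₀ hx, rt_one]
    rw [h1]
    exact key x⁻¹ c hc b hb

theorem t2_blk0 {w : Ix l → K} {c : Ix l} (hc : w c ≠ 0) : blk {c | w c ≠ 0} c = 0 := by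
  have h : c ∈ {c | w c ≠ 0} := hc
  unfold blk
  rw [if_pos h]

theorem t2_blk0' {w : Ix l → K} {c : Ix l} (h : blk {c | w c ≠ 0} c = 0) : w c ≠ 0 := by
  unfold blk at h
  split_ifs at h with h1
  exact h1

theorem t2_blk2 {w : Ix l → K} (hw : ∀ c, w c * w (ng c) = 0) {c : Ix l} (hc : w (ng c) ≠ 0) :
    blk {c | w c ≠ 0} c = 2 := by
  have h1 : c ∉ {c | w c ≠ 0} := fun h => mul_ne_zero h hc (hw c)
  have h2 : ng c ∈ {c | w c ≠ 0} := hc
  unfold blk
  rw [if_neg h1, if_pos h2]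

theorem t2_blk2' {w : Ix l → K} {c : Ix l} (h : blk {c | w c ≠ 0} c = 2) : w (ng c) ≠ 0 := by
  unfold blk at h
  split_ifs at h with h1 h2
  · exact h2
  · omega

/-- the plane can be changed -/
theorem t2_pl {q : ℕ} (hq : QK q K) (hF : Ctx l K F) {w w' : Ix l → K}
    (h : HP (bl l K) w w') (hP : PL F (bl l K) w w') (hw0 : w none = 0)
    (hw : ∀ c, w c * w (ng c) = 0) {a : Ix l} (ha : w a * w' (ng a) = 1)
    (hc : ∀ c, c ≠ a → w c * w' (ng c) = 0) :
    PL F (bl l K) w (w' (ng a) • (ev (ng a) : Ix l → K)) := by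
  classical
  intro x hx hsq
  obtain ⟨ρ, hρ, hρ'⟩ := hP x hx hsq
  have hρF := t2_rho h hw hρ hx hρ'
  have hF1 := t2F_ctx hF w
  have hT : TSt (t2F F w) {c | w c ≠ 0} := t2_tst hw0 hw
  obtain ⟨g, hg, hBD, hUR⟩ := levi hq hF1 hT hρF
  obtain ⟨z, hz⟩ : ∃ z, z = w' (ng a) • (ev (ng a) : Ix l → K) := ⟨_, rfl⟩
  have hwa : w a ≠ 0 := left_ne_zero_of_mul (by rw [ha]; exact one_ne_zero)
  have hz1 : ∀ d, d ≠ ng a → z d = 0 := by
    intro d hd
    rw [hz, Pi.smul_apply, ev_ne hd, smul_zero]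
  have hz2 : z (ng a) = w' (ng a) := by
    rw [hz, Pi.smul_apply, ev_same, smul_eq_mul, mul_one]
  have hA : ∀ c, w c ≠ 0 → z (ng c) = w' (ng c) := by
    intro c h1
    by_cases h2 : c = a
    · rw [h2, hz2]
    · rcases mul_eq_zero.1 (hc c h2) with h3 | h3
      · exact absurd h3 h1
      · rw [h3]
        exact hz1 _ fun h4 => h2 (ng_inj h4)
  have hval : ∀ b c, g (ev b) c = (ev b : Ix l → K) c + (x - 1) * z (ng b) * w c +
      (x⁻¹ - 1) * w (ng b) * z c := by
    intro b c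
    by_cases hbc : blk {c | w c ≠ 0} c = blk {c | w c ≠ 0} b
    · have h1 := levi_M1 hF1 hT hg ((t2F F w).mul_mem ((t2F F w).inv_mem hg) hρF) hUR hbc
      rw [mul_inv_cancel_left] at h1
      rw [← h1, hρ', t2_rt_apply, bl_ev', bl_ev']
      have e1 : w' (ng b) * w c = z (ng b) * w c := by
        by_cases h2 : w c = 0
        · rw [h2, mul_zero, mul_zero]
        · rw [t2_blk0 h2] at hbc
          rw [hA b (t2_blk0' hbc.symm)]
      have e2 : w (ng b) * w' c = w (ng b) * z c := by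
        by_cases h2 : w (ng b) = 0
        · rw [h2, zero_mul, zero_mul]
        · rw [t2_blk2 hw h2] at hbc
          have h3 := hA (ng c) (t2_blk2' hbc)
          rw [ng_ng] at h3
          rw [h3]
      linear_combination (x - 1) * e1 + (x⁻¹ - 1) * e2
    · rw [hBD c b hbc]
      have h1 : c ≠ b := by
        rintro rfl
        exact hbc rfl
      rw [ev_ne h1]
      have e1 : z (ng b) * w c = 0 := by
        by_cases h2 : w c = 0
        · rw [h2, mul_zero]
        · rw [hz1, zero_mul]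
          intro h3
          apply hbc
          rw [t2_blk0 h2, ng_inj h3, t2_blk0 hwa]
      have e2 : w (ng b) * z c = 0 := by
        by_cases h2 : w (ng b) = 0
        · rw [h2, zero_mul]
        · rw [hz1, mul_zero]
          intro h3
          apply hbc
          rw [t2_blk2 hw h2, t2_blk2 hw (by rw [h3, ng_ng]; exact hwa)]
      linear_combination -(x - 1) * e1 - (x⁻¹ - 1) * e2
  rw [← hz]
  refine ⟨g, hg.1, fun u => ?_⟩
  funext c
  rw [levi_apply, t2_rt_apply, bl_symm z u, bl_symm w u, bl_apply, bl_apply]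
  have h1 : ∀ b, u b * g (ev b) c = u b * (ev b : Ix l → K) c + (x - 1) * w c * (u b * z (ng b)) +
      (x⁻¹ - 1) * z c * (u b * w (ng b)) := by
    intro b
    rw [hval b c]
    ring
  simp only [h1, Finset.sum_add_distrib, ← Finset.mul_sum]
  have h2 : ∑ b, u b * (ev b : Ix l → K) c = u c := by
    rw [Finset.sum_eq_single c]
    · rw [ev_same, mul_one]
    · intro b _ hb
      rw [ev_ne (Ne.symm hb), mul_zero]
    · intro h3; exact absurd (Finset.mem_univ c) h3
  rw [h2]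
  ring

theorem triv_end {q : ℕ} (hq : QK q K) (hF : Ctx l K F) {w w' : Ix l → K}
    (h : HP (bl l K) w w') (hP : PL F (bl l K) w w') (h1 : ∀ a, w a ≠ 0 → ∀ d, ¬ SS F a d)
    (h2 : ∀ a, w' a ≠ 0 → ∀ d, ¬ SS F a d)
    (e1 : ∀ i : Fin l, Loc (w (some (i, false)) * w' (some (i, true)))
      (w (some (i, true)) * w' (some (i, false))))
    (e2 : ∀ i j : Fin l, i ≠ j → (w (some (i, false)) * w' (some (i, true)) = 0 ∧
      w (some (i, true)) * w' (some (i, false)) = 0) ∨
      (w (some (j, false)) * w' (some (j, true)) = 0 ∧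
      w (some (j, true)) * w' (some (j, false)) = 0))
    (e3 : ∀ i : Fin l, w (some (i, true)) * w (some (i, false)) = 0) :
    ∃ a : Ix l, a ≠ none ∧ (∀ b, b ≠ a → w b = 0) ∧ ∀ b, b ≠ ng a → w' b = 0 := by
  classical
  obtain ⟨hp1, hp2, hp3⟩ := h
  have h2' := hq.two_ne
  -- singular support
  have hw1 : ∀ c, c ≠ none → w c * w (ng c) = 0 := by
    intro c hc
    rcases c with _ | ⟨i, b⟩
    · exact absurd rfl hc
    · cases b
      · have := e3 i
        rw [mul_comm] at this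
        exact this
      · exact e3 i
  have hw0 : w none = 0 := by
    rw [bl_apply, Finset.sum_eq_single none] at hp1
    · rw [ng_none] at hp1
      exact mul_self_eq_zero.1 hp1
    · intro c _ hc
      exact hw1 c hc
    · intro h3; exact absurd (Finset.mem_univ _) h3
  have hw : ∀ c, w c * w (ng c) = 0 := by
    intro c
    by_cases hc : c = none
    · rw [hc, hw0, zero_mul]
    · exact hw1 c hc
  -- the index
  obtain ⟨a, ha0, ha, hac⟩ : ∃ a : Ix l, a ≠ none ∧ w a * w' (ng a) = 1 ∧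
      ∀ c, c ≠ a → w c * w' (ng c) = 0 := by
    have h3 : ∑ c, w c * w' (ng c) ≠ 0 := by
      rw [← bl_apply, hp3]
      exact one_ne_zero
    obtain ⟨a, -, ha⟩ := Finset.exists_ne_zero_of_sum_ne_zero h3
    have ha0 : a ≠ none := by
      rintro rfl
      exact ha (by rw [hw0, zero_mul])
    have hval : ∀ i : Fin l, ∀ b : Bool, w (some (i, b)) * w' (ng (some (i, b))) ≠ 0 →
        w (some (i, b)) * w' (ng (some (i, b))) = 1 := by
      intro i b hb
      have h4 := e1 i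
      cases b
      · change w (some (i, false)) * w' (some (i, true)) ≠ 0 at hb
        change w (some (i, false)) * w' (some (i, true)) = 1
        rcases h4 with h4 | h4 | h4
        · exact absurd h4.1 hb
        · exact h4.1
        · exact absurd h4.1 hb
      · change w (some (i, true)) * w' (some (i, false)) ≠ 0 at hb
        change w (some (i, true)) * w' (some (i, false)) = 1
        rcases h4 with h4 | h4 | h4
        · exact absurd h4.2 hb
        · exact absurd h4.2 hb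
        · exact h4.2
    rcases a with _ | ⟨i, b⟩
    · exact absurd rfl ha0
    refine ⟨some (i, b), ha0, hval i b ha, fun c hc => ?_⟩
    rcases c with _ | ⟨j, b'⟩
    · rw [hw0, zero_mul]
    · by_cases hij : i = j
      · subst hij
        have hb : b' = !b := by
          cases b <;> cases b' <;> simp_all
        subst hb
        have h4 : w (some (i, !b)) = 0 := by
          rcases mul_eq_zero.1 (hw (some (i, b))) with h5 | h5
          · exact absurd (by rw [h5, zero_mul]) ha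
          · exact h5
        rw [h4, zero_mul]
      · rcases e2 i j hij with h4 | h4
        · exfalso
          cases b
          · exact ha h4.1
          · exact ha h4.2
        · cases b'
          · exact h4.1
          · exact h4.2
  have hwa : w a ≠ 0 := left_ne_zero_of_mul (by rw [ha]; exact one_ne_zero)
  have hwna : w (ng a) = 0 := by
    rcases mul_eq_zero.1 (hw a) with h5 | h5
    · exact absurd h5 hwa
    · exact h5
  have hna : a ≠ ng a := fun h3 => ng_ne_self ha0 h3.symm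
  obtain ⟨d, -, hdsq, -, hd0, -, hd1, -, -, -⟩ := two_sq hq
  have h1d : (1 : K) - d ≠ 0 := sub_ne_zero.2 (Ne.symm hd1)
  have hdinv : IsSquare d⁻¹ := by
    obtain ⟨r, hr⟩ := hdsq
    exact ⟨r⁻¹, by rw [hr, mul_inv]⟩
  have hpa := hp_ev (K := K) ha0
  -- first vector
  have hw2 : ∀ c, c ≠ a → w c = 0 := by
    have hP1 := t2_pl hq hF ⟨hp1, hp2, hp3⟩ hP hw0 hw ha hac
    have hP2 := (hP1.scale (inv_ne_zero hwa)).swap
    rw [inv_inv, smul_smul, ha, one_smul] at hP2
    obtain ⟨y, hy⟩ : ∃ y, y = (w a)⁻¹ • w - (ev a : Ix l → K) := ⟨_, rfl⟩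
    have hya : y a = 0 := by
      rw [hy, Pi.sub_apply, Pi.smul_apply, ev_same, smul_eq_mul, inv_mul_cancel₀ hwa, sub_self]
    have hyna : y (ng a) = 0 := by
      rw [hy, Pi.sub_apply, Pi.smul_apply, ev_ne (Ne.symm hna), hwna, smul_zero, sub_zero]
    have hyy : bl l K y y = 0 := by
      rw [hy]
      simp only [map_sub, map_smul, LinearMap.sub_apply, LinearMap.smul_apply, smul_eq_mul, hp1,
        bl_ev, bl_ev', hwna, ev_ne (Ne.symm hna)]
      ring
    have e4 : (ev a : Ix l → K) + y - ((1 / 2 : K) * bl l K y y) • ev (ng a) = (w a)⁻¹ • w := by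
      rw [hyy, mul_zero, zero_smul, sub_zero, hy, add_sub_cancel]
    have hpe : PL F (bl l K) (ev (ng a)) (ev a) := (pl_ev hF ha0).swap
    have hS : Has F (sg (bl l K) (ev (ng a)) ((1 - d) • y)) := by
      refine ((hP2 d hd0 hdsq).comp (hpe d⁻¹ (inv_ne_zero hd0) hdinv)).congr fun u => ?_
      rw [← e4]
      exact rt_shift bl_symm h2' (hpa.swap bl_symm) (by rw [bl_ev, ng_ng]; exact hya)
        (by rw [bl_ev]; exact hyna) hd0 u
    intro c hca
    by_contra hcw
    have hcn : c ≠ ng a := by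
      rintro rfl
      exact hcw hwna
    have hyc : y c ≠ 0 := by
      rw [hy, Pi.sub_apply, Pi.smul_apply, ev_ne hca, sub_zero, smul_eq_mul]
      exact mul_ne_zero (inv_ne_zero hwa) hcw
    have hSS := lemT hq hF (ng_ne_none ha0) (y := (1 - d) • y)
      (by rw [ng_ng, Pi.smul_apply, hya, smul_zero]) hS hcn (by rw [ng_ng]; exact hca)
      (by rw [Pi.smul_apply, smul_eq_mul]; exact mul_ne_zero h1d hyc)
    exact h1 c hcw _ hSS.symm
  refine ⟨a, ha0, hw2, ?_⟩
  -- second vector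
  have hwe : (w a)⁻¹ • w = (ev a : Ix l → K) := by
    funext c
    by_cases hc : c = a
    · rw [hc, Pi.smul_apply, ev_same, smul_eq_mul, inv_mul_cancel₀ hwa]
    · rw [Pi.smul_apply, hw2 c hc, smul_zero, ev_ne hc]
  have hP3 := hP.scale (inv_ne_zero hwa)
  rw [hwe, inv_inv] at hP3
  obtain ⟨y, hy⟩ : ∃ y, y = w a • w' - (ev (ng a) : Ix l → K) - (w a * w' a) • ev a := ⟨_, rfl⟩
  have hya : y a = 0 := by
    rw [hy]
    simp only [Pi.sub_apply, Pi.smul_apply, smul_eq_mul, ev_same, ev_ne hna]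
    ring
  have hyna : y (ng a) = 0 := by
    rw [hy]
    simp only [Pi.sub_apply, Pi.smul_apply, smul_eq_mul, ev_same, ev_ne (Ne.symm hna)]
    rw [ha]
    ring
  have hw3 : w a • w' = (ev (ng a) : Ix l → K) + y + (w a * w' a) • ev a := by
    rw [hy]
    abel
  have hyy : bl l K y y = -2 * (w a * w' a) := by
    have h3 : bl l K (w a • w') (w a • w') = 0 := by
      simp only [map_smul, LinearMap.smul_apply, smul_eq_mul, hp2, mul_zero]
    rw [hw3] at h3
    simp only [map_add, map_smul, LinearMap.add_apply, LinearMap.smul_apply, smul_eq_mul,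
      bl_ev, bl_ev', ng_ng, hya, hyna, ev_same, ev_ne hna, ev_ne (Ne.symm hna)] at h3
    linear_combination h3
  have e4 : (ev (ng a) : Ix l → K) + y - ((1 / 2 : K) * bl l K y y) • ev a = w a • w' := by
    rw [hyy, hw3]
    have h3 : (1 / 2 : K) * (-2 * (w a * w' a)) = -(w a * w' a) := by
      field_simp
    rw [h3]
    module
  have hpe : PL F (bl l K) (ev a) (ev (ng a)) := pl_ev hF ha0
  have hS : Has F (sg (bl l K) (ev a) ((1 - d) • y)) := by
    refine ((hP3 d hd0 hdsq).comp (hpe d⁻¹ (inv_ne_zero hd0) hdinv)).congr fun u => ?_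
    rw [← e4]
    exact rt_shift bl_symm h2' hpa (by rw [bl_ev]; exact hyna)
      (by rw [bl_ev, ng_ng]; exact hya) hd0 u
  have hy0 : ∀ c, y c = 0 := by
    intro c
    by_contra hyc
    have hca : c ≠ a := by
      rintro rfl
      exact hyc hya
    have hcn : c ≠ ng a := by
      rintro rfl
      exact hyc hyna
    have hSS := lemT hq hF ha0 (y := (1 - d) • y)
      (by rw [Pi.smul_apply, hyna, smul_zero]) hS hca hcn
      (by rw [Pi.smul_apply, smul_eq_mul]; exact mul_ne_zero h1d hyc)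
    exact h1 a hwa _ hSS
  have hμ : w a * w' a = 0 := by
    have h3 : bl l K y y = 0 := by
      rw [bl_apply]
      exact Finset.sum_eq_zero fun c _ => by rw [hy0, zero_mul]
    rw [hyy] at h3
    have h4 : (2 : K) * (w a * w' a) = 0 := by linear_combination -h3
    rcases mul_eq_zero.1 h4 with h5 | h5
    · exact absurd h5 h2'
    · exact h5
  intro b hb
  by_cases hba : b = a
  · rw [hba]
    rcases mul_eq_zero.1 hμ with h5 | h5
    · exact absurd h5 hwa
    · exact h5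
  · have h3 := hy0 b
    rw [hy] at h3
    simp only [Pi.sub_apply, Pi.smul_apply, smul_eq_mul, ev_ne hb, ev_ne hba, mul_zero, sub_zero] at h3
    rcases mul_eq_zero.1 h3 with h5 | h5
    · exact absurd h5 hwa
    · exact h5

end Pool.Agent.H33.TO
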