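import Pool.Agent.H33.TO.Triv1
import Pool.Agent.H33.TO.Triv2
import Pool.Agent.H33.TO.PairBlock

/-!
# JOB TO-25: the support of a plane

Assume `hS` (symmetry of the set of roots).  `(w, w')` a hyperbolic pair with `PL F (w, w')`,
`β a b = w_a w'_b - w_b w'_a`.  Claim (`plane_supp`): `β a b ≠ 0`, `b ≠ a, ng a` implies
`SS F a b`.

Proof.  Suppose `β a b ≠ 0`, `b ≠ a, ng a`, `¬ SS F a b` (for this pair).
(1) For every pair `(c, d)` with `β c d ≠ 0`, `d ≠ c, ng c`, `¬ SS F c d`: both `c` and `d` are in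
no root.  By `starstar` the only possible `x` with `SS F c x` is `ng d`, and by `L1`
`¬ SS F c (ng d)`.  So `c` is in no root; the same for `d` (`β d c = - β c d`, `¬ SS F d c`).
(2) So `a`, `b` are in no root.  If `β a d ≠ 0` then `d = ng a`, or `d ≠ a, ng a` and then
`¬ SS F a d` (`a` is in no root) and by (1) `d` is in no root.  `ng a` is in no root, too
(`SS F (ng a) x` implies `SS F a (ng x)` by `hS`).  So the row `w_a w' - w'_a w` is supported on
indices in no root, similarly the row of `b`.  As `β a b ≠ 0`, `w` and `w'` are combinations of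
these two rows, so they are supported on indices in no root.
(3) `triv_enum` and `triv_end` (if all `w_i w_{-i} = 0`) give `c` with `w` supported at `c` and
`w'` supported at `ng c`.  If instead all `w'_i w'_{-i} = 0` apply `triv_end` to the swapped pair
`(w', w)` (`HP.swap`, `PL.swap`; the data `A, B` are exchanged, `Loc` is symmetric): `w'`
supported at `c`, `w` at `ng c`.  In both cases `β a b ≠ 0` forces `{a, b} = {c, ng c}`, so
`b = ng a`, a contradiction.
-/

namespace Pool.Agent.H33.TO

variable {l : ℕ} {K : Type*} [Field K] {F : Subgroup ((Ix l → K) ≃ₗ[K] (Ix l → K))}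

theorem supp_loc {A B : K} (h : Loc A B) : Loc B A := by
  rcases h with h | h | h
  · exact Or.inl ⟨h.2, h.1⟩
  · exact Or.inr (Or.inr ⟨h.2, h.1⟩)
  · exact Or.inr (Or.inl ⟨h.2, h.1⟩)

/-- step (1) -/
theorem supp_tr {q : ℕ} (hq : QK q K) (hl : 3 ≤ l) (hF : Ctx l K F)
    (hS : ∀ a b, SS F a b → SS F (ng a) (ng b)) {w w' : Ix l → K}
    (h : HP (bl l K) w w') (hP : PL F (bl l K) w w') {a b : Ix l} (hb : b ≠ a)
    (hb' : b ≠ ng a) (hβ : w a * w' b - w b * w' a ≠ 0) (hn : ¬ SS F a b) : Tr F a := by
  intro d hd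
  have h1 := (starstar hq hF hS h hP hb hb' hβ hn).1 d hd
  rw [h1] at hd
  exact L1 hq hl hF hS h hP hb hb' hβ hn hd

theorem supp_end {w w' : Ix l → K} {a b c : Ix l} (hb' : b ≠ ng a)
    (hβ : w a * w' b - w b * w' a ≠ 0) (h1 : ∀ d, d ≠ c → w d = 0)
    (h2 : ∀ d, d ≠ ng c → w' d = 0) : False := by
  apply hβ
  have e1 : w a * w' b = 0 := by
    by_cases h3 : a = c
    · by_cases h4 : b = ng c
      · exact absurd (by rw [h3, h4]) hb'
      · rw [h2 b h4, mul_zero]
    · rw [h1 a h3, zero_mul]
  have e2 : w b * w' a = 0 := by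
    by_cases h3 : b = c
    · by_cases h4 : a = ng c
      · exact absurd (by rw [h3, h4, ng_ng]) hb'
      · rw [h2 a h4, mul_zero]
    · rw [h1 b h3, zero_mul]
  rw [e1, e2, sub_zero]

theorem plane_supp {q : ℕ} (hq : QK q K) (hl : 3 ≤ l) (hF : Ctx l K F)
    (hS : ∀ a b, SS F a b → SS F (ng a) (ng b)) {w w' : Ix l → K}
    (h : HP (bl l K) w w') (hP : PL F (bl l K) w w') {a b : Ix l} (hb : b ≠ a)
    (hb' : b ≠ ng a) (hβ : w a * w' b - w b * w' a ≠ 0) : SS F a b := by
  by_contra hn
  have hT : ∀ c d : Ix l, d ≠ c → d ≠ ng c → w c * w' d - w d * w' c ≠ 0 → ¬ SS F c d →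
      Tr F d := by
    intro c d h1 h2 h3 h4
    refine supp_tr hq hl hF hS h hP (a := d) (b := c) (Ne.symm h1) ?_ ?_ fun h5 => h4 h5.symm
    · intro h5
      exact h2 (by rw [h5, ng_ng])
    · intro h5
      apply h3
      linear_combination -h5
  have hTa : Tr F a := supp_tr hq hl hF hS h hP hb hb' hβ hn
  have hTb : Tr F b := hT a b hb hb' hβ hn
  have hTng : ∀ c : Ix l, Tr F c → Tr F (ng c) := by
    intro c hc d hd
    have h1 := hS _ _ hd
    rw [ng_ng] at h1
    exact hc _ h1
  have hrow : ∀ c : Ix l, Tr F c → ∀ d, w c * w' d - w d * w' c ≠ 0 → Tr F d := by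
    intro c hc d hd
    by_cases h1 : d = c
    · rw [h1]; exact hc
    by_cases h2 : d = ng c
    · rw [h2]; exact hTng c hc
    exact hT c d h1 h2 hd (hc d)
  have hw : ∀ d, w d ≠ 0 → Tr F d := by
    intro d hd
    by_cases h1 : w a * w' d - w d * w' a = 0
    · by_cases h2 : w b * w' d - w d * w' b = 0
      · exfalso
        have h3 : w d * (w a * w' b - w b * w' a) = 0 := by
          linear_combination w b * h1 - w a * h2
        rcases mul_eq_zero.mp h3 with h4 | h4
        · exact hd h4
        · exact hβ h4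
      · exact hrow b hTb d h2
    · exact hrow a hTa d h1
  have hw' : ∀ d, w' d ≠ 0 → Tr F d := by
    intro d hd
    by_cases h1 : w a * w' d - w d * w' a = 0
    · by_cases h2 : w b * w' d - w d * w' b = 0
      · exfalso
        have h3 : w' d * (w a * w' b - w b * w' a) = 0 := by
          linear_combination w' b * h1 - w' a * h2
        rcases mul_eq_zero.mp h3 with h4 | h4
        · exact hd h4
        · exact hβ h4
      · exact hrow b hTb d h2
    · exact hrow a hTa d h1
  obtain ⟨e1, e2, e3⟩ := triv_enum hq hl hF h hP hw hw'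
  rcases e3 with e3 | e3
  · obtain ⟨c, -, h1, h2⟩ := triv_end hq hF h hP hw hw' e1 e2 e3
    exact supp_end hb' hβ h1 h2
  · have hsw : HP (bl l K) w' w := h.swap bl_symm
    obtain ⟨c, -, h1, h2⟩ := triv_end hq hF hsw hP.swap hw' hw
      (fun i => by
        have h3 := supp_loc (e1 i)
        rw [mul_comm (w' (some (i, false))), mul_comm (w' (some (i, true)))]
        exact h3)
      (fun i j hij => by
        have h3 := e2 i j hij
        rw [mul_comm (w' (some (i, false))), mul_comm (w' (some (i, true))),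
          mul_comm (w' (some (j, false))), mul_comm (w' (some (j, true)))]
        exact h3.imp (fun h4 => ⟨h4.2, h4.1⟩) fun h4 => ⟨h4.2, h4.1⟩)
      e3
    refine supp_end (w := w') (w' := w) (a := a) (b := b) (c := c) hb' ?_ h1 h2
    intro h5
    apply hβ
    linear_combination -h5

end Pool.Agent.H33.TO
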