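import Pool.Agent.H33.TO.Codes

/-!
# Torus overgroups in type B: coordinates and the torus
-/

namespace Pool.Agent.H33.TO

variable {l : ℕ} {K : Type*} [Field K] {F : Subgroup ((Ix l → K) ≃ₗ[K] (Ix l → K))}

@[simp] theorem ng_ng (a : Ix l) : ng (ng a) = a := by
  rcases a with _ | ⟨i, b⟩
  · rfl
  · simp [ng]

@[simp] theorem ng_none : ng (none : Ix l) = none := rfl

theorem ng_inj {a b : Ix l} (h : ng a = ng b) : a = b := by
  rw [← ng_ng a, h, ng_ng]

theorem ng_eq_iff {a b : Ix l} : ng a = b ↔ a = ng b :=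
  ⟨fun h => by rw [← h, ng_ng], fun h => by rw [h, ng_ng]⟩

theorem ng_ne_self {a : Ix l} (h : a ≠ none) : ng a ≠ a := by
  rcases a with _ | ⟨i, b⟩
  · exact absurd rfl h
  · cases b <;> simp [ng]

theorem ng_ne_none {a : Ix l} (h : a ≠ none) : ng a ≠ none := by
  rcases a with _ | ⟨i, b⟩
  · exact absurd rfl h
  · simp [ng]

/-- `ng` as an equivalence -/
def ngE (l : ℕ) : Ix l ≃ Ix l := ⟨ng, ng, ng_ng, ng_ng⟩

theorem bl_apply (u v : Ix l → K) : bl l K u v = ∑ a, u a * v (ng a) := rfl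

theorem bl_symm (u v : Ix l → K) : bl l K u v = bl l K v u := by
  rw [bl_apply, bl_apply, ← Equiv.sum_comp (ngE l)]
  refine Finset.sum_congr rfl fun a _ => ?_
  show u (ng a) * v (ng (ng a)) = v a * u (ng a)
  rw [ng_ng, mul_comm]

@[simp] theorem ev_same (a : Ix l) : (ev a : Ix l → K) a = 1 := by simp [ev]

theorem ev_ne {a b : Ix l} (h : b ≠ a) : (ev a : Ix l → K) b = 0 := by
  simp [ev, Pi.single_eq_of_ne h]

theorem ev_apply (a b : Ix l) : (ev a : Ix l → K) b = if b = a then 1 else 0 := by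
  by_cases h : b = a
  · subst h; simp
  · rw [if_neg h, ev_ne h]

theorem bl_ev (a : Ix l) (u : Ix l → K) : bl l K (ev a) u = u (ng a) := by
  rw [bl_apply, Finset.sum_eq_single a]
  · simp
  · intro b _ hb
    rw [ev_ne hb, zero_mul]
  · intro h; exact absurd (Finset.mem_univ a) h

theorem bl_ev' (a : Ix l) (u : Ix l → K) : bl l K u (ev a) = u (ng a) := by
  rw [bl_symm, bl_ev]

/-- expansion in the standard basis -/
theorem sum_ev (u : Ix l → K) : u = ∑ a, u a • (ev a : Ix l → K) := by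
  funext b
  rw [Finset.sum_apply, Finset.sum_eq_single b]
  · simp
  · intro a _ ha
    rw [Pi.smul_apply, ev_ne (Ne.symm ha), smul_zero]
  · intro h; exact absurd (Finset.mem_univ b) h

/-- two linear equivalences agreeing on the standard basis are equal -/
theorem ext_ev {g h : (Ix l → K) ≃ₗ[K] (Ix l → K)} (H : ∀ a, g (ev a) = h (ev a)) : g = h := by
  ext1 u
  rw [sum_ev u, map_sum, map_sum]
  exact Finset.sum_congr rfl fun a _ => by rw [map_smul, map_smul, H]

theorem hp_ev {a : Ix l} (ha : a ≠ none) : HP (bl l K) (ev a) (ev (ng a)) := by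
  refine ⟨?_, ?_, ?_⟩
  · rw [bl_ev, ev_ne (ng_ne_self ha)]
  · rw [bl_ev, ng_ng, ev_ne (Ne.symm (ng_ne_self ha))]
  · rw [bl_ev, ev_same]

theorem tco_ng (τ : Fin l → Kˣ) (a : Ix l) : tco τ a * tco τ (ng a) = 1 := by
  rcases a with _ | ⟨i, b⟩
  · simp [tco, ng]
  · cases b <;> simp [tco, ng]

theorem tco_ne (τ : Fin l → Kˣ) (a : Ix l) : tco τ a ≠ 0 :=
  left_ne_zero_of_mul_eq_one (tco_ng τ a)

theorem tor_ev (τ : Fin l → Kˣ) (a : Ix l) : tor τ (ev a) = tco τ a • (ev a : Ix l → K) := by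
  funext b
  show tco τ b * (ev a : Ix l → K) b = tco τ a * (ev a : Ix l → K) b
  by_cases h : b = a
  · subst h; rfl
  · rw [ev_ne h]; ring

theorem Ctx.has_tor (hF : Ctx l K F) (τ : Fin l → Kˣ) (h : IsSquare (∏ i, τ i)) :
    ∃ t ∈ F, (∀ u a, t u a = tco τ a * u a) ∧ (∀ a, t (ev a) = tco τ a • ev a) := by
  obtain ⟨t, ht, ht'⟩ := hF.tor τ h
  exact ⟨t, ht, fun u a => by rw [ht']; rfl, fun a => by rw [ht', tor_ev]⟩

/-- the parameter of a rotation in a coordinate plane -/
def dpar (a : Ix l) (x : Kˣ) : Fin l → Kˣ := fun i =>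
  match a with
  | none => 1
  | some (j, true) => if i = j then x else 1
  | some (j, false) => if i = j then x⁻¹ else 1

theorem tco_dpar {a : Ix l} (x : Kˣ) (b : Ix l) :
    tco (dpar a x) b = if a = none then 1 else if b = a then (x : K) else
      if b = ng a then ((x⁻¹ : Kˣ) : K) else 1 := by
  rcases a with _ | ⟨j, c⟩
  · rcases b with _ | ⟨i, d⟩
    · simp [tco]
    · cases d <;> simp [tco, dpar]
  · rcases b with _ | ⟨i, d⟩
    · cases c <;> simp [tco, ng]
    · cases c <;> cases d <;> by_cases hij : i = j <;> simp [tco, dpar, ng, hij]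

theorem prod_dpar (a : Ix l) (ha : a ≠ none) (x : Kˣ) :
    ∏ i, dpar a x i = x ∨ ∏ i, dpar a x i = x⁻¹ := by
  rcases a with _ | ⟨j, c⟩
  · exact absurd rfl ha
  · cases c
    · right; simp [dpar]
    · left; simp [dpar]

/-- the rotation in the coordinate plane is a torus element -/
theorem rt_ev {a : Ix l} (ha : a ≠ none) (x : Kˣ) (u : Ix l → K) :
    tor (dpar a x) u = rt (bl l K) (ev a) (ev (ng a)) (x : K) u := by
  funext b
  simp only [tor, rt, bl_ev, ng_ng, tco_dpar, if_neg ha, Pi.add_apply, Pi.smul_apply,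
    smul_eq_mul, Units.val_inv_eq_inv_val]
  by_cases h1 : b = a
  · subst h1
    rw [if_pos rfl, ev_same, ev_ne (Ne.symm (ng_ne_self ha))]
    ring
  · by_cases h2 : b = ng a
    · subst h2
      rw [if_neg h1, if_pos rfl, ev_same, ev_ne h1]
      ring
    · rw [if_neg h1, if_neg h2, ev_ne h1, ev_ne h2]
      ring

theorem pl_ev (hF : Ctx l K F) {a : Ix l} (ha : a ≠ none) :
    PL F (bl l K) (ev a) (ev (ng a)) := by
  intro d hd hsq
  have h1 : IsSquare (Units.mk0 d hd) := by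
    obtain ⟨r, hr⟩ := hsq
    have hr0 : r ≠ 0 := fun h => hd (by rw [hr, h, zero_mul])
    exact ⟨Units.mk0 r hr0, Units.ext (by simpa using hr)⟩
  have h2 : IsSquare (∏ i, dpar a (Units.mk0 d hd) i) := by
    rcases prod_dpar a ha (Units.mk0 d hd) with h | h <;> rw [h]
    · exact h1
    · exact h1.inv
  refine (hF.tor _ h2).congr fun u => ?_
  rw [rt_ev ha]
  rfl

/-- the torus element `t` with `t_a = x`, `t_b = x'`, provided `x x'` is a square -/
theorem Ctx.has_two (hF : Ctx l K F) {a b : Ix l} (ha : a ≠ none) (hb : b ≠ none) (hab : b ≠ a)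
    (hab' : b ≠ ng a) (x y : Kˣ) (h : IsSquare (x * y)) :
    ∃ t ∈ F, ∀ u c, t u c = (if c = a then (x : K) else if c = ng a then ((x⁻¹ : Kˣ) : K) else
      if c = b then (y : K) else if c = ng b then ((y⁻¹ : Kˣ) : K) else 1) * u c := by
  have h3 : ∀ i, (dpar a x * dpar b y) i = dpar a x i * dpar b y i := fun i => rfl
  have h2 : IsSquare (∏ i, (dpar a x * dpar b y) i) := by
    simp only [h3, Finset.prod_mul_distrib]
    obtain ⟨r, hr⟩ := h
    rcases prod_dpar a ha x with h1 | h1 <;> rcases prod_dpar b hb y with h2 | h2 <;> rw [h1, h2]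
    · exact ⟨r, hr⟩
    · refine ⟨r * y⁻¹, ?_⟩
      rw [mul_mul_mul_comm, ← hr]
      group
    · refine ⟨r * x⁻¹, ?_⟩
      rw [mul_mul_mul_comm, ← hr, mul_comm x y, mul_comm x⁻¹ y]
      group
    · refine ⟨r⁻¹, ?_⟩
      rw [← mul_inv, ← mul_inv, hr]
  obtain ⟨t, ht, ht', -⟩ := hF.has_tor _ h2
  refine ⟨t, ht, fun u c => ?_⟩
  rw [ht']
  congr 1
  have h4 : tco (dpar a x * dpar b y) c = tco (dpar a x) c * tco (dpar b y) c := by
    rcases c with _ | ⟨i, d⟩
    · simp [tco]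
    · cases d <;> simp [tco, mul_comm]
  rw [h4, tco_dpar, tco_dpar, if_neg ha, if_neg hb]
  have e1 : ng a ≠ b := Ne.symm hab'
  have e2 : a ≠ ng b := fun h => hab' (by rw [h, ng_ng])
  have e3 : ng a ≠ ng b := fun h => hab (ng_inj h).symm
  by_cases c1 : c = a
  · subst c1
    simp [Ne.symm hab, e2]
  · by_cases c2 : c = ng a
    · subst c2
      simp [c1, e1, e3]
    · simp [c1, c2]

end Pool.Agent.H33.TO
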