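import Pool.Agent.H33.TO.EnumAll
import Pool.Agent.H33.TO.PairLem
import Pool.Agent.H33.TO.LemR

/-!
# JOB TO-23: planes in the trivial part, first half

`Tr F a`: the index `a` is in no root of `F` (`¬ SS F a d` for all `d`).
(1) `no_rg`: there is no full root group `RG F (s, v)` with `s` singular, `bl s v = 0`, `s, v`
independent and both supported on indices in `Tr F`.
Proof.  Let `β a b = s_a v_b - s_b v_a`.  If `β a b ≠ 0`, `b ≠ a, ng a`, then `s_a ≠ 0` or
`v_a ≠ 0`, so `Tr F a`, but `lemR` gives `SS F a b`, contradiction.  So `β a b = 0` unless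
`b = ng a`.  As `s, v` are independent some `β a b ≠ 0` (otherwise `s_a v = v_a s` for all `a`),
so `b = ng a`, `a ≠ none`.  Then `s_a v - v_a s = β (ev (ng a))` and
`s_{-a} v - v_{-a} s = -β (ev a)` with `β = β a (ng a) ≠ 0`.  `s` is orthogonal to `s` and `v`,
so to `ev (ng a)` and `ev a`: `s_a = 0`, `s_{-a} = 0` (`bl_ev'`), so `β = 0`, contradiction.
(2) Position.  Let `τ` have square product, `t ∈ F` the torus element.  With
`p_i = w_i w_{-i}`, `p'_i = w'_i w'_{-i}`, `A_i = w_{-i} w'_i`, `B_i = w_i w'_{-i}`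
(`i` stands for `some (i, true)`, `-i` for `some (i, false)`):
`bl w w = w_0² + 2 ∑ p_i = 0`, so `bl w (t w) = w_0² + ∑ p_i (τ_i + τ_i⁻¹) = ∑ p_i nu(τ_i)`;
`bl w w' = w_0 w'_0 + ∑ (A_i + B_i) = 1`, so
`bl w (t w') = w_0 w'_0 + ∑ (B_i τ_i⁻¹ + A_i τ_i) = 1 + ∑ (A_i (τ_i - 1) + B_i (τ_i⁻¹ - 1))`, and
`bl w' (t w) = 1 + ∑ (A_i (τ_i⁻¹ - 1) + B_i (τ_i - 1))`, `bl w' (t w') = ∑ p'_i nu(τ_i)`.
(Sum over `Ix l = Option (Fin l × Bool)`: `Fintype.sum_option`, `Fintype.sum_prod_type`.)
(3) All these positions are in `Alw q`: otherwise `pair_lemma` for `(w, w')`, `(t w, t w')`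
gives `s, v` in the span of `w, w', t w, t w'`, supported on `Tr F`, contradicting (1).
(4) `enum_all` with `A_i B_i = p_i p'_i`.
-/

namespace Pool.Agent.H33.TO

variable {l : ℕ} {K : Type*} [Field K] {F : Subgroup ((Ix l → K) ≃ₗ[K] (Ix l → K))}

/-- the index `a` is in no root of `F` -/
def Tr (F : Subgroup ((Ix l → K) ≃ₗ[K] (Ix l → K))) (a : Ix l) : Prop := ∀ d, ¬ SS F a d

theorem no_rg {q : ℕ} (hq : QK q K) (hF : Ctx l K F) {s v : Ix l → K}
    (hs : bl l K s s = 0) (hv : bl l K s v = 0) (hi : Ind2 K s v) (hR : RG F (bl l K) s v)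
    (h1 : ∀ a, s a ≠ 0 → Tr F a) (h2 : ∀ a, v a ≠ 0 → Tr F a) : False := by
  have h3 : ∀ a b : Ix l, b ≠ a → b ≠ ng a → s a * v b - s b * v a = 0 := by
    intro a b hb hb'
    by_contra hβ
    have h4 := lemR hq hF hs hv hR hb hb' hβ
    by_cases hsa : s a = 0
    · by_cases hva : v a = 0
      · apply hβ
        rw [hsa, hva]
        ring
      · exact h2 a hva b h4
    · exact h1 a hsa b h4
  -- the key computation
  have h5 : ∀ a : Ix l, (s a * v (ng a) - s (ng a) * v a) * s a = 0 := by
    intro a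
    have e1 : s a • v - v a • s = (s a * v (ng a) - s (ng a) * v a) • (ev (ng a) : Ix l → K) := by
      funext b
      simp only [Pi.sub_apply, Pi.smul_apply, smul_eq_mul]
      by_cases hb : b = ng a
      · subst hb
        rw [ev_same]
        ring
      · rw [ev_ne hb, mul_zero]
        by_cases hb' : b = a
        · subst hb'
          ring
        · have := h3 a b hb' hb
          linear_combination this
    have e2 := congrArg (bl l K s) e1
    rw [map_sub, map_smul, map_smul, map_smul, hs, hv, bl_ev', ng_ng, smul_zero, smul_zero, sub_zero,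
      smul_eq_mul] at e2
    exact e2.symm
  have h6 : ∀ a : Ix l, s a * v (ng a) - s (ng a) * v a = 0 := by
    intro a
    by_contra hβ
    have e1 : s a = 0 := (mul_eq_zero.1 (h5 a)).resolve_left hβ
    have e2 : s (ng a) = 0 := by
      refine (mul_eq_zero.1 (h5 (ng a))).resolve_left fun h => hβ ?_
      rw [ng_ng] at h
      linear_combination -h
    apply hβ
    rw [e1, e2]
    ring
  have h7 : ∀ a b : Ix l, s a * v b - s b * v a = 0 := by
    intro a b
    by_cases hb : b = a
    · subst hb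
      ring
    · by_cases hb' : b = ng a
      · subst hb'
        exact h6 a
      · exact h3 a b hb hb'
  have h8 : s = 0 := by
    funext a
    have e1 : (v a) • s + (-s a) • v = 0 := by
      funext b
      simp only [Pi.add_apply, Pi.smul_apply, smul_eq_mul, Pi.zero_apply]
      linear_combination -(h7 a b)
    have := (hi _ _ e1).2
    rw [Pi.zero_apply]
    exact neg_eq_zero.1 this
  have h9 := (hi 1 0 (by rw [h8]; simp)).1
  exact one_ne_zero h9

theorem triv1_sum (u v : Ix l → K) (τ : Fin l → Kˣ) :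
    bl l K u (fun a => tco τ a * v a) = u none * v none + ∑ i : Fin l,
      (u (some (i, true)) * v (some (i, false)) * (τ i : K)⁻¹ + u (some (i, false)) * v (some (i, true)) * (τ i : K)) := by
  rw [bl_apply, Fintype.sum_option, Fintype.sum_prod_type]
  congr 1
  · simp [tco, ng]
  · refine Finset.sum_congr rfl fun i _ => ?_
    rw [Fintype.sum_bool]
    simp only [tco, ng, Bool.not_true, Bool.not_false, Units.val_inv_eq_inv_val]
    ring

theorem triv1_sum1 (u v : Ix l → K) :
    bl l K u v = u none * v none + ∑ i : Fin l,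
      (u (some (i, true)) * v (some (i, false)) + u (some (i, false)) * v (some (i, true))) := by
  rw [bl_apply, Fintype.sum_option, Fintype.sum_prod_type]
  congr 1
  refine Finset.sum_congr rfl fun i _ => ?_
  rw [Fintype.sum_bool]
  simp only [ng, Bool.not_true, Bool.not_false]

theorem triv1_supp {w w' z z' : Ix l → K} (h1 : ∀ a, w a ≠ 0 → Tr F a) (h2 : ∀ a, w' a ≠ 0 → Tr F a)
    (h3 : ∀ a, z a ≠ 0 → Tr F a) (h4 : ∀ a, z' a ≠ 0 → Tr F a) (c1 c2 c3 c4 : K) (a : Ix l)
    (h : (c1 • w + c2 • w' + c3 • z + c4 • z') a ≠ 0) : Tr F a := by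
  by_contra hT
  have e1 : w a = 0 := by by_contra h5; exact hT (h1 a h5)
  have e2 : w' a = 0 := by by_contra h5; exact hT (h2 a h5)
  have e3 : z a = 0 := by by_contra h5; exact hT (h3 a h5)
  have e4 : z' a = 0 := by by_contra h5; exact hT (h4 a h5)
  apply h
  simp only [Pi.add_apply, Pi.smul_apply, smul_eq_mul, e1, e2, e3, e4]
  ring

theorem triv_enum {q : ℕ} (hq : QK q K) (hl : 3 ≤ l) (hF : Ctx l K F) {w w' : Ix l → K}
    (h : HP (bl l K) w w') (hP : PL F (bl l K) w w') (h1 : ∀ a, w a ≠ 0 → Tr F a)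
    (h2 : ∀ a, w' a ≠ 0 → Tr F a) :
    (∀ i : Fin l, Loc (w (some (i, false)) * w' (some (i, true)))
      (w (some (i, true)) * w' (some (i, false)))) ∧
    (∀ i j : Fin l, i ≠ j → (w (some (i, false)) * w' (some (i, true)) = 0 ∧
      w (some (i, true)) * w' (some (i, false)) = 0) ∨
      (w (some (j, false)) * w' (some (j, true)) = 0 ∧
      w (some (j, true)) * w' (some (j, false)) = 0)) ∧
    ((∀ i : Fin l, w (some (i, true)) * w (some (i, false)) = 0) ∨
      ∀ i : Fin l, w' (some (i, true)) * w' (some (i, false)) = 0) := by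
  refine enum_all hq hl (fun i => w (some (i, true)) * w (some (i, false)))
    (fun i => w' (some (i, true)) * w' (some (i, false)))
    (fun i => w (some (i, false)) * w' (some (i, true)))
    (fun i => w (some (i, true)) * w' (some (i, false))) (fun i => by ring) ?_
  intro τ hτ
  obtain ⟨t, ht, ht', -⟩ := hF.has_tor τ hτ
  have hiso := hF.iso t ht
  have et : ∀ u, t u = fun a => tco τ a * u a := fun u => funext fun a => ht' u a
  have hz : HP (bl l K) (t w) (t w') := ⟨by rw [hiso]; exact h.1, by rw [hiso]; exact h.2.1, by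
    rw [hiso]; exact h.2.2⟩
  have hPz : PL F (bl l K) (t w) (t w') := hP.conj ht hiso
  have g1 : bl l K w (t w) = ∑ i : Fin l, w (some (i, true)) * w (some (i, false)) * nu (τ i : K) := by
    have e1 := h.1
    rw [triv1_sum1] at e1
    rw [et, triv1_sum, ← sub_zero (w none * w none + _), ← e1, add_sub_add_left_eq_sub, ← Finset.sum_sub_distrib]
    refine Finset.sum_congr rfl fun i _ => ?_
    rw [nu]
    ring
  have g4 : bl l K w' (t w') = ∑ i : Fin l, w' (some (i, true)) * w' (some (i, false)) * nu (τ i : K) := by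
    have e1 := h.2.1
    rw [triv1_sum1] at e1
    rw [et, triv1_sum, ← sub_zero (w' none * w' none + _), ← e1, add_sub_add_left_eq_sub, ← Finset.sum_sub_distrib]
    refine Finset.sum_congr rfl fun i _ => ?_
    rw [nu]
    ring
  have e2 := h.2.2
  rw [triv1_sum1] at e2
  have g2 : bl l K w (t w') = 1 + ∑ i : Fin l, (w (some (i, false)) * w' (some (i, true)) * ((τ i : K) - 1) +
      w (some (i, true)) * w' (some (i, false)) * ((τ i : K)⁻¹ - 1)) := by
    refine Eq.trans ?_ (congrArg (fun x => x + ∑ i : Fin l, (w (some (i, false)) * w' (some (i, true)) * ((τ i : K) - 1) +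
      w (some (i, true)) * w' (some (i, false)) * ((τ i : K)⁻¹ - 1))) e2)
    rw [et, triv1_sum, add_assoc, ← Finset.sum_add_distrib]
    congr 1
    refine Finset.sum_congr rfl fun i _ => ?_
    ring
  have g3 : bl l K w' (t w) = 1 + ∑ i : Fin l, (w (some (i, false)) * w' (some (i, true)) * ((τ i : K)⁻¹ - 1) +
      w (some (i, true)) * w' (some (i, false)) * ((τ i : K) - 1)) := by
    refine Eq.trans ?_ (congrArg (fun x => x + ∑ i : Fin l, (w (some (i, false)) * w' (some (i, true)) * ((τ i : K)⁻¹ - 1) +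
      w (some (i, true)) * w' (some (i, false)) * ((τ i : K) - 1))) e2)
    rw [et, triv1_sum, add_assoc, ← Finset.sum_add_distrib, mul_comm (w' none)]
    congr 1
    refine Finset.sum_congr rfl fun i _ => ?_
    ring
  rw [← g1, ← g2, ← g3, ← g4]
  by_contra hn
  obtain ⟨x, y, s, v, hs, hv, k1, k2, k3, k4⟩ := pair_lemma hq bl_symm h hz hP hPz hn
  have h3 : ∀ a, (t w) a ≠ 0 → Tr F a := fun a ha => h1 a fun h0 => ha (by rw [ht', h0, mul_zero])
  have h4 : ∀ a, (t w') a ≠ 0 → Tr F a := fun a ha => h2 a fun h0 => ha (by rw [ht', h0, mul_zero])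
  refine no_rg hq hF k1 k2 k3 k4 ?_ ?_
  · intro a ha
    rw [hs] at ha
    exact triv1_supp h1 h2 h3 h4 _ _ _ _ a ha
  · intro a ha
    rw [hv] at ha
    exact triv1_supp h1 h2 h3 h4 _ _ _ _ a ha

end Pool.Agent.H33.TO
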